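import Pool.Agent.V8H32.NV.Grp
import Pool.Agent.V8H32.Cos.Box
import Pool.Agent.R311.RES.C3

/-! Counting reduced fractions in a subgroup: products of fractions. -/

set_option autoImplicit false

namespace Pool.Agent.V8H32.NV
open Finset Pool.Agent.R311.RES
open Pool.Agent.V8H32.Cos (cls un_mul' un_one' red_iff cls_prod card_col card_FMA Rough rough_len)
open scoped Classical

variable {q : ℕ} [Fact q.Prime]

lemma cop_eq {a b s t : ℕ} (ha : 0 < a) (hab : a.Coprime b) (hs : 0 < s)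
    (hst : s.Coprime t) (h : a * t = b * s) : (a, b) = (s, t) := by
  have d1 : a ∣ s := by
    apply hab.dvd_of_dvd_mul_left
    rw [← h]; exact dvd_mul_right _ _
  have d2 : s ∣ a := by
    apply hst.dvd_of_dvd_mul_right
    rw [h]; exact dvd_mul_left _ _
  have e1 : a = s := Nat.dvd_antisymm d1 d2
  subst e1
  have e2 : t = b := by
    apply Nat.eq_of_mul_eq_mul_left ha
    rw [h]; ring
  rw [e2]

/-- reduced fractions in a class and in a box -/
noncomputable def EK (q : ℕ) [Fact q.Prime] (k : (ZMod q)ˣ) (A B : ℕ) : Finset (ℕ × ℕ) :=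
  (Icc 1 A ×ˢ Icc 1 B).filter (fun w => Nat.Coprime w.1 w.2 ∧ w.1.Coprime q ∧ w.2.Coprime q ∧
    cls q w.1 w.2 = k)

lemma mem_EK {k : (ZMod q)ˣ} {A B : ℕ} {w : ℕ × ℕ} : w ∈ EK q k A B ↔
    (1 ≤ w.1 ∧ w.1 ≤ A) ∧ (1 ≤ w.2 ∧ w.2 ≤ B) ∧ Nat.Coprime w.1 w.2 ∧ w.1.Coprime q ∧
      w.2.Coprime q ∧ cls q w.1 w.2 = k := by
  unfold EK
  rw [mem_filter, mem_product, mem_Icc, mem_Icc]
  tauto

lemma cls_val {a b : ℕ} (ha : a.Coprime q) (hb : b.Coprime q) {k : (ZMod q)ˣ} (h : cls q a b = k) :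
    (a : ZMod q) = (k : ZMod q) * (b : ZMod q) := by
  unfold cls at h
  rw [mul_inv_eq_iff_eq_mul] at h
  rw [← un_val ha, ← un_val hb, h, Units.val_mul]

theorem cnt_box (k : (ZMod q)ˣ) (A B : ℕ) : (EK q k A B).card * q ≤ q + 4 * A * B := by
  rcases (EK q k A B).eq_empty_or_nonempty with he | ⟨w0, hw0⟩
  · rw [he]; simp
  · obtain ⟨⟨a1, a2⟩, ⟨a3, a4⟩, a5, a6, a7, a8⟩ := mem_EK.1 hw0
    have h1 := card_main (k : ZMod q) B 0 A w0.1 w0.2 a1 a3 a2 a4 a5 (cls_val a6 a7 a8)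
    have h2 : (EK q k A B).erase w0 ⊆
        (ZZ q (k : ZMod q) 0 A B).filter (fun z => ¬ z.1 * w0.2 = z.2 * w0.1) := by
      intro w hw
      rw [mem_erase] at hw
      obtain ⟨⟨b1, b2⟩, ⟨b3, b4⟩, b5, b6, b7, b8⟩ := mem_EK.1 hw.2
      rw [mem_filter, mem_ZZ]
      refine ⟨⟨⟨⟨b1, b2⟩, b3, b4⟩, cls_val b6 b7 b8, ?_⟩, ?_⟩
      · rw [b5.gcd_eq_one, Nat.div_one]; exact b1
      · intro h
        exact hw.1 (cop_eq b1 b5 a1 a5 h)
    have h3 := card_le_card h2
    rw [card_erase_of_mem hw0] at h3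
    have h4 : (EK q k A B).card ≤ 1 +
        ((ZZ q (k : ZMod q) 0 A B).filter (fun z => ¬ z.1 * w0.2 = z.2 * w0.1)).card := by omega
    calc (EK q k A B).card * q ≤ (1 +
        ((ZZ q (k : ZMod q) 0 A B).filter (fun z => ¬ z.1 * w0.2 = z.2 * w0.1)).card) * q :=
          Nat.mul_le_mul_right q h4
      _ = q + ((ZZ q (k : ZMod q) 0 A B).filter (fun z => ¬ z.1 * w0.2 = z.2 * w0.1)).card * q := by ring
      _ ≤ _ := Nat.add_le_add_left h1 q

/-- families of products -/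
noncomputable def FP (Ψ : Finset (ℕ × ℕ)) (j U V : ℕ) : Finset (Fin j → ℕ × ℕ) :=
  (Fintype.piFinset (fun _ : Fin j => Ψ)).filter (fun f => ∏ i, (f i).1 = U ∧ ∏ i, (f i).2 = V)

lemma FP_mono {Ψ Ψ' : Finset (ℕ × ℕ)} (h : Ψ ⊆ Ψ') (j U V : ℕ) : (FP Ψ j U V).card ≤ (FP Ψ' j U V).card := by
  apply card_le_card
  intro f hf
  unfold FP at hf ⊢
  rw [mem_filter, Fintype.mem_piFinset] at hf ⊢
  exact ⟨fun i => h (hf.1 i), hf.2⟩

theorem cnt_prod (K : Subgroup (ZMod q)ˣ) (Ψ : Finset (ℕ × ℕ)) (A B j Mb : ℕ) (T : Finset ℕ)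
    (hΨ : ∀ z ∈ Ψ, (0 < z.1 ∧ z.1 ≤ A) ∧ (0 < z.2 ∧ z.2 ≤ B) ∧ z.1.Coprime q ∧ z.2.Coprime q ∧
      cls q z.1 z.2 ∈ K ∧ z.1.primeFactors ⊆ T ∧ Disjoint z.2.primeFactors T)
    (hM : ∀ U V : ℕ, 0 < U → U ≤ A ^ j → 0 < V → V ≤ B ^ j → (FP Ψ j U V).card ≤ Mb) :
    Ψ.card ^ j * q ≤ Mb * (Fintype.card K * (q + 4 * (A * B) ^ j)) := by
  set G : Finset (ℕ × ℕ) := (univ.filter (fun k : (ZMod q)ˣ => k ∈ K)).biUnion
    (fun k => EK q k (A ^ j) (B ^ j)) with hG
  have hmap : ∀ f ∈ Fintype.piFinset (fun _ : Fin j => Ψ), (∏ i, (f i).1, ∏ i, (f i).2) ∈ G := by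
    intro f hf
    rw [Fintype.mem_piFinset] at hf
    rw [hG, mem_biUnion]
    refine ⟨cls q (∏ i, (f i).1) (∏ i, (f i).2), ?_, ?_⟩
    · rw [mem_filter]
      refine ⟨mem_univ _, ?_⟩
      rw [← cls_prod _ _ (fun i => (hΨ _ (hf i)).2.2.1) (fun i => (hΨ _ (hf i)).2.2.2.1)]
      exact Subgroup.prod_mem K fun i _ => (hΨ _ (hf i)).2.2.2.2.1
    · rw [mem_EK]
      refine ⟨⟨?_, ?_⟩, ⟨?_, ?_⟩, ?_, ?_, ?_, rfl⟩ <;> dsimp only
      · exact Finset.prod_pos fun i _ => (hΨ _ (hf i)).1.1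
      · calc ∏ i, (f i).1 ≤ ∏ _i : Fin j, A := Finset.prod_le_prod' fun i _ => (hΨ _ (hf i)).1.2
          _ = A ^ j := by simp
      · exact Finset.prod_pos fun i _ => (hΨ _ (hf i)).2.1.1
      · calc ∏ i, (f i).2 ≤ ∏ _i : Fin j, B := Finset.prod_le_prod' fun i _ => (hΨ _ (hf i)).2.1.2
          _ = B ^ j := by simp
      · apply Nat.Coprime.prod_left
        intro i _
        apply Nat.Coprime.prod_right
        intro i' _
        rw [← Nat.disjoint_primeFactors (hΨ _ (hf i)).1.1.ne' (hΨ _ (hf i')).2.1.1.ne']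
        exact ((hΨ _ (hf i')).2.2.2.2.2.2.mono_right (hΨ _ (hf i)).2.2.2.2.2.1).symm
      · exact Nat.Coprime.prod_left fun i _ => (hΨ _ (hf i)).2.2.1
      · exact Nat.Coprime.prod_left fun i _ => (hΨ _ (hf i)).2.2.2.1
  have h1 : (Fintype.piFinset (fun _ : Fin j => Ψ)).card ≤ Mb * G.card := by
    apply Finset.card_le_mul_card_image_of_maps_to hmap
    intro w hw
    rw [hG, mem_biUnion] at hw
    obtain ⟨k, _, hw⟩ := hw
    obtain ⟨⟨b1, b2⟩, ⟨b3, b4⟩, _⟩ := mem_EK.1 hw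
    refine le_trans (card_le_card ?_) (hM w.1 w.2 b1 b2 b3 b4)
    intro f hf
    rw [mem_filter] at hf
    unfold FP
    rw [mem_filter]
    refine ⟨hf.1, ?_⟩
    rw [← hf.2]
    exact ⟨rfl, rfl⟩
  rw [Fintype.card_piFinset_const] at h1
  have h2 : G.card * q ≤ Fintype.card K * (q + 4 * (A * B) ^ j) := by
    have h3 : G.card ≤ ∑ k ∈ univ.filter (fun k : (ZMod q)ˣ => k ∈ K), (EK q k (A ^ j) (B ^ j)).card :=
      card_biUnion_le
    calc G.card * q ≤ (∑ k ∈ univ.filter (fun k : (ZMod q)ˣ => k ∈ K),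
          (EK q k (A ^ j) (B ^ j)).card) * q := Nat.mul_le_mul_right q h3
      _ = ∑ k ∈ univ.filter (fun k : (ZMod q)ˣ => k ∈ K), (EK q k (A ^ j) (B ^ j)).card * q := by
          rw [Finset.sum_mul]
      _ ≤ ∑ k ∈ univ.filter (fun k : (ZMod q)ˣ => k ∈ K), (q + 4 * (A * B) ^ j) := by
          apply Finset.sum_le_sum
          intro k _
          refine (cnt_box k (A ^ j) (B ^ j)).trans (le_of_eq ?_)
          rw [mul_pow]; ring
      _ = _ := by
          rw [Finset.sum_const, smul_eq_mul, Fintype.card_subtype]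
  calc Ψ.card ^ j * q ≤ Mb * G.card * q := Nat.mul_le_mul_right q h1
    _ = Mb * (G.card * q) := by ring
    _ ≤ _ := Nat.mul_le_mul_left _ h2

omit [Fact q.Prime] in
lemma color_pick (Ψ : Finset (ℕ × ℕ)) (E : ℝ)
    (hE : ∀ z ∈ Ψ, (2 : ℝ) ^ (z.1.primeFactors.card + z.2.primeFactors.card) ≤ E)
    (hcop : ∀ z ∈ Ψ, Nat.Coprime z.1 z.2) :
    ∃ T : Finset ℕ, (Ψ.card : ℝ) ≤ E * ((Ψ.filter (fun z => z.1.primeFactors ⊆ T ∧
      Disjoint z.2.primeFactors T)).card : ℝ) := by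
  set V : Finset ℕ := Ψ.biUnion (fun z => z.1.primeFactors ∪ z.2.primeFactors) with hV
  have h1 : ∑ T ∈ V.powerset, ((Ψ.filter (fun z => z.1.primeFactors ⊆ T ∧
      Disjoint z.2.primeFactors T)).card : ℝ) * E ≥ ∑ T ∈ V.powerset, (Ψ.card : ℝ) := by
    have e1 : ∀ T ∈ V.powerset, ((Ψ.filter (fun z => z.1.primeFactors ⊆ T ∧
      Disjoint z.2.primeFactors T)).card : ℝ) * E = ∑ z ∈ Ψ, if z.1.primeFactors ⊆ T ∧
      Disjoint z.2.primeFactors T then E else 0 := by
      intro T _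
      rw [← Finset.sum_filter, Finset.sum_const, nsmul_eq_mul]
    rw [Finset.sum_congr rfl e1, Finset.sum_comm, Finset.sum_const, nsmul_eq_mul, mul_comm]
    change (Ψ.card : ℝ) * (V.powerset.card : ℝ) ≤ _
    rw [← nsmul_eq_mul]
    apply Finset.card_nsmul_le_sum
    intro z hz
    rw [← Finset.sum_filter, Finset.sum_const, nsmul_eq_mul, card_powerset]
    push_cast
    have e2 := card_col V z.1.primeFactors z.2.primeFactors
      (subset_union_left.trans (Finset.subset_biUnion_of_mem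
        (fun z : ℕ × ℕ => z.1.primeFactors ∪ z.2.primeFactors) hz))
      (subset_union_right.trans (Finset.subset_biUnion_of_mem
        (fun z : ℕ × ℕ => z.1.primeFactors ∪ z.2.primeFactors) hz))
      (hcop z hz).disjoint_primeFactors
    rw [← e2]
    exact mul_le_mul_of_nonneg_left (hE z hz) (Nat.cast_nonneg _)
  obtain ⟨T, _, hT⟩ := Finset.exists_le_of_sum_le (⟨∅, by simp⟩ : V.powerset.Nonempty) h1
  exact ⟨T, by rw [mul_comm]; exact hT⟩

theorem cnt_all (K : Subgroup (ZMod q)ˣ) (Ψ : Finset (ℕ × ℕ)) (A B j Mb : ℕ) (E : ℝ)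
    (hE : ∀ z ∈ Ψ, (2 : ℝ) ^ (z.1.primeFactors.card + z.2.primeFactors.card) ≤ E)
    (hE0 : 0 ≤ E)
    (hΨ : ∀ z ∈ Ψ, (0 < z.1 ∧ z.1 ≤ A) ∧ (0 < z.2 ∧ z.2 ≤ B) ∧ z.1.Coprime q ∧ z.2.Coprime q ∧
      cls q z.1 z.2 ∈ K ∧ Nat.Coprime z.1 z.2)
    (hM : ∀ U V : ℕ, 0 < U → U ≤ A ^ j → 0 < V → V ≤ B ^ j → (FP Ψ j U V).card ≤ Mb) :
    (Ψ.card : ℝ) ^ j * q ≤ E ^ j * (Mb * ((Fintype.card K : ℝ) * (q + 4 * ((A : ℝ) * B) ^ j))) := by
  obtain ⟨T, hT⟩ := color_pick Ψ E hE (fun z hz => (hΨ z hz).2.2.2.2.2)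
  set ΨT := Ψ.filter (fun z => z.1.primeFactors ⊆ T ∧ Disjoint z.2.primeFactors T) with hΨT
  have h1 := cnt_prod K ΨT A B j Mb T (by
    intro z hz
    rw [hΨT, mem_filter] at hz
    obtain ⟨a1, a2, a3, a4, a5, a6⟩ := hΨ z hz.1
    exact ⟨a1, a2, a3, a4, a5, hz.2.1, hz.2.2⟩) (by
    intro U V hU hU' hV hV'
    exact (FP_mono (filter_subset _ _) j U V).trans (hM U V hU hU' hV hV'))
  have h2 : (ΨT.card : ℝ) ^ j * q ≤ Mb * ((Fintype.card K : ℝ) * (q + 4 * ((A : ℝ) * B) ^ j)) := by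
    exact_mod_cast h1
  calc (Ψ.card : ℝ) ^ j * q ≤ (E * (ΨT.card : ℝ)) ^ j * q :=
        mul_le_mul_of_nonneg_right (pow_le_pow_left₀ (Nat.cast_nonneg _) hT j) (Nat.cast_nonneg _)
    _ = E ^ j * ((ΨT.card : ℝ) ^ j * q) := by rw [mul_pow]; ring
    _ ≤ _ := mul_le_mul_of_nonneg_left h2 (pow_nonneg hE0 j)

/-! ### multiplicities -/

omit [Fact q.Prime] in
lemma mult_div (Ψ : Finset (ℕ × ℕ)) (j : ℕ) {U V : ℕ} (hU : 0 < U) (hV : 0 < V) :
    (FP Ψ j U V).card ≤ (U.divisors.card * V.divisors.card) ^ j := by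
  have h1 : (FP Ψ j U V).card ≤
      (Fintype.piFinset (fun _ : Fin j => U.divisors ×ˢ V.divisors)).card := by
    apply card_le_card
    intro f hf
    unfold FP at hf
    rw [mem_filter] at hf
    rw [Fintype.mem_piFinset]
    intro i
    rw [mem_product, Nat.mem_divisors, Nat.mem_divisors]
    refine ⟨⟨?_, hU.ne'⟩, ?_, hV.ne'⟩
    · rw [← hf.2.1]; exact Finset.dvd_prod_of_mem (fun i => (f i).1) (mem_univ i)
    · rw [← hf.2.2]; exact Finset.dvd_prod_of_mem (fun i => (f i).2) (mem_univ i)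
  rwa [Fintype.card_piFinset_const, card_product] at h1

/-- smooth part -/
def sp (W n : ℕ) : ℕ := ((Nat.primeFactorsList n).filter (fun p => p ≤ W)).prod
/-- rough part -/
def rp (W n : ℕ) : ℕ := ((Nat.primeFactorsList n).filter (fun p => ¬ p ≤ W)).prod

omit [Fact q.Prime] in
lemma list_filter_prod (l : List ℕ) (p : ℕ → Prop) [DecidablePred p] :
    (l.filter (fun x => p x)).prod * (l.filter (fun x => ¬ p x)).prod = l.prod := by
  induction l with
  | nil => simp
  | cons a l ih =>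
    by_cases h : p a
    · simp only [List.filter_cons, h, decide_true, not_true_eq_false, decide_false, if_true,
        List.prod_cons, Bool.false_eq_true, if_false]
      rw [mul_assoc, ih]
    · simp only [List.filter_cons, h, decide_true, not_false_eq_true, decide_false, if_true,
        List.prod_cons, Bool.false_eq_true, if_false]
      rw [← ih]; ring

omit [Fact q.Prime] in
lemma sp_mul_rp {W n : ℕ} (hn : n ≠ 0) : sp W n * rp W n = n := by
  unfold sp rp
  rw [list_filter_prod, Nat.prod_primeFactorsList hn]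

omit [Fact q.Prime] in
lemma sp_mul {W a b : ℕ} (ha : a ≠ 0) (hb : b ≠ 0) : sp W (a * b) = sp W a * sp W b := by
  unfold sp
  rw [((Nat.perm_primeFactorsList_mul ha hb).filter _).prod_eq, List.filter_append, List.prod_append]

omit [Fact q.Prime] in
lemma rp_mul {W a b : ℕ} (ha : a ≠ 0) (hb : b ≠ 0) : rp W (a * b) = rp W a * rp W b := by
  unfold rp
  rw [((Nat.perm_primeFactorsList_mul ha hb).filter _).prod_eq, List.filter_append, List.prod_append]

omit [Fact q.Prime] in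
lemma rp_prod {W : ℕ} {ι : Type*} (s : Finset ι) (f : ι → ℕ) (hf : ∀ i ∈ s, f i ≠ 0) :
    rp W (∏ i ∈ s, f i) = ∏ i ∈ s, rp W (f i) := by
  induction s using Finset.induction_on with
  | empty => simp [rp]
  | insert a s ha ih =>
    rw [Finset.prod_insert ha, Finset.prod_insert ha, rp_mul (hf a (mem_insert_self a s))
      (Finset.prod_ne_zero_iff.2 (fun i hi => hf i (mem_insert_of_mem hi))),
      ih (fun i hi => hf i (mem_insert_of_mem hi))]

omit [Fact q.Prime] in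
lemma rp_rough (W n : ℕ) : Rough W (rp W n) := by
  intro p hp hd
  unfold rp at hd
  rw [Prime.dvd_prod_iff hp.prime] at hd
  obtain ⟨x, hx, hpx⟩ := hd
  rw [List.mem_filter] at hx
  have h1 := Nat.prime_of_mem_primeFactorsList hx.1
  have h2 := (Nat.prime_dvd_prime_iff_eq hp h1).1 hpx
  subst h2
  have := hx.2
  simp only [not_le, decide_eq_true_eq] at this
  exact this

omit [Fact q.Prime] in
lemma rp_pos {W n : ℕ} : 0 < rp W n := by
  unfold rp
  apply List.prod_pos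
  intro x hx
  exact (Nat.prime_of_mem_primeFactorsList (List.mem_filter.1 hx).1).pos

omit [Fact q.Prime] in
lemma rp_le {W n : ℕ} (hn : n ≠ 0) : rp W n ≤ n := by
  apply Nat.le_of_dvd (Nat.pos_of_ne_zero hn)
  exact ⟨sp W n, by rw [mul_comm]; exact (sp_mul_rp hn).symm⟩

omit [Fact q.Prime] in
lemma rp_len {W n : ℕ} (hn : n ≠ 0) : W ^ (Nat.primeFactorsList (rp W n)).length ≤ n :=
  (rough_len rp_pos.ne' (rp_rough W n)).trans (rp_le hn)

omit [Fact q.Prime] in
lemma sp_dvd {W n : ℕ} (hn : n ≠ 0) : sp W n ∣ n := ⟨rp W n, (sp_mul_rp hn).symm⟩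

omit [Fact q.Prime] in
lemma sp_pos {W n : ℕ} : 0 < sp W n := by
  unfold sp
  apply List.prod_pos
  intro x hx
  exact (Nat.prime_of_mem_primeFactorsList (List.mem_filter.1 hx).1).pos

omit [Fact q.Prime] in
lemma sp_primes {W n : ℕ} (hn : n ≠ 0) : (sp W n).primeFactors ⊆ n.primeFactors.filter (fun p => p ≤ W) := by
  intro p hp
  have hpp := Nat.prime_of_mem_primeFactors hp
  have hd := Nat.dvd_of_mem_primeFactors hp
  rw [mem_filter]
  refine ⟨Nat.mem_primeFactors.2 ⟨hpp, hd.trans (sp_dvd hn), hn⟩, ?_⟩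
  unfold sp at hd
  rw [Prime.dvd_prod_iff hpp.prime] at hd
  obtain ⟨x, hx, hpx⟩ := hd
  rw [List.mem_filter] at hx
  have h1 := Nat.prime_of_mem_primeFactorsList hx.1
  have h2 := (Nat.prime_dvd_prime_iff_eq hpp h1).1 hpx
  subst h2
  have := hx.2
  simp only [decide_eq_true_eq] at this
  exact this

/-- prime power divisors -/
def PPD (n : ℕ) : Finset ℕ := n.divisors.filter (fun d => d.primeFactors.card ≤ 1)

omit [Fact q.Prime] in
lemma omega_le_log {n : ℕ} (hn : n ≠ 0) : n.primeFactors.card ≤ Nat.log 2 n := by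
  apply Nat.le_log_of_pow_le (by norm_num)
  calc 2 ^ n.primeFactors.card = ∏ _p ∈ n.primeFactors, 2 := by rw [Finset.prod_const]
    _ ≤ ∏ p ∈ n.primeFactors, p :=
        Finset.prod_le_prod' fun p hp => (Nat.prime_of_mem_primeFactors hp).two_le
    _ ≤ n := Nat.le_of_dvd (Nat.pos_of_ne_zero hn) (Nat.prod_primeFactors_dvd n)

omit [Fact q.Prime] in
lemma card_PPD {n : ℕ} (hn : n ≠ 0) : (PPD n).card ≤ (Nat.log 2 n + 1) ^ 2 := by
  have h1 : PPD n ⊆ ((insert 1 n.primeFactors) ×ˢ range (Nat.log 2 n + 1)).image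
      (fun x => x.1 ^ x.2) := by
    intro d hd
    unfold PPD at hd
    rw [mem_filter, Nat.mem_divisors] at hd
    have hd0 : d ≠ 0 := fun h => hn (by rw [h] at hd; exact Nat.eq_zero_of_zero_dvd hd.1.1)
    rw [mem_image]
    rcases Nat.eq_zero_or_pos d.primeFactors.card with h0 | h0
    · rw [card_eq_zero, Nat.primeFactors_eq_empty] at h0
      refine ⟨(1, 0), ?_, ?_⟩
      · rw [mem_product, mem_range]
        exact ⟨mem_insert_self _ _, Nat.succ_pos _⟩
      · simp only [pow_zero]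
        rcases h0 with h | h
        · exact absurd h hd0
        · exact h.symm
    · have h2 : d.primeFactors.card = 1 := le_antisymm hd.2 h0
      obtain ⟨p, hp⟩ := card_eq_one.1 h2
      have hpm : p ∈ d.primeFactors := by rw [hp]; exact mem_singleton_self p
      have hpp := Nat.prime_of_mem_primeFactors hpm
      refine ⟨(p, d.factorization p), ?_, ?_⟩
      · rw [mem_product, mem_range]
        constructor
        · apply mem_insert_of_mem
          exact Nat.mem_primeFactors.2 ⟨hpp, (Nat.dvd_of_mem_primeFactors hpm).trans hd.1.1, hn⟩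
        · apply Nat.lt_succ_of_le
          apply Nat.le_log_of_pow_le (by norm_num)
          calc 2 ^ d.factorization p ≤ p ^ d.factorization p :=
                Nat.pow_le_pow_left hpp.two_le _
            _ ≤ d := Nat.le_of_dvd (Nat.pos_of_ne_zero hd0) (Nat.ordProj_dvd d p)
            _ ≤ n := Nat.le_of_dvd (Nat.pos_of_ne_zero hn) hd.1.1
      · simp only
        have h3 := Nat.prod_factorization_pow_eq_self hd0
        rw [Finsupp.prod, Nat.support_factorization, hp, Finset.prod_singleton] at h3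
        exact h3
  calc (PPD n).card ≤ _ := card_le_card h1
    _ ≤ ((insert 1 n.primeFactors) ×ˢ range (Nat.log 2 n + 1)).card := card_image_le
    _ = (insert 1 n.primeFactors).card * (Nat.log 2 n + 1) := by rw [card_product, card_range]
    _ ≤ (Nat.log 2 n + 1) * (Nat.log 2 n + 1) := by
        apply Nat.mul_le_mul_right
        exact (card_insert_le _ _).trans (Nat.succ_le_succ (omega_le_log hn))
    _ = _ := by ring

omit [Fact q.Prime] in
theorem mult_low (Ψ : Finset (ℕ × ℕ)) (W j : ℕ) {U V : ℕ} (hU : 0 < U) (hV : 0 < V)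
    (hΨ : ∀ z ∈ Ψ, 0 < z.1 ∧ 0 < z.2 ∧ (sp W z.1).primeFactors.card ≤ 1 ∧
      (sp W z.2).primeFactors.card ≤ 1) :
    (FP Ψ j U V).card ≤ (j ^ ((Nat.primeFactorsList (rp W U)).length +
      (Nat.primeFactorsList (rp W V)).length)) *
      ((Nat.log 2 U + 1) ^ 2 * (Nat.log 2 V + 1) ^ 2) ^ j := by
  have h1 : (FP Ψ j U V).card ≤ ((Nat.finMulAntidiag j (rp W U) ×ˢ Nat.finMulAntidiag j (rp W V)) ×ˢ
      (Fintype.piFinset (fun _ : Fin j => PPD U ×ˢ PPD V))).card := by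
    apply Finset.card_le_card_of_injOn (fun f => (((fun i => rp W (f i).1), (fun i => rp W (f i).2)),
      fun i => (sp W (f i).1, sp W (f i).2)))
    · intro f hf
      unfold FP at hf
      rw [mem_coe, mem_filter, Fintype.mem_piFinset] at hf
      obtain ⟨h0, h1, h2⟩ := hf
      rw [mem_coe, mem_product, mem_product, Nat.mem_finMulAntidiag, Nat.mem_finMulAntidiag,
        Fintype.mem_piFinset]
      refine ⟨⟨⟨?_, rp_pos.ne'⟩, ?_, rp_pos.ne'⟩, ?_⟩
      · rw [← rp_prod _ _ (fun i _ => (hΨ _ (h0 i)).1.ne'), h1]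
      · rw [← rp_prod _ _ (fun i _ => (hΨ _ (h0 i)).2.1.ne'), h2]
      · intro i
        obtain ⟨a1, a2, a3, a4⟩ := hΨ _ (h0 i)
        unfold PPD
        rw [mem_product, mem_filter, mem_filter, Nat.mem_divisors, Nat.mem_divisors]
        refine ⟨⟨⟨?_, hU.ne'⟩, a3⟩, ⟨?_, hV.ne'⟩, a4⟩
        · refine (sp_dvd a1.ne').trans ?_
          rw [← h1]; exact Finset.dvd_prod_of_mem (fun i => (f i).1) (mem_univ i)
        · refine (sp_dvd a2.ne').trans ?_
          rw [← h2]; exact Finset.dvd_prod_of_mem (fun i => (f i).2) (mem_univ i)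
    · intro f hf f' hf' h
      unfold FP at hf hf'
      rw [mem_coe, mem_filter, Fintype.mem_piFinset] at hf hf'
      rw [Prod.mk.injEq, Prod.mk.injEq] at h
      obtain ⟨⟨g1, g2⟩, g3⟩ := h
      funext i
      have k1 := congrFun g1 i
      have k2 := congrFun g2 i
      have k3 := congrFun g3 i
      simp only [Prod.mk.injEq] at k1 k2 k3
      obtain ⟨a1, a2, _⟩ := hΨ _ (hf.1 i)
      obtain ⟨b1, b2, _⟩ := hΨ _ (hf'.1 i)
      apply Prod.ext
      · rw [← sp_mul_rp (W := W) a1.ne', ← sp_mul_rp (W := W) b1.ne', k1, k3.1]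
      · rw [← sp_mul_rp (W := W) a2.ne', ← sp_mul_rp (W := W) b2.ne', k2, k3.2]
  refine h1.trans ?_
  rw [card_product, card_product, Fintype.card_piFinset_const, card_product, pow_add]
  apply Nat.mul_le_mul
  · exact Nat.mul_le_mul (card_FMA j _ rp_pos.ne') (card_FMA j _ rp_pos.ne')
  · exact Nat.pow_le_pow_left (Nat.mul_le_mul (card_PPD hU.ne') (card_PPD hV.ne')) j

omit [Fact q.Prime] in
theorem mult_prime (Ψ : Finset (ℕ × ℕ)) (j U V : ℕ) (hΨ : ∀ z ∈ Ψ, z.1.Prime ∧ z.2 = 1) :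
    (FP Ψ j U V).card ≤ j ^ j := by
  rcases (FP Ψ j U V).eq_empty_or_nonempty with he | ⟨f0, hf0⟩
  · rw [he]; simp
  · unfold FP at hf0
    rw [mem_filter, Fintype.mem_piFinset] at hf0
    obtain ⟨a1, a2, a3⟩ := hf0
    have hU : U ≠ 0 := by
      rw [← a2]
      exact Finset.prod_ne_zero_iff.2 (fun i _ => (hΨ _ (a1 i)).1.ne_zero)
    have hlen : (Nat.primeFactorsList U).length = j := by
      rw [← a2]
      have h1 : ∀ s : Finset (Fin j), (Nat.primeFactorsList (∏ i ∈ s, (f0 i).1)).length = s.card := by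
        intro s
        induction s using Finset.induction_on with
        | empty => simp
        | insert a s ha ih =>
          have hne : ∏ i ∈ s, (f0 i).1 ≠ 0 :=
            Finset.prod_ne_zero_iff.2 (fun i _ => (hΨ _ (a1 i)).1.ne_zero)
          rw [Finset.prod_insert ha, (Nat.perm_primeFactorsList_mul (hΨ _ (a1 a)).1.ne_zero hne).length_eq,
            List.length_append, Nat.primeFactorsList_prime (hΨ _ (a1 a)).1, ih, card_insert_of_notMem ha,
            List.length_singleton, add_comm]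
      have := h1 univ
      simpa using this
    have h2 : (FP Ψ j U V).card ≤ (Nat.finMulAntidiag j U).card := by
      apply Finset.card_le_card_of_injOn (fun f i => (f i).1)
      · intro f hf
        unfold FP at hf
        rw [mem_coe, mem_filter] at hf
        rw [mem_coe, Nat.mem_finMulAntidiag]
        exact ⟨hf.2.1, hU⟩
      · intro f hf f' hf' h
        unfold FP at hf hf'
        rw [mem_coe, mem_filter, Fintype.mem_piFinset] at hf hf'
        funext i
        apply Prod.ext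
        · exact congrFun h i
        · rw [(hΨ _ (hf.1 i)).2, (hΨ _ (hf'.1 i)).2]
    exact h2.trans ((card_FMA j U hU).trans (by rw [hlen]))

end Pool.Agent.V8H32.NV
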