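import Pool.Agent.V8H32.NV.Mer

/-! The greatest common divisor of twisted squarefree numbers; local factors. -/

set_option autoImplicit false

namespace Pool.Agent.V8H32.NV
open Finset
open Pool.Agent.V8H32.Cos (pr)

/-- primes of the greatest common divisor -/
def Ef (U V C C' : Finset ℕ) : Finset ℕ := (C ∩ U) ∪ (C' ∩ V) ∪ ((C ∩ C') \ (U ∪ V))

lemma pr_fact {C : Finset ℕ} (hC : ∀ p ∈ C, p.Prime) (p : ℕ) :
    (pr C).factorization p = if p ∈ C then 1 else 0 := by
  unfold pr
  rw [Nat.factorization_prod (fun x hx => (hC x hx).ne_zero)]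
  rw [Finsupp.finsetSum_apply]
  by_cases h : p ∈ C
  · rw [if_pos h, Finset.sum_eq_single p]
    · rw [(hC p h).factorization]; simp
    · intro b hb hbp
      rw [(hC b hb).factorization, Finsupp.single_apply, if_neg hbp]
    · intro h'; exact absurd h h'
  · rw [if_neg h]
    apply Finset.sum_eq_zero
    intro b hb
    rw [(hC b hb).factorization, Finsupp.single_apply, if_neg]
    rintro rfl
    exact h hb

lemma pr_pos' {C : Finset ℕ} (hC : ∀ p ∈ C, p.Prime) : 0 < pr C :=
  Finset.prod_pos (fun p hp => (hC p hp).pos)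

lemma Ef_sub (U V C C' : Finset ℕ) : Ef U V C C' ⊆ C ∪ C' := by
  intro p hp
  unfold Ef at hp
  simp only [mem_union, mem_inter, mem_sdiff] at hp ⊢
  tauto

lemma Ef_prime {U V C C' : Finset ℕ} (hC : ∀ p ∈ C, p.Prime) (hC' : ∀ p ∈ C', p.Prime) :
    ∀ p ∈ Ef U V C C', p.Prime := by
  intro p hp
  rcases mem_union.1 (Ef_sub U V C C' hp) with h | h
  · exact hC p h
  · exact hC' p h

theorem gcd_Ef {C C' : Finset ℕ} (hC : ∀ p ∈ C, p.Prime) (hC' : ∀ p ∈ C', p.Prime) {u v : ℕ}
    (hu : 0 < u) (hv : 0 < v) (huv : u.Coprime v) :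
    Nat.gcd (pr C * v) (pr C' * u) = pr (Ef u.primeFactors v.primeFactors C C') := by
  have h1 := pr_pos' hC
  have h2 := pr_pos' hC'
  have hE := Ef_prime (U := u.primeFactors) (V := v.primeFactors) hC hC'
  apply Nat.eq_of_factorization_eq (Nat.gcd_pos_of_pos_left _ (Nat.mul_pos h1 hv)).ne' (pr_pos' hE).ne'
  intro p
  rw [Nat.factorization_gcd (Nat.mul_pos h1 hv).ne' (Nat.mul_pos h2 hu).ne', Finsupp.inf_apply,
    Nat.factorization_mul h1.ne' hv.ne', Nat.factorization_mul h2.ne' hu.ne', Finsupp.add_apply,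
    Finsupp.add_apply, pr_fact hC, pr_fact hC', pr_fact hE]
  have hdis := Nat.Coprime.disjoint_primeFactors huv
  by_cases hU : p ∈ u.primeFactors
  · have hV : p ∉ v.primeFactors := Finset.disjoint_left.1 hdis hU
    have hv0 : v.factorization p = 0 := by
      rw [← Finsupp.notMem_support_iff]; exact hV
    have hu1 : 1 ≤ u.factorization p := by
      have : u.factorization p ≠ 0 := Finsupp.mem_support_iff.1 hU
      omega
    have hmem : p ∈ Ef u.primeFactors v.primeFactors C C' ↔ p ∈ C := by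
      unfold Ef
      simp only [mem_union, mem_inter, mem_sdiff]
      tauto
    rw [hv0]
    simp only [hmem]
    by_cases a : p ∈ C
    · simp only [if_pos a, add_zero]
      exact min_eq_left (by omega)
    · simp only [if_neg a, add_zero]
      exact min_eq_left (by omega)
  · have hu0 : u.factorization p = 0 := by
      rw [← Finsupp.notMem_support_iff]; exact hU
    by_cases hV : p ∈ v.primeFactors
    · have hv1 : 1 ≤ v.factorization p := by
        have : v.factorization p ≠ 0 := Finsupp.mem_support_iff.1 hV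
        omega
      have hmem : p ∈ Ef u.primeFactors v.primeFactors C C' ↔ p ∈ C' := by
        unfold Ef
        simp only [mem_union, mem_inter, mem_sdiff]
        tauto
      rw [hu0]
      simp only [hmem]
      by_cases a : p ∈ C'
      · simp only [if_pos a, add_zero]
        exact min_eq_right (by omega)
      · simp only [if_neg a, add_zero]
        exact min_eq_right (by omega)
    · have hv0 : v.factorization p = 0 := by
        rw [← Finsupp.notMem_support_iff]; exact hV
      have hmem : p ∈ Ef u.primeFactors v.primeFactors C C' ↔ p ∈ C ∧ p ∈ C' := by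
        unfold Ef
        simp only [mem_union, mem_inter, mem_sdiff]
        tauto
      rw [hu0, hv0]
      simp only [hmem, add_zero]
      by_cases a : p ∈ C
      · by_cases b : p ∈ C'
        · simp [a, b]
        · simp [a, b]
      · simp [a]

/-- multiplicative weight -/
noncomputable def wE (U V C C' : Finset ℕ) : ℝ := (pr (Ef U V C C') : ℝ) / ((pr C : ℝ) * pr C')

/-- additive weight -/
noncomputable def lE (U V C C' : Finset ℕ) : ℝ :=
  Real.log (pr (Ef U V C C')) - Real.log (pr C) / 2 - Real.log (pr C') / 2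

lemma pr_union {A B : Finset ℕ} (h : Disjoint A B) : pr (A ∪ B) = pr A * pr B :=
  Finset.prod_union h

lemma Ef_union {U V S S' D D' : Finset ℕ} (h : Disjoint (S ∪ S') (D ∪ D')) :
    Ef U V (S ∪ D) (S' ∪ D') = Ef U V S S' ∪ Ef U V D D' ∧ Disjoint (Ef U V S S') (Ef U V D D') := by
  constructor
  · ext p
    have h1 : p ∈ S ∪ S' → p ∉ D ∪ D' := fun a b => Finset.disjoint_left.1 h a b
    by_cases hp : p ∈ S ∪ S'
    · have h2 := h1 hp
      have hD : p ∉ D := fun a => h2 (mem_union_left _ a)
      have hD' : p ∉ D' := fun a => h2 (mem_union_right _ a)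
      unfold Ef
      simp only [mem_union, mem_inter, mem_sdiff, hD, hD', or_false, false_and, and_false]
    · have hS : p ∉ S := fun a => hp (mem_union_left _ a)
      have hS' : p ∉ S' := fun a => hp (mem_union_right _ a)
      unfold Ef
      simp only [mem_union, mem_inter, mem_sdiff, hS, hS', false_or, false_and]
  · exact Disjoint.mono (Ef_sub U V S S') (Ef_sub U V D D') h

lemma disj_parts {S S' D D' : Finset ℕ} (h : Disjoint (S ∪ S') (D ∪ D')) :
    Disjoint S D ∧ Disjoint S' D' :=
  ⟨Disjoint.mono subset_union_left subset_union_left h,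
    Disjoint.mono subset_union_right subset_union_right h⟩

lemma wE_union {U V S S' D D' : Finset ℕ} (h : Disjoint (S ∪ S') (D ∪ D')) :
    wE U V (S ∪ D) (S' ∪ D') = wE U V S S' * wE U V D D' := by
  obtain ⟨h1, h2⟩ := Ef_union (U := U) (V := V) h
  obtain ⟨h3, h4⟩ := disj_parts h
  unfold wE
  rw [h1, pr_union h2, pr_union h3, pr_union h4]
  push_cast
  rw [div_mul_div_comm]
  congr 1
  ring

lemma lE_union {U V S S' D D' : Finset ℕ} (h : Disjoint (S ∪ S') (D ∪ D'))
    (hS : ∀ p ∈ S, p.Prime) (hS' : ∀ p ∈ S', p.Prime) (hD : ∀ p ∈ D, p.Prime) (hD' : ∀ p ∈ D', p.Prime) :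
    lE U V (S ∪ D) (S' ∪ D') = lE U V S S' + lE U V D D' := by
  obtain ⟨h1, h2⟩ := Ef_union (U := U) (V := V) h
  obtain ⟨h3, h4⟩ := disj_parts h
  have e1 : ((pr S : ℕ) : ℝ) ≠ 0 := by exact_mod_cast (pr_pos' hS).ne'
  have e2 : ((pr S' : ℕ) : ℝ) ≠ 0 := by exact_mod_cast (pr_pos' hS').ne'
  have e3 : ((pr D : ℕ) : ℝ) ≠ 0 := by exact_mod_cast (pr_pos' hD).ne'
  have e4 : ((pr D' : ℕ) : ℝ) ≠ 0 := by exact_mod_cast (pr_pos' hD').ne'
  have e5 : ((pr (Ef U V S S') : ℕ) : ℝ) ≠ 0 := by exact_mod_cast (pr_pos' (Ef_prime hS hS')).ne'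
  have e6 : ((pr (Ef U V D D') : ℕ) : ℝ) ≠ 0 := by exact_mod_cast (pr_pos' (Ef_prime hD hD')).ne'
  unfold lE
  rw [h1, pr_union h2, pr_union h3, pr_union h4]
  push_cast
  rw [Real.log_mul e1 e3, Real.log_mul e2 e4, Real.log_mul e5 e6]
  ring

/-- signed sums over pairs of subsets -/
noncomputable def A0 (U V Q : Finset ℕ) : ℝ := ∑ S ∈ Q.powerset, ∑ S' ∈ Q.powerset,
  (-1) ^ (S.card + S'.card) * wE U V S S'
noncomputable def A1 (U V Q : Finset ℕ) : ℝ := ∑ S ∈ Q.powerset, ∑ S' ∈ Q.powerset,
  (-1) ^ (S.card + S'.card) * wE U V S S' * lE U V S S'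

/-- a step of the recursion -/
lemma pair_insert (Q : Finset ℕ) (p : ℕ) (hp : p ∉ Q) (F : Finset ℕ → Finset ℕ → ℝ) :
    ∑ S ∈ (insert p Q).powerset, ∑ S' ∈ (insert p Q).powerset, F S S' =
      ∑ T ∈ ({p} : Finset ℕ).powerset, ∑ T' ∈ ({p} : Finset ℕ).powerset,
        ∑ S ∈ Q.powerset, ∑ S' ∈ Q.powerset, F (T ∪ S) (T' ∪ S') := by
  have h1 : ∀ G : Finset ℕ → ℝ, ∑ S ∈ (insert p Q).powerset, G S =
      ∑ T ∈ ({p} : Finset ℕ).powerset, ∑ S ∈ Q.powerset, G (T ∪ S) := by
    intro G
    rw [Finset.sum_powerset_insert hp]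
    have h2 : ({p} : Finset ℕ).powerset = {∅, {p}} := by
      ext T; rw [mem_powerset, subset_singleton_iff]; simp
    rw [h2, Finset.sum_pair (Finset.singleton_ne_empty p).symm]
    congr 1
    · apply Finset.sum_congr rfl
      intro S _
      rw [empty_union]
  rw [h1]
  apply Finset.sum_congr rfl
  intro T _
  have h2 : ∀ S ∈ Q.powerset, ∑ S' ∈ (insert p Q).powerset, F (T ∪ S) S' =
      ∑ T' ∈ ({p} : Finset ℕ).powerset, ∑ S' ∈ Q.powerset, F (T ∪ S) (T' ∪ S') := fun S _ => h1 _
  rw [Finset.sum_congr rfl h2, Finset.sum_comm]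

lemma card_union_disj {T S Q : Finset ℕ} {p : ℕ} (hp : p ∉ Q) (hT : T ⊆ {p}) (hS : S ⊆ Q) :
    (T ∪ S).card = T.card + S.card := by
  apply Finset.card_union_of_disjoint
  rw [Finset.disjoint_left]
  intro x hx hx'
  have := mem_singleton.1 (hT hx)
  subst this
  exact hp (hS hx')

lemma A_insert (U V Q : Finset ℕ) (p : ℕ) (hp : p ∉ Q) (hpp : p.Prime) (hQ : ∀ x ∈ Q, x.Prime) :
    A0 U V (insert p Q) = A0 U V {p} * A0 U V Q ∧
    A1 U V (insert p Q) = A0 U V {p} * A1 U V Q + A1 U V {p} * A0 U V Q := by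
  have hdis : ∀ T ∈ ({p} : Finset ℕ).powerset, ∀ T' ∈ ({p} : Finset ℕ).powerset,
      ∀ S ∈ Q.powerset, ∀ S' ∈ Q.powerset, Disjoint (T ∪ T') (S ∪ S') := by
    intro T hT T' hT' S hS S' hS'
    rw [mem_powerset] at hT hT' hS hS'
    rw [Finset.disjoint_left]
    intro x hx hx'
    have h1 : x = p := by
      rcases mem_union.1 hx with h | h
      · exact mem_singleton.1 (hT h)
      · exact mem_singleton.1 (hT' h)
    subst h1
    rcases mem_union.1 hx' with h | h
    · exact hp (hS h)
    · exact hp (hS' h)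
  constructor
  · unfold A0
    rw [pair_insert Q p hp, Finset.sum_mul]
    apply Finset.sum_congr rfl
    intro T hT
    rw [Finset.sum_mul]
    apply Finset.sum_congr rfl
    intro T' hT'
    rw [Finset.mul_sum]
    apply Finset.sum_congr rfl
    intro S hS
    rw [Finset.mul_sum]
    apply Finset.sum_congr rfl
    intro S' hS'
    rw [wE_union (hdis T hT T' hT' S hS S' hS'), card_union_disj hp (mem_powerset.1 hT) (mem_powerset.1 hS),
      card_union_disj hp (mem_powerset.1 hT') (mem_powerset.1 hS')]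
    ring
  · unfold A0 A1
    rw [pair_insert Q p hp, Finset.sum_mul, Finset.sum_mul, ← Finset.sum_add_distrib]
    apply Finset.sum_congr rfl
    intro T hT
    rw [Finset.sum_mul, Finset.sum_mul, ← Finset.sum_add_distrib]
    apply Finset.sum_congr rfl
    intro T' hT'
    rw [Finset.mul_sum, Finset.mul_sum, ← Finset.sum_add_distrib]
    apply Finset.sum_congr rfl
    intro S hS
    rw [Finset.mul_sum, Finset.mul_sum, ← Finset.sum_add_distrib]
    apply Finset.sum_congr rfl
    intro S' hS'
    have hT1 : ∀ x ∈ T, x.Prime := fun x hx => by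
      rw [mem_singleton.1 (mem_powerset.1 hT hx)]; exact hpp
    have hT2 : ∀ x ∈ T', x.Prime := fun x hx => by
      rw [mem_singleton.1 (mem_powerset.1 hT' hx)]; exact hpp
    have hS1 : ∀ x ∈ S, x.Prime := fun x hx => hQ x (mem_powerset.1 hS hx)
    have hS2 : ∀ x ∈ S', x.Prime := fun x hx => hQ x (mem_powerset.1 hS' hx)
    rw [wE_union (hdis T hT T' hT' S hS S' hS'), lE_union (hdis T hT T' hT' S hS S' hS') hT1 hT2 hS1 hS2,
      card_union_disj hp (mem_powerset.1 hT) (mem_powerset.1 hS),
      card_union_disj hp (mem_powerset.1 hT') (mem_powerset.1 hS')]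
    ring

lemma A0_empty (U V : Finset ℕ) : A0 U V ∅ = 1 := by
  unfold A0 wE Ef pr
  simp

lemma A1_empty (U V : Finset ℕ) : A1 U V ∅ = 0 := by
  unfold A1 wE lE Ef pr
  simp

lemma pow_single (p : ℕ) : ({p} : Finset ℕ).powerset = {∅, {p}} := by
  ext T; rw [mem_powerset, subset_singleton_iff]; simp

/-- local factors at a prime outside `U ∪ V` -/
lemma local_out {U V : Finset ℕ} {p : ℕ} (hpp : p.Prime) (h : p ∉ U ∪ V) :
    A0 U V {p} = 1 - 1 / (p : ℝ) ∧ A1 U V {p} = Real.log p / p := by
  have hp0 : (p : ℝ) ≠ 0 := by exact_mod_cast hpp.ne_zero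
  have hU : p ∉ U := fun a => h (mem_union_left _ a)
  have hV : p ∉ V := fun a => h (mem_union_right _ a)
  have e00 : Ef U V ∅ ∅ = ∅ := by unfold Ef; simp
  have e10 : Ef U V {p} ∅ = ∅ := by
    unfold Ef; ext x; simp only [mem_union, mem_inter, mem_sdiff, mem_singleton]
    constructor
    · rintro ((⟨rfl, a⟩ | ⟨a, _⟩) | ⟨⟨_, a⟩, _⟩)
      · exact absurd a hU
      · exact a
      · exact a
    · intro a; simp at a
  have e01 : Ef U V ∅ {p} = ∅ := by
    unfold Ef; ext x; simp only [mem_union, mem_inter, mem_sdiff, mem_singleton]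
    constructor
    · rintro ((⟨a, _⟩ | ⟨rfl, a⟩) | ⟨⟨a, _⟩, _⟩)
      · exact a
      · exact absurd a hV
      · exact a
    · intro a; simp at a
  have e11 : Ef U V {p} {p} = {p} := by
    unfold Ef; ext x; simp only [mem_union, mem_inter, mem_sdiff, mem_singleton]
    constructor
    · rintro ((⟨a, _⟩ | ⟨a, _⟩) | ⟨⟨a, _⟩, _⟩) <;> exact a
    · rintro rfl
      right
      exact ⟨⟨rfl, rfl⟩, fun a => a.elim hU hV⟩
  have hne : (∅ : Finset ℕ) ≠ {p} := (Finset.singleton_ne_empty p).symm
  constructor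
  · unfold A0 wE
    rw [pow_single, Finset.sum_pair hne, Finset.sum_pair hne, Finset.sum_pair hne, e00, e10, e01, e11]
    unfold pr
    simp
    field_simp
    ring
  · unfold A1 wE lE
    rw [pow_single, Finset.sum_pair hne, Finset.sum_pair hne, Finset.sum_pair hne, e00, e10, e01, e11]
    unfold pr
    simp
    field_simp
    ring

/-- local factors at a prime of `U` or of `V` -/
lemma local_in {U V : Finset ℕ} {p : ℕ} (hpp : p.Prime) (h : p ∈ U ∪ V) (hd : Disjoint U V) :
    A0 U V {p} = 0 ∧ A1 U V {p} = -(Real.log p / 2 * (1 - 1 / (p : ℝ))) := by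
  have hp0 : (p : ℝ) ≠ 0 := by exact_mod_cast hpp.ne_zero
  have hne : (∅ : Finset ℕ) ≠ {p} := (Finset.singleton_ne_empty p).symm
  have e00 : Ef U V ∅ ∅ = ∅ := by unfold Ef; simp
  rcases mem_union.1 h with hU | hV
  · have hV : p ∉ V := Finset.disjoint_left.1 hd hU
    have e10 : Ef U V {p} ∅ = {p} := by
      unfold Ef; ext x; simp only [mem_union, mem_inter, mem_sdiff, mem_singleton]
      constructor
      · rintro ((⟨a, _⟩ | ⟨a, _⟩) | ⟨⟨a, _⟩, _⟩)
        · exact a
        · simp at a
        · exact a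
      · rintro rfl
        left; left; exact ⟨rfl, hU⟩
    have e01 : Ef U V ∅ {p} = ∅ := by
      unfold Ef; ext x; simp only [mem_union, mem_inter, mem_sdiff, mem_singleton]
      constructor
      · rintro ((⟨a, _⟩ | ⟨rfl, a⟩) | ⟨⟨a, _⟩, _⟩)
        · exact a
        · exact absurd a hV
        · exact a
      · intro a; simp at a
    have e11 : Ef U V {p} {p} = {p} := by
      unfold Ef; ext x; simp only [mem_union, mem_inter, mem_sdiff, mem_singleton]
      constructor
      · rintro ((⟨a, _⟩ | ⟨a, _⟩) | ⟨⟨a, _⟩, _⟩) <;> exact a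
      · rintro rfl
        left; left; exact ⟨rfl, hU⟩
    constructor
    · unfold A0 wE
      rw [pow_single, Finset.sum_pair hne, Finset.sum_pair hne, Finset.sum_pair hne, e00, e10, e01, e11]
      unfold pr
      simp
      field_simp
      ring
    · unfold A1 wE lE
      rw [pow_single, Finset.sum_pair hne, Finset.sum_pair hne, Finset.sum_pair hne, e00, e10, e01, e11]
      unfold pr
      simp
      field_simp
      ring
  · have hU : p ∉ U := fun a => Finset.disjoint_left.1 hd a hV
    have e10 : Ef U V {p} ∅ = ∅ := by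
      unfold Ef; ext x; simp only [mem_union, mem_inter, mem_sdiff, mem_singleton]
      constructor
      · rintro ((⟨rfl, a⟩ | ⟨a, _⟩) | ⟨⟨_, a⟩, _⟩)
        · exact absurd a hU
        · exact a
        · exact a
      · intro a; simp at a
    have e01 : Ef U V ∅ {p} = {p} := by
      unfold Ef; ext x; simp only [mem_union, mem_inter, mem_sdiff, mem_singleton]
      constructor
      · rintro ((⟨a, _⟩ | ⟨a, _⟩) | ⟨⟨_, a⟩, _⟩)
        · simp at a
        · exact a
        · exact a
      · rintro rfl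
        left; right; exact ⟨rfl, hV⟩
    have e11 : Ef U V {p} {p} = {p} := by
      unfold Ef; ext x; simp only [mem_union, mem_inter, mem_sdiff, mem_singleton]
      constructor
      · rintro ((⟨a, _⟩ | ⟨a, _⟩) | ⟨⟨a, _⟩, _⟩) <;> exact a
      · rintro rfl
        left; right; exact ⟨rfl, hV⟩
    constructor
    · unfold A0 wE
      rw [pow_single, Finset.sum_pair hne, Finset.sum_pair hne, Finset.sum_pair hne, e00, e10, e01, e11]
      unfold pr
      simp
      field_simp
      ring
    · unfold A1 wE lE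
      rw [pow_single, Finset.sum_pair hne, Finset.sum_pair hne, Finset.sum_pair hne, e00, e10, e01, e11]
      unfold pr
      simp
      field_simp
      ring

end Pool.Agent.V8H32.NV
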