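import Pool.Agent.V8H32.NV.Th
import Pool.Agent.R311.CenFE

/-! Functional equation of the theta series. -/

set_option autoImplicit false

namespace Pool.Agent.V8H32.NV
open Complex Finset MeasureTheory Filter Topology HurwitzZeta

variable {q : ℕ}

lemma sum_fin_zmod' [NeZero q] (F : ZMod q → ℂ) :
    ∑ a : Fin q, F ((a : ℕ) : ZMod q) = ∑ x : ZMod q, F x := by
  have hbij : Function.Bijective (fun a : Fin q => ((a : ℕ) : ZMod q)) := by
    rw [Fintype.bijective_iff_injective_and_card]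
    refine ⟨fun a b hab => ?_, by rw [Fintype.card_fin, ZMod.card]⟩
    have h1 : (a : ℕ) ≡ b [MOD q] := (ZMod.natCast_eq_natCast_iff a b q).1 hab
    exact Fin.ext (h1.eq_of_lt_of_lt a.2 b.2)
  exact Fintype.sum_bijective _ hbij _ _ (fun _ => rfl)

noncomputable def tau [NeZero q] (χ : DirichletCharacter ℂ q) : ℂ :=
  gaussSum χ (ZMod.stdAddChar : AddChar (ZMod q) ℂ)

lemma gauss_exp [NeZero q] {χ : DirichletCharacter ℂ q} (hχ : χ.IsPrimitive) (j : ℤ) :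
    ∑ r : Fin q, χ ((r : ℕ) : ZMod q) * cexp (2 * Real.pi * I * (((r : ℕ) : ℝ) / q : ℝ) * j) =
      χ⁻¹ (j : ZMod q) * tau χ := by
  have h1 : ∀ r : Fin q, cexp (2 * Real.pi * I * (((r : ℕ) : ℝ) / q : ℝ) * j) =
      (ZMod.stdAddChar : AddChar (ZMod q) ℂ) ((j : ZMod q) * ((r : ℕ) : ZMod q)) := by
    intro a
    have : ((j : ZMod q) * ((a : ℕ) : ZMod q)) = ((j * (a : ℕ) : ℤ) : ZMod q) := by push_cast; rfl
    rw [this, ZMod.stdAddChar_coe]
    congr 1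
    push_cast
    ring
  simp_rw [h1]
  rw [sum_fin_zmod' (fun x => χ x * (ZMod.stdAddChar : AddChar (ZMod q) ℂ) ((j : ZMod q) * x))]
  rw [tau, ← gaussSum_mulShift_of_isPrimitive _ hχ]
  simp [gaussSum, AddChar.mulShift_apply]

lemma tau_norm [Fact q.Prime] {χ : DirichletCharacter ℂ q} (hχ : χ ≠ 1) :
    ‖tau χ‖ = Real.sqrt q := by
  have h1 := gaussSum_mul_gaussSum_eq_card (R := ZMod q) (R' := ℂ) hχ
    (ZMod.isPrimitive_stdAddChar q)
  have h2 : gaussSum χ⁻¹ (ZMod.stdAddChar : AddChar (ZMod q) ℂ)⁻¹ = (starRingEnd ℂ) (tau χ) := by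
    rw [tau, gaussSum, gaussSum, map_sum]
    apply Finset.sum_congr rfl
    intro x _
    rw [map_mul, AddChar.inv_apply, AddChar.map_neg_eq_conj]
    congr 1
    rw [← MulChar.star_apply' χ x]
    rfl
  rw [h2, ZMod.card] at h1
  have h3 : ‖tau χ‖ * ‖tau χ‖ = q := by
    have h4 : ‖tau χ * (starRingEnd ℂ) (tau χ)‖ = ‖(q : ℂ)‖ := congrArg (fun z : ℂ => ‖z‖) h1
    rw [norm_mul, Complex.norm_conj, Complex.norm_natCast] at h4
    exact h4
  rw [← h3, Real.sqrt_mul_self (norm_nonneg _)]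

lemma chi_zero [Fact q.Prime] (χ : DirichletCharacter ℂ q) : χ 0 = 0 := by
  have : Nontrivial (ZMod q) := ZMod.nontrivial_iff.2 (Nat.Prime.one_lt Fact.out).ne'
  exact MulChar.map_zero χ

/-- even case over the integers -/
lemma even_fe [Fact q.Prime] {χ : DirichletCharacter ℂ q} (h1 : χ ≠ 1) {t : ℝ} (ht : 0 < t) :
    ∑' n : ℤ, χ (n : ZMod q) * (n : ℂ) ^ 0 *
      (Real.exp (-(Real.pi * n ^ 2 / q) * t) : ℝ) =
    tau χ * (((q * t) ^ (-(1 / 2 : ℝ)) : ℝ) : ℂ) * ∑' n : ℤ, χ⁻¹ (n : ZMod q) * (n : ℂ) ^ 0 *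
      (Real.exp (-(Real.pi * n ^ 2 / q) * (1 / t)) : ℝ) := by
  have hp : q.Prime := Fact.out
  have hq : 0 < q := hp.pos
  have hq' : (0 : ℝ) < q := by exact_mod_cast hq
  have : NeZero q := ⟨hq.ne'⟩
  have hprim := Pool.Agent.R311.prim_of_ne_one hp h1
  rw [sum_split q _ (summable_int hq χ (a := 0) (by norm_num) ht (chi_zero χ))]
  have hqt : 0 < q * t := by positivity
  have hdu : 0 < 1 / (q * t) := by positivity
  have e1 : ∀ r : Fin q, ∑' m : ℤ, χ (((m * q + (r : ℕ) : ℤ)) : ZMod q) * ((m * q + (r : ℕ) : ℤ) : ℂ) ^ 0 *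
      (Real.exp (-(Real.pi * ((m * q + (r : ℕ) : ℤ) : ℝ) ^ 2 / q) * t) : ℝ) =
      (((q * t) ^ (-(1 / 2 : ℝ)) : ℝ) : ℂ) * ∑' n : ℤ, (χ ((r : ℕ) : ZMod q) *
        cexp (2 * Real.pi * I * (((r : ℕ) : ℝ) / q : ℝ) * n)) *
        (Real.exp (-(Real.pi * n ^ 2 / q) * (1 / t)) : ℝ) := by
    intro r
    have k1 := hasSum_int_evenKernel (((r : ℕ) : ℝ) / q) hqt
    have k2 := hasSum_int_cosKernel (((r : ℕ) : ℝ) / q) hdu
    have k3 := evenKernel_functional_equation (((((r : ℕ) : ℝ) / q : ℝ) : UnitAddCircle)) (q * t)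
    have k4 : ∑' m : ℤ, χ (((m * q + (r : ℕ) : ℤ)) : ZMod q) * ((m * q + (r : ℕ) : ℤ) : ℂ) ^ 0 *
      (Real.exp (-(Real.pi * ((m * q + (r : ℕ) : ℤ) : ℝ) ^ 2 / q) * t) : ℝ) =
      χ ((r : ℕ) : ZMod q) * (evenKernel (((((r : ℕ) : ℝ) / q : ℝ) : UnitAddCircle)) (q * t) : ℝ) := by
      rw [← k1.tsum_eq, Complex.ofReal_tsum, ← tsum_mul_left]
      apply tsum_congr
      intro m
      have e3 : (((m * q + (r : ℕ) : ℤ)) : ZMod q) = ((r : ℕ) : ZMod q) := by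
        push_cast
        simp
      rw [e3, pow_zero, mul_one]
      congr 3
      push_cast
      field_simp
    rw [k4, k3, Complex.ofReal_mul, ← k2.tsum_eq]
    have e4 : (1 / (q * t) ^ (1 / 2 : ℝ) : ℝ) = (q * t) ^ (-(1 / 2 : ℝ)) := by
      rw [Real.rpow_neg hqt.le, one_div]
    rw [e4, ← mul_assoc, mul_comm (χ _), mul_assoc, ← tsum_mul_left]
    congr 1
    apply tsum_congr
    intro n
    rw [← mul_assoc]
    congr 3
    field_simp
  rw [Finset.sum_congr rfl (fun r _ => e1 r), ← Finset.mul_sum, ← Summable.tsum_finsetSum]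
  · have e2 : ∀ n : ℤ, ∑ r : Fin q, (χ ((r : ℕ) : ZMod q) *
        cexp (2 * Real.pi * I * (((r : ℕ) : ℝ) / q : ℝ) * n)) *
        (Real.exp (-(Real.pi * n ^ 2 / q) * (1 / t)) : ℝ) = tau χ * (χ⁻¹ (n : ZMod q) * (n : ℂ) ^ 0 *
        (Real.exp (-(Real.pi * n ^ 2 / q) * (1 / t)) : ℝ)) := by
      intro n
      rw [← Finset.sum_mul, gauss_exp hprim]
      ring
    rw [tsum_congr e2, tsum_mul_left]
    ring
  · intro r _
    have k2 := hasSum_int_cosKernel (((r : ℕ) : ℝ) / q) hdu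
    refine (k2.summable.mul_left (χ ((r : ℕ) : ZMod q))).congr (fun n => ?_)
    rw [← mul_assoc]
    congr 3
    field_simp

/-- odd case over the integers -/
lemma odd_fe [Fact q.Prime] {χ : DirichletCharacter ℂ q} (h1 : χ ≠ 1) {t : ℝ} (ht : 0 < t) :
    ∑' n : ℤ, χ (n : ZMod q) * (n : ℂ) ^ 1 *
      (Real.exp (-(Real.pi * n ^ 2 / q) * t) : ℝ) =
    tau χ * (-I * q * (((q * t) ^ (-(3 / 2 : ℝ)) : ℝ) : ℂ)) * ∑' n : ℤ, χ⁻¹ (n : ZMod q) * (n : ℂ) ^ 1 *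
      (Real.exp (-(Real.pi * n ^ 2 / q) * (1 / t)) : ℝ) := by
  have hp : q.Prime := Fact.out
  have hq : 0 < q := hp.pos
  have hq' : (0 : ℝ) < q := by exact_mod_cast hq
  have : NeZero q := ⟨hq.ne'⟩
  have hprim := Pool.Agent.R311.prim_of_ne_one hp h1
  rw [sum_split q _ (summable_int hq χ (a := 1) (by norm_num) ht (chi_zero χ))]
  have hqt : 0 < q * t := by positivity
  have hdu : 0 < 1 / (q * t) := by positivity
  have e1 : ∀ r : Fin q, ∑' m : ℤ, χ (((m * q + (r : ℕ) : ℤ)) : ZMod q) * ((m * q + (r : ℕ) : ℤ) : ℂ) ^ 1 *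
      (Real.exp (-(Real.pi * ((m * q + (r : ℕ) : ℤ) : ℝ) ^ 2 / q) * t) : ℝ) =
      (-I * q * (((q * t) ^ (-(3 / 2 : ℝ)) : ℝ) : ℂ)) * ∑' n : ℤ, (χ ((r : ℕ) : ZMod q) *
        cexp (2 * Real.pi * I * (((r : ℕ) : ℝ) / q : ℝ) * n)) * (n *
        (Real.exp (-(Real.pi * n ^ 2 / q) * (1 / t)) : ℝ)) := by
    intro r
    have k1 := hasSum_int_oddKernel (((r : ℕ) : ℝ) / q) hqt
    have k2 := hasSum_int_sinKernel (((r : ℕ) : ℝ) / q) hdu
    have k3 := oddKernel_functional_equation (((((r : ℕ) : ℝ) / q : ℝ) : UnitAddCircle)) (q * t)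
    have k4 : ∑' m : ℤ, χ (((m * q + (r : ℕ) : ℤ)) : ZMod q) * ((m * q + (r : ℕ) : ℤ) : ℂ) ^ 1 *
      (Real.exp (-(Real.pi * ((m * q + (r : ℕ) : ℤ) : ℝ) ^ 2 / q) * t) : ℝ) =
      χ ((r : ℕ) : ZMod q) * (q * (oddKernel (((((r : ℕ) : ℝ) / q : ℝ) : UnitAddCircle)) (q * t) : ℝ)) := by
      rw [← k1.tsum_eq, Complex.ofReal_tsum, ← tsum_mul_left, ← tsum_mul_left]
      apply tsum_congr
      intro m
      have e3 : (((m * q + (r : ℕ) : ℤ)) : ZMod q) = ((r : ℕ) : ZMod q) := by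
        push_cast
        simp
      have e5 : -(Real.pi * ((m * q + (r : ℕ) : ℤ) : ℝ) ^ 2 / q) * t =
          -Real.pi * (m + ((r : ℕ) : ℝ) / q) ^ 2 * (q * t) := by
        push_cast
        field_simp
      rw [e3, pow_one, e5]
      have hqc : (q : ℂ) ≠ 0 := by exact_mod_cast hq.ne'
      push_cast
      field_simp
    rw [k4, k3, Complex.ofReal_mul, ← k2.tsum_eq]
    have e4 : (1 / (q * t) ^ (3 / 2 : ℝ) : ℝ) = (q * t) ^ (-(3 / 2 : ℝ)) := by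
      rw [Real.rpow_neg hqt.le, one_div]
    rw [e4, ← tsum_mul_left, ← tsum_mul_left, ← tsum_mul_left, ← tsum_mul_left]
    apply tsum_congr
    intro n
    have e6 : -(Real.pi * (n : ℝ) ^ 2 / q) * (1 / t) = -Real.pi * (n : ℝ) ^ 2 * (1 / (q * t)) := by
      field_simp
    rw [e6]
    ring
  rw [Finset.sum_congr rfl (fun r _ => e1 r), ← Finset.mul_sum, ← Summable.tsum_finsetSum]
  · have e2 : ∀ n : ℤ, ∑ r : Fin q, (χ ((r : ℕ) : ZMod q) *
        cexp (2 * Real.pi * I * (((r : ℕ) : ℝ) / q : ℝ) * n)) * (n *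
        (Real.exp (-(Real.pi * n ^ 2 / q) * (1 / t)) : ℝ)) = tau χ * (χ⁻¹ (n : ZMod q) * (n : ℂ) ^ 1 *
        (Real.exp (-(Real.pi * n ^ 2 / q) * (1 / t)) : ℝ)) := by
      intro n
      rw [← Finset.sum_mul, gauss_exp hprim]
      ring
    rw [tsum_congr e2, tsum_mul_left]
    ring
  · intro r _
    have k2 := hasSum_int_sinKernel (((r : ℕ) : ℝ) / q) hdu
    refine (k2.summable.mul_left (I * χ ((r : ℕ) : ZMod q))).congr (fun n => ?_)
    have e6 : -(Real.pi * (n : ℝ) ^ 2 / q) * (1 / t) = -Real.pi * (n : ℝ) ^ 2 * (1 / (q * t)) := by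
      field_simp
    rw [e6]
    have hI : I * I = -1 := Complex.I_mul_I
    linear_combination (-(χ ((r : ℕ) : ZMod q) * n * cexp (2 * Real.pi * I * (((r : ℕ) : ℝ) / q : ℝ) * n) *
      (Real.exp (-Real.pi * (n : ℝ) ^ 2 * (1 / (q * t))) : ℝ))) * hI

lemma inv_par [Fact q.Prime] {χ : DirichletCharacter ℂ q} {a : ℕ} (hp : χ (-1) = (-1) ^ a) :
    χ⁻¹ (-1) = (-1) ^ a := by
  rw [MulChar.inv_apply_eq_inv', hp, ← inv_pow, inv_neg_one]

/-- functional equation -/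
theorem Th_fe [Fact q.Prime] {χ : DirichletCharacter ℂ q} (h1 : χ ≠ 1) {a : ℕ} (ha : a ≤ 1)
    (hp : χ (-1) = (-1) ^ a) : ∃ e : ℂ, ‖e‖ = 1 ∧ ∀ t : ℝ, 0 < t →
      Th χ a t = e * ((t ^ (-(a + 1 / 2 : ℝ)) : ℝ) : ℂ) * Th χ⁻¹ a (1 / t) := by
  have hq : 0 < q := Nat.Prime.pos Fact.out
  have hq' : (0 : ℝ) < q := by exact_mod_cast hq
  have hs : (0 : ℝ) < Real.sqrt q := Real.sqrt_pos.2 hq'
  interval_cases a
  · refine ⟨tau χ * ((q : ℝ) ^ (-(1 / 2 : ℝ)) : ℝ), ?_, fun t ht => ?_⟩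
    · rw [norm_mul, tau_norm h1, Complex.norm_real, Real.norm_of_nonneg (by positivity),
        Real.sqrt_eq_rpow, ← Real.rpow_add hq']
      norm_num
    · have h := even_fe h1 ht
      rw [tsum_int_eq hq χ (a := 0) (by norm_num) ht (chi_zero χ) hp,
        tsum_int_eq hq χ⁻¹ (a := 0) (by norm_num) (by positivity : 0 < 1 / t) (chi_zero _) (inv_par hp),
        Real.mul_rpow hq'.le ht.le] at h
      have h2 : (2 : ℂ) ≠ 0 := by norm_num
      apply mul_left_cancel₀ h2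
      rw [h]
      push_cast
      rw [zero_add]
      ring
  · refine ⟨tau χ * (-I) * ((q : ℝ) ^ (-(1 / 2 : ℝ)) : ℝ), ?_, fun t ht => ?_⟩
    · rw [norm_mul, norm_mul, tau_norm h1, norm_neg, Complex.norm_I, mul_one, Complex.norm_real,
        Real.norm_of_nonneg (by positivity), Real.sqrt_eq_rpow, ← Real.rpow_add hq']
      norm_num
    · have h := odd_fe h1 ht
      rw [tsum_int_eq hq χ (a := 1) (by norm_num) ht (chi_zero χ) hp,
        tsum_int_eq hq χ⁻¹ (a := 1) (by norm_num) (by positivity : 0 < 1 / t) (chi_zero _) (inv_par hp),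
        Real.mul_rpow hq'.le ht.le] at h
      have h2 : (2 : ℂ) ≠ 0 := by norm_num
      apply mul_left_cancel₀ h2
      rw [h]
      have e1 : ((q : ℝ) ^ (-(3 / 2 : ℝ))) * q = (q : ℝ) ^ (-(1 / 2 : ℝ)) := by
        conv_lhs => rw [← Real.rpow_one (q : ℝ), ← Real.rpow_mul hq'.le, ← Real.rpow_add hq']
        norm_num
      have e2 : (((q : ℝ) ^ (-(1 / 2 : ℝ)) : ℝ) : ℂ) = (((q : ℝ) ^ (-(3 / 2 : ℝ)) : ℝ) : ℂ) * (q : ℂ) := by
        rw [← e1]; push_cast; ring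
      have e3 : (-(((1 : ℕ) : ℝ) + 1 / 2) : ℝ) = -(3 / 2 : ℝ) := by norm_num
      rw [e2, e3]
      push_cast
      ring

end Pool.Agent.V8H32.NV
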