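import Pool.Agent.V8H32.NV.Fst

/-! The Cauchy-Schwarz step. -/

set_option autoImplicit false

namespace Pool.Agent.V8H32.NV
open Finset Pool.Agent.R311.RES MeasureTheory
open scoped Classical

lemma gam_pos (a : ℕ) : 0 < Real.Gamma (kap a) := by
  apply Real.Gamma_pos_of_pos
  unfold kap
  have : (0 : ℝ) ≤ a := Nat.cast_nonneg a
  linarith

lemma mj_nonneg (a : ℕ) : 0 ≤ ∫ p, mj a p := by
  apply integral_nonneg
  intro p
  unfold mj
  have h1 := wt_nonneg a p.1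
  have h2 := wt_nonneg a p.2
  simp only [Pi.zero_apply]
  positivity

section
variable {q : ℕ} [Fact q.Prime]

theorem cs_step {z W R0 Hc L : ℕ} {ϱ C D κ η : ℝ} {H : Subgroup (DirichletCharacter ℂ q)}
    (A : AllH q z W R0 Hc L ϱ C D κ η H) (χ₀ : DirichletCharacter ℂ q) {a : ℕ} (ha : a ≤ 1)
    (hpar : ∀ ψ : H, (χ₀ * (ψ : DirichletCharacter ℂ q)) (-1) = (-1) ^ a) {τ : ℝ} (hτ0 : 0 < τ)
    (hτ : τ * L ≤ 1 / 4) :
    (Fintype.card H : ℝ) * Real.Gamma (kap a) ^ 2 ≤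
      4 * ((320 * ϱ * C + 2) * (2 * ∫ p, mj a p)) *
      ((univ.filter (fun ψ : H => τ ≤ ‖DirichletCharacter.LFunction
        (χ₀ * (ψ : DirichletCharacter ℂ q)) (1 / 2)‖)).card : ℝ) := by
  set S := univ.filter (fun ψ : H => χ₀ * (ψ : DirichletCharacter ℂ q) ≠ 1) with hS
  set l : H → ℝ := fun ψ => ‖DirichletCharacter.LFunction
        (χ₀ * (ψ : DirichletCharacter ℂ q)) (1 / 2)‖ with hl
  set m : H → ℝ := fun ψ => ‖Mfn z W R0 Hc (χ₀ * (ψ : DirichletCharacter ℂ q))‖ with hm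
  set B := (320 * ϱ * C + 2) * (2 * ∫ p, mj a p) with hB
  have hC := A.sz.hC
  have hϱ0 := A.sz.hϱ0
  have hϱC : 1 ≤ ϱ * C := by nlinarith
  have hB0 : 0 ≤ B := by
    have := mj_nonneg a
    rw [hB]
    apply mul_nonneg
    · linarith
    · linarith
  have hH0 : (0 : ℝ) ≤ (Fintype.card H : ℝ) := Nat.cast_nonneg _
  have hGam := gam_pos a
  have hfst : (3 / 4 : ℝ) * (Fintype.card H : ℝ) ≤ ∑ ψ ∈ S, l ψ * m ψ := by
    refine (first_moment' A χ₀).trans ((norm_sum_le _ _).trans (le_of_eq ?_))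
    exact Finset.sum_congr rfl (fun ψ _ => norm_mul _ _)
  have hsec : Real.Gamma (kap a) ^ 2 * ∑ ψ ∈ S, l ψ ^ 2 * m ψ ^ 2 ≤ (Fintype.card H : ℝ) * B := by
    refine (S2_int A χ₀ ha hpar).trans (le_of_eq ?_)
    rw [hB]; ring
  have hmL : ∀ ψ, m ψ ≤ L := by
    intro ψ
    have hcardI : ((IM W z (10 * R0) Hc).card : ℝ) ≤ L := by exact_mod_cast A.hLc
    exact (Mof_norm _ AM (cM' Hc) (fun i hi => cM_abs' hi) _).trans hcardI
  have hm0 : ∀ ψ, 0 ≤ m ψ := fun ψ => norm_nonneg _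
  have hl0 : ∀ ψ, 0 ≤ l ψ := fun ψ => norm_nonneg _
  have hsplit := Finset.sum_filter_add_sum_filter_not S (fun ψ => τ ≤ l ψ) (fun ψ => l ψ * m ψ)
  set G := S.filter (fun ψ => τ ≤ l ψ) with hG
  have hrest : ∑ ψ ∈ S.filter (fun ψ => ¬ τ ≤ l ψ), l ψ * m ψ ≤ (Fintype.card H : ℝ) * (1 / 4) := by
    have e1 : ∀ ψ ∈ S.filter (fun ψ => ¬ τ ≤ l ψ), l ψ * m ψ ≤ 1 / 4 := by
      intro ψ hψ
      rw [mem_filter, not_le] at hψ
      exact (mul_le_mul hψ.2.le (hmL ψ) (hm0 ψ) hτ0.le).trans hτ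
    refine (Finset.sum_le_card_nsmul _ _ _ e1).trans ?_
    rw [nsmul_eq_mul]
    apply mul_le_mul_of_nonneg_right _ (by norm_num)
    have : (S.filter (fun ψ => ¬ τ ≤ l ψ)).card ≤ Fintype.card H := by
      rw [← card_univ]
      exact card_le_card (subset_univ _)
    exact_mod_cast this
  have hGs : (Fintype.card H : ℝ) / 2 ≤ ∑ ψ ∈ G, l ψ * m ψ := by linarith
  have hcs : (∑ ψ ∈ G, l ψ * m ψ) ^ 2 ≤ (G.card : ℝ) * ∑ ψ ∈ G, (l ψ * m ψ) ^ 2 :=
    sq_sum_le_card_mul_sum_sq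
  have hsub : ∑ ψ ∈ G, (l ψ * m ψ) ^ 2 ≤ ∑ ψ ∈ S, l ψ ^ 2 * m ψ ^ 2 := by
    rw [Finset.sum_congr rfl (fun ψ _ => mul_pow (l ψ) (m ψ) 2)]
    exact Finset.sum_le_sum_of_subset_of_nonneg (filter_subset _ _) (fun _ _ _ => by positivity)
  have hcardG : (G.card : ℝ) ≤ ((univ.filter (fun ψ : H => τ ≤ l ψ)).card : ℝ) := by
    have : G.card ≤ (univ.filter (fun ψ : H => τ ≤ l ψ)).card := by
      apply card_le_card
      intro ψ hψ
      rw [hG, mem_filter] at hψ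
      exact mem_filter.2 ⟨mem_univ _, hψ.2⟩
    exact_mod_cast this
  have hHpos : (0 : ℝ) < (Fintype.card H : ℝ) := by
    have : 0 < Fintype.card H := Fintype.card_pos
    exact_mod_cast this
  have h1 : ((Fintype.card H : ℝ) / 2) ^ 2 * Real.Gamma (kap a) ^ 2 ≤
      (G.card : ℝ) * ((Fintype.card H : ℝ) * B) := by
    calc ((Fintype.card H : ℝ) / 2) ^ 2 * Real.Gamma (kap a) ^ 2 ≤
        (∑ ψ ∈ G, l ψ * m ψ) ^ 2 * Real.Gamma (kap a) ^ 2 :=
          mul_le_mul_of_nonneg_right (pow_le_pow_left₀ (by positivity) hGs 2) (by positivity)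
      _ ≤ ((G.card : ℝ) * ∑ ψ ∈ S, l ψ ^ 2 * m ψ ^ 2) * Real.Gamma (kap a) ^ 2 :=
          mul_le_mul_of_nonneg_right (hcs.trans (mul_le_mul_of_nonneg_left hsub (Nat.cast_nonneg _)))
            (by positivity)
      _ = (G.card : ℝ) * (Real.Gamma (kap a) ^ 2 * ∑ ψ ∈ S, l ψ ^ 2 * m ψ ^ 2) := by ring
      _ ≤ _ := mul_le_mul_of_nonneg_left hsec (Nat.cast_nonneg _)
  have h2 : (Fintype.card H : ℝ) * ((Fintype.card H : ℝ) * Real.Gamma (kap a) ^ 2) ≤
      (Fintype.card H : ℝ) * (4 * B * (G.card : ℝ)) := by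
    nlinarith
  have h3 := le_of_mul_le_mul_left h2 hHpos
  exact h3.trans (mul_le_mul_of_nonneg_left hcardG (by positivity))

/-- bound for the elements of the index set -/
lemma IM_size {z W R0 Hc : ℕ} (hW : 1 ≤ W) {i : Finset ℕ × ℕ} (hi : i ∈ IM W z (10 * R0) Hc) :
    AM i ≤ 4 ^ z * W ^ (10 * R0) * Hc := by
  obtain ⟨⟨a1, a2⟩, a3⟩ := mem_IM.1 hi
  unfold AM
  apply Nat.mul_le_mul _ ((mem_RR.1 a3).2.1)
  unfold Pool.Agent.V8H32.Cos.pr
  rw [← Finset.prod_filter_mul_prod_filter_not i.1 (fun p => z < p), mul_comm]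
  apply Nat.mul_le_mul
  · refine le_trans ?_ (primorial_le_four_pow z)
    unfold primorial
    apply Nat.le_of_dvd (Finset.prod_pos fun p hp => (mem_filter.1 hp).2.pos)
    apply Finset.prod_dvd_prod_of_subset
    intro p hp
    rw [mem_filter] at hp
    have b1 := a1 hp.1
    rw [mem_filter, mem_Icc] at b1
    rw [mem_filter, Finset.mem_range]
    exact ⟨by omega, b1.2⟩
  · calc ∏ p ∈ i.1.filter (fun p => z < p), p ≤ ∏ _p ∈ i.1.filter (fun p => z < p), W := by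
          apply Finset.prod_le_prod' 
          intro p hp
          have b1 := a1 (mem_filter.1 hp).1
          rw [mem_filter, mem_Icc] at b1
          exact b1.1.2
      _ = W ^ (i.1.filter (fun p => z < p)).card := by rw [Finset.prod_const]
      _ ≤ W ^ (10 * R0) := Nat.pow_le_pow_right hW a2

lemma IM_card {z W R0 Hc L : ℕ} (hL : ∀ i ∈ IM W z (10 * R0) Hc, AM i ≤ L) :
    (IM W z (10 * R0) Hc).card ≤ L := by
  have h : (IM W z (10 * R0) Hc).card ≤ (Icc 1 L).card := by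
    apply Finset.card_le_card_of_injOn AM
    · intro i hi
      rw [mem_coe] at hi
      rw [mem_coe, mem_Icc]
      exact ⟨AM_pos hi, hL i hi⟩
    · exact AM_inj W z (10 * R0) Hc
  rwa [Nat.card_Icc, Nat.add_sub_cancel] at h

end

end Pool.Agent.V8H32.NV
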