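import Pool.Agent.V8H32.NV.Fin1
import Pool.Agent.V8H32.Cos.Par1

/-! The choice of the parameters. -/

set_option autoImplicit false

namespace Pool.Agent.V8H32.NV
open Finset Pool.Agent.R311.RES MeasureTheory Filter
open Pool.Agent.V8H32.Cos (zfacts divisor_bound)
open scoped Classical

lemma ev_exp (K b : ℝ) (hb : 0 < b) (k : ℕ) : ∀ᶠ x : ℝ in atTop, K * x ^ k ≤ Real.exp (b * x) := by
  have h := (isLittleO_pow_exp_pos_mul_atTop (k := k) hb).bound (c := 1 / (|K| + 1)) (by positivity)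
  filter_upwards [h, eventually_ge_atTop 0] with x hx hx0
  rw [Real.norm_of_nonneg (by positivity), Real.norm_of_nonneg (Real.exp_pos _).le] at hx
  have hK : 0 < |K| + 1 := by positivity
  have h1 : (|K| + 1) * x ^ k ≤ Real.exp (b * x) := by
    calc (|K| + 1) * x ^ k ≤ (|K| + 1) * (1 / (|K| + 1) * Real.exp (b * x)) :=
          mul_le_mul_of_nonneg_left hx hK.le
      _ = _ := by field_simp
  refine le_trans ?_ h1
  apply mul_le_mul_of_nonneg_right _ (by positivity)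
  linarith [le_abs_self K]

lemma rpow_exp {q : ℕ} (hq : 0 < q) (x : ℝ) : (q : ℝ) ^ x = Real.exp (x * Real.log q) := by
  rw [Real.rpow_def_of_pos (by exact_mod_cast hq), mul_comm]

/-- the numerical facts -/
lemma num_facts {η₀ Λ : ℝ} {z R0 : ℕ} (hη : 0 < η₀) (hη1 : η₀ ≤ 1 / 1000000) (hz3 : (z : ℝ) ^ 3 ≤ Λ)
    (hz : 2 / η₀ ≤ z) (hR : R0 = ⌊η₀ * Λ / Real.log z⌋₊) :
    (z : ℝ) ^ 2 ≤ R0 * Real.log z ∧ (R0 : ℝ) * Real.log z ≤ η₀ * Λ ∧ η₀ * Λ / 2 ≤ R0 * Real.log z ∧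
      2 * (z : ℝ) ≤ η₀ * Λ ∧ z ≤ R0 ∧ 4 ^ 10 ≤ z ∧ 1 ≤ Real.log z := by
  have hz2 : (2000000 : ℝ) ≤ z := by
    refine le_trans ?_ hz
    rw [le_div_iff₀ hη]
    linarith
  have hz0 : (0 : ℝ) < z := by linarith
  have hlogz : 1 ≤ Real.log z := by
    rw [← Real.log_exp 1]
    apply Real.log_le_log (Real.exp_pos _)
    have := Real.exp_one_lt_d9
    linarith
  have hlogz' : Real.log z ≤ z := (Real.log_le_sub_one_of_pos hz0).trans (by linarith)
  have hz' : 2 ≤ η₀ * z := by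
    rw [div_le_iff₀ hη] at hz
    linarith
  have hΛ : 2 * (z : ℝ) ^ 2 ≤ η₀ * Λ := by
    calc 2 * (z : ℝ) ^ 2 ≤ (η₀ * z) * (z : ℝ) ^ 2 := mul_le_mul_of_nonneg_right hz' (by positivity)
      _ = η₀ * (z : ℝ) ^ 3 := by ring
      _ ≤ _ := mul_le_mul_of_nonneg_left hz3 hη.le
  have hzz : (z : ℝ) ≤ (z : ℝ) ^ 2 := by nlinarith
  have h1 : η₀ * Λ / Real.log z ≤ (R0 : ℝ) + 1 := by
    rw [hR]; exact (Nat.lt_floor_add_one _).le
  have h2 : (R0 : ℝ) ≤ η₀ * Λ / Real.log z := by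
    rw [hR]
    apply Nat.floor_le
    apply div_nonneg _ (by linarith)
    nlinarith
  rw [div_le_iff₀ (by linarith)] at h1
  rw [le_div_iff₀ (by linarith)] at h2
  have h3 : (z : ℝ) ^ 2 ≤ R0 * Real.log z := by nlinarith
  refine ⟨h3, h2, by nlinarith, by nlinarith, ?_, ?_, hlogz⟩
  · have h4 : (z : ℝ) * z ≤ R0 * z := by
      calc (z : ℝ) * z = (z : ℝ) ^ 2 := by ring
        _ ≤ R0 * Real.log z := h3
        _ ≤ R0 * z := mul_le_mul_of_nonneg_left hlogz' (Nat.cast_nonneg _)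
    have h5 := le_of_mul_le_mul_right h4 hz0
    exact_mod_cast h5
  · have h6 : (1048576 : ℝ) ≤ z := by linarith
    have h7 : (1048576 : ℕ) ≤ z := by exact_mod_cast h6
    norm_num
    exact h7

theorem exists_par (δ ε : ℝ) (hδ : 0 < δ) (hε : 0 < ε) : ∃ ϱ C κ η : ℝ, 1 ≤ ϱ ∧ 1 ≤ C ∧
    ∃ q₀ : ℕ, ∀ (q : ℕ) [Fact q.Prime], q₀ ≤ q → ∀ H : Subgroup (DirichletCharacter ℂ q),
      (Fintype.card (ann H) : ℝ) ≤ (q : ℝ) ^ (1 / 3 - δ) → (q : ℝ) ^ (2 / 3 : ℝ) ≤ (Fintype.card H : ℝ) →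
      ∃ z W R0 Hc L : ℕ, ∃ D : ℝ, AllH q z W R0 Hc L ϱ C D κ η H ∧
        (q : ℝ) ^ (-ε) * L ≤ 1 / 4 := by
  set η₀ : ℝ := min 1 ε / 1000000 with hη₀
  have hm0 : 0 < min 1 ε := lt_min one_pos hε
  have hη0 : 0 < η₀ := by rw [hη₀]; positivity
  have hη1 : η₀ ≤ 1 / 1000000 := by
    rw [hη₀]
    have := min_le_left 1 ε
    linarith
  have hηε : 1000000 * η₀ ≤ ε := by
    rw [hη₀]
    have := min_le_right 1 ε
    linarith
  obtain ⟨C, hC, hF⟩ := exists_Fm
  obtain ⟨κ, hκ, q1, hhigh⟩ := high_sum δ (η₀ / 2) hδ (by positivity)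
  obtain ⟨Cd, hCd, hdiv⟩ := divisor_bound (κ / 4) (by positivity)
  refine ⟨2 / η₀, C, κ, η₀ / 2, ?_, hC, ?_⟩
  · rw [le_div_iff₀ hη0]; linarith
  -- eventual facts
  have hlog : Tendsto (fun q : ℕ => Real.log (q : ℝ)) atTop atTop :=
    Real.tendsto_log_atTop.comp tendsto_natCast_atTop_atTop
  have hzt : Tendsto (fun q : ℕ => ((⌊(Real.log q) ^ (1 / 3 : ℝ)⌋₊ : ℕ) : ℝ)) atTop atTop :=
    tendsto_natCast_atTop_atTop.comp (tendsto_nat_floor_atTop.comp
      ((tendsto_rpow_atTop (by norm_num)).comp hlog))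
  have E1 := hzt.eventually_ge_atTop (max (2 / η₀) C)
  have E2 := hlog.eventually (ev_exp (16 * C) (η₀ / 4) (by positivity) 5)
  have E3 := hlog.eventually (ev_exp (4 : ℝ) (7 / 100) (by positivity) 0)
  have E4 := hlog.eventually (ev_exp (4 : ℝ) (ε / 2) (by positivity) 0)
  have E5 := hlog.eventually (ev_exp (3 * Cd ^ 2) (35 / 100 * κ) (by positivity) 1)
  have E6 := hlog.eventually (ev_exp 6 (1 / 100) (by positivity) 1)
  have E7 := hlog.eventually_ge_atTop 24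
  obtain ⟨q2, hq2⟩ := eventually_atTop.1 (E1.and (E2.and (E3.and (E4.and (E5.and (E6.and E7))))))
  refine ⟨max q1 q2, fun q _ hq H hK hH => ?_⟩
  obtain ⟨e1, e2, e3, e4, e5, e6, e7⟩ := hq2 q ((le_max_right _ _).trans hq)
  have hqpos : 0 < q := Nat.Prime.pos Fact.out
  have hqR : (0 : ℝ) < q := by exact_mod_cast hqpos
  have hqR1 : (1 : ℝ) ≤ q := by exact_mod_cast hqpos
  set Λ := Real.log q with hΛ
  obtain ⟨_, z3, z8⟩ := zfacts Λ (by linarith)
  have hηΛ : η₀ * Λ ≤ 1 / 1000000 * Λ := mul_le_mul_of_nonneg_right hη1 (by linarith)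
  have hηΛ' : 1000000 * (η₀ * Λ) ≤ ε * Λ := by
    calc 1000000 * (η₀ * Λ) = (1000000 * η₀) * Λ := by ring
      _ ≤ _ := mul_le_mul_of_nonneg_right hηε (by linarith)
  have hΛ0 : 0 < Λ := by linarith
  have hl4 : Real.log 4 ≤ 2 := by
    rw [show (4 : ℝ) = 2 ^ 2 by norm_num, Real.log_pow]
    have := Real.log_two_lt_d9
    push_cast
    linarith
  set z : ℕ := ⌊Λ ^ (1 / 3 : ℝ)⌋₊ with hz
  have hz1 : 2 / η₀ ≤ z := (le_max_left _ _).trans e1
  have hzC : C ≤ z := (le_max_right _ _).trans e1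
  set R0 : ℕ := ⌊η₀ * Λ / Real.log z⌋₊ with hR0
  obtain ⟨n1, n2, n3, n4, n5, n6, n7⟩ := num_facts hη0 hη1 z3 hz1 hR0
  set W : ℕ := z ^ 600 with hW
  set Hc : ℕ := z ^ R0 with hHc
  set L : ℕ := 4 ^ z * W ^ (10 * R0) * Hc with hL
  set D : ℝ := Cd * ((q : ℝ) ^ (13 / 10 : ℝ)) ^ (κ / 4) with hD
  have hz0 : 0 < z := by omega
  have hzR : (1048576 : ℝ) ≤ z := by
    have : ((4 ^ 10 : ℕ) : ℝ) ≤ z := Nat.cast_le.2 n6
    norm_num at this
    exact_mod_cast this
  have hlogHc : Real.log Hc = R0 * Real.log z := by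
    rw [hHc]; push_cast; rw [Real.log_pow]
  have hHc0 : (0 : ℝ) < Hc := by
    have : 0 < Hc := by rw [hHc]; positivity
    exact_mod_cast this
  have hHcexp : (Hc : ℝ) = Real.exp (R0 * Real.log z) := by
    rw [← hlogHc, Real.exp_log hHc0]
  have hsz : Sz2 q z W R0 Hc (2 / η₀) C := by
    refine { z64 := by omega, z3 := z3, z8 := z8, W := hW, zbig := n6, hHc := hHc, hlow := n1,
             hup := ?_, hϱ := ?_, hϱ0 := ?_, hC := hC, hCH := ?_, hCH2 := ?_ }
    · rw [Real.log_mul (by norm_num) hHc0.ne', hlogHc]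
      rw [← hΛ]
      linarith
    · rw [hlogHc, ← hΛ, div_mul_eq_mul_div, le_div_iff₀ hη0]
      linarith
    · rw [le_div_iff₀ hη0]; linarith
    · rw [← hΛ]
      have h1 : Λ ^ 4 ≤ (8 * (z : ℝ) ^ 3) ^ 4 := pow_le_pow_left₀ (by linarith) z8 4
      calc 8 * C * Λ ^ 4 * 8 ≤ 8 * z * (8 * (z : ℝ) ^ 3) ^ 4 * 8 := by gcongr
        _ = 262144 * (z : ℝ) ^ 13 := by ring
        _ ≤ (z : ℝ) ^ 17 * (z : ℝ) ^ 13 := by
            apply mul_le_mul_of_nonneg_right _ (by positivity)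
            calc (262144 : ℝ) ≤ z := by linarith
              _ ≤ (z : ℝ) ^ 17 := le_self_pow₀ (by linarith) (by norm_num)
        _ = _ := by ring
    · rw [← hΛ]
      refine e2.trans ?_
      apply Real.le_sqrt_of_sq_le
      rw [hHcexp, ← Real.exp_nat_mul]
      apply Real.exp_le_exp.2
      push_cast
      linarith
  have hlogL : (L : ℝ) ≤ Real.exp (6002 * η₀ * Λ) := by
    have h1 : (L : ℝ) = Real.exp (z * Real.log 4 + 10 * R0 * (600 * Real.log z) + R0 * Real.log z) := by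
      have h2 : Real.exp (z * Real.log 4) = (4 : ℝ) ^ z := by
        rw [Real.exp_nat_mul, Real.exp_log (by norm_num)]
      have h3 : Real.exp (10 * R0 * (600 * Real.log z)) = (W : ℝ) ^ (10 * R0) := by
        have h4 : (W : ℝ) = Real.exp (600 * Real.log z) := by
          rw [hW]; push_cast
          rw [show (600 : ℝ) = ((600 : ℕ) : ℝ) by norm_num, Real.exp_nat_mul,
            Real.exp_log (by linarith)]
        rw [h4, ← Real.exp_nat_mul]
        push_cast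
        ring_nf
      rw [Real.exp_add, Real.exp_add, h2, h3, ← hHcexp, hL]
      push_cast
      ring
    rw [h1]
    apply Real.exp_le_exp.2
    have h5 : (z : ℝ) * Real.log 4 ≤ z * 2 := mul_le_mul_of_nonneg_left hl4 (Nat.cast_nonneg _)
    have h6 : 10 * (R0 : ℝ) * (600 * Real.log z) = 6000 * (R0 * Real.log z) := by ring
    have h7 : 6002 * η₀ * Λ = 6002 * (η₀ * Λ) := by ring
    rw [h6, h7]
    linarith
  have hLA : ∀ i ∈ IM W z (10 * R0) Hc, AM i ≤ L := fun i hi =>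
    IM_size (by rw [hW]; exact Nat.one_le_pow _ _ hz0) hi
  refine ⟨z, W, R0, Hc, L, D, ?_, ?_⟩
  · refine { sz := hsz, hF := ?_, hK := ?_, hLA := hLA, hLc := IM_card hLA, hHL := ?_, hL4 := ?_,
             hD := ?_, hDκ := ?_, hη := ?_, hHigh := ?_, hH := hH, hbig := ?_ }
    · apply hF
      · have h1 : z ^ 1 ≤ z ^ 600 := Nat.pow_le_pow_right hz0 (by norm_num)
        rw [pow_one] at h1
        omega
      · rw [hW, hHc]
        exact Nat.pow_le_pow_right hz0 (by omega)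
    · refine hK.trans ?_
      exact Real.rpow_le_rpow_of_exponent_le hqR1 (by linarith)
    · rw [hL]
      exact Nat.le_mul_of_pos_left _ (by positivity)
    · rw [rpow_exp hqpos, ← hΛ]
      have h1 : (L : ℝ) ^ 4 ≤ Real.exp (4 * (6002 * η₀ * Λ)) := by
        calc (L : ℝ) ^ 4 ≤ Real.exp (6002 * η₀ * Λ) ^ 4 := pow_le_pow_left₀ (by positivity) hlogL 4
          _ = _ := by rw [← Real.exp_nat_mul]; norm_num
      calc 4 * (L : ℝ) ^ 4 ≤ Real.exp (7 / 100 * Λ) * Real.exp (4 * (6002 * η₀ * Λ)) := by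
            apply mul_le_mul _ h1 (by positivity) (Real.exp_pos _).le
            simpa using e3
        _ = Real.exp (7 / 100 * Λ + 4 * (6002 * η₀ * Λ)) := by rw [Real.exp_add]
        _ ≤ _ := by
            apply Real.exp_le_exp.2
            have h7 : 4 * (6002 * η₀ * Λ) = 24008 * (η₀ * Λ) := by ring
            rw [h7]
            linarith
    · intro n hn hnq
      refine (hdiv n hn.ne').trans ?_
      rw [hD]
      apply mul_le_mul_of_nonneg_left _ hCd.le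
      exact Real.rpow_le_rpow (Nat.cast_nonneg _) hnq (by positivity)
    · rw [hD, ← hΛ, rpow_exp hqpos, rpow_exp hqpos κ, ← hΛ]
      have h1 : (Cd * Real.exp (13 / 10 * Λ) ^ (κ / 4)) ^ 2 = Cd ^ 2 * Real.exp (65 / 100 * κ * Λ) := by
        rw [mul_pow, ← Real.exp_mul, ← Real.exp_nat_mul]
        congr 2
        push_cast
        ring
      rw [h1]
      calc Cd ^ 2 * Real.exp (65 / 100 * κ * Λ) * (1 + 2 * Λ) ≤
          Cd ^ 2 * Real.exp (65 / 100 * κ * Λ) * (3 * Λ) := by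
            apply mul_le_mul_of_nonneg_left _ (by positivity)
            linarith
        _ = (3 * Cd ^ 2 * Λ ^ 1) * Real.exp (65 / 100 * κ * Λ) := by ring
        _ ≤ Real.exp (35 / 100 * κ * Λ) * Real.exp (65 / 100 * κ * Λ) :=
            mul_le_mul_of_nonneg_right e5 (Real.exp_pos _).le
        _ = _ := by rw [← Real.exp_add]; ring_nf
    · rw [rpow_exp hqpos, ← hΛ, hHcexp]
      apply Real.exp_le_exp.2
      linarith
    · exact hhigh q ((le_max_left _ _).trans hq) (ann H) hK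
    · rw [rpow_exp hqpos, ← hΛ]
      refine le_trans ?_ e6
      rw [pow_one]
      linarith
  · rw [rpow_exp hqpos, ← hΛ]
    have h1 : (4 : ℝ) ≤ Real.exp (ε / 2 * Λ) := by simpa using e4
    have h2 : Real.exp (-ε * Λ) * L ≤ Real.exp (-(ε / 2 * Λ)) := by
      calc Real.exp (-ε * Λ) * L ≤ Real.exp (-ε * Λ) * Real.exp (6002 * η₀ * Λ) :=
            mul_le_mul_of_nonneg_left hlogL (Real.exp_pos _).le
        _ = Real.exp (-ε * Λ + 6002 * η₀ * Λ) := by rw [Real.exp_add]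
        _ ≤ _ := by
            apply Real.exp_le_exp.2
            have h7 : 6002 * η₀ * Λ = 6002 * (η₀ * Λ) := by ring
            have h8 : -ε * Λ = -(ε * Λ) := by ring
            have h9 : ε / 2 * Λ = (ε * Λ) / 2 := by ring
            have h10 : 0 < ε * Λ := by positivity
            rw [h7, h8, h9]
            linarith
    refine h2.trans ?_
    rw [Real.exp_neg, ← one_div]
    exact one_div_le_one_div_of_le (by norm_num) h1

end Pool.Agent.V8H32.NV
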