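import Pool.Agent.V8H32.NV.Fin2
import Pool.Agent.V8H32.Cos.Fin1

/-! The theorem for arbitrary subgroups. -/

set_option autoImplicit false

namespace Pool.Agent.V8H32.NV
open Finset Pool.Agent.R311.RES MeasureTheory Filter
open Pool.Agent.V8H32.Cos (evp mem_evp card_even)
open scoped Classical

/-- the constant in the theorem -/
noncomputable def cst (ϱ C : ℝ) (a : ℕ) : ℝ :=
  Real.Gamma (kap a) ^ 2 / (4 * ((320 * ϱ * C + 2) * (2 * ∫ p, mj a p)) + 1)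

lemma cst_pos {ϱ C : ℝ} (hϱ : 1 ≤ ϱ) (hC : 1 ≤ C) (a : ℕ) : 0 < cst ϱ C a := by
  unfold cst
  have h1 := gam_pos a
  have h2 := mj_nonneg a
  have h3 : 1 ≤ ϱ * C := by nlinarith
  have h4 : 0 ≤ (320 * ϱ * C + 2) * (2 * ∫ p, mj a p) := mul_nonneg (by linarith) (by linarith)
  positivity

section
variable {q : ℕ} [Fact q.Prime]

theorem cs_step' {z W R0 Hc L : ℕ} {ϱ C D κ η : ℝ} {H : Subgroup (DirichletCharacter ℂ q)}
    (A : AllH q z W R0 Hc L ϱ C D κ η H) (χ₀ : DirichletCharacter ℂ q) {a : ℕ} (ha : a ≤ 1)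
    (hpar : ∀ ψ : H, (χ₀ * (ψ : DirichletCharacter ℂ q)) (-1) = (-1) ^ a) {τ : ℝ} (hτ0 : 0 < τ)
    (hτ : τ * L ≤ 1 / 4) :
    cst ϱ C a * (Fintype.card H : ℝ) ≤
      ((univ.filter (fun ψ : H => τ ≤ ‖DirichletCharacter.LFunction
        (χ₀ * (ψ : DirichletCharacter ℂ q)) (1 / 2)‖)).card : ℝ) := by
  have h := cs_step A χ₀ ha hpar hτ0 hτ
  have hϱ := A.sz.hϱ0
  have hC := A.sz.hC
  have h2 := mj_nonneg a
  have h3 : 1 ≤ ϱ * C := by nlinarith
  have h4 : 0 ≤ (320 * ϱ * C + 2) * (2 * ∫ p, mj a p) := mul_nonneg (by linarith) (by linarith)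
  unfold cst
  rw [div_mul_eq_mul_div, div_le_iff₀ (by linarith)]
  set G := ((univ.filter (fun ψ : H => τ ≤ ‖DirichletCharacter.LFunction
        (χ₀ * (ψ : DirichletCharacter ℂ q)) (1 / 2)‖)).card : ℝ) with hG
  have hG0 : 0 ≤ G := Nat.cast_nonneg _
  nlinarith

end

theorem main_thm (δ ε : ℝ) (hδ : 0 < δ) (hε : 0 < ε) : ∃ c : ℝ, 0 < c ∧ ∃ q₀ : ℕ,
    ∀ (q : ℕ) [Fact q.Prime], q₀ ≤ q → ∀ H : Subgroup (DirichletCharacter ℂ q),
    (q : ℝ) ^ (2 / 3 + δ) ≤ (Fintype.card H : ℝ) → ∀ χ₀ : DirichletCharacter ℂ q,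
    c * (Fintype.card H : ℝ) ≤ ((univ.filter (fun ψ : H => (q : ℝ) ^ (-ε) ≤
      ‖DirichletCharacter.LFunction (χ₀ * (ψ : DirichletCharacter ℂ q)) (1 / 2)‖)).card : ℝ) := by
  obtain ⟨ϱ, C, κ, η, hϱ, hC, q1, h1⟩ := exists_par (δ / 2) ε (by positivity) hε
  set c := min (cst ϱ C 0) (cst ϱ C 1) / 2 with hc
  have hc0 : 0 < c := by
    have := lt_min (cst_pos hϱ hC 0) (cst_pos hϱ hC 1)
    rw [hc]; linarith
  have E : ∀ᶠ q : ℕ in atTop, (2 : ℝ) ≤ (q : ℝ) ^ (δ / 2) :=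
    ((tendsto_rpow_atTop (by positivity : 0 < δ / 2)).comp tendsto_natCast_atTop_atTop).eventually_ge_atTop 2
  obtain ⟨q2, hq2⟩ := eventually_atTop.1 E
  refine ⟨c, hc0, max q1 q2, fun q _ hq H hH χ₀ => ?_⟩
  have hqpos : 0 < q := Nat.Prime.pos Fact.out
  have hqR : (0 : ℝ) < q := by exact_mod_cast hqpos
  have e2 := hq2 q ((le_max_right _ _).trans hq)
  have hcard : (Fintype.card H : ℝ) ≤ 2 * (Fintype.card (evp H) : ℝ) := by exact_mod_cast card_even H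
  have hev : (q : ℝ) ^ (2 / 3 + δ / 2) ≤ (Fintype.card (evp H) : ℝ) := by
    have f1 : (q : ℝ) ^ (2 / 3 + δ) = (q : ℝ) ^ (2 / 3 + δ / 2) * (q : ℝ) ^ (δ / 2) := by
      rw [← Real.rpow_add hqR]; ring_nf
    rw [f1] at hH
    have f2 : 0 < (q : ℝ) ^ (2 / 3 + δ / 2) := by positivity
    nlinarith
  have hev23 : (q : ℝ) ^ (2 / 3 : ℝ) ≤ (Fintype.card (evp H) : ℝ) :=
    (Real.rpow_le_rpow_of_exponent_le (by exact_mod_cast hqpos) (by linarith)).trans hev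
  have hann : (Fintype.card (ann (evp H)) : ℝ) ≤ (q : ℝ) ^ (1 / 3 - δ / 2) := by
    have f1 := card_mul (evp H)
    have f2 : (Fintype.card (evp H) : ℝ) * (Fintype.card (ann (evp H)) : ℝ) ≤ (q : ℝ) ^ (2 / 3 + δ / 2) *
        (q : ℝ) ^ (1 / 3 - δ / 2) := by
      rw [← Real.rpow_add hqR, f1]
      norm_num
    have f3 : (q : ℝ) ^ (2 / 3 + δ / 2) * (Fintype.card (ann (evp H)) : ℝ) ≤
        (q : ℝ) ^ (2 / 3 + δ / 2) * (q : ℝ) ^ (1 / 3 - δ / 2) :=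
      (mul_le_mul_of_nonneg_right hev (Nat.cast_nonneg _)).trans f2
    exact le_of_mul_le_mul_left f3 (by positivity)
  obtain ⟨z, W, R0, Hc, L, D, A, hL⟩ := h1 q ((le_max_left _ _).trans hq) (evp H) hann hev23
  have key : ∀ a : ℕ, a ≤ 1 → χ₀ (-1) = (-1) ^ a →
      c * (Fintype.card H : ℝ) ≤ ((univ.filter (fun ψ : evp H => (q : ℝ) ^ (-ε) ≤
      ‖DirichletCharacter.LFunction (χ₀ * (ψ : DirichletCharacter ℂ q)) (1 / 2)‖)).card : ℝ) := by
    intro a ha hpar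
    have f1 := cs_step' A χ₀ ha (fun ψ => by
      rw [MulChar.mul_apply, (mem_evp.1 ψ.2).2, mul_one, hpar]) (by positivity) hL
    refine le_trans ?_ f1
    have f2 : 2 * c ≤ cst ϱ C a := by
      have : 2 * c = min (cst ϱ C 0) (cst ϱ C 1) := by rw [hc]; ring
      rw [this]
      interval_cases a
      · exact min_le_left _ _
      · exact min_le_right _ _
    calc c * (Fintype.card H : ℝ) ≤ c * (2 * (Fintype.card (evp H) : ℝ)) :=
          mul_le_mul_of_nonneg_left hcard hc0.le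
      _ = 2 * c * (Fintype.card (evp H) : ℝ) := by ring
      _ ≤ _ := mul_le_mul_of_nonneg_right f2 (Nat.cast_nonneg _)
  have hinj : ((univ.filter (fun ψ : evp H => (q : ℝ) ^ (-ε) ≤
      ‖DirichletCharacter.LFunction (χ₀ * (ψ : DirichletCharacter ℂ q)) (1 / 2)‖)).card : ℝ) ≤
      ((univ.filter (fun ψ : H => (q : ℝ) ^ (-ε) ≤
      ‖DirichletCharacter.LFunction (χ₀ * (ψ : DirichletCharacter ℂ q)) (1 / 2)‖)).card : ℝ) := by
    have : (univ.filter (fun ψ : evp H => (q : ℝ) ^ (-ε) ≤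
      ‖DirichletCharacter.LFunction (χ₀ * (ψ : DirichletCharacter ℂ q)) (1 / 2)‖)).card ≤
      (univ.filter (fun ψ : H => (q : ℝ) ^ (-ε) ≤
      ‖DirichletCharacter.LFunction (χ₀ * (ψ : DirichletCharacter ℂ q)) (1 / 2)‖)).card := by
      apply Finset.card_le_card_of_injOn
        (fun ψ : evp H => (⟨ψ.1, (mem_evp.1 ψ.2).1⟩ : H))
      · intro ψ hψ
        rw [mem_coe, mem_filter] at hψ ⊢
        exact ⟨mem_univ _, hψ.2⟩
      · intro ψ _ ψ' _ h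
        exact Subtype.ext (congrArg (fun t : H => (t : DirichletCharacter ℂ q)) h)
    exact_mod_cast this
  rcases DirichletCharacter.even_or_odd χ₀ with h | h
  · exact (key 0 (by norm_num) (by rw [pow_zero]; exact h)).trans hinj
  · exact (key 1 le_rfl (by rw [pow_one]; exact h)).trans hinj

end Pool.Agent.V8H32.NV
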