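import Pool.Agent.V8H32.NV.Int
import Pool.Agent.V8H32.Cos.Moll
import Pool.Agent.V8H32.Cos.Tr
import Pool.Agent.R311.RES.C1
import Pool.Agent.R311.RES.B1

/-! The mollified first moment over a coset. -/

set_option autoImplicit false

namespace Pool.Agent.V8H32.NV
open Finset Pool.Agent.R311.RES
open Pool.Agent.V8H32.Cos (pr cls tr tr_coset tr_shift tr_finset_sum vl vl_pos vl_lt vl_un un_vl
  sum_sign un_mul' un_one')
open scoped Classical

/-- divisor sums of the coefficients -/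
noncomputable def nu {ι : Type*} (I : Finset ι) (A : ι → ℕ) (c : ι → ℝ) (n : ℕ) : ℝ :=
  ∑ i ∈ I.filter (fun i => A i ∣ n), c i

lemma nu_abs {ι : Type*} (I : Finset ι) (A : ι → ℕ) (c : ι → ℝ) (hc : ∀ i ∈ I, |c i| ≤ 1)
    (hinj : Set.InjOn A I) {n : ℕ} (hn : 0 < n) : |nu I A c n| ≤ (n.divisors.card : ℝ) := by
  unfold nu
  refine (Finset.abs_sum_le_sum_abs _ _).trans ?_
  refine (Finset.sum_le_card_nsmul _ _ 1 (fun i hi => hc i (mem_filter.1 hi).1)).trans ?_
  rw [nsmul_eq_mul, mul_one]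
  have : (I.filter (fun i => A i ∣ n)).card ≤ n.divisors.card := by
    apply Finset.card_le_card_of_injOn A
    · intro i hi
      rw [mem_coe, mem_filter] at hi
      rw [mem_coe, Nat.mem_divisors]
      exact ⟨hi.2, hn.ne'⟩
    · intro i hi j hj h
      rw [mem_coe, mem_filter] at hi hj
      exact hinj hi.1 hj.1 h
  exact_mod_cast this

section
variable {q : ℕ} [Fact q.Prime]

/-- coefficients of the product of the L-value and the Dirichlet polynomial -/
noncomputable def FL {ι : Type*} (I : Finset ι) (A : ι → ℕ) (c : ι → ℝ) (g : (ZMod q)ˣ) : ℂ :=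
  ∑ i ∈ I, ((c i * (1 / Real.sqrt (A i)) : ℝ) : ℂ) * hzv q (g * (un q (A i))⁻¹)

lemma L_tr (χ : DirichletCharacter ℂ q) : DirichletCharacter.LFunction χ (1 / 2) = tr (hzv q) χ := by
  rw [L_half]
  unfold tr
  exact Finset.sum_congr rfl (fun a _ => mul_comm _ _)

lemma LM_tr {ι : Type*} (I : Finset ι) (A : ι → ℕ) (c : ι → ℝ) (hA : ∀ i ∈ I, (A i).Coprime q)
    (χ : DirichletCharacter ℂ q) :
    DirichletCharacter.LFunction χ (1 / 2) * Mof I A c χ = tr (FL I A c) χ := by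
  have h1 : DirichletCharacter.LFunction χ (1 / 2) * Mof I A c χ =
      ∑ i ∈ I, ((c i * (1 / Real.sqrt (A i)) : ℝ) : ℂ) * tr (fun g => hzv q (g * (un q (A i))⁻¹)) χ := by
    unfold Mof
    rw [Finset.mul_sum]
    apply Finset.sum_congr rfl
    intro i hi
    rw [← tr_shift (hzv q) χ (un q (A i)), ← L_tr, un_val (hA i hi)]
    ring
  rw [h1, tr_finset_sum]
  rfl

lemma one_div_sqrt_rpow (x : ℝ) (hx : 0 < x) : x ^ (-(1 / 2 : ℝ)) = 1 / Real.sqrt x := by
  rw [Real.rpow_neg hx.le, ← Real.sqrt_eq_rpow, one_div]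

lemma FL_term (g : (ZMod q)ˣ) {A : ℕ} (hA : 0 < A) (hAq : A < q) {c : ℝ} (hc : |c| ≤ 1) :
    ‖((c * (1 / Real.sqrt A) : ℝ) : ℂ) * hzv q (g * (un q A)⁻¹) -
      (((if A ∣ vl g then c else 0) * (1 / Real.sqrt (vl g)) : ℝ) : ℂ)‖ ≤ 4 / Real.sqrt q := by
  have hq0 : (0 : ℝ) < q := by exact_mod_cast (Nat.Prime.pos (Fact.out : q.Prime))
  have hsq : 0 < Real.sqrt (q : ℝ) := Real.sqrt_pos.2 hq0
  have hA0 : (0 : ℝ) < A := by exact_mod_cast hA
  have hA1 : (1 : ℝ) ≤ A := by exact_mod_cast hA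
  have hcop : A.Coprime q := cop_of_lt hA hAq
  set h := g * (un q A)⁻¹ with hh
  have hm0 : (0 : ℝ) < vl h := by exact_mod_cast vl_pos h
  have hn0 : (0 : ℝ) < vl g := by exact_mod_cast vl_pos g
  have hsA : 0 < Real.sqrt (A : ℝ) := Real.sqrt_pos.2 hA0
  have hsm : 0 < Real.sqrt (vl h : ℝ) := Real.sqrt_pos.2 hm0
  have hb : |c * (1 / Real.sqrt A)| ≤ 1 := by
    rw [abs_mul, abs_of_nonneg (a := 1 / Real.sqrt A) (by positivity)]
    exact mul_le_one₀ hc (by positivity) (inv_sqrt_le_one A)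
  have h1 : ‖hzv q h - ((1 / Real.sqrt (vl h) : ℝ) : ℂ)‖ ≤ 3 * (1 / Real.sqrt q) := by
    rw [← one_div_sqrt_rpow _ hm0, ← one_div_sqrt_rpow _ hq0]
    exact hzv_two h
  have h2 : ‖((c * (1 / Real.sqrt A) : ℝ) : ℂ) * hzv q h -
      ((c * (1 / Real.sqrt A) * (1 / Real.sqrt (vl h)) : ℝ) : ℂ)‖ ≤ 3 / Real.sqrt q := by
    rw [Complex.ofReal_mul (c * (1 / Real.sqrt A)), ← mul_sub, norm_mul, Complex.norm_real,
      Real.norm_eq_abs]
    calc |c * (1 / Real.sqrt A)| * ‖hzv q h - ((1 / Real.sqrt (vl h) : ℝ) : ℂ)‖ ≤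
        1 * (3 * (1 / Real.sqrt q)) := mul_le_mul hb h1 (norm_nonneg _) zero_le_one
      _ = _ := by ring
  have hcong : ((A * vl h : ℕ) : ZMod q) = ((vl g : ℕ) : ZMod q) := by
    have e1 : un q A * un q (vl h) = un q (vl g) := by
      rw [un_vl, un_vl, hh, mul_comm, inv_mul_cancel_right]
    have c1 : (vl h).Coprime q := cop_of_lt (vl_pos h) (vl_lt h)
    have c2 : (vl g).Coprime q := cop_of_lt (vl_pos g) (vl_lt g)
    rw [← un_mul' hcop c1] at e1
    rw [← un_val (hcop.mul_left c1), ← un_val c2, e1]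
  by_cases hd : A ∣ vl g
  · rw [if_pos hd]
    obtain ⟨k, hk⟩ := hd
    have hk0 : 0 < k := by
      rcases Nat.eq_zero_or_pos k with h0 | h0
      · have := vl_pos g
        rw [hk, h0, mul_zero] at this
        omega
      · exact h0
    have hkq : k < q := by
      have := vl_lt g
      rw [hk] at this
      exact lt_of_le_of_lt (Nat.le_mul_of_pos_left _ hA) this
    have e1 : vl h = k := by
      have e2 : un q k = h := by
        rw [hh, eq_mul_inv_iff_mul_eq, mul_comm, ← un_mul' hcop (cop_of_lt hk0 hkq), ← hk, un_vl]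
      rw [← e2, vl_un hk0 hkq]
    have e3 : c * (1 / Real.sqrt A) * (1 / Real.sqrt (vl h)) = c * (1 / Real.sqrt (vl g)) := by
      rw [e1, hk]
      push_cast
      rw [Real.sqrt_mul hA0.le]
      rw [one_div, one_div, one_div, mul_inv]
      ring
    rw [e3] at h2
    refine h2.trans ?_
    apply div_le_div_of_nonneg_right _ hsq.le
    norm_num
  · rw [if_neg hd, zero_mul, Complex.ofReal_zero, sub_zero]
    have hge : q ≤ A * vl h := by
      by_contra hcon
      push Not at hcon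
      rw [ZMod.natCast_eq_natCast_iff'] at hcong
      rw [Nat.mod_eq_of_lt hcon, Nat.mod_eq_of_lt (vl_lt g)] at hcong
      exact hd ⟨_, hcong.symm⟩
    have h3 : ‖((c * (1 / Real.sqrt A) * (1 / Real.sqrt (vl h)) : ℝ) : ℂ)‖ ≤ 1 / Real.sqrt q := by
      rw [Complex.norm_real, Real.norm_eq_abs, mul_assoc, abs_mul,
        abs_of_nonneg (a := 1 / Real.sqrt A * (1 / Real.sqrt (vl h))) (by positivity)]
      have e4 : 1 / Real.sqrt A * (1 / Real.sqrt (vl h)) = 1 / Real.sqrt ((A : ℝ) * vl h) := by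
        rw [Real.sqrt_mul hA0.le, one_div, one_div, one_div, mul_inv]
      rw [e4]
      have e5 : Real.sqrt q ≤ Real.sqrt ((A : ℝ) * vl h) := Real.sqrt_le_sqrt (by exact_mod_cast hge)
      calc |c| * (1 / Real.sqrt ((A : ℝ) * vl h)) ≤ 1 * (1 / Real.sqrt q) :=
            mul_le_mul hc (one_div_le_one_div_of_le hsq e5) (by positivity) zero_le_one
        _ = _ := one_mul _
    calc ‖((c * (1 / Real.sqrt A) : ℝ) : ℂ) * hzv q h‖ = ‖(((c * (1 / Real.sqrt A) : ℝ) : ℂ) * hzv q h -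
          ((c * (1 / Real.sqrt A) * (1 / Real.sqrt (vl h)) : ℝ) : ℂ)) +
          ((c * (1 / Real.sqrt A) * (1 / Real.sqrt (vl h)) : ℝ) : ℂ)‖ := by congr 1; ring
      _ ≤ 3 / Real.sqrt q + 1 / Real.sqrt q := (norm_add_le _ _).trans (add_le_add h2 h3)
      _ = _ := by ring

lemma FL_approx {ι : Type*} (I : Finset ι) (A : ι → ℕ) (c : ι → ℝ) (hA : ∀ i ∈ I, 0 < A i ∧ A i < q)
    (hc : ∀ i ∈ I, |c i| ≤ 1) (g : (ZMod q)ˣ) :
    ‖FL I A c g - ((nu I A c (vl g) * (1 / Real.sqrt (vl g)) : ℝ) : ℂ)‖ ≤ I.card * (4 / Real.sqrt q) := by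
  have h1 : nu I A c (vl g) * (1 / Real.sqrt (vl g)) =
      ∑ i ∈ I, (if A i ∣ vl g then c i else 0) * (1 / Real.sqrt (vl g)) := by
    unfold nu
    rw [Finset.sum_filter, Finset.sum_mul]
  rw [h1, Complex.ofReal_sum]
  unfold FL
  rw [← Finset.sum_sub_distrib]
  refine (norm_sum_le _ _).trans ?_
  refine (Finset.sum_le_card_nsmul I _ (4 / Real.sqrt q) (fun i hi => ?_)).trans
    (le_of_eq (nsmul_eq_mul _ _))
  exact FL_term g (hA i hi).1 (hA i hi).2 (hc i hi)

end

/-! ### the coefficients of the mollified value -/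

section
variable {q z W R0 Hc : ℕ} {ϱ C : ℝ}

lemma filter_IM (h : Sz2 q z W R0 Hc ϱ C) {n : ℕ} (hn : 0 < n) (hnH : n ≤ Hc) :
    (IM W z (10 * R0) Hc).filter (fun i => AM i ∣ n) =
      (n.primeFactors.filter (fun p => p ≤ W)).powerset ×ˢ
        (RR (primorial W) Hc).filter (fun d => d ∣ n) := by
  ext i
  rw [mem_filter, mem_IM, mem_product, mem_powerset, mem_filter]
  constructor
  · rintro ⟨⟨⟨a1, a2⟩, a3⟩, a4⟩
    unfold AM at a4
    refine ⟨?_, a3, (dvd_mul_left _ _).trans a4⟩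
    intro p hp
    have b1 := a1 hp
    rw [mem_filter, mem_Icc] at b1
    rw [mem_filter, Nat.mem_primeFactors]
    exact ⟨⟨b1.2, ((Finset.dvd_prod_of_mem _ hp).trans (dvd_mul_right _ _)).trans a4, hn.ne'⟩, b1.1.2⟩
  · rintro ⟨a1, a2, a3⟩
    have hpr : ∀ p ∈ i.1, p.Prime ∧ p ∣ n ∧ p ≤ W := by
      intro p hp
      have := a1 hp
      rw [mem_filter, Nat.mem_primeFactors] at this
      exact ⟨this.1.1, this.1.2.1, this.2⟩
    refine ⟨⟨⟨?_, ?_⟩, a2⟩, ?_⟩
    · intro p hp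
      rw [mem_filter, mem_Icc]
      exact ⟨⟨(hpr p hp).1.one_lt.le, (hpr p hp).2.2⟩, (hpr p hp).1⟩
    · have hz2 : 1 < z := by have := h.zbig; omega
      have h1 : z ^ (i.1.filter (fun p => z < p)).card ≤ z ^ R0 := by
        rw [← h.hHc]
        calc z ^ (i.1.filter (fun p => z < p)).card = ∏ _p ∈ i.1.filter (fun p => z < p), z := by
              rw [Finset.prod_const]
          _ ≤ ∏ p ∈ i.1.filter (fun p => z < p), p :=
              Finset.prod_le_prod' fun p hp => (mem_filter.1 hp).2.le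
          _ ≤ n := by
              apply Nat.le_of_dvd hn
              refine (Finset.prod_dvd_prod_of_subset _ n.primeFactors _ ?_).trans (Nat.prod_primeFactors_dvd n)
              intro p hp
              have := hpr p (mem_filter.1 hp).1
              exact Nat.mem_primeFactors.2 ⟨this.1, this.2.1, hn.ne'⟩
          _ ≤ Hc := hnH
      have := (Nat.pow_le_pow_iff_right hz2).1 h1
      omega
    · unfold AM
      apply Nat.Coprime.mul_dvd_of_dvd_of_dvd _ _ a3
      · have hco := (mem_RR.1 a2).2.2.2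
        apply Nat.Coprime.coprime_dvd_left _ hco.symm
        rw [← pr_primes]
        apply Finset.prod_dvd_prod_of_subset
        intro p hp
        rw [mem_filter, mem_Icc]
        exact ⟨⟨(hpr p hp).1.one_lt.le, (hpr p hp).2.2⟩, (hpr p hp).1⟩
      · refine (Finset.prod_dvd_prod_of_subset _ n.primeFactors _ ?_).trans (Nat.prod_primeFactors_dvd n)
        intro p hp
        have := hpr p hp
        exact Nat.mem_primeFactors.2 ⟨this.1, this.2.1, hn.ne'⟩

lemma nu_IM (h : Sz2 q z W R0 Hc ϱ C) {n : ℕ} (hn : 0 < n) (hnH : n ≤ Hc) :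
    nu (IM W z (10 * R0) Hc) AM (cM' Hc) n =
      (if n.primeFactors.filter (fun p => p ≤ W) = ∅ then 1 else 0) *
        ∑ d ∈ (RR (primorial W) Hc).filter (fun d => d ∣ n), lam Hc d := by
  unfold nu
  rw [filter_IM h hn hnH, ← sum_sign, Finset.sum_product, Finset.sum_mul]
  apply Finset.sum_congr rfl
  intro S _
  rw [Finset.mul_sum]
  rfl

lemma lam_sum_le {n : ℕ} (hn : 0 < n) :
    |∑ d ∈ (RR (primorial W) Hc).filter (fun d => d ∣ n), lam Hc d| ≤
      2 ^ (n.primeFactors.filter (fun p => W < p)).card := by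
  refine (Finset.abs_sum_le_sum_abs _ _).trans ?_
  refine (Finset.sum_le_card_nsmul _ _ 1 (fun d hd => lam_abs' (mem_filter.1 hd).1)).trans ?_
  rw [nsmul_eq_mul, mul_one]
  have h1 : ((RR (primorial W) Hc).filter (fun d => d ∣ n)).card ≤
      (n.primeFactors.filter (fun p => W < p)).powerset.card := by
    apply Finset.card_le_card_of_injOn (fun d => d.primeFactors)
    · intro d hd
      rw [mem_coe, mem_filter] at hd
      rw [mem_coe, mem_powerset]
      intro p hp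
      rw [mem_filter, Nat.mem_primeFactors]
      exact ⟨⟨Nat.prime_of_mem_primeFactors hp, (Nat.dvd_of_mem_primeFactors hp).trans hd.2, hn.ne'⟩,
        (mem_PR.1 (RR_pf hd.1 hp)).2.1⟩
    · intro d hd d' hd' he
      rw [mem_coe, mem_filter] at hd hd'
      rw [← RR_pr hd.1, ← RR_pr hd'.1]
      simp only at he
      rw [he]
  rw [card_powerset] at h1
  exact_mod_cast h1

lemma nu_one (h : Sz2 q z W R0 Hc ϱ C) : nu (IM W z (10 * R0) Hc) AM (cM' Hc) 1 = 1 := by
  obtain ⟨g1, _, _, g4, _, _, _⟩ := h.HcR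
  obtain ⟨s1, _⟩ := h.small
  have hHc1 : 1 ≤ Hc := by exact_mod_cast s1
  rw [nu_IM h one_pos hHc1]
  have h1 : (RR (primorial W) Hc).filter (fun d => d ∣ 1) = {1} := by
    ext d
    rw [mem_filter, mem_RR, mem_singleton, Nat.dvd_one]
    constructor
    · intro h; exact h.2
    · rintro rfl
      exact ⟨⟨le_rfl, hHc1, squarefree_one, Nat.coprime_one_left _⟩, rfl⟩
  rw [h1, Finset.sum_singleton]
  simp only [Nat.primeFactors_one, Finset.filter_empty, if_true, one_mul]
  unfold lam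
  rw [ArithmeticFunction.moebius_apply_one, Nat.cast_one, div_one, div_self (by linarith)]
  norm_num

lemma nu_low (h : Sz2 q z W R0 Hc ϱ C) {n : ℕ} (hn : 1 < n) (hnH : n ≤ Hc) :
    |nu (IM W z (10 * R0) Hc) AM (cM' Hc) n| ≤
      (if 1 ≤ ro W (n, 1) ∧ sm W (n, 1) ≤ 1 then 4 ^ ro W (n, 1) else 0) := by
  rw [nu_IM h (by omega) hnH]
  have hPF : PF (n, 1) = n.primeFactors := by
    unfold PF; simp
  have hro : ro W (n, 1) = (n.primeFactors.filter (fun p => W < p)).card := by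
    unfold ro; rw [hPF]
  have hsm : sm W (n, 1) = (n.primeFactors.filter (fun p => p ≤ W)).card := by
    unfold sm; rw [hPF]
  by_cases he : n.primeFactors.filter (fun p => p ≤ W) = ∅
  · have h0 : sm W (n, 1) = 0 := by rw [hsm, he, card_empty]
    have h1 := PF_card W (w := (n, 1)) (Nat.coprime_one_right n)
    have h2 : 0 < n.primeFactors.card := card_pos.2 (Nat.nonempty_primeFactors.2 hn)
    simp only [Nat.primeFactors_one, card_empty, add_zero] at h1
    rw [if_pos he, one_mul, if_pos ⟨by omega, by omega⟩]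
    refine (lam_sum_le (by omega)).trans ?_
    rw [hro]
    exact pow_le_pow_left₀ (by norm_num) (by norm_num) _
  · rw [if_neg he, zero_mul, abs_zero]
    split_ifs <;> positivity

end

section
variable {q : ℕ} [Fact q.Prime]

lemma L_one : ‖DirichletCharacter.LFunction (1 : DirichletCharacter ℂ q) (1 / 2)‖ ≤ 4 * Real.sqrt q := by
  have hq0 : 0 < q := Nat.Prime.pos Fact.out
  rw [L_tr]
  unfold tr
  refine (norm_sum_le _ _).trans ?_
  have h1 : ∀ g : (ZMod q)ˣ, ‖hzv q g * (1 : DirichletCharacter ℂ q) (g : ZMod q)‖ ≤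
      2 * (vl g : ℝ) ^ (-(1 / 2 : ℝ)) := by
    intro g
    rw [norm_mul]
    have e1 := hzv_norm g
    have e2 := DirichletCharacter.norm_le_one (1 : DirichletCharacter ℂ q) (g : ZMod q)
    calc ‖hzv q g‖ * ‖(1 : DirichletCharacter ℂ q) (g : ZMod q)‖ ≤ ‖hzv q g‖ * 1 :=
          mul_le_mul_of_nonneg_left e2 (norm_nonneg _)
      _ ≤ _ := by rw [mul_one]; exact e1
  refine (Finset.sum_le_sum fun g _ => h1 g).trans ?_
  rw [← Finset.mul_sum]
  have h2 : ∑ g : (ZMod q)ˣ, (vl g : ℝ) ^ (-(1 / 2 : ℝ)) ≤ ∑ n ∈ Icc 1 q, (n : ℝ) ^ (-(1 / 2 : ℝ)) := by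
    have hinj : Set.InjOn (fun g : (ZMod q)ˣ => vl g) (univ : Finset (ZMod q)ˣ) := by
      intro g _ g' _ h
      have h' : vl g = vl g' := h
      rw [← un_vl (q := q) g, ← un_vl (q := q) g', h']
    rw [← Finset.sum_image (f := fun n : ℕ => (n : ℝ) ^ (-(1 / 2 : ℝ))) hinj]
    apply Finset.sum_le_sum_of_subset_of_nonneg
    · intro n hn
      rw [mem_image] at hn
      obtain ⟨g, _, rfl⟩ := hn
      rw [mem_Icc]
      exact ⟨vl_pos g, (vl_lt g).le⟩
    · intro n _ _
      positivity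
  have h3 := sum_rsqrt q
  linarith

theorem first_moment' {z W R0 Hc L : ℕ} {ϱ C D κ η : ℝ} {H : Subgroup (DirichletCharacter ℂ q)}
    (A : AllH q z W R0 Hc L ϱ C D κ η H) (χ₀ : DirichletCharacter ℂ q) :
    (3 / 4 : ℝ) * (Fintype.card H : ℝ) ≤
    ‖∑ ψ ∈ univ.filter (fun ψ : H => χ₀ * (ψ : DirichletCharacter ℂ q) ≠ 1),
      DirichletCharacter.LFunction (χ₀ * (ψ : DirichletCharacter ℂ q)) (1 / 2) *
        Mfn z W R0 Hc (χ₀ * (ψ : DirichletCharacter ℂ q))‖ := by
  have hqone : 1 < q := Nat.Prime.one_lt Fact.out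
  have hqR1 : (1 : ℝ) < q := by exact_mod_cast hqone
  have hq0 : (0 : ℝ) < q := by linarith
  have hsz := A.sz
  obtain ⟨s1, _⟩ := hsz.small
  have hHc1 : 1 ≤ Hc := by exact_mod_cast s1
  have hL1 : 1 ≤ L := hHc1.trans A.hHL
  have hLR : (1 : ℝ) ≤ L := by exact_mod_cast hL1
  have hΛ1 := hsz.toSz.L1
  have hzR := hsz.zR
  have hΛbig : 1000 ≤ Real.log q := by
    have := hsz.toSz.z3
    have e1 : (z : ℝ) ≤ (z : ℝ) ^ 3 := le_self_pow₀ (by linarith) (by norm_num)
    linarith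
  have hHpos : (0 : ℝ) < (Fintype.card H : ℝ) := lt_of_lt_of_le (by positivity) A.hH
  have h4L : 4 * (L : ℝ) ≤ (q : ℝ) ^ (1 / 10 : ℝ) := by
    have e1 : (L : ℝ) ≤ (L : ℝ) ^ 4 := le_self_pow₀ hLR (by norm_num)
    linarith [A.hL4]
  have hLq : L < q := by
    have e2 : (L : ℝ) < q := by
      calc (L : ℝ) ≤ (q : ℝ) ^ (1 / 10 : ℝ) := by linarith
        _ < (q : ℝ) ^ (1 : ℝ) := Real.rpow_lt_rpow_of_exponent_lt hqR1 (by norm_num)
        _ = q := Real.rpow_one _
    exact_mod_cast e2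
  -- a small quantity
  have hsmall : (q : ℝ) ^ (-(1 / 15 : ℝ)) ≤ 1 / 4000 := by
    have e1 : (4000 : ℝ) ≤ (q : ℝ) ^ (1 / 15 : ℝ) := by
      calc (4000 : ℝ) ≤ (q : ℝ) ^ (1 / 100 : ℝ) := by linarith [A.hbig]
        _ ≤ _ := Real.rpow_le_rpow_of_exponent_le hqR1.le (by norm_num)
    rw [Real.rpow_neg hq0.le, ← one_div]
    exact one_div_le_one_div_of_le (by norm_num) e1
  have hsqrt : Real.sqrt q = (q : ℝ) ^ (1 / 2 : ℝ) := Real.sqrt_eq_rpow _
  have hLs : (L : ℝ) * (4 / Real.sqrt q) ≤ (q : ℝ) ^ (-(4 / 10 : ℝ)) := by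
    rw [hsqrt]
    calc (L : ℝ) * (4 / (q : ℝ) ^ (1 / 2 : ℝ)) = 4 * L / (q : ℝ) ^ (1 / 2 : ℝ) := by ring
      _ ≤ (q : ℝ) ^ (1 / 10 : ℝ) / (q : ℝ) ^ (1 / 2 : ℝ) := div_le_div_of_nonneg_right h4L (by positivity)
      _ = _ := by rw [← Real.rpow_sub hq0]; norm_num
  set I := IM W z (10 * R0) Hc with hI
  set c := cM' Hc with hc
  have hA1 : ∀ i ∈ I, 0 < AM i ∧ AM i < q := fun i hi => ⟨AM_pos hi, lt_of_le_of_lt (A.hLA i hi) hLq⟩
  have hc1 : ∀ i ∈ I, |c i| ≤ 1 := fun i hi => cM_abs' hi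
  have hcardI : (I.card : ℝ) ≤ L := by exact_mod_cast A.hLc
  have happ : ∀ g : (ZMod q)ˣ, ‖FL I AM c g - ((nu I AM c (vl g) * (1 / Real.sqrt (vl g)) : ℝ) : ℂ)‖ ≤
      (q : ℝ) ^ (-(4 / 10 : ℝ)) := by
    intro g
    refine (FL_approx I AM c hA1 hc1 g).trans (le_trans ?_ hLs)
    exact mul_le_mul_of_nonneg_right hcardI (by positivity)
  -- the sum over the whole coset
  have hall : ∑ ψ : H, DirichletCharacter.LFunction (χ₀ * (ψ : DirichletCharacter ℂ q)) (1 / 2) *
        Mfn z W R0 Hc (χ₀ * (ψ : DirichletCharacter ℂ q)) =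
      (Fintype.card H : ℂ) * ∑ g : (ZMod q)ˣ, (if g ∈ ann H then FL I AM c g else 0) * χ₀ (g : ZMod q) := by
    have e1 : ∀ ψ : H, DirichletCharacter.LFunction (χ₀ * (ψ : DirichletCharacter ℂ q)) (1 / 2) *
        Mfn z W R0 Hc (χ₀ * (ψ : DirichletCharacter ℂ q)) =
        tr (FL I AM c) (χ₀ * (ψ : DirichletCharacter ℂ q)) := by
      intro ψ
      exact LM_tr I AM c (fun i hi => cop_of_lt (hA1 i hi).1 (hA1 i hi).2) _
    rw [Finset.sum_congr rfl (fun ψ _ => e1 ψ), tr_coset]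
    rfl
  -- the terms different from one
  set T := univ.filter (fun g : (ZMod q)ˣ => g ∈ ann H ∧ g ≠ 1) with hT
  have hsplit : ∑ g : (ZMod q)ˣ, (if g ∈ ann H then FL I AM c g else 0) * χ₀ (g : ZMod q) =
      FL I AM c (1 : (ZMod q)ˣ) + ∑ g ∈ T, FL I AM c g * χ₀ (g : ZMod q) := by
    rw [← Finset.add_sum_erase univ _ (mem_univ (1 : (ZMod q)ˣ)), if_pos (one_mem _)]
    congr 1
    · simp
    · rw [hT, Finset.sum_filter]
      have e1 : univ.erase (1 : (ZMod q)ˣ) = univ.filter (fun g => g ≠ 1) := by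
        ext g; simp
      rw [e1, Finset.sum_filter]
      apply Finset.sum_congr rfl
      intro g _
      by_cases h1 : g = 1
      · simp [h1]
      · by_cases h2 : g ∈ ann H
        · simp [h1, h2]
        · simp [h2]
  have hone : ‖FL I AM c (1 : (ZMod q)ˣ) - 1‖ ≤ (q : ℝ) ^ (-(4 / 10 : ℝ)) := by
    have e1 := happ 1
    have e2 : vl (1 : (ZMod q)ˣ) = 1 := by
      have := vl_un (q := q) one_pos hqone
      rwa [un_one'] at this
    rw [e2, nu_one hsz] at e1
    simpa using e1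
  have hD1 : 1 ≤ D := by
    have := A.hD 1 one_pos (by rw [Nat.cast_one]; exact Real.one_le_rpow hqR1.le (by norm_num))
    simpa using this
  have hTsum : ∑ g ∈ T, ‖FL I AM c g * χ₀ (g : ZMod q)‖ ≤ 1 / 8 := by
    have e1 : ∀ g ∈ T, ‖FL I AM c g * χ₀ (g : ZMod q)‖ ≤
        |nu I AM c (vl g)| * (1 / Real.sqrt (vl g)) + (q : ℝ) ^ (-(4 / 10 : ℝ)) := by
      intro g _
      have f1 : ‖χ₀ (g : ZMod q)‖ = 1 := χ₀.unit_norm_eq_one _
      rw [norm_mul, f1, mul_one]
      calc ‖FL I AM c g‖ = ‖((nu I AM c (vl g) * (1 / Real.sqrt (vl g)) : ℝ) : ℂ) +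
            (FL I AM c g - ((nu I AM c (vl g) * (1 / Real.sqrt (vl g)) : ℝ) : ℂ))‖ := by congr 1; ring
        _ ≤ ‖((nu I AM c (vl g) * (1 / Real.sqrt (vl g)) : ℝ) : ℂ)‖ + (q : ℝ) ^ (-(4 / 10 : ℝ)) :=
            (norm_add_le _ _).trans (add_le_add_right (happ g) _)
        _ = _ := by
            rw [Complex.norm_real, Real.norm_eq_abs, abs_mul,
              abs_of_nonneg (a := 1 / Real.sqrt (vl g)) (by positivity)]
    refine (Finset.sum_le_sum e1).trans ?_
    rw [Finset.sum_add_distrib]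
    have t2 : ∑ _g ∈ T, (q : ℝ) ^ (-(4 / 10 : ℝ)) ≤ 1 / 100 := by
      rw [Finset.sum_const, nsmul_eq_mul]
      have f1 : (T.card : ℝ) ≤ (q : ℝ) ^ (1 / 3 : ℝ) := by
        refine le_trans ?_ A.hK
        rw [Fintype.card_subtype]
        have : T.card ≤ (univ.filter (fun g : (ZMod q)ˣ => g ∈ ann H)).card := by
          apply card_le_card
          intro g hg
          rw [hT, mem_filter] at hg
          rw [mem_filter]
          exact ⟨mem_univ _, hg.2.1⟩
        exact_mod_cast this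
      calc (T.card : ℝ) * (q : ℝ) ^ (-(4 / 10 : ℝ)) ≤ (q : ℝ) ^ (1 / 3 : ℝ) * (q : ℝ) ^ (-(4 / 10 : ℝ)) :=
            mul_le_mul_of_nonneg_right f1 (by positivity)
        _ = (q : ℝ) ^ (-(1 / 15 : ℝ)) := by rw [← Real.rpow_add hq0]; norm_num
        _ ≤ _ := hsmall.trans (by norm_num)
    have t1 : ∑ g ∈ T, |nu I AM c (vl g)| * (1 / Real.sqrt (vl g)) ≤ 1 / 100 + 1 / 100 := by
      set φ : ℕ × ℕ → ℝ := fun w => |nu I AM c w.1| * (1 / Real.sqrt ((w.1 : ℝ) * w.2)) with hφ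
      have hinj : Set.InjOn (fun g : (ZMod q)ˣ => (vl g, 1)) (T : Set (ZMod q)ˣ) := by
        intro g _ g' _ h
        have h' : vl g = vl g' := (Prod.mk.inj h).1
        rw [← un_vl (q := q) g, ← un_vl (q := q) g', h']
      have f1 : ∑ g ∈ T, |nu I AM c (vl g)| * (1 / Real.sqrt (vl g)) =
          ∑ w ∈ T.image (fun g : (ZMod q)ˣ => (vl g, 1)), φ w := by
        rw [Finset.sum_image hinj]
        apply Finset.sum_congr rfl
        intro g _
        rw [hφ]
        simp only [Nat.cast_one, mul_one]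
      rw [f1]
      have hwm : ∀ w ∈ T.image (fun g : (ZMod q)ˣ => (vl g, 1)), w ∈ KR q (ann H) q ∧ w.2 = 1 ∧ 1 < w.1 ∧
          w.1 < q := by
        intro w hw
        rw [mem_image] at hw
        obtain ⟨g, hg, rfl⟩ := hw
        rw [hT, mem_filter] at hg
        have g1 := vl_pos g
        have g2 := vl_lt g
        have g3 : (vl g).Coprime q := cop_of_lt g1 g2
        have g4 : vl g ≠ 1 := by
          intro h
          apply hg.2.2
          rw [← un_vl g, h, un_one']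
        refine ⟨?_, rfl, by simp only; omega, g2⟩
        rw [mem_KR]
        refine ⟨⟨g1, g2.le⟩, ⟨le_rfl, by simp only; omega⟩, Nat.coprime_one_right _, g3,
          Nat.coprime_one_left _, ?_⟩
        simp only
        rw [cls_one_right, un_vl]
        exact hg.2.1
      rw [← Finset.sum_filter_add_sum_filter_not _ (fun w : ℕ × ℕ => w.1 * w.2 ≤ Hc)]
      apply add_le_add
      · have g1 : ∑ w ∈ (T.image (fun g : (ZMod q)ˣ => (vl g, 1))).filter (fun w => w.1 * w.2 ≤ Hc), φ w ≤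
            ∑ w ∈ (KR q (ann H) q).filter (fun w => w.1 * w.2 ≤ Hc ∧ 1 ≤ ro W w ∧ sm W w ≤ 1),
              4 ^ ro W w * (1 / Real.sqrt ((w.1 : ℝ) * w.2)) := by
          have g2 : ∀ w ∈ (T.image (fun g : (ZMod q)ˣ => (vl g, 1))).filter (fun w => w.1 * w.2 ≤ Hc),
              φ w ≤ (if 1 ≤ ro W w ∧ sm W w ≤ 1 then
                4 ^ ro W w * (1 / Real.sqrt ((w.1 : ℝ) * w.2)) else 0) := by
            intro w hw
            rw [mem_filter] at hw
            obtain ⟨_, k2, k3, _⟩ := hwm w hw.1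
            have k4 : w.1 ≤ Hc := by have := hw.2; rwa [k2, mul_one] at this
            have k5 := nu_low hsz k3 k4
            have k6 : w = (w.1, 1) := Prod.ext rfl k2
            rw [← k6] at k5
            rw [hφ]
            simp only
            split_ifs with k7
            · rw [if_pos k7] at k5
              exact mul_le_mul_of_nonneg_right k5 (by positivity)
            · rw [if_neg k7] at k5
              have : |nu I AM c w.1| = 0 := le_antisymm k5 (abs_nonneg _)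
              rw [this, zero_mul]
          refine (Finset.sum_le_sum g2).trans ?_
          rw [← Finset.sum_filter]
          apply Finset.sum_le_sum_of_subset_of_nonneg
          · intro w hw
            rw [mem_filter, mem_filter] at hw
            rw [mem_filter]
            exact ⟨(hwm w hw.1.1).1, hw.1.2, hw.2⟩
          · intro w _ _
            positivity
        refine g1.trans ((low_sum (ann H) q Hc z W hsz.toSz A.hK hsz.hup).trans ?_)
        apply one_div_le_one_div_of_le (by norm_num)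
        calc (100 : ℝ) ≤ z := by linarith
          _ ≤ (z : ℝ) ^ 30 := le_self_pow₀ (by linarith) (by norm_num)
      · have g1 : ∑ w ∈ (T.image (fun g : (ZMod q)ˣ => (vl g, 1))).filter (fun w => ¬ w.1 * w.2 ≤ Hc), φ w ≤
            D * ∑ w ∈ (KR q (ann H) q).filter (fun w => (q : ℝ) ^ η ≤ (w.1 : ℝ) * w.2 ∧
              (w.1 : ℝ) * w.2 ≤ (q : ℝ) ^ (13 / 10 : ℝ)), 1 / Real.sqrt ((w.1 : ℝ) * w.2) := by
          rw [Finset.mul_sum]
          have hq13 : (q : ℝ) ≤ (q : ℝ) ^ (13 / 10 : ℝ) := by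
            nth_rw 1 [← Real.rpow_one (q : ℝ)]
            exact Real.rpow_le_rpow_of_exponent_le hqR1.le (by norm_num)
          refine le_trans (Finset.sum_le_sum (g := fun w => D * (1 / Real.sqrt ((w.1 : ℝ) * w.2))) ?_) ?_
          · intro w hw
            rw [mem_filter] at hw
            obtain ⟨_, k2, k3, k4⟩ := hwm w hw.1
            apply mul_le_mul_of_nonneg_right _ (by positivity)
            refine (nu_abs I AM c hc1 (AM_inj W z (10 * R0) Hc) (by omega)).trans ?_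
            apply A.hD _ (by omega)
            refine le_trans ?_ hq13
            exact_mod_cast k4.le
          · apply Finset.sum_le_sum_of_subset_of_nonneg
            · intro w hw
              rw [mem_filter] at hw
              obtain ⟨k1, k2, k3, k4⟩ := hwm w hw.1
              rw [mem_filter]
              refine ⟨k1, ?_, ?_⟩
              · refine A.hη.trans ?_
                have : Hc ≤ w.1 * w.2 := by have := hw.2; omega
                exact_mod_cast this
              · rw [k2, Nat.cast_one, mul_one]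
                refine le_trans ?_ hq13
                exact_mod_cast k4.le
            · intro w _ _
              positivity
        refine g1.trans ?_
        have g2 := A.hHigh q
        have g3 : D * (q : ℝ) ^ (-κ) ≤ 1 / 100 := by
          rw [Real.rpow_neg hq0.le, ← div_eq_mul_inv, div_le_div_iff₀ (by positivity) (by norm_num)]
          have g4 := A.hDκ
          have g5 : D * 100 ≤ D ^ 2 * (1 + 2 * Real.log q) := by
            rw [sq, mul_assoc]
            apply mul_le_mul_of_nonneg_left _ (by linarith)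
            nlinarith
          linarith
        exact (mul_le_mul_of_nonneg_left g2 (by linarith)).trans g3
    linarith
  -- assemble
  have htot : ‖∑ ψ : H, DirichletCharacter.LFunction (χ₀ * (ψ : DirichletCharacter ℂ q)) (1 / 2) *
        Mfn z W R0 Hc (χ₀ * (ψ : DirichletCharacter ℂ q)) - (Fintype.card H : ℂ)‖ ≤
      (Fintype.card H : ℝ) * (3 / 16) := by
    rw [hall, hsplit]
    have e1 : (Fintype.card H : ℂ) * (FL I AM c (1 : (ZMod q)ˣ) + ∑ g ∈ T, FL I AM c g * χ₀ (g : ZMod q)) -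
        (Fintype.card H : ℂ) = (Fintype.card H : ℂ) * ((FL I AM c (1 : (ZMod q)ˣ) - 1) +
          ∑ g ∈ T, FL I AM c g * χ₀ (g : ZMod q)) := by ring
    rw [e1, norm_mul, Complex.norm_natCast]
    apply mul_le_mul_of_nonneg_left _ hHpos.le
    have e2 : ‖∑ g ∈ T, FL I AM c g * χ₀ (g : ZMod q)‖ ≤ 1 / 8 := (norm_sum_le _ _).trans hTsum
    have e3 : (q : ℝ) ^ (-(4 / 10 : ℝ)) ≤ 1 / 16 := by
      calc (q : ℝ) ^ (-(4 / 10 : ℝ)) ≤ (q : ℝ) ^ (-(1 / 15 : ℝ)) :=
            Real.rpow_le_rpow_of_exponent_le hqR1.le (by norm_num)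
        _ ≤ _ := hsmall.trans (by norm_num)
    calc _ ≤ ‖FL I AM c (1 : (ZMod q)ˣ) - 1‖ + ‖∑ g ∈ T, FL I AM c g * χ₀ (g : ZMod q)‖ := norm_add_le _ _
      _ ≤ 1 / 16 + 1 / 8 := add_le_add (hone.trans e3) e2
      _ = _ := by norm_num
  -- the trivial character
  have htriv : ‖∑ ψ ∈ univ.filter (fun ψ : H => ¬ (χ₀ * (ψ : DirichletCharacter ℂ q) ≠ 1)),
      DirichletCharacter.LFunction (χ₀ * (ψ : DirichletCharacter ℂ q)) (1 / 2) *
        Mfn z W R0 Hc (χ₀ * (ψ : DirichletCharacter ℂ q))‖ ≤ (Fintype.card H : ℝ) * (1 / 16) := by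
    refine (norm_sum_le _ _).trans ?_
    have e1 : ∀ ψ ∈ univ.filter (fun ψ : H => ¬ (χ₀ * (ψ : DirichletCharacter ℂ q) ≠ 1)),
        ‖DirichletCharacter.LFunction (χ₀ * (ψ : DirichletCharacter ℂ q)) (1 / 2) *
        Mfn z W R0 Hc (χ₀ * (ψ : DirichletCharacter ℂ q))‖ ≤ 4 * Real.sqrt q * L := by
      intro ψ hψ
      rw [mem_filter, not_not] at hψ
      rw [hψ.2, norm_mul]
      exact mul_le_mul L_one ((Mof_norm I AM c hc1 1).trans hcardI) (norm_nonneg _) (by positivity)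
    refine (Finset.sum_le_card_nsmul _ _ _ e1).trans ?_
    rw [nsmul_eq_mul]
    have e2 : ((univ.filter (fun ψ : H => ¬ (χ₀ * (ψ : DirichletCharacter ℂ q) ≠ 1))).card : ℝ) ≤ 1 := by
      have g6 : (univ.filter (fun ψ : H => ¬ (χ₀ * (ψ : DirichletCharacter ℂ q) ≠ 1))).card ≤ 1 := by
        rw [card_le_one]
        intro ψ hψ ψ' hψ'
        rw [mem_filter, not_not] at hψ hψ'
        apply Subtype.ext
        exact mul_left_cancel (hψ.2.trans hψ'.2.symm)
      exact_mod_cast g6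
    calc _ ≤ 1 * (4 * Real.sqrt q * L) := mul_le_mul_of_nonneg_right e2 (by positivity)
      _ = Real.sqrt q * (4 * L) := by ring
      _ ≤ (q : ℝ) ^ (1 / 2 : ℝ) * (q : ℝ) ^ (1 / 10 : ℝ) := by
          rw [hsqrt]; exact mul_le_mul_of_nonneg_left h4L (by positivity)
      _ = (q : ℝ) ^ (2 / 3 : ℝ) * (q : ℝ) ^ (-(1 / 15 : ℝ)) := by
          rw [← Real.rpow_add hq0, ← Real.rpow_add hq0]; norm_num
      _ ≤ (Fintype.card H : ℝ) * (1 / 16) :=
          mul_le_mul A.hH (hsmall.trans (by norm_num)) (by positivity) hHpos.le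
  have hfin : ∑ ψ ∈ univ.filter (fun ψ : H => χ₀ * (ψ : DirichletCharacter ℂ q) ≠ 1),
      DirichletCharacter.LFunction (χ₀ * (ψ : DirichletCharacter ℂ q)) (1 / 2) *
        Mfn z W R0 Hc (χ₀ * (ψ : DirichletCharacter ℂ q)) = (Fintype.card H : ℂ) +
      ((∑ ψ : H, DirichletCharacter.LFunction (χ₀ * (ψ : DirichletCharacter ℂ q)) (1 / 2) *
        Mfn z W R0 Hc (χ₀ * (ψ : DirichletCharacter ℂ q)) - (Fintype.card H : ℂ)) -
      ∑ ψ ∈ univ.filter (fun ψ : H => ¬ (χ₀ * (ψ : DirichletCharacter ℂ q) ≠ 1)),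
      DirichletCharacter.LFunction (χ₀ * (ψ : DirichletCharacter ℂ q)) (1 / 2) *
        Mfn z W R0 Hc (χ₀ * (ψ : DirichletCharacter ℂ q))) := by
    rw [← Finset.sum_filter_add_sum_filter_not univ
      (fun ψ : H => χ₀ * (ψ : DirichletCharacter ℂ q) ≠ 1)]
    ring
  rw [hfin]
  have hlow : (Fintype.card H : ℝ) - ((Fintype.card H : ℝ) * (3 / 16) + (Fintype.card H : ℝ) * (1 / 16)) ≤
      _ := (sub_le_sub_left ((norm_sub_le _ _).trans (add_le_add htot htriv)) _)
  have hlast := norm_sub_le_norm_add (Fintype.card H : ℂ)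
    ((∑ ψ : H, DirichletCharacter.LFunction (χ₀ * (ψ : DirichletCharacter ℂ q)) (1 / 2) *
        Mfn z W R0 Hc (χ₀ * (ψ : DirichletCharacter ℂ q)) - (Fintype.card H : ℂ)) -
      ∑ ψ ∈ univ.filter (fun ψ : H => ¬ (χ₀ * (ψ : DirichletCharacter ℂ q) ≠ 1)),
      DirichletCharacter.LFunction (χ₀ * (ψ : DirichletCharacter ℂ q)) (1 / 2) *
        Mfn z W R0 Hc (χ₀ * (ψ : DirichletCharacter ℂ q)))
  rw [Complex.norm_natCast] at hlast
  linarith

end

end Pool.Agent.V8H32.NV
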