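import Pool.Agent.V8H32.NV.Hyp
import Pool.Agent.V8H32.Cos.Cls

/-! Grouping the terms of a twisted moment according to the reduced fraction. -/

set_option autoImplicit false

namespace Pool.Agent.V8H32.NV
open Finset Pool.Agent.R311.RES
open Pool.Agent.V8H32.Cos (cls un_mul' un_one' red_iff)
open scoped Classical

variable {q : ℕ} [Fact q.Prime]

/-- reduced fractions whose class is in the subgroup -/
noncomputable def KR (q : ℕ) [Fact q.Prime] (K : Subgroup (ZMod q)ˣ) (M : ℕ) : Finset (ℕ × ℕ) :=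
  (Icc 1 M ×ˢ Icc 1 M).filter (fun w => Nat.Coprime w.1 w.2 ∧ w.1.Coprime q ∧ w.2.Coprime q ∧
    cls q w.1 w.2 ∈ K)

lemma mem_KR {K : Subgroup (ZMod q)ˣ} {M : ℕ} {w : ℕ × ℕ} : w ∈ KR q K M ↔
    (1 ≤ w.1 ∧ w.1 ≤ M) ∧ (1 ≤ w.2 ∧ w.2 ≤ M) ∧ Nat.Coprime w.1 w.2 ∧ w.1.Coprime q ∧
      w.2.Coprime q ∧ cls q w.1 w.2 ∈ K := by
  unfold KR
  rw [mem_filter, mem_product, mem_Icc, mem_Icc]
  tauto

lemma bb_cls (χ : DirichletCharacter ℂ q) {a b : ℕ} (ha : a.Coprime q) (hb : b.Coprime q) :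
    bb χ a b = χ (cls q a b : ZMod q) := by
  unfold bb cls
  rw [Units.val_mul, map_mul, chi_inv, un_val ha, un_val hb]

lemma bb_ncop (χ : DirichletCharacter ℂ q) {a b : ℕ} (h : ¬ (a.Coprime q ∧ b.Coprime q)) :
    bb χ a b = 0 := by
  unfold bb
  have hz : ∀ n : ℕ, ¬ n.Coprime q → χ (n : ZMod q) = 0 := by
    intro n hn
    apply MulChar.map_nonunit
    rw [ZMod.isUnit_iff_coprime]
    exact hn
  by_cases h1 : a.Coprime q
  · have h2 : ¬ b.Coprime q := fun h3 => h ⟨h1, h3⟩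
    rw [hz b h2, map_zero, mul_zero]
  · rw [hz a h1, zero_mul]

lemma sum_bb (H : Subgroup (DirichletCharacter ℂ q)) (χ₀ : DirichletCharacter ℂ q) (a b : ℕ) :
    ∑ ψ : H, bb (χ₀ * (ψ : DirichletCharacter ℂ q)) a b =
      if (a.Coprime q ∧ b.Coprime q) ∧ cls q a b ∈ ann H then
        (Fintype.card H : ℂ) * χ₀ (cls q a b : ZMod q) else 0 := by
  by_cases h : a.Coprime q ∧ b.Coprime q
  · have h1 : ∀ ψ : H, bb (χ₀ * (ψ : DirichletCharacter ℂ q)) a b =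
        χ₀ (cls q a b : ZMod q) * (ψ : DirichletCharacter ℂ q) (cls q a b : ZMod q) := by
      intro ψ
      rw [bb_cls _ h.1 h.2, MulChar.mul_apply]
    rw [Finset.sum_congr rfl (fun ψ _ => h1 ψ), ← Finset.mul_sum, orth]
    by_cases h2 : cls q a b ∈ ann H
    · rw [if_pos h2, if_pos ⟨h, h2⟩, mul_comm]
    · rw [if_neg h2, if_neg (fun h3 => h2 h3.2), mul_zero]
  · rw [if_neg (fun h3 => h h3.1)]
    apply Finset.sum_eq_zero
    intro ψ _
    exact bb_ncop _ h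

lemma cls_mul_right {a b g : ℕ} (ha : a.Coprime q) (hb : b.Coprime q) (hg : g.Coprime q) :
    cls q (a * g) (b * g) = cls q a b := by
  unfold cls
  rw [un_mul' ha hg, un_mul' hb hg]
  group

theorem group_le {ι : Type*} (H : Subgroup (DirichletCharacter ℂ q)) (χ₀ : DirichletCharacter ℂ q)
    (I : Finset ι) (F : ι → ℝ) (a b : ι → ℕ) (M : ℕ) (ha : ∀ i ∈ I, 0 < a i ∧ a i ≤ M)
    (hb : ∀ i ∈ I, 0 < b i ∧ b i ≤ M) (hq : ∀ i ∈ I, ¬ (q ∣ a i ∧ q ∣ b i)) :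
    ‖∑ i ∈ I, (F i : ℂ) * ∑ ψ : H, bb (χ₀ * (ψ : DirichletCharacter ℂ q)) (a i) (b i)‖ ≤
      (Fintype.card H : ℝ) * ∑ w ∈ KR q (ann H) M,
        |∑ i ∈ I.filter (fun i => w.2 * a i = w.1 * b i), F i| := by
  have hqp : q.Prime := Fact.out
  set I' := I.filter (fun i => ((a i).Coprime q ∧ (b i).Coprime q) ∧ cls q (a i) (b i) ∈ ann H) with hI'
  have h1 : ∑ i ∈ I, (F i : ℂ) * ∑ ψ : H, bb (χ₀ * (ψ : DirichletCharacter ℂ q)) (a i) (b i) =
      (Fintype.card H : ℂ) * ∑ i ∈ I', (F i : ℂ) * χ₀ (cls q (a i) (b i) : ZMod q) := by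
    rw [hI', Finset.mul_sum, Finset.sum_filter]
    apply Finset.sum_congr rfl
    intro i _
    rw [sum_bb]
    split_ifs
    · ring
    · ring
  rw [h1, norm_mul, Complex.norm_natCast]
  apply mul_le_mul_of_nonneg_left _ (Nat.cast_nonneg _)
  set red : ι → ℕ × ℕ := fun i => (a i / Nat.gcd (a i) (b i), b i / Nat.gcd (a i) (b i)) with hred
  have hfac : ∀ i ∈ I, ∃ g : ℕ, 0 < g ∧ a i = (red i).1 * g ∧ b i = (red i).2 * g ∧
      0 < (red i).1 ∧ 0 < (red i).2 ∧ Nat.Coprime (red i).1 (red i).2 := by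
    intro i hi
    have hg : 0 < Nat.gcd (a i) (b i) := Nat.gcd_pos_of_pos_left _ (ha i hi).1
    refine ⟨Nat.gcd (a i) (b i), hg, ?_, ?_, ?_, ?_, ?_⟩
    · exact (Nat.div_mul_cancel (Nat.gcd_dvd_left _ _)).symm
    · exact (Nat.div_mul_cancel (Nat.gcd_dvd_right _ _)).symm
    · exact Nat.div_pos (Nat.le_of_dvd (ha i hi).1 (Nat.gcd_dvd_left _ _)) hg
    · exact Nat.div_pos (Nat.le_of_dvd (hb i hi).1 (Nat.gcd_dvd_right _ _)) hg
    · exact Nat.coprime_div_gcd_div_gcd hg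
  have hmap : ∀ i ∈ I', red i ∈ KR q (ann H) M := by
    intro i hi
    rw [hI', mem_filter] at hi
    obtain ⟨hi, ⟨c1, c2⟩, c3⟩ := hi
    obtain ⟨g, g0, e1, e2, e3, e4, e5⟩ := hfac i hi
    have d1 : (red i).1.Coprime q := Nat.Coprime.coprime_dvd_left ⟨g, e1⟩ c1
    have d2 : (red i).2.Coprime q := Nat.Coprime.coprime_dvd_left ⟨g, e2⟩ c2
    have d3 : g.Coprime q := Nat.Coprime.coprime_dvd_left ⟨(red i).1, by rw [e1]; ring⟩ c1
    rw [mem_KR]
    refine ⟨⟨e3, ?_⟩, ⟨e4, ?_⟩, e5, d1, d2, ?_⟩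
    · exact (Nat.le_of_dvd (ha i hi).1 ⟨g, e1⟩).trans (ha i hi).2
    · exact (Nat.le_of_dvd (hb i hi).1 ⟨g, e2⟩).trans (hb i hi).2
    · rw [e1, e2, cls_mul_right d1 d2 d3] at c3
      exact c3
  rw [← Finset.sum_fiberwise_of_maps_to hmap]
  refine (norm_sum_le _ _).trans (Finset.sum_le_sum fun w hw => ?_)
  rw [mem_KR] at hw
  obtain ⟨⟨w1, _⟩, ⟨w2, _⟩, w3, w4, w5, w6⟩ := hw
  have hset : I'.filter (fun i => red i = w) = I.filter (fun i => w.2 * a i = w.1 * b i) := by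
    ext i
    rw [hI', mem_filter, mem_filter, mem_filter]
    constructor
    · rintro ⟨⟨hi, _⟩, h⟩
      refine ⟨hi, ?_⟩
      have := (red_iff (b := w.2) w1 (ha i hi).1 w3 (y := b i)).2 h
      exact this
    · rintro ⟨hi, h⟩
      have h2 : red i = w := (red_iff w1 (ha i hi).1 w3).1 h
      obtain ⟨g, g0, e1, e2, _, _, _⟩ := hfac i hi
      rw [h2] at e1 e2
      have hgq : g.Coprime q := by
        by_contra hcon
        have h3 : q ∣ g := by
          by_contra h4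
          exact hcon ((Nat.Prime.coprime_iff_not_dvd hqp).2 h4).symm
        exact hq i hi ⟨by rw [e1]; exact dvd_mul_of_dvd_right h3 _,
          by rw [e2]; exact dvd_mul_of_dvd_right h3 _⟩
      refine ⟨⟨hi, ⟨?_, ?_⟩, ?_⟩, h2⟩
      · rw [e1]; exact Nat.Coprime.mul_left w4 hgq
      · rw [e2]; exact Nat.Coprime.mul_left w5 hgq
      · rw [e1, e2, cls_mul_right w4 w5 hgq]
        exact w6
  have hcl : ∀ i ∈ I'.filter (fun i => red i = w), (F i : ℂ) * χ₀ (cls q (a i) (b i) : ZMod q) =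
      (F i : ℂ) * χ₀ (cls q w.1 w.2 : ZMod q) := by
    intro i hi
    rw [hI', mem_filter, mem_filter] at hi
    obtain ⟨⟨hi, ⟨c1, c2⟩, c3⟩, h2⟩ := hi
    obtain ⟨g, g0, e1, e2, _, _, _⟩ := hfac i hi
    rw [h2] at e1 e2
    have d3 : g.Coprime q := Nat.Coprime.coprime_dvd_left ⟨w.1, by rw [e1]; ring⟩ c1
    rw [e1, e2, cls_mul_right w4 w5 d3]
  rw [Finset.sum_congr rfl hcl, ← Finset.sum_mul, norm_mul, hset]
  have h3 : ‖χ₀ (cls q w.1 w.2 : ZMod q)‖ = 1 := χ₀.unit_norm_eq_one _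
  rw [h3, mul_one, ← Complex.ofReal_sum, Complex.norm_real, Real.norm_eq_abs]

/-- a Dirichlet polynomial -/
noncomputable def Mof {ι : Type*} (I : Finset ι) (A : ι → ℕ) (c : ι → ℝ) (χ : DirichletCharacter ℂ q) : ℂ :=
  ∑ i ∈ I, ((c i * (1 / Real.sqrt (A i)) : ℝ) : ℂ) * χ (A i : ZMod q)

lemma Mof_norm {ι : Type*} (I : Finset ι) (A : ι → ℕ) (c : ι → ℝ) (hc : ∀ i ∈ I, |c i| ≤ 1)
    (χ : DirichletCharacter ℂ q) : ‖Mof I A c χ‖ ≤ I.card := by
  unfold Mof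
  refine (norm_sum_le _ _).trans ?_
  refine (Finset.sum_le_card_nsmul I _ 1 (fun i hi => ?_)).trans (by rw [nsmul_eq_mul, mul_one])
  rw [norm_mul, Complex.norm_real, Real.norm_eq_abs, abs_mul, abs_of_nonneg (a := 1 / Real.sqrt (A i)) (by positivity)]
  have h1 := hc i hi
  have h2 := inv_sqrt_le_one (A i)
  have h3 := DirichletCharacter.norm_le_one χ (A i : ZMod q)
  calc |c i| * (1 / Real.sqrt (A i)) * ‖χ (A i : ZMod q)‖ ≤ 1 * 1 * 1 := by
        apply mul_le_mul _ h3 (norm_nonneg _) (by norm_num)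
        exact mul_le_mul h1 h2 (by positivity) zero_le_one
    _ = 1 := by norm_num

lemma Mof_sq {ι : Type*} (I : Finset ι) (A : ι → ℕ) (c : ι → ℝ) (χ : DirichletCharacter ℂ q) (N : ℕ) :
    DK χ N * ((‖Mof I A c χ‖ ^ 2 : ℝ) : ℂ) =
      ∑ τ ∈ (I ×ˢ I) ×ˢ prs N, ((c τ.1.1 * c τ.1.2 * (1 / Real.sqrt (A τ.1.1) *
        (1 / Real.sqrt (A τ.1.2))) * rs τ.2 : ℝ) : ℂ) *
        bb χ (A τ.1.1 * τ.2.1) (A τ.1.2 * τ.2.2) := by
  have h1 : ((‖Mof I A c χ‖ ^ 2 : ℝ) : ℂ) = ∑ i ∈ I ×ˢ I,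
      ((c i.1 * c i.2 * (1 / Real.sqrt (A i.1) * (1 / Real.sqrt (A i.2))) : ℝ) : ℂ) *
        bb χ (A i.1) (A i.2) := by
    rw [← Complex.normSq_eq_norm_sq, ← Complex.mul_conj]
    unfold Mof
    rw [map_sum, Finset.sum_mul_sum, ← Finset.sum_product']
    apply Finset.sum_congr rfl
    intro i _
    unfold bb
    rw [map_mul, Complex.conj_ofReal]
    push_cast
    ring
  rw [h1, mul_comm, Finset.sum_product (s := I ×ˢ I), Finset.sum_mul]
  apply Finset.sum_congr rfl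
  intro i _
  unfold DK
  rw [Finset.mul_sum]
  apply Finset.sum_congr rfl
  intro z _
  have h2 : bb χ (A i.1 * z.1) (A i.2 * z.2) = bb χ (A i.1) (A i.2) * bb χ z.1 z.2 := by
    unfold bb
    push_cast
    rw [map_mul, map_mul, map_mul]
    ring
  rw [h2]
  push_cast
  ring

lemma prs_ndvd {N : ℕ} (hN : N < q * q) {z : ℕ × ℕ} (hz : z ∈ prs N) : ¬ (q ∣ z.1 ∧ q ∣ z.2) := by
  rw [mem_prs] at hz
  rintro ⟨h1, h2⟩
  have h3 := Nat.le_of_dvd hz.1 h1
  have h4 := Nat.le_of_dvd hz.2.1 h2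
  have := Nat.mul_le_mul h3 h4
  omega

lemma TN_filter {ι : Type*} (I : Finset ι) (A : ι → ℕ) (c : ι → ℝ) (N u v : ℕ) :
    ∑ τ ∈ ((I ×ˢ I) ×ˢ prs N).filter (fun τ => v * (A τ.1.1 * τ.2.1) = u * (A τ.1.2 * τ.2.2)),
      c τ.1.1 * c τ.1.2 * (1 / Real.sqrt (A τ.1.1) * (1 / Real.sqrt (A τ.1.2))) * rs τ.2 =
      TN I A c N u v := by
  unfold TN hyp
  rw [Finset.sum_filter, Finset.sum_product, Finset.sum_product]
  apply Finset.sum_congr rfl
  intro i _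
  apply Finset.sum_congr rfl
  intro j _
  rw [Finset.mul_sum, Finset.sum_filter]
  apply Finset.sum_congr rfl
  intro z _
  have h : (v * (A i * z.1) = u * (A j * z.2)) ↔ (z.1 * (A i * v) = z.2 * (A j * u)) := by
    constructor
    · intro h
      calc z.1 * (A i * v) = v * (A i * z.1) := by ring
        _ = _ := h
        _ = _ := by ring
    · intro h
      calc v * (A i * z.1) = z.1 * (A i * v) := by ring
        _ = _ := h
        _ = _ := by ring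
  simp only [h]

/-- the twisted second moment over a coset -/
theorem S2_group {ι : Type*} (H : Subgroup (DirichletCharacter ℂ q)) (χ₀ : DirichletCharacter ℂ q)
    (I : Finset ι) (A : ι → ℕ) (c : ι → ℝ) (L N : ℕ) (hA : ∀ i ∈ I, 0 < A i ∧ A i ≤ L) (hL : L < q)
    (hN : N < q * q) :
    ‖∑ ψ : H, DK (χ₀ * (ψ : DirichletCharacter ℂ q)) N *
      ((‖Mof I A c (χ₀ * (ψ : DirichletCharacter ℂ q))‖ ^ 2 : ℝ) : ℂ)‖ ≤
      (Fintype.card H : ℝ) * ∑ w ∈ KR q (ann H) (L * N), |TN I A c N w.1 w.2| := by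
  have hqp : q.Prime := Fact.out
  have h1 : ∑ ψ : H, DK (χ₀ * (ψ : DirichletCharacter ℂ q)) N *
      ((‖Mof I A c (χ₀ * (ψ : DirichletCharacter ℂ q))‖ ^ 2 : ℝ) : ℂ) =
      ∑ τ ∈ (I ×ˢ I) ×ˢ prs N, ((c τ.1.1 * c τ.1.2 * (1 / Real.sqrt (A τ.1.1) *
        (1 / Real.sqrt (A τ.1.2))) * rs τ.2 : ℝ) : ℂ) *
        ∑ ψ : H, bb (χ₀ * (ψ : DirichletCharacter ℂ q)) (A τ.1.1 * τ.2.1) (A τ.1.2 * τ.2.2) := by
    rw [Finset.sum_congr rfl (fun (ψ : H) _ => Mof_sq I A c (χ₀ * (ψ : DirichletCharacter ℂ q)) N),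
      Finset.sum_comm]
    apply Finset.sum_congr rfl
    intro τ _
    rw [Finset.mul_sum]
  rw [h1]
  have hz : ∀ z ∈ prs N, (0 < z.1 ∧ z.1 ≤ N) ∧ (0 < z.2 ∧ z.2 ≤ N) := by
    intro z hz
    rw [mem_prs] at hz
    have h2 : z.1 ≤ z.1 * z.2 := Nat.le_mul_of_pos_right _ hz.2.1
    have h3 : z.2 ≤ z.1 * z.2 := Nat.le_mul_of_pos_left _ hz.1
    omega
  have h2 := group_le H χ₀ ((I ×ˢ I) ×ˢ prs N) (fun τ => c τ.1.1 * c τ.1.2 * (1 / Real.sqrt (A τ.1.1) *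
        (1 / Real.sqrt (A τ.1.2))) * rs τ.2) (fun τ => A τ.1.1 * τ.2.1) (fun τ => A τ.1.2 * τ.2.2)
        (L * N) (by
          intro τ hτ
          rw [mem_product, mem_product] at hτ
          obtain ⟨⟨a1, a2⟩, a3⟩ := hτ
          exact ⟨Nat.mul_pos (hA _ a1).1 (hz _ a3).1.1, Nat.mul_le_mul (hA _ a1).2 (hz _ a3).1.2⟩) (by
          intro τ hτ
          rw [mem_product, mem_product] at hτ
          obtain ⟨⟨a1, a2⟩, a3⟩ := hτ
          exact ⟨Nat.mul_pos (hA _ a2).1 (hz _ a3).2.1, Nat.mul_le_mul (hA _ a2).2 (hz _ a3).2.2⟩) (by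
          intro τ hτ
          rw [mem_product, mem_product] at hτ
          obtain ⟨⟨a1, a2⟩, a3⟩ := hτ
          rintro ⟨b1, b2⟩
          have hnd : ∀ i ∈ I, ¬ q ∣ A i := by
            intro i hi hd
            have := Nat.le_of_dvd (hA i hi).1 hd
            have := (hA i hi).2
            omega
          refine prs_ndvd hN a3 ⟨?_, ?_⟩
          · exact (hqp.dvd_mul.1 b1).resolve_left (hnd _ a1)
          · exact (hqp.dvd_mul.1 b2).resolve_left (hnd _ a2))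
  refine h2.trans (le_of_eq ?_)
  congr 1
  apply Finset.sum_congr rfl
  intro w _
  rw [TN_filter]

/-- trivial bound of a twisted sum by divisor functions -/
theorem TN_divisor {ι : Type*} (I : Finset ι) (A : ι → ℕ) (c : ι → ℝ) (L N : ℕ)
    (hA : ∀ i ∈ I, 0 < A i ∧ A i ≤ L) (hc : ∀ i ∈ I, |c i| ≤ 1) (hinj : Set.InjOn A I)
    (D : ℝ) (hD : ∀ n : ℕ, 0 < n → n ≤ N * (L * L) → ((n.divisors.card : ℕ) : ℝ) ≤ D)
    {u v : ℕ} (hu : 0 < u) (hv : 0 < v) (huv : u.Coprime v) :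
    |TN I A c N u v| ≤ (if u * v ≤ N * (L * L) then
      D ^ 2 * (1 + Real.log (N * (L * L) : ℕ)) * (1 / Real.sqrt ((u : ℝ) * v)) else 0) := by
  set X := N * (L * L) with hX
  rw [← TN_filter]
  set S := ((I ×ˢ I) ×ˢ prs N).filter (fun τ => v * (A τ.1.1 * τ.2.1) = u * (A τ.1.2 * τ.2.2)) with hS
  have hfac : ∀ τ ∈ S, ∃ t : ℕ, 0 < t ∧ A τ.1.1 * τ.2.1 = u * t ∧ A τ.1.2 * τ.2.2 = v * t ∧
      (u * t) * (v * t) ≤ X ∧ (τ.1.1 ∈ I ∧ τ.1.2 ∈ I) ∧ (0 < τ.2.1 ∧ 0 < τ.2.2) := by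
    intro τ hτ
    rw [hS, mem_filter, mem_product, mem_product, mem_prs] at hτ
    obtain ⟨⟨⟨a1, a2⟩, b1, b2, b3⟩, h⟩ := hτ
    have hp1 : 0 < A τ.1.1 * τ.2.1 := Nat.mul_pos (hA _ a1).1 b1
    obtain ⟨t, ht⟩ : u ∣ A τ.1.1 * τ.2.1 := huv.dvd_of_dvd_mul_left ⟨_, h⟩
    have ht0 : 0 < t := by
      rcases Nat.eq_zero_or_pos t with h0 | h0
      · rw [h0, mul_zero] at ht; omega
      · exact h0
    have h2 : A τ.1.2 * τ.2.2 = v * t := by
      apply Nat.eq_of_mul_eq_mul_left hu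
      rw [← h, ht]; ring
    refine ⟨t, ht0, ht, h2, ?_, ⟨a1, a2⟩, b1, b2⟩
    rw [← ht, ← h2]
    calc A τ.1.1 * τ.2.1 * (A τ.1.2 * τ.2.2) = (τ.2.1 * τ.2.2) * (A τ.1.1 * A τ.1.2) := by ring
      _ ≤ N * (L * L) := Nat.mul_le_mul b3 (Nat.mul_le_mul (hA _ a1).2 (hA _ a2).2)
  have huR : (0 : ℝ) < u := by exact_mod_cast hu
  have hvR : (0 : ℝ) < v := by exact_mod_cast hv
  have hsu : 0 < Real.sqrt (u : ℝ) := Real.sqrt_pos.2 huR
  have hsv : 0 < Real.sqrt (v : ℝ) := Real.sqrt_pos.2 hvR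
  have hsuv : Real.sqrt ((u : ℝ) * v) = Real.sqrt u * Real.sqrt v := Real.sqrt_mul huR.le _
  -- the function t
  set tf : (ι × ι) × (ℕ × ℕ) → ℕ := fun τ => (A τ.1.1 * τ.2.1) / u with htf
  have htf1 : ∀ τ ∈ S, 0 < tf τ ∧ A τ.1.1 * τ.2.1 = u * tf τ ∧ A τ.1.2 * τ.2.2 = v * tf τ ∧
      (u * tf τ) * (v * tf τ) ≤ X := by
    intro τ hτ
    obtain ⟨t, t0, e1, e2, e3, _⟩ := hfac τ hτ
    have : tf τ = t := by
      rw [htf]
      simp only
      rw [e1, Nat.mul_div_cancel_left _ hu]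
    rw [this]
    exact ⟨t0, e1, e2, e3⟩
  have hterm : ∀ τ ∈ S, |c τ.1.1 * c τ.1.2 * (1 / Real.sqrt (A τ.1.1) * (1 / Real.sqrt (A τ.1.2))) *
      rs τ.2| ≤ 1 / (tf τ : ℝ) * (1 / Real.sqrt ((u : ℝ) * v)) := by
    intro τ hτ
    obtain ⟨t, t0, e1, e2, _, ⟨i1, i2⟩, z1, z2⟩ := hfac τ hτ
    obtain ⟨f0, f1, f2, _⟩ := htf1 τ hτ
    have ht : (0 : ℝ) < tf τ := by exact_mod_cast f0
    have hst : 0 < Real.sqrt (tf τ : ℝ) := Real.sqrt_pos.2 ht
    rw [abs_mul, abs_mul, abs_mul, abs_of_nonneg (rs_nonneg _),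
      abs_of_nonneg (a := 1 / Real.sqrt (A τ.1.1) * (1 / Real.sqrt (A τ.1.2))) (by positivity)]
    have g1 : (1 / Real.sqrt (A τ.1.1) * (1 / Real.sqrt (A τ.1.2))) * rs τ.2 =
        1 / (tf τ : ℝ) * (1 / Real.sqrt ((u : ℝ) * v)) := by
      unfold rs
      have k1 : Real.sqrt (A τ.1.1) * Real.sqrt τ.2.1 = Real.sqrt u * Real.sqrt (tf τ) := by
        rw [← Real.sqrt_mul (Nat.cast_nonneg _), ← Real.sqrt_mul huR.le]
        congr 1
        exact_mod_cast f1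
      have k2 : Real.sqrt (A τ.1.2) * Real.sqrt τ.2.2 = Real.sqrt v * Real.sqrt (tf τ) := by
        rw [← Real.sqrt_mul (Nat.cast_nonneg _), ← Real.sqrt_mul hvR.le]
        congr 1
        exact_mod_cast f2
      have k3 : (1 / Real.sqrt (A τ.1.1) * (1 / Real.sqrt (A τ.1.2))) *
          (1 / Real.sqrt τ.2.1 * (1 / Real.sqrt τ.2.2)) =
          1 / ((Real.sqrt (A τ.1.1) * Real.sqrt τ.2.1) * (Real.sqrt (A τ.1.2) * Real.sqrt τ.2.2)) := by
        rw [one_div, one_div, one_div, one_div, one_div, mul_inv, mul_inv, mul_inv]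
        ring
      rw [k3, k1, k2, hsuv]
      have k4 : (1 : ℝ) / (tf τ : ℝ) = 1 / (Real.sqrt (tf τ) * Real.sqrt (tf τ)) := by
        rw [Real.mul_self_sqrt ht.le]
      rw [k4]
      field_simp
    calc |c τ.1.1| * |c τ.1.2| * (1 / Real.sqrt (A τ.1.1) * (1 / Real.sqrt (A τ.1.2))) * rs τ.2
        ≤ 1 * 1 * (1 / Real.sqrt (A τ.1.1) * (1 / Real.sqrt (A τ.1.2))) * rs τ.2 := by
          apply mul_le_mul_of_nonneg_right _ (rs_nonneg _)
          apply mul_le_mul_of_nonneg_right _ (by positivity)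
          exact mul_le_mul (hc _ i1) (hc _ i2) (abs_nonneg _) zero_le_one
      _ = _ := by rw [one_mul, one_mul, g1]
  refine (Finset.abs_sum_le_sum_abs _ _).trans ?_
  split_ifs with huvX
  · refine (Finset.sum_le_sum hterm).trans ?_
    have hmaps : ∀ τ ∈ S, tf τ ∈ Icc 1 X := by
      intro τ hτ
      obtain ⟨f0, _, _, f3⟩ := htf1 τ hτ
      rw [mem_Icc]
      refine ⟨f0, le_trans ?_ f3⟩
      calc tf τ ≤ u * tf τ := Nat.le_mul_of_pos_left _ hu
        _ ≤ (u * tf τ) * (v * tf τ) := Nat.le_mul_of_pos_right _ (Nat.mul_pos hv f0)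
    rw [← Finset.sum_fiberwise_of_maps_to hmaps]
    have hfib : ∀ t ∈ Icc 1 X, ∑ τ ∈ S.filter (fun τ => tf τ = t),
        1 / (tf τ : ℝ) * (1 / Real.sqrt ((u : ℝ) * v)) ≤
        D ^ 2 * (1 / (t : ℝ)) * (1 / Real.sqrt ((u : ℝ) * v)) := by
      intro t ht
      rcases (S.filter (fun τ => tf τ = t)).eq_empty_or_nonempty with he | ⟨τ0, hτ0⟩
      · rw [he, Finset.sum_empty]
        positivity
      · rw [mem_filter] at hτ0
        obtain ⟨f0, f1, f2, f3⟩ := htf1 τ0 hτ0.1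
        rw [hτ0.2] at f0 f1 f2 f3
        have hcard : ((S.filter (fun τ => tf τ = t)).card : ℝ) ≤ D ^ 2 := by
          have h1 : (S.filter (fun τ => tf τ = t)).card ≤
              ((u * t).divisors ×ˢ (v * t).divisors).card := by
            apply Finset.card_le_card_of_injOn (fun τ => (A τ.1.1, A τ.1.2))
            · intro τ hτ
              rw [mem_coe, mem_filter] at hτ
              obtain ⟨g0, g1, g2, g3⟩ := htf1 τ hτ.1
              rw [hτ.2] at g1 g2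
              rw [mem_coe, mem_product, Nat.mem_divisors, Nat.mem_divisors]
              exact ⟨⟨⟨_, g1.symm⟩, (Nat.mul_pos hu f0).ne'⟩, ⟨_, g2.symm⟩, (Nat.mul_pos hv f0).ne'⟩
            · intro τ hτ τ' hτ' h
              rw [mem_coe, mem_filter] at hτ hτ'
              obtain ⟨t1, _, _, _, _, ⟨i1, i2⟩, z1, z2⟩ := hfac τ hτ.1
              obtain ⟨t1', _, _, _, _, ⟨i1', i2'⟩, z1', z2'⟩ := hfac τ' hτ'.1
              obtain ⟨_, g1, g2, _⟩ := htf1 τ hτ.1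
              obtain ⟨_, g1', g2', _⟩ := htf1 τ' hτ'.1
              rw [hτ.2] at g1 g2
              rw [hτ'.2] at g1' g2'
              rw [Prod.mk.injEq] at h
              have j1 := hinj i1 i1' h.1
              have j2 := hinj i2 i2' h.2
              have j3 : τ.2.1 = τ'.2.1 := by
                apply Nat.eq_of_mul_eq_mul_left (hA _ i1).1
                rw [g1, h.1, g1']
              have j4 : τ.2.2 = τ'.2.2 := by
                apply Nat.eq_of_mul_eq_mul_left (hA _ i2).1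
                rw [g2, h.2, g2']
              exact Prod.ext (Prod.ext j1 j2) (Prod.ext j3 j4)
          rw [card_product] at h1
          have hut : u * t ≤ X := (Nat.le_mul_of_pos_right _ (Nat.mul_pos hv f0)).trans f3
          have hvt : v * t ≤ X := (Nat.le_mul_of_pos_left _ (Nat.mul_pos hu f0)).trans f3
          have h2 := hD (u * t) (Nat.mul_pos hu f0) hut
          have h3 := hD (v * t) (Nat.mul_pos hv f0) hvt
          calc ((S.filter (fun τ => tf τ = t)).card : ℝ) ≤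
              ((u * t).divisors.card : ℝ) * ((v * t).divisors.card : ℝ) := by exact_mod_cast h1
            _ ≤ D * D := mul_le_mul h2 h3 (Nat.cast_nonneg _) (le_trans (Nat.cast_nonneg _) h2)
            _ = _ := by ring
        have h1 : ∀ τ ∈ S.filter (fun τ => tf τ = t), 1 / (tf τ : ℝ) * (1 / Real.sqrt ((u : ℝ) * v)) =
            1 / (t : ℝ) * (1 / Real.sqrt ((u : ℝ) * v)) := by
          intro τ hτ
          rw [(mem_filter.1 hτ).2]
        rw [Finset.sum_congr rfl h1, Finset.sum_const, nsmul_eq_mul]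
        calc ((S.filter (fun τ => tf τ = t)).card : ℝ) * (1 / (t : ℝ) * (1 / Real.sqrt ((u : ℝ) * v)))
            ≤ D ^ 2 * (1 / (t : ℝ) * (1 / Real.sqrt ((u : ℝ) * v))) :=
              mul_le_mul_of_nonneg_right hcard (by positivity)
          _ = _ := by ring
    refine (Finset.sum_le_sum hfib).trans ?_
    rw [← Finset.sum_mul, ← Finset.mul_sum]
    apply mul_le_mul_of_nonneg_right _ (by positivity)
    apply mul_le_mul_of_nonneg_left _ (by positivity)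
    have h6 : ∑ i ∈ Icc 1 X, 1 / (i : ℝ) = (harmonic X : ℝ) := by
      rw [harmonic_eq_sum_Icc]
      push_cast
      exact Finset.sum_congr rfl fun i _ => by rw [one_div]
    rw [h6]
    exact harmonic_le_one_add_log X
  · have hSe : S = ∅ := by
      rw [Finset.eq_empty_iff_forall_notMem]
      intro τ hτ
      obtain ⟨f0, _, _, f3⟩ := htf1 τ hτ
      apply huvX
      exact le_trans (Nat.mul_le_mul (Nat.le_mul_of_pos_right u f0) (Nat.le_mul_of_pos_right v f0)) f3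
    rw [hSe, Finset.sum_empty]

end Pool.Agent.V8H32.NV
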