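import Mathlib

/-! Harmonic sums and Moebius sums with a coprimality condition. -/

set_option autoImplicit false

namespace Pool.Agent.V8H32.NV
open Finset
open scoped ArithmeticFunction.Moebius ArithmeticFunction.zeta

/-- harmonic sum up to a real number -/
noncomputable def Hn (x : ℝ) : ℝ := ∑ j ∈ Ioc 0 ⌊x⌋₊, (1 : ℝ) / j

/-- Euler's constant -/
noncomputable def ga : ℝ := Real.eulerMascheroniConstant

lemma ga_pos : 0 < ga := by
  have := Real.one_half_lt_eulerMascheroniConstant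
  unfold ga; linarith

lemma ga_lt : ga < 1 := by
  have := Real.eulerMascheroniConstant_lt_two_thirds
  unfold ga; linarith

lemma harm_eq (n : ℕ) : ∑ j ∈ Ioc 0 n, (1 : ℝ) / j = (harmonic n : ℝ) := by
  rw [harmonic_eq_sum_Icc]
  push_cast
  apply Finset.sum_congr
  · ext j; simp only [mem_Ioc, mem_Icc]; omega
  · intro j _
    rw [one_div]

lemma Hn_ge_one {x : ℝ} (hx : 1 ≤ x) : |Hn x - Real.log x - ga| ≤ 2 / x := by
  set n := ⌊x⌋₊ with hn
  have hn1 : 1 ≤ n := Nat.le_floor (by exact_mod_cast hx)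
  have hn0 : (0 : ℝ) < n := by exact_mod_cast hn1
  have hnx : (n : ℝ) ≤ x := Nat.floor_le (by linarith)
  have hxn : x < n + 1 := Nat.lt_floor_add_one x
  have hx0 : 0 < x := by linarith
  have h1 := Real.eulerMascheroniSeq_lt_eulerMascheroniConstant n
  have h2 := Real.eulerMascheroniConstant_lt_eulerMascheroniSeq' n
  unfold Real.eulerMascheroniSeq at h1
  unfold Real.eulerMascheroniSeq' at h2
  rw [if_neg (by omega)] at h2
  have h3 : Real.log (n + 1) - Real.log n ≤ 1 / n := by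
    rw [← Real.log_div (by positivity) (by positivity)]
    have := Real.log_le_sub_one_of_pos (x := ((n : ℝ) + 1) / n) (by positivity)
    refine this.trans (le_of_eq ?_)
    field_simp
    ring
  have h4 : Real.log n ≤ Real.log x := Real.log_le_log hn0 hnx
  have h5 : Real.log x ≤ Real.log (n + 1) := Real.log_le_log hx0 hxn.le
  have h6 : 1 / (n : ℝ) ≤ 2 / x := by
    rw [div_le_div_iff₀ hn0 hx0]
    have : (1 : ℝ) ≤ n := by exact_mod_cast hn1
    linarith
  unfold Hn ga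
  rw [← hn, harm_eq, abs_le]
  constructor <;> linarith

lemma Hn_close {x : ℝ} (hx : 0 < x) : |Hn x - Real.log x - ga| ≤ 4 / Real.sqrt x := by
  have hs : 0 < Real.sqrt x := Real.sqrt_pos.2 hx
  rcases le_or_gt 1 x with h | h
  · refine (Hn_ge_one h).trans ?_
    rw [div_le_div_iff₀ hx hs]
    have h1 : Real.sqrt x * Real.sqrt x = x := Real.mul_self_sqrt hx.le
    have h2 : 1 ≤ Real.sqrt x := Real.one_le_sqrt.2 h
    nlinarith
  · have h0 : ⌊x⌋₊ = 0 := Nat.floor_eq_zero.2 h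
    unfold Hn
    rw [h0]
    simp only [Ioc_self, sum_empty, zero_sub]
    have h1 := Real.log_le_sub_one_of_pos (x := (Real.sqrt x)⁻¹) (by positivity)
    rw [Real.log_inv, Real.log_sqrt hx.le] at h1
    have h2 : Real.log x ≤ 0 := Real.log_nonpos hx.le h.le
    have h3 := ga_pos
    have h4 := ga_lt
    have h5 : (Real.sqrt x)⁻¹ * 4 = 4 / Real.sqrt x := by rw [div_eq_mul_inv]; ring
    have h6 : 1 ≤ (Real.sqrt x)⁻¹ := by
      rw [one_le_inv₀ hs]
      exact Real.sqrt_le_iff.2 ⟨zero_le_one, by simpa using h.le⟩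
    rw [← h5, abs_le]
    constructor <;> linarith

/-- weight of the integers composed of the primes of `Q` -/
noncomputable def PiQ (Q : ℕ) : ℝ := ∏ p ∈ Q.primeFactors, (1 - (1 : ℝ) / p)⁻¹

lemma PiQ_ge_one (Q : ℕ) : 1 ≤ PiQ Q := by
  unfold PiQ
  have h := Finset.prod_le_prod (s := Q.primeFactors) (f := fun _ => (1 : ℝ))
    (g := fun p : ℕ => (1 - (1 : ℝ) / p)⁻¹) (fun _ _ => zero_le_one) (fun p hp => ?_)
  · simpa using h
  have h2 := (Nat.prime_of_mem_primeFactors hp).two_le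
  have h3 : (2 : ℝ) ≤ p := by exact_mod_cast h2
  have h4 : 1 / (p : ℝ) ≤ 1 / 2 := one_div_le_one_div_of_le (by norm_num) h3
  have h5 : 0 < 1 / (p : ℝ) := by positivity
  rw [one_le_inv₀ (by linarith)]
  linarith

lemma smooth_sum_le (Q N : ℕ) :
    ∑ n ∈ (Ioc 0 N).filter (fun n => n.primeFactors ⊆ Q.primeFactors), (1 : ℝ) / n ≤ PiQ Q := by
  set s := Q.primeFactors with hs
  let f : ℕ →* ℝ := ⟨⟨fun n => ((n : ℝ))⁻¹, by simp⟩, by intro m n; push_cast; rw [mul_inv]⟩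
  have hf : ∀ {p : ℕ}, p.Prime → ‖f p‖ < 1 := by
    intro p hp
    have h2 : (2 : ℝ) ≤ p := by exact_mod_cast hp.two_le
    show ‖((p : ℝ))⁻¹‖ < 1
    rw [norm_inv, Real.norm_of_nonneg (by positivity)]
    exact inv_lt_one_of_one_lt₀ (by linarith)
  obtain ⟨h1, h2⟩ := EulerProduct.summable_and_hasSum_factoredNumbers_prod_filter_prime_geometric
    (f := f) hf s
  have h3 : ∏ p ∈ s with p.Prime, (1 - f p)⁻¹ = PiQ Q := by
    unfold PiQ
    rw [Finset.filter_true_of_mem (fun p hp => Nat.prime_of_mem_primeFactors hp)]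
    apply Finset.prod_congr rfl
    intro p _
    rw [one_div]
    rfl
  rw [h3] at h2
  set A := (Ioc 0 N).filter (fun n => n.primeFactors ⊆ s) with hA
  have hmem : ∀ n ∈ A, n ∈ Nat.factoredNumbers s := by
    intro n hn
    rw [hA, mem_filter, mem_Ioc] at hn
    rw [Nat.mem_factoredNumbers]
    refine ⟨by omega, fun p hp => ?_⟩
    apply hn.2
    rw [Nat.mem_primeFactors]
    exact ⟨Nat.prime_of_mem_primeFactorsList hp, Nat.dvd_of_mem_primeFactorsList hp, by omega⟩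
  have h4 : ∑ n ∈ A, (1 : ℝ) / n = ∑ m ∈ A.attach.map ⟨fun n => (⟨n.1, hmem n.1 n.2⟩ : Nat.factoredNumbers s),
      by intro a b h; exact Subtype.ext (congrArg (fun x : Nat.factoredNumbers s => (x : ℕ)) h)⟩, f m := by
    rw [Finset.sum_map, ← Finset.sum_attach]
    apply Finset.sum_congr rfl
    intro n _
    rw [one_div]
    rfl
  rw [h4]
  apply sum_le_hasSum _ _ h2
  intro m _
  show (0 : ℝ) ≤ ((m : ℕ) : ℝ)⁻¹
  positivity

/-- Moebius sum over the divisors prime to `Q` -/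
lemma moebius_cop (Q n : ℕ) (hQ : Q ≠ 0) (hn : n ≠ 0) :
    ∑ a ∈ n.divisors.filter (fun a => a.Coprime Q), ((μ a : ℤ) : ℝ) =
      if n.primeFactors ⊆ Q.primeFactors then 1 else 0 := by
  set m := ∏ p ∈ n.primeFactors \ Q.primeFactors, p with hm
  have hm0 : m ≠ 0 := by
    rw [hm, Finset.prod_ne_zero_iff]
    intro p hp
    exact (Nat.prime_of_mem_primeFactors (mem_sdiff.1 hp).1).ne_zero
  have hpr : ∀ p ∈ n.primeFactors \ Q.primeFactors, p.Prime := fun p hp =>
    Nat.prime_of_mem_primeFactors (mem_sdiff.1 hp).1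
  have hmpf : m.primeFactors = n.primeFactors \ Q.primeFactors := Nat.primeFactors_prod hpr
  have hmn : m ∣ n := by
    have h1 : m ∣ ∏ p ∈ n.primeFactors, p := Finset.prod_dvd_prod_of_subset _ _ _ sdiff_subset
    exact h1.trans (Nat.prod_primeFactors_dvd n)
  have h1 : ∑ a ∈ m.divisors, ((μ a : ℤ) : ℝ) = if m = 1 then 1 else 0 := by
    have h2 := ArithmeticFunction.coe_mul_zeta_apply (f := (μ : ArithmeticFunction ℤ)) (x := m)
    rw [ArithmeticFunction.moebius_mul_coe_zeta, ArithmeticFunction.one_apply] at h2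
    have h3 : ((∑ a ∈ m.divisors, μ a : ℤ) : ℝ) = (((if m = 1 then 1 else 0) : ℤ) : ℝ) := by
      rw [h2]
    push_cast at h3
    rw [h3]
  have h2 : ∑ a ∈ m.divisors, ((μ a : ℤ) : ℝ) =
      ∑ a ∈ n.divisors.filter (fun a => a.Coprime Q), ((μ a : ℤ) : ℝ) := by
    apply Finset.sum_subset
    · intro a ha
      rw [Nat.mem_divisors] at ha
      rw [mem_filter, Nat.mem_divisors]
      refine ⟨⟨ha.1.trans hmn, hn⟩, ?_⟩
      rw [← Nat.disjoint_primeFactors (ne_zero_of_dvd_ne_zero hm0 ha.1) hQ]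
      have h3 := Nat.primeFactors_mono ha.1 hm0
      rw [hmpf] at h3
      exact Disjoint.mono_left h3 sdiff_disjoint
    · intro a ha hna
      rw [mem_filter, Nat.mem_divisors] at ha
      by_contra hne
      have hsq : Squarefree a := by
        by_contra h
        exact hne (by rw [ArithmeticFunction.moebius_eq_zero_of_not_squarefree h]; simp)
      apply hna
      rw [Nat.mem_divisors]
      refine ⟨?_, hm0⟩
      rw [← Nat.prod_primeFactors_of_squarefree hsq, hm]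
      apply Finset.prod_dvd_prod_of_subset
      intro p hp
      rw [mem_sdiff]
      refine ⟨Nat.primeFactors_mono ha.1.1 hn hp, fun h => ?_⟩
      have h4 := Nat.Coprime.disjoint_primeFactors ha.2
      exact Finset.disjoint_left.1 h4 hp h
  rw [← h2, h1]
  have h3 : m = 1 ↔ n.primeFactors ⊆ Q.primeFactors := by
    rw [← Finset.sdiff_eq_empty_iff_subset, ← hmpf, Nat.primeFactors_eq_empty]
    constructor
    · intro h; exact Or.inr h
    · rintro (h | h)
      · exact absurd h hm0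
      · exact h
  simp only [h3]

/-- the coprime Moebius function divided by `k` -/
noncomputable def mc (Q : ℕ) : ArithmeticFunction ℝ :=
  ⟨fun k => if k.Coprime Q then ((μ k : ℤ) : ℝ) / k else 0, by simp⟩

noncomputable def mz (Q : ℕ) : ArithmeticFunction ℝ :=
  ⟨fun k => if k.Coprime Q then ((μ k : ℤ) : ℝ) else 0, by simp⟩

noncomputable def iv : ArithmeticFunction ℝ := ⟨fun k => 1 / (k : ℝ), by simp⟩

lemma mc_mul_iv (Q n : ℕ) (hQ : Q ≠ 0) (hn : n ≠ 0) :
    (mc Q * iv) n = if n.primeFactors ⊆ Q.primeFactors then 1 / (n : ℝ) else 0 := by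
  rw [ArithmeticFunction.mul_apply, Nat.sum_divisorsAntidiagonal (fun a b => mc Q a * iv b)]
  have h1 : ∀ a ∈ n.divisors, mc Q a * iv (n / a) =
      (if a.Coprime Q then ((μ a : ℤ) : ℝ) else 0) * (1 / n) := by
    intro a ha
    have ha0 : (a : ℝ) ≠ 0 := by
      have := Nat.pos_of_mem_divisors ha
      positivity
    have hd := Nat.dvd_of_mem_divisors ha
    show (if a.Coprime Q then ((μ a : ℤ) : ℝ) / a else 0) * (1 / ((n / a : ℕ) : ℝ)) = _
    rw [Nat.cast_div hd ha0]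
    have hn' : (n : ℝ) ≠ 0 := by exact_mod_cast hn
    split_ifs
    · field_simp
    · simp
  rw [Finset.sum_congr rfl h1, ← Finset.sum_mul, ← Finset.sum_filter, moebius_cop Q n hQ hn]
  split_ifs <;> simp

lemma mz_mul_zeta (Q n : ℕ) (hQ : Q ≠ 0) (hn : n ≠ 0) :
    (mz Q * (ζ : ArithmeticFunction ℝ)) n = if n.primeFactors ⊆ Q.primeFactors then 1 else 0 := by
  rw [ArithmeticFunction.coe_mul_zeta_apply, ← moebius_cop Q n hQ hn, Finset.sum_filter]
  rfl

lemma ident (Q N : ℕ) (hQ : Q ≠ 0) : ∑ k ∈ Ioc 0 N, mc Q k * ∑ j ∈ Ioc 0 (N / k), (1 : ℝ) / j =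
    ∑ n ∈ (Ioc 0 N).filter (fun n => n.primeFactors ⊆ Q.primeFactors), (1 : ℝ) / n := by
  have h := ArithmeticFunction.sum_Ioc_mul_eq_sum_sum (mc Q) iv N
  rw [Finset.sum_filter]
  have h2 : ∀ n ∈ Ioc 0 N, (mc Q * iv) n = if n.primeFactors ⊆ Q.primeFactors then 1 / (n : ℝ) else 0 := by
    intro n hn
    rw [mem_Ioc] at hn
    exact mc_mul_iv Q n hQ (by omega)
  rw [Finset.sum_congr rfl h2] at h
  rw [h]
  rfl

lemma ident_nonneg_le (Q N : ℕ) (hQ : Q ≠ 0) :
    0 ≤ ∑ k ∈ Ioc 0 N, mc Q k * ∑ j ∈ Ioc 0 (N / k), (1 : ℝ) / j ∧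
    ∑ k ∈ Ioc 0 N, mc Q k * ∑ j ∈ Ioc 0 (N / k), (1 : ℝ) / j ≤ PiQ Q := by
  rw [ident Q N hQ]
  exact ⟨Finset.sum_nonneg (fun n _ => by positivity), smooth_sum_le Q N⟩

lemma mc_abs (Q k : ℕ) : |mc Q k| ≤ 1 / k := by
  show |if k.Coprime Q then ((μ k : ℤ) : ℝ) / k else 0| ≤ 1 / k
  split_ifs
  · rw [abs_div, Nat.abs_cast]
    apply div_le_div_of_nonneg_right _ (Nat.cast_nonneg k)
    exact_mod_cast ArithmeticFunction.abs_moebius_le_one
  · rw [abs_zero]; positivity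

/-- `∑ μ(k)/k` -/
noncomputable def G0 (Q : ℕ) (Y : ℝ) : ℝ := ∑ k ∈ Ioc 0 ⌊Y⌋₊, mc Q k
noncomputable def G1 (Q : ℕ) (Y : ℝ) : ℝ := ∑ k ∈ Ioc 0 ⌊Y⌋₊, mc Q k * Real.log (Y / k)
noncomputable def G2 (Q : ℕ) (Y : ℝ) : ℝ := ∑ k ∈ Ioc 0 ⌊Y⌋₊, mc Q k * Real.log (Y / k) ^ 2

lemma G0_bound (Q : ℕ) (hQ : Q ≠ 0) (Y : ℝ) : |G0 Q Y| ≤ 2 := by
  unfold G0
  set N := ⌊Y⌋₊ with hN
  rcases Nat.eq_zero_or_pos N with h0 | h0
  · rw [h0]; simp
  have hN0 : (0 : ℝ) < N := by exact_mod_cast h0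
  have h1 := ArithmeticFunction.sum_Ioc_mul_eq_sum_sum (mz Q) (ζ : ArithmeticFunction ℝ) N
  have h2 : ∀ n ∈ Ioc 0 N, (mz Q * (ζ : ArithmeticFunction ℝ)) n =
      if n.primeFactors ⊆ Q.primeFactors then 1 else 0 := by
    intro n hn
    rw [mem_Ioc] at hn
    exact mz_mul_zeta Q n hQ (by omega)
  rw [Finset.sum_congr rfl h2] at h1
  have h3 : ∀ k ∈ Ioc 0 N, ∑ m ∈ Ioc 0 (N / k), (ζ : ArithmeticFunction ℝ) m = ((N / k : ℕ) : ℝ) := by
    intro k _
    have : ∀ m ∈ Ioc 0 (N / k), (ζ : ArithmeticFunction ℝ) m = 1 := by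
      intro m hm
      rw [mem_Ioc] at hm
      rw [ArithmeticFunction.natCoe_apply, ArithmeticFunction.zeta_apply_ne (by omega)]
      simp
    rw [Finset.sum_congr rfl this, Finset.sum_const, Nat.card_Ioc]
    simp
  have h4 : ∑ k ∈ Ioc 0 N, mz Q k * ∑ m ∈ Ioc 0 (N / k), (ζ : ArithmeticFunction ℝ) m =
      ∑ k ∈ Ioc 0 N, mz Q k * ((N / k : ℕ) : ℝ) :=
    Finset.sum_congr rfl (fun k hk => by rw [h3 k hk])
  rw [h4] at h1
  have h5 : |∑ k ∈ Ioc 0 N, mz Q k * ((N / k : ℕ) : ℝ)| ≤ N := by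
    rw [← h1]
    rw [abs_of_nonneg (Finset.sum_nonneg (fun n _ => by split_ifs <;> norm_num))]
    calc ∑ n ∈ Ioc 0 N, (if n.primeFactors ⊆ Q.primeFactors then (1 : ℝ) else 0) ≤
        ∑ n ∈ Ioc 0 N, (1 : ℝ) := Finset.sum_le_sum (fun n _ => by split_ifs <;> norm_num)
      _ = N := by rw [Finset.sum_const, Nat.card_Ioc]; simp
  have h6 : |(N : ℝ) * ∑ k ∈ Ioc 0 N, mc Q k - ∑ k ∈ Ioc 0 N, mz Q k * ((N / k : ℕ) : ℝ)| ≤ N := by
    rw [Finset.mul_sum, ← Finset.sum_sub_distrib]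
    calc |∑ k ∈ Ioc 0 N, ((N : ℝ) * mc Q k - mz Q k * ((N / k : ℕ) : ℝ))| ≤
        ∑ k ∈ Ioc 0 N, |(N : ℝ) * mc Q k - mz Q k * ((N / k : ℕ) : ℝ)| := Finset.abs_sum_le_sum_abs _ _
      _ ≤ ∑ k ∈ Ioc 0 N, (1 : ℝ) := by
          apply Finset.sum_le_sum
          intro k hk
          rw [mem_Ioc] at hk
          have hk0 : (0 : ℝ) < k := by exact_mod_cast hk.1
          show |(N : ℝ) * (if k.Coprime Q then ((μ k : ℤ) : ℝ) / k else 0) -
            (if k.Coprime Q then ((μ k : ℤ) : ℝ) else 0) * ((N / k : ℕ) : ℝ)| ≤ 1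
          split_ifs
          · have e : (N : ℝ) * (((μ k : ℤ) : ℝ) / k) - ((μ k : ℤ) : ℝ) * ((N / k : ℕ) : ℝ) =
                ((μ k : ℤ) : ℝ) * ((N : ℝ) / k - ((N / k : ℕ) : ℝ)) := by ring
            rw [e, abs_mul]
            have h7 : |((μ k : ℤ) : ℝ)| ≤ 1 := by exact_mod_cast ArithmeticFunction.abs_moebius_le_one
            have h8 : |(N : ℝ) / k - ((N / k : ℕ) : ℝ)| ≤ 1 := by
              have h9 : ((N / k : ℕ) : ℝ) ≤ (N : ℝ) / k := Nat.cast_div_le
              have h10 : (N : ℝ) / k < ((N / k : ℕ) : ℝ) + 1 := by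
                rw [div_lt_iff₀ hk0]
                have := Nat.lt_mul_div_succ N hk.1
                have h11 : (N : ℝ) < (k : ℝ) * ((N / k : ℕ) + 1 : ℝ) := by exact_mod_cast this
                linarith
              rw [abs_le]; constructor <;> linarith
            calc |((μ k : ℤ) : ℝ)| * |(N : ℝ) / k - ((N / k : ℕ) : ℝ)| ≤ 1 * 1 :=
                  mul_le_mul h7 h8 (abs_nonneg _) zero_le_one
              _ = 1 := one_mul 1
          · simp
      _ = N := by rw [Finset.sum_const, Nat.card_Ioc]; simp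
  have h7 : |(N : ℝ) * ∑ k ∈ Ioc 0 N, mc Q k| ≤ 2 * N := by
    have := abs_sub_abs_le_abs_sub ((N : ℝ) * ∑ k ∈ Ioc 0 N, mc Q k)
      (∑ k ∈ Ioc 0 N, mz Q k * ((N / k : ℕ) : ℝ))
    linarith
  rw [abs_mul, abs_of_pos hN0] at h7
  have h8 : (N : ℝ) * |∑ k ∈ Ioc 0 N, mc Q k| ≤ N * 2 := by linarith
  exact le_of_mul_le_mul_left h8 hN0

lemma G1_bound (Q : ℕ) (hQ : Q ≠ 0) {Y : ℝ} (hY : 0 < Y) : |G1 Q Y| ≤ 5 * PiQ Q := by
  have hP := PiQ_ge_one Q
  set N := ⌊Y⌋₊ with hN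
  rcases Nat.eq_zero_or_pos N with h0 | h0
  · unfold G1
    rw [← hN, h0]
    simp
    linarith
  have hNY : (N : ℝ) ≤ Y := Nat.floor_le hY.le
  have h1 := ident_nonneg_le Q N hQ
  have h2 : ∀ k ∈ Ioc 0 N, mc Q k * ∑ j ∈ Ioc 0 (N / k), (1 : ℝ) / j = mc Q k * Hn (Y / k) := by
    intro k _
    unfold Hn
    rw [Nat.floor_div_natCast, ← hN]
  rw [Finset.sum_congr rfl h2] at h1
  have h3 : G1 Q Y = ∑ k ∈ Ioc 0 N, mc Q k * Hn (Y / k) - ga * G0 Q Y -
      ∑ k ∈ Ioc 0 N, mc Q k * (Hn (Y / k) - Real.log (Y / k) - ga) := by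
    unfold G1 G0
    rw [← hN, Finset.mul_sum, ← Finset.sum_sub_distrib, ← Finset.sum_sub_distrib]
    apply Finset.sum_congr rfl
    intro k _
    ring
  have h4 : |∑ k ∈ Ioc 0 N, mc Q k * (Hn (Y / k) - Real.log (Y / k) - ga)| ≤ 2 := by
    calc |∑ k ∈ Ioc 0 N, mc Q k * (Hn (Y / k) - Real.log (Y / k) - ga)| ≤
        ∑ k ∈ Ioc 0 N, |mc Q k * (Hn (Y / k) - Real.log (Y / k) - ga)| :=
          Finset.abs_sum_le_sum_abs _ _
      _ ≤ ∑ k ∈ Ioc 0 N, (2 / Y : ℝ) := by
          apply Finset.sum_le_sum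
          intro k hk
          rw [mem_Ioc] at hk
          have hk0 : (0 : ℝ) < k := by exact_mod_cast hk.1
          have hkY : (k : ℝ) ≤ Y := le_trans (by exact_mod_cast hk.2) hNY
          have h5 : 1 ≤ Y / k := by rw [le_div_iff₀ hk0]; linarith
          have h6 := Hn_ge_one h5
          rw [abs_mul]
          calc |mc Q k| * |Hn (Y / k) - Real.log (Y / k) - ga| ≤ 1 / k * (2 / (Y / k)) :=
                mul_le_mul (mc_abs Q k) h6 (abs_nonneg _) (by positivity)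
            _ = 2 / Y := by field_simp
      _ = N * (2 / Y) := by rw [Finset.sum_const, Nat.card_Ioc]; simp
      _ ≤ Y * (2 / Y) := mul_le_mul_of_nonneg_right hNY (by positivity)
      _ = 2 := by field_simp
  have h5 := G0_bound Q hQ Y
  have h6 := ga_pos
  have h7 := ga_lt
  rw [abs_le] at h4 h5
  have h8 : |ga * G0 Q Y| ≤ 2 := by
    rw [abs_mul, abs_of_pos h6]
    have : |G0 Q Y| ≤ 2 := abs_le.2 h5
    nlinarith [abs_nonneg (G0 Q Y)]
  rw [abs_le] at h8
  rw [h3, abs_le]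
  constructor <;> linarith [h1.1, h1.2]

lemma int_ramp {l L : ℝ} (hl : 0 ≤ l) (hL : l ≤ L) :
    ∫ t in (0 : ℝ)..L, max (l - t) 0 = l ^ 2 / 2 := by
  have hc : Continuous (fun t : ℝ => max (l - t) 0) := by fun_prop
  rw [← intervalIntegral.integral_add_adjacent_intervals (b := l) (hc.intervalIntegrable _ _)
    (hc.intervalIntegrable _ _)]
  have h1 : ∫ t in (0 : ℝ)..l, max (l - t) 0 = ∫ t in (0 : ℝ)..l, (l - t) := by
    apply intervalIntegral.integral_congr
    intro t ht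
    rw [Set.uIcc_of_le hl] at ht
    exact max_eq_left (by linarith [ht.2])
  have h2 : ∫ t in l..L, max (l - t) 0 = ∫ t in l..L, (0 : ℝ) := by
    apply intervalIntegral.integral_congr
    intro t ht
    rw [Set.uIcc_of_le hL] at ht
    exact max_eq_right (by linarith [ht.1])
  rw [h1, h2, intervalIntegral.integral_sub (by simp) (by simp)]
  simp
  ring

lemma G2_bound (Q : ℕ) (hQ : Q ≠ 0) {Y : ℝ} (hY : 1 ≤ Y) :
    |G2 Q Y| ≤ 10 * PiQ Q * Real.log Y := by
  set N := ⌊Y⌋₊ with hN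
  set L := Real.log Y with hL
  have hY0 : 0 < Y := by linarith
  have hL0 : 0 ≤ L := Real.log_nonneg hY
  have hNY : (N : ℝ) ≤ Y := Nat.floor_le hY0.le
  have hk : ∀ k ∈ Ioc 0 N, (0 : ℝ) < k ∧ (k : ℝ) ≤ Y ∧ 0 ≤ Real.log (Y / k) ∧ Real.log (Y / k) ≤ L := by
    intro k hk
    rw [mem_Ioc] at hk
    have hk0 : (0 : ℝ) < k := by exact_mod_cast hk.1
    have hk1 : (1 : ℝ) ≤ k := by exact_mod_cast hk.1
    have hkY : (k : ℝ) ≤ Y := le_trans (by exact_mod_cast hk.2) hNY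
    refine ⟨hk0, hkY, Real.log_nonneg (by rw [le_div_iff₀ hk0]; linarith), ?_⟩
    rw [Real.log_div hY0.ne' hk0.ne']
    have := Real.log_nonneg hk1
    linarith
  have h1 : G2 Q Y = 2 * ∫ t in (0 : ℝ)..L, ∑ k ∈ Ioc 0 N, mc Q k * max (Real.log (Y / k) - t) 0 := by
    rw [intervalIntegral.integral_finsetSum]
    · unfold G2
      rw [← hN, Finset.mul_sum]
      apply Finset.sum_congr rfl
      intro k hk'
      obtain ⟨_, _, h3, h4⟩ := hk k hk'
      rw [intervalIntegral.integral_const_mul, int_ramp h3 h4]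
      ring
    · intro k _
      apply Continuous.intervalIntegrable
      fun_prop
  have h2 : ∀ t ∈ Set.uIoc (0 : ℝ) L,
      ‖∑ k ∈ Ioc 0 N, mc Q k * max (Real.log (Y / k) - t) 0‖ ≤ 5 * PiQ Q := by
    intro t ht
    rw [Set.uIoc_of_le hL0] at ht
    have hYt : 0 < Y * Real.exp (-t) := by positivity
    have h3 := G1_bound Q hQ hYt
    have h4 : G1 Q (Y * Real.exp (-t)) = ∑ k ∈ Ioc 0 N, mc Q k * max (Real.log (Y / k) - t) 0 := by
      unfold G1
      have hsub : Ioc 0 ⌊Y * Real.exp (-t)⌋₊ ⊆ Ioc 0 N := by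
        apply Finset.Ioc_subset_Ioc_right
        apply Nat.floor_le_floor
        have : Real.exp (-t) ≤ 1 := Real.exp_le_one_iff.2 (by linarith [ht.1])
        nlinarith
      rw [← Finset.sum_subset hsub]
      · apply Finset.sum_congr rfl
        intro k hk'
        rw [mem_Ioc] at hk'
        have hk0 : (0 : ℝ) < k := by exact_mod_cast hk'.1
        have h5 : (k : ℝ) ≤ Y * Real.exp (-t) := by
          have := Nat.floor_le hYt.le
          exact le_trans (by exact_mod_cast hk'.2) this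
        have h6 : Real.log (Y * Real.exp (-t) / k) = Real.log (Y / k) - t := by
          rw [show Y * Real.exp (-t) / k = (Y / k) * Real.exp (-t) by ring,
            Real.log_mul (by positivity) (by positivity), Real.log_exp]
          ring
        rw [h6, max_eq_left]
        rw [← h6]
        apply Real.log_nonneg
        rw [le_div_iff₀ hk0]
        linarith
      · intro k hk1 hk2
        obtain ⟨hk0, hkY, _, _⟩ := hk k hk1
        rw [mem_Ioc] at hk1 hk2
        have h5 : ⌊Y * Real.exp (-t)⌋₊ < k := by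
          by_contra h
          exact hk2 ⟨hk1.1, by omega⟩
        have h6 : Y * Real.exp (-t) < k := (Nat.floor_lt hYt.le).1 h5
        rw [max_eq_right, mul_zero]
        rw [Real.log_div hY0.ne' hk0.ne']
        have h7 : Real.log (Y * Real.exp (-t)) < Real.log k := Real.log_lt_log hYt h6
        rw [Real.log_mul hY0.ne' (Real.exp_pos _).ne', Real.log_exp] at h7
        linarith
    rw [← h4]
    exact h3
  have h3 := intervalIntegral.norm_integral_le_of_norm_le_const h2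
  rw [sub_zero, abs_of_nonneg hL0, Real.norm_eq_abs] at h3
  rw [h1, abs_mul, abs_two]
  linarith

end Pool.Agent.V8H32.NV
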