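import Pool.Agent.V8H32.NV.Cnt
import Pool.Agent.V8H32.Cos.Large

/-! Reduced fractions of large height in a small subgroup. -/

set_option autoImplicit false

namespace Pool.Agent.V8H32.NV
open Finset Pool.Agent.R311.RES
open Pool.Agent.V8H32.Cos (cls divisor_bound)
open scoped Classical

lemma two_pow_omega (n : ℕ) (hn : n ≠ 0) : 2 ^ n.primeFactors.card ≤ n.divisors.card := by
  rw [Nat.card_divisors hn, ← Finset.prod_const]
  apply Finset.prod_le_prod' 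
  intro p hp
  have : n.factorization p ≠ 0 := Finsupp.mem_support_iff.1 hp
  omega

lemma log2_le {n : ℕ} (hn : n ≠ 0) : (Nat.log 2 n : ℝ) * Real.log 2 ≤ Real.log n := by
  have h := Nat.pow_log_le_self 2 hn
  have h1 : ((2 : ℝ) ^ Nat.log 2 n) ≤ n := by exact_mod_cast h
  have h2 := Real.log_le_log (by positivity) h1
  rwa [Real.log_pow] at h2

lemma dyadic (S : Finset (ℕ × ℕ)) (g : ℕ × ℕ → ℝ) (n₀ : ℕ)
    (hS : ∀ w ∈ S, Nat.log 2 w.1 < n₀ ∧ Nat.log 2 w.2 < n₀) (b : ℝ)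
    (hb : ∀ i i' : ℕ, ∑ w ∈ S.filter (fun w => (Nat.log 2 w.1, Nat.log 2 w.2) = (i, i')), g w ≤ b) :
    ∑ w ∈ S, g w ≤ (n₀ : ℝ) ^ 2 * b := by
  have hmap : ∀ w ∈ S, (Nat.log 2 w.1, Nat.log 2 w.2) ∈ range n₀ ×ˢ range n₀ := by
    intro w hw
    rw [mem_product, mem_range, mem_range]
    exact hS w hw
  rw [← Finset.sum_fiberwise_of_maps_to hmap]
  calc ∑ x ∈ range n₀ ×ˢ range n₀, ∑ w ∈ S.filter (fun w => (Nat.log 2 w.1, Nat.log 2 w.2) = x), g w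
      ≤ ∑ _x ∈ range n₀ ×ˢ range n₀, b := Finset.sum_le_sum fun x _ => hb x.1 x.2
    _ = _ := by
        rw [Finset.sum_const, card_product, card_range, nsmul_eq_mul]
        push_cast; ring

variable {q : ℕ} [Fact q.Prime]

/-- the size of a box -/
lemma high_box (K : Subgroup (ZMod q)ˣ) (Ψ : Finset (ℕ × ℕ)) (i i' j : ℕ) (D : ℝ) (hj : 1 ≤ j)
    (δ : ℝ) (J : ℝ) (hjJ : (j : ℝ) ≤ J) (hδ : 0 < δ)
    (hK : (Fintype.card K : ℝ) ≤ (q : ℝ) ^ (1 / 3 - δ))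
    (hΨ : ∀ z ∈ Ψ, (0 < z.1 ∧ z.1 ≤ 2 ^ (i + 1)) ∧ (0 < z.2 ∧ z.2 ≤ 2 ^ (i' + 1)) ∧ z.1.Coprime q ∧
      z.2.Coprime q ∧ cls q z.1 z.2 ∈ K ∧ Nat.Coprime z.1 z.2)
    (hD1 : 1 ≤ D) (hD : ∀ n : ℕ, 0 < n → (n : ℝ) ≤ (q : ℝ) ^ (4 / 3 : ℝ) → ((n.divisors.card : ℕ) : ℝ) ≤ D)
    (hX1 : (q : ℝ) ^ (2 / 3 : ℝ) ≤ ((4 : ℝ) * 2 ^ (i + i')) ^ j)
    (hX2 : ((4 : ℝ) * 2 ^ (i + i')) ^ j ≤ (q : ℝ) ^ (4 / 3 : ℝ)) :
    (Ψ.card : ℝ) / Real.sqrt ((4 : ℝ) * 2 ^ (i + i')) ≤ 5 * D ^ 4 * (q : ℝ) ^ (-(δ / J)) := by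
  have hq0 : (0 : ℝ) < q := by exact_mod_cast (Nat.Prime.pos (Fact.out : q.Prime))
  have hq1 : (1 : ℝ) ≤ q := by exact_mod_cast (Nat.Prime.one_lt (Fact.out : q.Prime)).le
  set X : ℝ := (4 : ℝ) * 2 ^ (i + i') with hX
  have hX0 : 0 < X := by rw [hX]; positivity
  have hX1' : 1 ≤ X := by
    rw [hX]
    have : (1 : ℝ) ≤ 2 ^ (i + i') := one_le_pow₀ (by norm_num)
    linarith
  have hAB : ((2 ^ (i + 1) : ℕ) : ℝ) * ((2 ^ (i' + 1) : ℕ) : ℝ) = X := by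
    rw [hX]; push_cast
    rw [pow_add, pow_add, pow_add]; ring
  have hD0 : 0 < D := by linarith
  have hA : ((2 ^ (i + 1) : ℕ) : ℝ) ≤ X := by
    rw [← hAB]
    exact le_mul_of_one_le_right (by positivity) (by exact_mod_cast Nat.one_le_two_pow)
  have hB : ((2 ^ (i' + 1) : ℕ) : ℝ) ≤ X := by
    rw [← hAB]
    exact le_mul_of_one_le_left (by positivity) (by exact_mod_cast Nat.one_le_two_pow)
  have hXj : X ≤ X ^ j := le_self_pow₀ hX1' (by omega)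
  have hcnt := cnt_all K Ψ (2 ^ (i + 1)) (2 ^ (i' + 1)) j ⌊(D ^ 2) ^ j⌋₊ (D ^ 2) (by
    intro z hz
    obtain ⟨⟨a1, a2⟩, ⟨a3, a4⟩, _⟩ := hΨ z hz
    have e1 : (z.1 : ℝ) ≤ (q : ℝ) ^ (4 / 3 : ℝ) :=
      ((Nat.cast_le.2 a2).trans hA).trans (hXj.trans hX2)
    have e2 : (z.2 : ℝ) ≤ (q : ℝ) ^ (4 / 3 : ℝ) :=
      ((Nat.cast_le.2 a4).trans hB).trans (hXj.trans hX2)
    have f1 := hD z.1 a1 e1
    have f2 := hD z.2 a3 e2
    have g1 : ((2 : ℝ) ^ z.1.primeFactors.card) ≤ z.1.divisors.card := by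
      exact_mod_cast two_pow_omega z.1 a1.ne'
    have g2 : ((2 : ℝ) ^ z.2.primeFactors.card) ≤ z.2.divisors.card := by
      exact_mod_cast two_pow_omega z.2 a3.ne'
    rw [pow_add, sq]
    exact mul_le_mul (g1.trans f1) (g2.trans f2) (by positivity) hD0.le) (by positivity) hΨ (by
    intro U V hU hU' hV hV'
    apply Nat.le_floor
    have h1 := mult_div Ψ j hU hV
    have e1 : (U : ℝ) ≤ (q : ℝ) ^ (4 / 3 : ℝ) := by
      calc (U : ℝ) ≤ (((2 ^ (i + 1)) ^ j : ℕ) : ℝ) := by exact_mod_cast hU'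
        _ = ((2 ^ (i + 1) : ℕ) : ℝ) ^ j := by push_cast; rfl
        _ ≤ X ^ j := pow_le_pow_left₀ (by positivity) hA j
        _ ≤ _ := hX2
    have e2 : (V : ℝ) ≤ (q : ℝ) ^ (4 / 3 : ℝ) := by
      calc (V : ℝ) ≤ (((2 ^ (i' + 1)) ^ j : ℕ) : ℝ) := by exact_mod_cast hV'
        _ = ((2 ^ (i' + 1) : ℕ) : ℝ) ^ j := by push_cast; rfl
        _ ≤ X ^ j := pow_le_pow_left₀ (by positivity) hB j
        _ ≤ _ := hX2
    have f1 := hD U hU e1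
    have f2 := hD V hV e2
    calc ((FP Ψ j U V).card : ℝ) ≤ (((U.divisors.card * V.divisors.card) ^ j : ℕ) : ℝ) := by
          exact_mod_cast h1
      _ = ((U.divisors.card : ℝ) * (V.divisors.card : ℝ)) ^ j := by push_cast; rfl
      _ ≤ (D ^ 2) ^ j := by
          apply pow_le_pow_left₀ (mul_nonneg (Nat.cast_nonneg _) (Nat.cast_nonneg _))
          rw [sq]
          exact mul_le_mul f1 f2 (Nat.cast_nonneg _) hD0.le)
  rw [hAB] at hcnt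
  have hfl : ((⌊(D ^ 2) ^ j⌋₊ : ℕ) : ℝ) ≤ (D ^ 2) ^ j := Nat.floor_le (by positivity)
  have hKn : (0 : ℝ) ≤ (Fintype.card K : ℝ) := Nat.cast_nonneg _
  have h2 : (Ψ.card : ℝ) ^ j * q ≤ (D ^ 4) ^ j * ((q : ℝ) ^ (1 / 3 - δ) * (q + 4 * X ^ j)) := by
    refine hcnt.trans ?_
    have e1 : (D ^ 4) ^ j = (D ^ 2) ^ j * (D ^ 2) ^ j := by
      rw [← mul_pow]; congr 1; ring
    rw [e1, mul_assoc]
    apply mul_le_mul_of_nonneg_left _ (by positivity)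
    apply mul_le_mul hfl _ (by positivity) (by positivity)
    exact mul_le_mul_of_nonneg_right hK (by positivity)
  have hs0 : 0 < Real.sqrt X := Real.sqrt_pos.2 hX0
  have hsj : Real.sqrt X ^ j = Real.sqrt (X ^ j) := by
    rw [Real.sqrt_eq_rpow, Real.sqrt_eq_rpow, ← Real.rpow_natCast, ← Real.rpow_natCast,
      ← Real.rpow_mul hX0.le, ← Real.rpow_mul hX0.le, mul_comm]
  have hlow : (q : ℝ) ^ (1 / 3 : ℝ) ≤ Real.sqrt X ^ j := by
    rw [hsj]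
    apply Real.le_sqrt_of_sq_le
    rw [← Real.rpow_natCast, ← Real.rpow_mul hq0.le]
    norm_num
    exact hX1
  have hup : Real.sqrt X ^ j ≤ (q : ℝ) ^ (2 / 3 : ℝ) := by
    rw [hsj]
    have e : ((q : ℝ) ^ (2 / 3 : ℝ)) ^ 2 = (q : ℝ) ^ (4 / 3 : ℝ) := by
      rw [← Real.rpow_natCast, ← Real.rpow_mul hq0.le]
      norm_num
    rw [Real.sqrt_le_left (by positivity), e]
    exact hX2
  have hXs : X ^ j = Real.sqrt X ^ j * Real.sqrt X ^ j := by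
    rw [← mul_pow, Real.mul_self_sqrt hX0.le]
  -- the final inequality
  have hJ0 : 0 < J := lt_of_lt_of_le (by exact_mod_cast hj) hjJ
  have hτ : 0 ≤ 5 * D ^ 4 * (q : ℝ) ^ (-(δ / J)) := by positivity
  have key : ((Ψ.card : ℝ) / Real.sqrt X) ^ j ≤ (5 * D ^ 4 * (q : ℝ) ^ (-(δ / J))) ^ j := by
    have h3 : ((Ψ.card : ℝ) / Real.sqrt X) ^ j ≤ (D ^ 4) ^ j * (5 * (q : ℝ) ^ (-δ)) := by
      rw [div_pow, div_le_iff₀ (by positivity)]
      have h4 : (Ψ.card : ℝ) ^ j ≤ (D ^ 4) ^ j * ((q : ℝ) ^ (1 / 3 - δ) * (1 + 4 * X ^ j / q)) := by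
        have : (Ψ.card : ℝ) ^ j * q ≤ ((D ^ 4) ^ j * ((q : ℝ) ^ (1 / 3 - δ) * (1 + 4 * X ^ j / q))) * q := by
          refine h2.trans (le_of_eq ?_)
          field_simp
        exact le_of_mul_le_mul_right this hq0
      refine h4.trans ?_
      rw [mul_assoc]
      apply mul_le_mul_of_nonneg_left _ (by positivity)
      have h5 : (1 : ℝ) ≤ (q : ℝ) ^ (-(1 / 3 : ℝ)) * Real.sqrt X ^ j := by
        calc (1 : ℝ) = (q : ℝ) ^ (-(1 / 3 : ℝ)) * (q : ℝ) ^ (1 / 3 : ℝ) := by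
              rw [← Real.rpow_add hq0]; norm_num
          _ ≤ _ := mul_le_mul_of_nonneg_left hlow (by positivity)
      have h6 : X ^ j / q ≤ (q : ℝ) ^ (-(1 / 3 : ℝ)) * Real.sqrt X ^ j := by
        rw [hXs, div_le_iff₀ hq0]
        calc Real.sqrt X ^ j * Real.sqrt X ^ j ≤ (q : ℝ) ^ (2 / 3 : ℝ) * Real.sqrt X ^ j :=
              mul_le_mul_of_nonneg_right hup (by positivity)
          _ = ((q : ℝ) ^ (-(1 / 3 : ℝ)) * (q : ℝ) ^ (1 : ℝ)) * Real.sqrt X ^ j := by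
              rw [← Real.rpow_add hq0]; norm_num
          _ = _ := by rw [Real.rpow_one]; ring
      calc (q : ℝ) ^ (1 / 3 - δ) * (1 + 4 * X ^ j / q) ≤
          (q : ℝ) ^ (1 / 3 - δ) * (5 * ((q : ℝ) ^ (-(1 / 3 : ℝ)) * Real.sqrt X ^ j)) := by
            apply mul_le_mul_of_nonneg_left _ (by positivity)
            have : 4 * X ^ j / q = 4 * (X ^ j / q) := by ring
            rw [this]; linarith
        _ = 5 * ((q : ℝ) ^ (1 / 3 - δ) * (q : ℝ) ^ (-(1 / 3 : ℝ))) * Real.sqrt X ^ j := by ring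
        _ = 5 * (q : ℝ) ^ (-δ) * Real.sqrt X ^ j := by
            rw [← Real.rpow_add hq0]; congr 3; ring
    refine h3.trans ?_
    rw [mul_pow, mul_pow, mul_comm (5 ^ j), mul_assoc]
    apply mul_le_mul_of_nonneg_left _ (by positivity)
    apply mul_le_mul
    · exact le_self_pow₀ (by norm_num) (by omega)
    · rw [← Real.rpow_natCast, ← Real.rpow_mul hq0.le]
      apply Real.rpow_le_rpow_of_exponent_le hq1
      have : δ / J * j ≤ δ := by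
        rw [div_mul_eq_mul_div, div_le_iff₀ hJ0]
        exact mul_le_mul_of_nonneg_left hjJ hδ.le
      linarith
    · positivity
    · positivity
  exact le_of_pow_le_pow_left₀ (by omega) hτ key

/-- choice of the exponent -/
lemma pick_j (X η : ℝ) (hη : 0 < η) (hq : 1 < q) (h1 : (q : ℝ) ^ η ≤ X) (h2 : X ≤ (q : ℝ) ^ (4 / 3 : ℝ)) :
    ∃ j : ℕ, 1 ≤ j ∧ (j : ℝ) ≤ 1 / η + 1 ∧ (q : ℝ) ^ (2 / 3 : ℝ) ≤ X ^ j ∧
      X ^ j ≤ (q : ℝ) ^ (4 / 3 : ℝ) := by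
  have hq1 : (1 : ℝ) < q := by exact_mod_cast hq
  have hq0 : (0 : ℝ) < q := by linarith
  set Λ := Real.log q with hΛ
  have hΛ0 : 0 < Λ := Real.log_pos hq1
  have hX0 : 0 < X := lt_of_lt_of_le (by positivity) h1
  set x := Real.log X with hx
  have hqe : ∀ a : ℝ, (q : ℝ) ^ a = Real.exp (Λ * a) := fun a => Real.rpow_def_of_pos hq0 a
  have hXe : ∀ j : ℕ, X ^ j = Real.exp (j * x) := by
    intro j
    rw [Real.exp_nat_mul, hx, Real.exp_log hX0]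
  have hx1 : Λ * η ≤ x := by
    rw [hx, Real.le_log_iff_exp_le hX0, ← hqe]; exact h1
  have hx2 : x ≤ Λ * (4 / 3) := by
    rw [hx, Real.log_le_iff_le_exp hX0, ← hqe]; exact h2
  have hx0 : 0 < x := lt_of_lt_of_le (by positivity) hx1
  refine ⟨⌈Λ * (2 / 3) / x⌉₊, ?_, ?_, ?_, ?_⟩
  · exact Nat.one_le_iff_ne_zero.2 (Nat.ceil_pos.2 (by positivity)).ne'
  · have h3 := (Nat.ceil_lt_add_one (a := Λ * (2 / 3) / x) (by positivity)).le
    refine h3.trans ?_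
    have : Λ * (2 / 3) / x ≤ 1 / η := by
      rw [div_le_div_iff₀ hx0 hη]
      nlinarith
    linarith
  · rw [hqe, hXe]
    apply Real.exp_le_exp.2
    have h3 := Nat.le_ceil (Λ * (2 / 3) / x)
    rw [div_le_iff₀ hx0] at h3
    exact h3
  · rw [hqe, hXe]
    apply Real.exp_le_exp.2
    rcases le_or_gt x (Λ * (2 / 3)) with h3 | h3
    · have h4 := (Nat.ceil_lt_add_one (a := Λ * (2 / 3) / x) (by positivity)).le
      have h5 := mul_le_mul_of_nonneg_right h4 hx0.le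
      rw [add_mul, div_mul_cancel₀ _ hx0.ne', one_mul] at h5
      linarith
    · have h4 : ⌈Λ * (2 / 3) / x⌉₊ = 1 := by
        rw [Nat.ceil_eq_iff (by norm_num)]
        constructor
        · simp; positivity
        · rw [Nat.cast_one, div_le_one hx0]; exact h3.le
      rw [h4, Nat.cast_one, one_mul]
      exact hx2

theorem high_sum (δ η : ℝ) (hδ : 0 < δ) (hη : 0 < η) : ∃ κ : ℝ, 0 < κ ∧ ∃ q₀ : ℕ,
    ∀ (q : ℕ) [Fact q.Prime], q₀ ≤ q → ∀ K : Subgroup (ZMod q)ˣ,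
    (Fintype.card K : ℝ) ≤ (q : ℝ) ^ (1 / 3 - δ) → ∀ M : ℕ,
    ∑ w ∈ (KR q K M).filter (fun w => (q : ℝ) ^ η ≤ (w.1 : ℝ) * w.2 ∧
      (w.1 : ℝ) * w.2 ≤ (q : ℝ) ^ (13 / 10 : ℝ)), 1 / Real.sqrt ((w.1 : ℝ) * w.2) ≤
      (q : ℝ) ^ (-κ) := by
  set J : ℝ := 1 / η + 1 with hJ
  have hJ0 : 0 < J := by rw [hJ]; positivity
  set κ' : ℝ := δ / (32 * J) with hκ'
  have hκ'0 : 0 < κ' := by rw [hκ']; positivity
  obtain ⟨C, hC, hdiv⟩ := divisor_bound κ' hκ'0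
  set C1 := max C 1 with hC1
  have hC11 : 1 ≤ C1 := le_max_right _ _
  have hCC1 : C ≤ C1 := le_max_left _ _
  have hev := Pool.Agent.V8H32.Cos.ev_log (90 * C1 ^ 4) 1 (δ / (16 * J)) (by positivity)
  obtain ⟨q₁, hq₁⟩ := Filter.eventually_atTop.1 (tendsto_natCast_atTop_atTop (R := ℝ) |>.eventually hev)
  refine ⟨δ / (2 * J), by positivity, max q₁ (4 ^ 30), fun q _ hqq K hK M => ?_⟩
  have hq1 : q₁ ≤ q := (le_max_left _ _).trans hqq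
  have hq2 : 4 ^ 30 ≤ q := (le_max_right _ _).trans hqq
  have hqone : 1 < q := Nat.Prime.one_lt Fact.out
  have hqR1 : (1 : ℝ) < q := by exact_mod_cast hqone
  have hq0 : (0 : ℝ) < q := by linarith
  have hev1 := hq₁ q hq1
  set Λ := Real.log q with hΛ
  have hΛ1 : 1 ≤ Λ := by
    rw [hΛ, Real.le_log_iff_exp_le hq0]
    have h1 := Real.exp_one_lt_d9
    have h2 : ((4 ^ 30 : ℕ) : ℝ) ≤ q := Nat.cast_le.2 hq2
    have h3 : (4 : ℝ) ≤ ((4 ^ 30 : ℕ) : ℝ) := by norm_num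
    linarith
  have h4q : (4 : ℝ) ≤ (q : ℝ) ^ (1 / 30 : ℝ) := by
    have h2 : (4 : ℝ) ^ (30 : ℕ) ≤ q := by
      have : ((4 ^ 30 : ℕ) : ℝ) ≤ q := Nat.cast_le.2 hq2
      rwa [Nat.cast_pow, Nat.cast_ofNat] at this
    calc (4 : ℝ) = ((4 : ℝ) ^ (30 : ℕ)) ^ (1 / 30 : ℝ) := by
          rw [← Real.rpow_natCast, ← Real.rpow_mul (by norm_num)]
          norm_num
      _ ≤ _ := Real.rpow_le_rpow (by positivity) h2 (by norm_num)
  set D : ℝ := C1 * (q : ℝ) ^ (δ / (16 * J)) with hD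
  have hDone : 1 ≤ D := by
    rw [hD]
    have : (1 : ℝ) ≤ (q : ℝ) ^ (δ / (16 * J)) := Real.one_le_rpow hqR1.le (by positivity)
    nlinarith
  have hDd : ∀ n : ℕ, 0 < n → (n : ℝ) ≤ (q : ℝ) ^ (4 / 3 : ℝ) → ((n.divisors.card : ℕ) : ℝ) ≤ D := by
    intro n hn hnq
    refine (hdiv n hn.ne').trans ?_
    rw [hD]
    apply mul_le_mul hCC1 _ (by positivity) (by linarith)
    calc (n : ℝ) ^ κ' ≤ ((q : ℝ) ^ (4 / 3 : ℝ)) ^ κ' := Real.rpow_le_rpow (by positivity) hnq hκ'0.le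
      _ = (q : ℝ) ^ (4 / 3 * κ') := by rw [← Real.rpow_mul hq0.le]
      _ ≤ _ := by
          apply Real.rpow_le_rpow_of_exponent_le hqR1.le
          have : δ / (16 * J) = 2 * κ' := by rw [hκ']; field_simp; norm_num
          rw [this]; linarith
  set S := (KR q K M).filter (fun w => (q : ℝ) ^ η ≤ (w.1 : ℝ) * w.2 ∧
      (w.1 : ℝ) * w.2 ≤ (q : ℝ) ^ (13 / 10 : ℝ)) with hS
  have hSm : ∀ w ∈ S, (0 < w.1 ∧ 0 < w.2) ∧ Nat.Coprime w.1 w.2 ∧ w.1.Coprime q ∧ w.2.Coprime q ∧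
      cls q w.1 w.2 ∈ K ∧ (q : ℝ) ^ η ≤ (w.1 : ℝ) * w.2 ∧ (w.1 : ℝ) * w.2 ≤ (q : ℝ) ^ (13 / 10 : ℝ) := by
    intro w hw
    rw [hS, mem_filter, mem_KR] at hw
    obtain ⟨⟨⟨a1, _⟩, ⟨a2, _⟩, a3, a4, a5, a6⟩, a7, a8⟩ := hw
    exact ⟨⟨a1, a2⟩, a3, a4, a5, a6, a7, a8⟩
  have hn₀ : ∀ w ∈ S, Nat.log 2 w.1 < ⌊2 * Λ⌋₊ + 1 ∧ Nat.log 2 w.2 < ⌊2 * Λ⌋₊ + 1 := by
    intro w hw
    obtain ⟨⟨a1, a2⟩, _, _, _, _, _, a8⟩ := hSm w hw
    have b1 : (1 : ℝ) ≤ w.1 := by exact_mod_cast a1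
    have b2 : (1 : ℝ) ≤ w.2 := by exact_mod_cast a2
    have hl2 := Real.log_two_gt_d9
    have key : ∀ n : ℕ, 0 < n → (n : ℝ) ≤ (q : ℝ) ^ (13 / 10 : ℝ) → Nat.log 2 n < ⌊2 * Λ⌋₊ + 1 := by
      intro n hn hnq
      apply Nat.lt_succ_of_le
      apply Nat.le_floor
      have h1 := log2_le hn.ne'
      have h2 : Real.log n ≤ 13 / 10 * Λ := by
        rw [hΛ, ← Real.log_rpow hq0]
        exact Real.log_le_log (by exact_mod_cast hn) hnq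
      have h3 : (Nat.log 2 n : ℝ) * Real.log 2 ≤ (2 * Λ) * Real.log 2 := by
        have : 13 / 10 * Λ ≤ (2 * Λ) * Real.log 2 := by nlinarith
        linarith
      exact le_of_mul_le_mul_right h3 (by linarith)
    exact ⟨key w.1 a1 (by nlinarith), key w.2 a2 (by nlinarith)⟩
  have hbox := dyadic S (fun w => 1 / Real.sqrt ((w.1 : ℝ) * w.2)) (⌊2 * Λ⌋₊ + 1) hn₀
    (10 * D ^ 4 * (q : ℝ) ^ (-(δ / J))) (by
    intro i i'
    set Ψ := S.filter (fun w => (Nat.log 2 w.1, Nat.log 2 w.2) = (i, i')) with hΨ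
    rcases Ψ.eq_empty_or_nonempty with he | ⟨w0, hw0⟩
    · rw [he, Finset.sum_empty]; positivity
    · have hΨm : ∀ w ∈ Ψ, w ∈ S ∧ 2 ^ i ≤ w.1 ∧ w.1 < 2 ^ (i + 1) ∧ 2 ^ i' ≤ w.2 ∧ w.2 < 2 ^ (i' + 1) := by
        intro w hw
        rw [hΨ, mem_filter, Prod.mk.injEq] at hw
        obtain ⟨hw1, hw2, hw3⟩ := hw
        obtain ⟨⟨a1, a2⟩, _⟩ := hSm w hw1
        refine ⟨hw1, ?_, ?_, ?_, ?_⟩
        · rw [← hw2]; exact Nat.pow_log_le_self 2 a1.ne'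
        · rw [← hw2]; exact Nat.lt_pow_succ_log_self (by norm_num) _
        · rw [← hw3]; exact Nat.pow_log_le_self 2 a2.ne'
        · rw [← hw3]; exact Nat.lt_pow_succ_log_self (by norm_num) _
      obtain ⟨hw0S, c1, c2, c3, c4⟩ := hΨm w0 hw0
      obtain ⟨⟨a1, a2⟩, _, _, _, _, a7, a8⟩ := hSm w0 hw0S
      have d1 : (2 : ℝ) ^ i ≤ w0.1 := by exact_mod_cast c1
      have d2 : (w0.1 : ℝ) ≤ 2 ^ (i + 1) := by exact_mod_cast c2.le
      have d3 : (2 : ℝ) ^ i' ≤ w0.2 := by exact_mod_cast c3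
      have d4 : (w0.2 : ℝ) ≤ 2 ^ (i' + 1) := by exact_mod_cast c4.le
      have hXlow : (q : ℝ) ^ η ≤ (4 : ℝ) * 2 ^ (i + i') := by
        refine a7.trans ?_
        calc (w0.1 : ℝ) * w0.2 ≤ 2 ^ (i + 1) * 2 ^ (i' + 1) := mul_le_mul d2 d4 (by positivity) (by positivity)
          _ = _ := by rw [pow_add, pow_add, pow_add]; ring
      have hXup : (4 : ℝ) * 2 ^ (i + i') ≤ (q : ℝ) ^ (4 / 3 : ℝ) := by
        calc (4 : ℝ) * 2 ^ (i + i') = 4 * (2 ^ i * 2 ^ i') := by rw [pow_add]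
          _ ≤ 4 * ((w0.1 : ℝ) * w0.2) := by
              apply mul_le_mul_of_nonneg_left _ (by norm_num)
              exact mul_le_mul d1 d3 (by positivity) (by positivity)
          _ ≤ (q : ℝ) ^ (1 / 30 : ℝ) * (q : ℝ) ^ (13 / 10 : ℝ) :=
              mul_le_mul h4q a8 (by positivity) (by positivity)
          _ = _ := by rw [← Real.rpow_add hq0]; norm_num
      obtain ⟨j, j1, j2, j3, j4⟩ := pick_j (q := q) _ η hη hqone hXlow hXup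
      have hb := high_box K Ψ i i' j D j1 δ J j2 hδ hK (by
        intro w hw
        obtain ⟨e1, e2, e3, e4, e5⟩ := hΨm w hw
        obtain ⟨⟨f1, f2⟩, f3, f4, f5, f6, _⟩ := hSm w e1
        exact ⟨⟨f1, e3.le⟩, ⟨f2, e5.le⟩, f4, f5, f6, f3⟩) hDone hDd j3 j4
      have hterm : ∀ w ∈ Ψ, 1 / Real.sqrt ((w.1 : ℝ) * w.2) ≤ 2 / Real.sqrt ((4 : ℝ) * 2 ^ (i + i')) := by
        intro w hw
        obtain ⟨e1, e2, e3, e4, e5⟩ := hΨm w hw
        have g1 : (2 : ℝ) ^ i ≤ w.1 := by exact_mod_cast e2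
        have g2 : (2 : ℝ) ^ i' ≤ w.2 := by exact_mod_cast e4
        have g3 : Real.sqrt ((4 : ℝ) * 2 ^ (i + i')) = 2 * Real.sqrt (2 ^ (i + i')) := by
          rw [Real.sqrt_mul (by norm_num), show (4 : ℝ) = 2 * 2 by norm_num,
            Real.sqrt_mul_self (by norm_num)]
        rw [g3]
        have g4 : 0 < Real.sqrt ((2 : ℝ) ^ (i + i')) := Real.sqrt_pos.2 (by positivity)
        have g5 : Real.sqrt ((2 : ℝ) ^ (i + i')) ≤ Real.sqrt ((w.1 : ℝ) * w.2) := by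
          apply Real.sqrt_le_sqrt
          rw [pow_add]
          exact mul_le_mul g1 g2 (by positivity) (by positivity)
        calc 1 / Real.sqrt ((w.1 : ℝ) * w.2) ≤ 1 / Real.sqrt ((2 : ℝ) ^ (i + i')) :=
              one_div_le_one_div_of_le g4 g5
          _ = _ := by field_simp
      calc ∑ w ∈ Ψ, 1 / Real.sqrt ((w.1 : ℝ) * w.2) ≤ ∑ _w ∈ Ψ, 2 / Real.sqrt ((4 : ℝ) * 2 ^ (i + i')) :=
            Finset.sum_le_sum hterm
        _ = 2 * ((Ψ.card : ℝ) / Real.sqrt ((4 : ℝ) * 2 ^ (i + i'))) := by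
            rw [Finset.sum_const, nsmul_eq_mul]; ring
        _ ≤ 2 * (5 * D ^ 4 * (q : ℝ) ^ (-(δ / J))) := mul_le_mul_of_nonneg_left hb (by norm_num)
        _ = _ := by ring)
  refine hbox.trans ?_
  have hfl : ((⌊2 * Λ⌋₊ + 1 : ℕ) : ℝ) ≤ 3 * Λ := by
    push_cast
    have := Nat.floor_le (a := 2 * Λ) (by positivity)
    linarith
  have hD4 : D ^ 4 = C1 ^ 4 * ((q : ℝ) ^ (δ / (16 * J))) ^ 4 := by rw [hD, mul_pow]
  set Z := (q : ℝ) ^ (δ / (16 * J)) with hZ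
  have hZ1 : 1 ≤ Z := Real.one_le_rpow hqR1.le (by positivity)
  have hev2 : 90 * C1 ^ 4 * Λ ≤ Z := by
    have h0 : 90 * C1 ^ 4 * (1 + 1 * Λ) ≤ Z := hev1
    have : 0 ≤ 90 * C1 ^ 4 := by positivity
    linarith
  have hΛZ : Λ ≤ Z := by
    have h1 : (1 : ℝ) ≤ 90 * C1 ^ 4 := by
      have : (1 : ℝ) ≤ C1 ^ 4 := one_le_pow₀ hC11
      linarith
    nlinarith
  calc ((⌊2 * Λ⌋₊ + 1 : ℕ) : ℝ) ^ 2 * (10 * D ^ 4 * (q : ℝ) ^ (-(δ / J))) ≤
      (3 * Λ) ^ 2 * (10 * D ^ 4 * (q : ℝ) ^ (-(δ / J))) := by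
        apply mul_le_mul_of_nonneg_right _ (by positivity)
        exact pow_le_pow_left₀ (by positivity) hfl 2
    _ = (90 * C1 ^ 4 * Λ) * Λ * Z ^ 4 * (q : ℝ) ^ (-(δ / J)) := by rw [hD4]; ring
    _ ≤ Z * Z * Z ^ 4 * (q : ℝ) ^ (-(δ / J)) := by
        apply mul_le_mul_of_nonneg_right _ (by positivity)
        apply mul_le_mul_of_nonneg_right _ (by positivity)
        exact mul_le_mul hev2 hΛZ (by linarith) (by linarith)
    _ = Z ^ 6 * (q : ℝ) ^ (-(δ / J)) := by ring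
    _ ≤ Z ^ 8 * (q : ℝ) ^ (-(δ / J)) := by
        apply mul_le_mul_of_nonneg_right _ (by positivity)
        exact pow_le_pow_right₀ hZ1 (by norm_num)
    _ = (q : ℝ) ^ (-(δ / (2 * J))) := by
        rw [hZ, ← Real.rpow_natCast, ← Real.rpow_mul hq0.le, ← Real.rpow_add hq0]
        congr 1
        push_cast
        field_simp
        ring

end Pool.Agent.V8H32.NV
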