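import Pool.Agent.V8H32.NV.Mel

/-! The square of the central value as an average of hyperbola sums. -/

set_option autoImplicit false

namespace Pool.Agent.V8H32.NV
open Complex Finset MeasureTheory Filter Topology

/-- the symmetric step function -/
noncomputable def sg2 (z : ℝ) : ℝ := (if 0 < z then 1 else 0) + (if 0 ≤ z then 1 else 0)

lemma sg2_add_neg (z : ℝ) : sg2 z + sg2 (-z) = 2 := by
  unfold sg2
  rcases lt_trichotomy z 0 with h | h | h
  · have h1 : ¬ (0 < z) := by linarith
    have h2 : ¬ (0 ≤ z) := by linarith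
    have h3 : 0 < -z := by linarith
    have h4 : 0 ≤ -z := by linarith
    simp only [h1, h2, h3, h4, if_true, if_false]
    norm_num
  · subst h; norm_num
  · have h1 : ¬ (0 < -z) := by linarith
    have h2 : ¬ (0 ≤ -z) := by linarith
    have h4 : 0 ≤ z := by linarith
    simp only [h1, h2, h, h4, if_true, if_false]
    norm_num

lemma sg2_nonneg (z : ℝ) : 0 ≤ sg2 z := by
  unfold sg2
  split_ifs <;> norm_num

lemma sg2_le (z : ℝ) : sg2 z ≤ 2 * Real.exp z := by
  unfold sg2
  have h := Real.exp_pos z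
  by_cases h0 : 0 ≤ z
  · have h1 := Real.one_le_exp h0
    split_ifs <;> linarith
  · have h1 : ¬ (0 < z) := by linarith
    rw [if_neg h0, if_neg h1]
    linarith

lemma sg2_le_two (z : ℝ) : sg2 z ≤ 2 := by
  have := sg2_add_neg z
  have := sg2_nonneg (-z)
  linarith

lemma sg2_meas : Measurable sg2 := by
  unfold sg2
  apply Measurable.add
  · exact Measurable.ite (measurableSet_lt measurable_const measurable_id) measurable_const
      measurable_const
  · exact Measurable.ite (measurableSet_le measurable_const measurable_id) measurable_const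
      measurable_const

/-- symmetrisation -/
theorem symm_sq (f : ℝ → ℂ) (hf : Integrable f) (e : ℂ) (he : ‖e‖ = 1)
    (h : ∀ x, f (-x) = e * (starRingEnd ℂ) (f x)) :
    ‖∫ x, f x‖ ^ 2 = (∫ p : ℝ × ℝ, ((sg2 (p.1 + p.2) : ℝ) : ℂ) *
      (f p.1 * (starRingEnd ℂ) (f p.2))).re := by
  have hfc : Integrable (fun x => (starRingEnd ℂ) (f x)) := by
    exact (Complex.conjCLE.toContinuousLinearMap.integrable_comp hf)
  have hG : Integrable (fun p : ℝ × ℝ => f p.1 * (starRingEnd ℂ) (f p.2)) := hf.mul_prod hfc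
  have h1 : ∫ p : ℝ × ℝ, f p.1 * (starRingEnd ℂ) (f p.2) = ((‖∫ x, f x‖ ^ 2 : ℝ) : ℂ) := by
    have := integral_prod_mul (μ := (volume : Measure ℝ)) (ν := (volume : Measure ℝ)) f
      (fun x => (starRingEnd ℂ) (f x))
    rw [integral_conj] at this
    rw [Complex.mul_conj, Complex.normSq_eq_norm_sq] at this
    exact this
  have hm : Measurable (fun p : ℝ × ℝ => ((sg2 (p.1 + p.2) : ℝ) : ℂ)) := by
    exact Complex.measurable_ofReal.comp (sg2_meas.comp (measurable_fst.add measurable_snd))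
  have hm' : Measurable (fun p : ℝ × ℝ => ((sg2 (-(p.1 + p.2)) : ℝ) : ℂ)) := by
    exact Complex.measurable_ofReal.comp (sg2_meas.comp (measurable_fst.add measurable_snd).neg)
  have hI1 : Integrable (fun p : ℝ × ℝ => ((sg2 (p.1 + p.2) : ℝ) : ℂ) *
      (f p.1 * (starRingEnd ℂ) (f p.2))) := by
    refine hG.bdd_mul (c := 2) hm.aestronglyMeasurable (Filter.Eventually.of_forall fun p => ?_)
    rw [Complex.norm_real, Real.norm_of_nonneg (sg2_nonneg _)]
    exact sg2_le_two _
  have hI2 : Integrable (fun p : ℝ × ℝ => ((sg2 (-(p.1 + p.2)) : ℝ) : ℂ) *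
      (f p.1 * (starRingEnd ℂ) (f p.2))) := by
    refine hG.bdd_mul (c := 2) hm'.aestronglyMeasurable (Filter.Eventually.of_forall fun p => ?_)
    rw [Complex.norm_real, Real.norm_of_nonneg (sg2_nonneg _)]
    exact sg2_le_two _
  have h2 : ∫ p : ℝ × ℝ, (2 : ℂ) * (f p.1 * (starRingEnd ℂ) (f p.2)) =
      (∫ p : ℝ × ℝ, ((sg2 (p.1 + p.2) : ℝ) : ℂ) * (f p.1 * (starRingEnd ℂ) (f p.2))) +
      ∫ p : ℝ × ℝ, ((sg2 (-(p.1 + p.2)) : ℝ) : ℂ) * (f p.1 * (starRingEnd ℂ) (f p.2)) := by
    rw [← integral_add hI1 hI2]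
    congr 1
    ext p
    have h3 := sg2_add_neg (p.1 + p.2)
    have h4 : ((sg2 (p.1 + p.2) : ℝ) : ℂ) + ((sg2 (-(p.1 + p.2)) : ℝ) : ℂ) = 2 := by
      exact_mod_cast h3
    rw [← add_mul, h4]
  have h3 : ∫ p : ℝ × ℝ, ((sg2 (-(p.1 + p.2)) : ℝ) : ℂ) * (f p.1 * (starRingEnd ℂ) (f p.2)) =
      (starRingEnd ℂ) (∫ p : ℝ × ℝ, ((sg2 (p.1 + p.2) : ℝ) : ℂ) * (f p.1 * (starRingEnd ℂ) (f p.2))) := by
    rw [← integral_conj, ← integral_neg_eq_self (μ := (volume : Measure (ℝ × ℝ)))]
    congr 1
    ext p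
    simp only [Prod.fst_neg, Prod.snd_neg, h, map_mul, Complex.conj_ofReal, Complex.conj_conj]
    have e1 : -(-p.1 + -p.2) = p.1 + p.2 := by ring
    have e2 : e * (starRingEnd ℂ) e = 1 := by
      rw [Complex.mul_conj, Complex.normSq_eq_norm_sq, he]
      norm_num
    rw [e1]
    linear_combination (((sg2 (p.1 + p.2) : ℝ) : ℂ) * (starRingEnd ℂ) (f p.1) * f p.2) * e2
  rw [integral_const_mul, h1, h3] at h2
  have h4 := congrArg Complex.re h2
  simp only [Complex.add_re, Complex.conj_re, Complex.mul_re, Complex.re_ofNat, Complex.ofReal_re,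
    Complex.im_ofNat, Complex.ofReal_im, mul_zero, sub_zero] at h4
  linarith

/-- the weight -/
noncomputable def wt (a : ℕ) (s : ℝ) : ℝ := Real.exp (kap a * s - Real.exp s)

lemma wt_pos (a : ℕ) (s : ℝ) : 0 < wt a s := Real.exp_pos _

lemma int_exp {c : ℝ} (hc : 0 < c) : Integrable (fun s : ℝ => Real.exp (c * s - Real.exp s)) := by
  set C : ℝ := (1 + 2 / c ^ 2) + 2 * Real.exp ((c + 1) ^ 2 / 2) with hC
  refine Integrable.mono' (g := fun s : ℝ => C * (1 + s ^ 2)⁻¹)
    (integrable_inv_one_add_sq.const_mul C) ?_ ?_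
  · apply Continuous.aestronglyMeasurable
    fun_prop
  · apply Filter.Eventually.of_forall
    intro s
    rw [Real.norm_of_nonneg (Real.exp_pos _).le, ← div_eq_mul_inv, le_div_iff₀ (by positivity)]
    have hE := Real.exp_pos ((c + 1) ^ 2 / 2)
    have hc2 : 0 < 2 / c ^ 2 := by positivity
    rcases le_total 0 s with hs | hs
    · have h1 := Real.quadratic_le_exp_of_nonneg hs
      have h2 : 1 + s ^ 2 ≤ 2 * Real.exp s := by nlinarith
      have h3 : Real.exp (c * s - Real.exp s) * Real.exp s ≤ Real.exp ((c + 1) ^ 2 / 2) := by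
        rw [← Real.exp_add]
        apply Real.exp_le_exp.2
        nlinarith [sq_nonneg (s - (c + 1))]
      calc Real.exp (c * s - Real.exp s) * (1 + s ^ 2) ≤
            Real.exp (c * s - Real.exp s) * (2 * Real.exp s) :=
            mul_le_mul_of_nonneg_left h2 (Real.exp_pos _).le
        _ = 2 * (Real.exp (c * s - Real.exp s) * Real.exp s) := by ring
        _ ≤ 2 * Real.exp ((c + 1) ^ 2 / 2) := by linarith
        _ ≤ C := by rw [hC]; linarith
    · have h1 := Real.quadratic_le_exp_of_nonneg (x := -(c * s)) (by nlinarith)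
      have h2 : 1 + s ^ 2 ≤ (1 + 2 / c ^ 2) * Real.exp (-(c * s)) := by
        have h4 : 1 + (c * s) ^ 2 / 2 ≤ Real.exp (-(c * s)) := by nlinarith
        calc 1 + s ^ 2 ≤ (1 + 2 / c ^ 2) * (1 + (c * s) ^ 2 / 2) := by
              have e : (1 + 2 / c ^ 2) * (1 + (c * s) ^ 2 / 2) =
                  1 + (c * s) ^ 2 / 2 + 2 / c ^ 2 + s ^ 2 := by
                field_simp
                ring
              rw [e]
              have : 0 ≤ (c * s) ^ 2 / 2 := by positivity
              linarith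
          _ ≤ _ := mul_le_mul_of_nonneg_left h4 (by positivity)
      have h3 : Real.exp (c * s - Real.exp s) * Real.exp (-(c * s)) ≤ 1 := by
        rw [← Real.exp_add, Real.exp_le_one_iff]
        have := Real.exp_pos s
        linarith
      calc Real.exp (c * s - Real.exp s) * (1 + s ^ 2) ≤
            Real.exp (c * s - Real.exp s) * ((1 + 2 / c ^ 2) * Real.exp (-(c * s))) :=
            mul_le_mul_of_nonneg_left h2 (Real.exp_pos _).le
        _ = (1 + 2 / c ^ 2) * (Real.exp (c * s - Real.exp s) * Real.exp (-(c * s))) := by ring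
        _ ≤ (1 + 2 / c ^ 2) * 1 := mul_le_mul_of_nonneg_left h3 (by positivity)
        _ ≤ C := by rw [hC]; linarith

lemma int_wt (a : ℕ) {β : ℝ} (hβ : 0 < kap a + β) :
    Integrable (fun s : ℝ => wt a s * Real.exp (β * s)) := by
  have h := int_exp hβ
  refine h.congr (Filter.Eventually.of_forall fun s => ?_)
  unfold wt
  beta_reduce
  rw [← Real.exp_add]
  congr 1
  ring

lemma int_wt2 (a : ℕ) {β : ℝ} (hβ : 0 < kap a + β) :
    Integrable (fun p : ℝ × ℝ => wt a p.1 * wt a p.2 * Real.exp (β * (p.1 + p.2))) := by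
  have h := (int_wt a hβ).mul_prod (int_wt a hβ)
  refine h.congr (Filter.Eventually.of_forall fun p => ?_)
  beta_reduce
  rw [mul_add, Real.exp_add]
  ring

end Pool.Agent.V8H32.NV
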