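import Pool.Agent.V8H32.NV.Hy

/-! The square of the central value as an average of hyperbola sums: the expansion. -/

set_option autoImplicit false

namespace Pool.Agent.V8H32.NV
open Complex Finset MeasureTheory Filter Topology

variable {q : ℕ}

/-- the terms of the theta series on the real line -/
noncomputable def uu (q a m : ℕ) (x : ℝ) : ℝ :=
  (m : ℝ) ^ a * Real.exp (kap a * x) * Real.exp (-(Real.pi * m ^ 2 / q) * Real.exp x)

lemma uu_nonneg (q a m : ℕ) (x : ℝ) : 0 ≤ uu q a m x := by unfold uu; positivity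

lemma uu_shift (hq : 0 < q) {a m : ℕ} (hm : 0 < m) (s : ℝ) :
    uu q a m (s + Real.log (q / (Real.pi * m ^ 2))) =
      (q / Real.pi) ^ (kap a) * (1 / Real.sqrt m) * wt a s := by
  have hq' : (0 : ℝ) < q := by exact_mod_cast hq
  have hm' : (0 : ℝ) < m := by exact_mod_cast hm
  have hpos : 0 < q / (Real.pi * (m : ℝ) ^ 2) := by positivity
  unfold uu wt
  rw [Real.exp_add, Real.exp_log hpos, mul_add, Real.exp_add, sub_eq_add_neg, Real.exp_add]
  have e1 : Real.exp (kap a * Real.log (q / (Real.pi * (m : ℝ) ^ 2))) =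
      (q / (Real.pi * (m : ℝ) ^ 2)) ^ (kap a) := by
    rw [Real.rpow_def_of_pos hpos, mul_comm]
  have e2 : (q / (Real.pi * (m : ℝ) ^ 2)) ^ (kap a) = (q / Real.pi) ^ (kap a) *
      ((m : ℝ) ^ (a : ℝ))⁻¹ * (1 / Real.sqrt m) := by
    rw [show q / (Real.pi * (m : ℝ) ^ 2) = (q / Real.pi) * ((m : ℝ) ^ 2)⁻¹ by field_simp,
      Real.mul_rpow (by positivity) (by positivity), Real.inv_rpow (by positivity),
      ← Real.rpow_natCast (m : ℝ) 2, ← Real.rpow_mul hm'.le, mul_assoc]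
    congr 1
    rw [Real.sqrt_eq_rpow, one_div, ← mul_inv, ← Real.rpow_add hm']
    congr 2
    unfold kap
    push_cast
    ring
  have e3 : -(Real.pi * (m : ℝ) ^ 2 / q) * (Real.exp s * (q / (Real.pi * (m : ℝ) ^ 2))) =
      -Real.exp s := by
    field_simp
  rw [e1, e2, e3, Real.rpow_natCast]
  have hma : ((m : ℝ) ^ a) ≠ 0 := (pow_pos hm' a).ne'
  field_simp

/-- the threshold -/
noncomputable def ell (q k : ℕ) : ℝ := 2 * Real.log (Real.pi * k / q)

lemma log_add (hq : 0 < q) {m n : ℕ} (hm : 0 < m) (hn : 0 < n) :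
    Real.log (q / (Real.pi * m ^ 2)) + Real.log (q / (Real.pi * n ^ 2)) = - ell q (m * n) := by
  have hq' : (0 : ℝ) < q := by exact_mod_cast hq
  have hm' : (0 : ℝ) < m := by exact_mod_cast hm
  have hn' : (0 : ℝ) < n := by exact_mod_cast hn
  unfold ell
  rw [← Real.log_mul (by positivity) (by positivity),
    show q / (Real.pi * (m : ℝ) ^ 2) * (q / (Real.pi * (n : ℝ) ^ 2)) =
      ((Real.pi * ((m * n : ℕ) : ℝ) / q) ^ 2)⁻¹ by push_cast; field_simp,
    Real.log_inv, Real.log_pow]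
  push_cast
  ring

/-- one term of the expansion -/
noncomputable def wI (q a k : ℕ) (p : ℝ × ℝ) : ℝ :=
  sg2 (p.1 + p.2 - ell q k) * (wt a p.1 * wt a p.2)

lemma wI_nonneg (q a k : ℕ) (p : ℝ × ℝ) : 0 ≤ wI q a k p := by
  unfold wI
  have := wt_pos a p.1
  have := wt_pos a p.2
  have := sg2_nonneg (p.1 + p.2 - ell q k)
  positivity

lemma exp_ell (hq : 0 < q) {k : ℕ} (hk : 0 < k) : Real.exp (- ell q k) = (q / Real.pi) ^ 2 / (k : ℝ) ^ 2 := by
  have hq' : (0 : ℝ) < q := by exact_mod_cast hq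
  have hk' : (0 : ℝ) < k := by exact_mod_cast hk
  unfold ell
  rw [Real.exp_neg, show 2 * Real.log (Real.pi * k / q) = ((2 : ℕ) : ℝ) * Real.log (Real.pi * k / q) by
    push_cast; ring, ← Real.log_pow, Real.exp_log (by positivity)]
  field_simp

lemma wI_le (hq : 0 < q) (a : ℕ) {k : ℕ} (hk : 0 < k) (p : ℝ × ℝ) :
    wI q a k p ≤ 2 * (q / Real.pi) ^ 2 * (1 / (k : ℝ) ^ 2) * (wt a p.1 * wt a p.2 * Real.exp (1 * (p.1 + p.2))) := by
  have h := sg2_le (p.1 + p.2 - ell q k)
  rw [sub_eq_add_neg, Real.exp_add, exp_ell hq hk] at h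
  unfold wI
  have h1 := wt_pos a p.1
  have h2 := wt_pos a p.2
  calc sg2 (p.1 + p.2 - ell q k) * (wt a p.1 * wt a p.2) ≤
      (2 * (Real.exp (p.1 + p.2) * ((q / Real.pi) ^ 2 / (k : ℝ) ^ 2))) * (wt a p.1 * wt a p.2) := by
        apply mul_le_mul_of_nonneg_right _ (by positivity)
        rw [sub_eq_add_neg]
        exact h
    _ = _ := by rw [one_mul]; ring

lemma wI_meas (q a k : ℕ) : Measurable (wI q a k) := by
  unfold wI wt
  apply Measurable.mul
  · exact sg2_meas.comp ((measurable_fst.add measurable_snd).sub measurable_const)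
  · apply Measurable.mul
    · fun_prop
    · fun_prop

lemma wI_int (hq : 0 < q) (a : ℕ) {k : ℕ} (hk : 0 < k) : Integrable (wI q a k) := by
  have h := int_wt2 a (β := 1) (by linarith [kap_pos a])
  refine Integrable.mono' (h.const_mul (2 * (q / Real.pi) ^ 2 * (1 / (k : ℝ) ^ 2)))
    (wI_meas q a k).aestronglyMeasurable (Filter.Eventually.of_forall fun p => ?_)
  rw [Real.norm_of_nonneg (wI_nonneg _ _ _ _)]
  exact wI_le hq a hk p

/-- total mass of the dominating function -/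
noncomputable def mas (a : ℕ) : ℝ := ∫ p : ℝ × ℝ, wt a p.1 * wt a p.2 * Real.exp (1 * (p.1 + p.2))

lemma wI_integral_le (hq : 0 < q) (a : ℕ) {k : ℕ} (hk : 0 < k) :
    ∫ p, wI q a k p ≤ 2 * (q / Real.pi) ^ 2 * mas a * (1 / (k : ℝ) ^ 2) := by
  have h := int_wt2 a (β := 1) (by linarith [kap_pos a])
  have h1 := integral_mono (wI_int hq a hk) (h.const_mul (2 * (q / Real.pi) ^ 2 * (1 / (k : ℝ) ^ 2)))
    (fun p => wI_le hq a hk p)
  rw [integral_const_mul] at h1
  refine h1.trans (le_of_eq ?_)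
  unfold mas
  ring

/-- the shift of the double integral -/
lemma uu_prod_shift (hq : 0 < q) {a m n : ℕ} (hm : 0 < m) (hn : 0 < n) (p : ℝ × ℝ) :
    sg2 ((p + (Real.log (q / (Real.pi * m ^ 2)), Real.log (q / (Real.pi * n ^ 2)))).1 +
      (p + (Real.log (q / (Real.pi * m ^ 2)), Real.log (q / (Real.pi * n ^ 2)))).2) *
      (uu q a m (p + (Real.log (q / (Real.pi * m ^ 2)), Real.log (q / (Real.pi * n ^ 2)))).1 *
       uu q a n (p + (Real.log (q / (Real.pi * m ^ 2)), Real.log (q / (Real.pi * n ^ 2)))).2) =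
      ((q / Real.pi) ^ (kap a)) ^ 2 * (1 / Real.sqrt m * (1 / Real.sqrt n)) * wI q a (m * n) p := by
  simp only [Prod.fst_add, Prod.snd_add]
  rw [uu_shift hq hm, uu_shift hq hn]
  have e : p.1 + Real.log (q / (Real.pi * m ^ 2)) + (p.2 + Real.log (q / (Real.pi * n ^ 2))) =
      p.1 + p.2 - ell q (m * n) := by
    have := log_add hq hm hn
    linarith
  rw [e]
  unfold wI
  ring

lemma uu_int (hq : 0 < q) {a m n : ℕ} (hm : 0 < m) (hn : 0 < n) :
    Integrable (fun p : ℝ × ℝ => sg2 (p.1 + p.2) * (uu q a m p.1 * uu q a n p.2)) := by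
  set c : ℝ × ℝ := (Real.log (q / (Real.pi * m ^ 2)), Real.log (q / (Real.pi * n ^ 2))) with hc
  have h1 : Integrable (fun p : ℝ × ℝ => ((q / Real.pi) ^ (kap a)) ^ 2 *
      (1 / Real.sqrt m * (1 / Real.sqrt n)) * wI q a (m * n) p) :=
    (wI_int hq a (Nat.mul_pos hm hn)).const_mul _
  have h2 : Integrable (fun p : ℝ × ℝ => (fun p : ℝ × ℝ => sg2 (p.1 + p.2) *
      (uu q a m p.1 * uu q a n p.2)) (p + c)) := by
    refine h1.congr (Filter.Eventually.of_forall fun p => ?_)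
    beta_reduce
    exact (uu_prod_shift hq hm hn p).symm
  have h3 := h2.comp_add_right (-c)
  refine h3.congr (Filter.Eventually.of_forall fun p => ?_)
  beta_reduce
  rw [neg_add_cancel_right]

lemma uu_integral (hq : 0 < q) {a m n : ℕ} (hm : 0 < m) (hn : 0 < n) :
    ∫ p : ℝ × ℝ, sg2 (p.1 + p.2) * (uu q a m p.1 * uu q a n p.2) =
      ((q / Real.pi) ^ (kap a)) ^ 2 * (1 / Real.sqrt m * (1 / Real.sqrt n)) *
        ∫ p, wI q a (m * n) p := by
  set c : ℝ × ℝ := (Real.log (q / (Real.pi * m ^ 2)), Real.log (q / (Real.pi * n ^ 2))) with hc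
  rw [← integral_add_right_eq_self (μ := (volume : Measure (ℝ × ℝ)))
    (fun p : ℝ × ℝ => sg2 (p.1 + p.2) * (uu q a m p.1 * uu q a n p.2)) c, ← integral_const_mul]
  congr 1
  ext p
  exact uu_prod_shift hq hm hn p

end Pool.Agent.V8H32.NV
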