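import Pool.Agent.V8H32.NV.Hy2

/-! The square of the central value as an average of hyperbola sums: conclusion. -/

set_option autoImplicit false

namespace Pool.Agent.V8H32.NV
open Complex Finset MeasureTheory Filter Topology

variable {q : ℕ}

/-- coefficient -/
noncomputable def bb (χ : DirichletCharacter ℂ q) (m n : ℕ) : ℂ :=
  χ (m : ZMod q) * (starRingEnd ℂ) (χ (n : ZMod q))

lemma bb_norm (χ : DirichletCharacter ℂ q) (m n : ℕ) : ‖bb χ m n‖ ≤ 1 := by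
  unfold bb
  rw [norm_mul, Complex.norm_conj]
  calc ‖χ (m : ZMod q)‖ * ‖χ (n : ZMod q)‖ ≤ 1 * 1 :=
        mul_le_mul (DirichletCharacter.norm_le_one χ _) (DirichletCharacter.norm_le_one χ _)
          (norm_nonneg _) zero_le_one
    _ = 1 := one_mul _

lemma bb_zero_left (χ : DirichletCharacter ℂ q) (hχ : χ 0 = 0) (n : ℕ) : bb χ 0 n = 0 := by
  simp [bb, hχ]

lemma bb_zero_right (χ : DirichletCharacter ℂ q) (hχ : χ 0 = 0) (n : ℕ) : bb χ n 0 = 0 := by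
  simp [bb, hχ]

lemma ff_eq (χ : DirichletCharacter ℂ q) (a : ℕ) (x : ℝ) :
    ff χ a x = ∑' m : ℕ, χ (m : ZMod q) * (uu q a m x : ℂ) := by
  unfold ff Th uu
  rw [← tsum_mul_left]
  apply tsum_congr
  intro m
  push_cast
  ring

lemma ff_summable (hq : 0 < q) (χ : DirichletCharacter ℂ q) (hχ : χ 0 = 0) {a : ℕ} (ha : a ≤ 1) (x : ℝ) :
    Summable (fun m : ℕ => ‖χ (m : ZMod q) * (uu q a m x : ℂ)‖) := by
  have h := ((summable_term hq χ ha (Real.exp_pos x) hχ).norm).mul_left (Real.exp (kap a * x))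
  refine h.congr (fun m => ?_)
  rw [norm_mul, norm_mul, norm_mul, norm_pow, Complex.norm_natCast, Complex.norm_real,
    Complex.norm_real, Real.norm_of_nonneg (Real.exp_pos _).le,
    Real.norm_of_nonneg (uu_nonneg q a m x)]
  unfold uu
  ring

lemma prod_expand (hq : 0 < q) (χ : DirichletCharacter ℂ q) (hχ : χ 0 = 0) {a : ℕ} (ha : a ≤ 1)
    (p : ℝ × ℝ) : ((sg2 (p.1 + p.2) : ℝ) : ℂ) * (ff χ a p.1 * (starRingEnd ℂ) (ff χ a p.2)) =
      ∑' z : ℕ × ℕ, bb χ z.1 z.2 *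
        ((sg2 (p.1 + p.2) * (uu q a z.1 p.1 * uu q a z.2 p.2) : ℝ) : ℂ) := by
  have e1 : (starRingEnd ℂ) (ff χ a p.2) = ∑' n : ℕ, (starRingEnd ℂ) (χ (n : ZMod q)) *
      (uu q a n p.2 : ℂ) := by
    rw [ff_eq, Complex.conj_tsum]
    apply tsum_congr
    intro n
    rw [map_mul, Complex.conj_ofReal]
  have h1 := ff_summable hq χ hχ ha p.1
  have h2 : Summable (fun n : ℕ => ‖(starRingEnd ℂ) (χ (n : ZMod q)) * (uu q a n p.2 : ℂ)‖) := by
    refine (ff_summable hq χ hχ ha p.2).congr (fun n => ?_)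
    rw [norm_mul, norm_mul, Complex.norm_conj]
  rw [e1, ff_eq, tsum_mul_tsum_of_summable_norm h1 h2, ← tsum_mul_left]
  apply tsum_congr
  intro z
  unfold bb
  push_cast
  ring

/-- the constant in front -/
noncomputable def cq (q a : ℕ) : ℝ := ((q / Real.pi) ^ (kap a)) ^ 2

lemma cq_pos (hq : 0 < q) (a : ℕ) : 0 < cq q a := by
  have hq' : (0 : ℝ) < q := by exact_mod_cast hq
  unfold cq; positivity

/-- weight of a pair -/
noncomputable def rs (z : ℕ × ℕ) : ℝ := 1 / Real.sqrt z.1 * (1 / Real.sqrt z.2)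

lemma rs_nonneg (z : ℕ × ℕ) : 0 ≤ rs z := by unfold rs; positivity

lemma inv_sqrt_le_one (n : ℕ) : 1 / Real.sqrt n ≤ 1 := by
  rcases Nat.eq_zero_or_pos n with h | h
  · subst h; simp
  · rw [div_le_one (Real.sqrt_pos.2 (by exact_mod_cast h))]
    rw [Real.one_le_sqrt]
    exact_mod_cast h

lemma rs_le_one (z : ℕ × ℕ) : rs z ≤ 1 := by
  unfold rs
  calc 1 / Real.sqrt z.1 * (1 / Real.sqrt z.2) ≤ 1 * 1 :=
        mul_le_mul (inv_sqrt_le_one _) (inv_sqrt_le_one _) (by positivity) zero_le_one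
    _ = 1 := one_mul _

lemma sum_sq_sq : Summable (fun z : ℕ × ℕ => (1 / (z.1 : ℝ) ^ 2) * (1 / (z.2 : ℝ) ^ 2)) := by
  have h : Summable (fun n : ℕ => 1 / (n : ℝ) ^ 2) := Real.summable_one_div_nat_pow.2 (by norm_num)
  exact h.mul_of_nonneg h (fun n => by positivity) (fun n => by positivity)

lemma F_summable (hq : 0 < q) (χ : DirichletCharacter ℂ q) (hχ : χ 0 = 0) (a : ℕ) :
    Summable (fun z : ℕ × ℕ => ‖bb χ z.1 z.2‖ * (rs z * ∫ p, wI q a (z.1 * z.2) p)) := by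
  have hm : 0 ≤ mas a := by
    unfold mas
    apply integral_nonneg
    intro p
    have := wt_pos a p.1
    have := wt_pos a p.2
    positivity
  refine Summable.of_nonneg_of_le (fun z => ?_) (fun z => ?_)
    (sum_sq_sq.mul_left (2 * (q / Real.pi) ^ 2 * mas a))
  · apply mul_nonneg (norm_nonneg _)
    apply mul_nonneg (rs_nonneg z)
    exact integral_nonneg (fun p => wI_nonneg _ _ _ _)
  · rcases Nat.eq_zero_or_pos z.1 with h1 | h1
    · rw [h1, bb_zero_left χ hχ, norm_zero, zero_mul]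
      positivity
    rcases Nat.eq_zero_or_pos z.2 with h2 | h2
    · rw [h2, bb_zero_right χ hχ, norm_zero, zero_mul]
      positivity
    have h3 := wI_integral_le hq a (Nat.mul_pos h1 h2)
    have h4 : 0 ≤ ∫ p, wI q a (z.1 * z.2) p := integral_nonneg (fun p => wI_nonneg _ _ _ _)
    calc ‖bb χ z.1 z.2‖ * (rs z * ∫ p, wI q a (z.1 * z.2) p) ≤ 1 * (1 * ∫ p, wI q a (z.1 * z.2) p) := by
          apply mul_le_mul (bb_norm χ _ _) _ (mul_nonneg (rs_nonneg z) h4) zero_le_one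
          exact mul_le_mul_of_nonneg_right (rs_le_one z) h4
      _ = ∫ p, wI q a (z.1 * z.2) p := by ring
      _ ≤ _ := h3
      _ = 2 * (q / Real.pi) ^ 2 * mas a * ((1 / (z.1 : ℝ) ^ 2) * (1 / (z.2 : ℝ) ^ 2)) := by
          push_cast
          rw [mul_pow]
          field_simp

/-- hyperbola sum attached to a point -/
noncomputable def HH (χ : DirichletCharacter ℂ q) (a : ℕ) (p : ℝ × ℝ) : ℂ :=
  ∑' z : ℕ × ℕ, bb χ z.1 z.2 * ((rs z * wI q a (z.1 * z.2) p : ℝ) : ℂ)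

theorem main_swap [Fact q.Prime] (χ : DirichletCharacter ℂ q) {a : ℕ} (ha : a ≤ 1) :
    ∫ p : ℝ × ℝ, ((sg2 (p.1 + p.2) : ℝ) : ℂ) * (ff χ a p.1 * (starRingEnd ℂ) (ff χ a p.2)) =
      (cq q a : ℂ) * ∫ p : ℝ × ℝ, HH χ a p := by
  have hq : 0 < q := Nat.Prime.pos Fact.out
  have hχ := chi_zero χ
  have hF := F_summable hq χ hχ a
  -- first interchange
  have i1 : ∀ z : ℕ × ℕ, Integrable (fun p : ℝ × ℝ => bb χ z.1 z.2 *
        ((sg2 (p.1 + p.2) * (uu q a z.1 p.1 * uu q a z.2 p.2) : ℝ) : ℂ)) := by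
    intro z
    rcases Nat.eq_zero_or_pos z.1 with h1 | h1
    · rw [h1, bb_zero_left χ hχ]; simp
    rcases Nat.eq_zero_or_pos z.2 with h2 | h2
    · rw [h2, bb_zero_right χ hχ]; simp
    exact ((uu_int hq h1 h2).ofReal).const_mul _
  have v1 : ∀ z : ℕ × ℕ, ∫ p : ℝ × ℝ, bb χ z.1 z.2 *
        ((sg2 (p.1 + p.2) * (uu q a z.1 p.1 * uu q a z.2 p.2) : ℝ) : ℂ) =
        bb χ z.1 z.2 * ((cq q a * (rs z * ∫ p, wI q a (z.1 * z.2) p) : ℝ) : ℂ) := by
    intro z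
    rcases Nat.eq_zero_or_pos z.1 with h1 | h1
    · rw [h1, bb_zero_left χ hχ]; simp
    rcases Nat.eq_zero_or_pos z.2 with h2 | h2
    · rw [h2, bb_zero_right χ hχ]; simp
    rw [integral_const_mul, integral_complex_ofReal, uu_integral hq h1 h2]
    unfold cq rs
    congr 2
    ring
  have n1 : ∀ z : ℕ × ℕ, ∫ p : ℝ × ℝ, ‖bb χ z.1 z.2 *
        ((sg2 (p.1 + p.2) * (uu q a z.1 p.1 * uu q a z.2 p.2) : ℝ) : ℂ)‖ =
        cq q a * (‖bb χ z.1 z.2‖ * (rs z * ∫ p, wI q a (z.1 * z.2) p)) := by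
    intro z
    rcases Nat.eq_zero_or_pos z.1 with h1 | h1
    · rw [h1, bb_zero_left χ hχ]; simp
    rcases Nat.eq_zero_or_pos z.2 with h2 | h2
    · rw [h2, bb_zero_right χ hχ]; simp
    have e : ∀ p : ℝ × ℝ, ‖bb χ z.1 z.2 *
        ((sg2 (p.1 + p.2) * (uu q a z.1 p.1 * uu q a z.2 p.2) : ℝ) : ℂ)‖ = ‖bb χ z.1 z.2‖ *
        (sg2 (p.1 + p.2) * (uu q a z.1 p.1 * uu q a z.2 p.2)) := by
      intro p
      rw [norm_mul, Complex.norm_real, Real.norm_of_nonneg]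
      exact mul_nonneg (sg2_nonneg _) (mul_nonneg (uu_nonneg _ _ _ _) (uu_nonneg _ _ _ _))
    simp_rw [e]
    rw [integral_const_mul, uu_integral hq h1 h2]
    unfold cq rs
    ring
  have s1 := hasSum_integral_of_summable_integral_norm (μ := (volume : Measure (ℝ × ℝ))) i1
    (by simp_rw [n1]; exact hF.mul_left _)
  -- second interchange
  have i2 : ∀ z : ℕ × ℕ, Integrable (fun p : ℝ × ℝ => bb χ z.1 z.2 *
        ((rs z * wI q a (z.1 * z.2) p : ℝ) : ℂ)) := by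
    intro z
    rcases Nat.eq_zero_or_pos z.1 with h1 | h1
    · rw [h1, bb_zero_left χ hχ]; simp
    rcases Nat.eq_zero_or_pos z.2 with h2 | h2
    · rw [h2, bb_zero_right χ hχ]; simp
    exact (((wI_int hq a (Nat.mul_pos h1 h2)).const_mul _).ofReal).const_mul _
  have v2 : ∀ z : ℕ × ℕ, ∫ p : ℝ × ℝ, bb χ z.1 z.2 *
        ((rs z * wI q a (z.1 * z.2) p : ℝ) : ℂ) =
        bb χ z.1 z.2 * ((rs z * ∫ p, wI q a (z.1 * z.2) p : ℝ) : ℂ) := by
    intro z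
    rw [integral_const_mul, integral_complex_ofReal, integral_const_mul]
  have n2 : ∀ z : ℕ × ℕ, ∫ p : ℝ × ℝ, ‖bb χ z.1 z.2 *
        ((rs z * wI q a (z.1 * z.2) p : ℝ) : ℂ)‖ =
        ‖bb χ z.1 z.2‖ * (rs z * ∫ p, wI q a (z.1 * z.2) p) := by
    intro z
    have e : ∀ p : ℝ × ℝ, ‖bb χ z.1 z.2 *
        ((rs z * wI q a (z.1 * z.2) p : ℝ) : ℂ)‖ = ‖bb χ z.1 z.2‖ *
        (rs z * wI q a (z.1 * z.2) p) := by
      intro p
      rw [norm_mul, Complex.norm_real, Real.norm_of_nonneg]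
      exact mul_nonneg (rs_nonneg _) (wI_nonneg _ _ _ _)
    simp_rw [e]
    rw [integral_const_mul, integral_const_mul]
  have s2 := hasSum_integral_of_summable_integral_norm (μ := (volume : Measure (ℝ × ℝ))) i2
    (by simp_rw [n2]; exact hF)
  have e1 : ∫ p : ℝ × ℝ, ((sg2 (p.1 + p.2) : ℝ) : ℂ) * (ff χ a p.1 * (starRingEnd ℂ) (ff χ a p.2)) =
      ∫ p : ℝ × ℝ, ∑' z : ℕ × ℕ, bb χ z.1 z.2 *
        ((sg2 (p.1 + p.2) * (uu q a z.1 p.1 * uu q a z.2 p.2) : ℝ) : ℂ) := by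
    congr 1
    ext p
    exact prod_expand hq χ hχ ha p
  rw [e1, ← s1.tsum_eq]
  unfold HH
  rw [← s2.tsum_eq, ← tsum_mul_left]
  apply tsum_congr
  intro z
  rw [v1, v2]
  push_cast
  ring

/-- the identity for the square of the central value -/
theorem sq_eq [Fact q.Prime] {χ : DirichletCharacter ℂ q} (h1 : χ ≠ 1) {a : ℕ} (ha : a ≤ 1)
    (hp : χ (-1) = (-1) ^ a) : Real.Gamma (kap a) ^ 2 * ‖DirichletCharacter.LFunction χ (1 / 2)‖ ^ 2 =
      (∫ p : ℝ × ℝ, HH χ a p).re := by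
  have hq : 0 < q := Nat.Prime.pos Fact.out
  have hq' : (0 : ℝ) < q := by exact_mod_cast hq
  obtain ⟨e, he, hf⟩ := ff_neg h1 ha hp
  have h2 := symm_sq (ff χ a) (ff_integrable h1 ha hp) e he hf
  rw [main_swap χ ha, Complex.re_ofReal_mul, int_ff h1 ha hp, norm_mul, Complex.norm_real, mul_pow,
    Real.norm_eq_abs, sq_abs] at h2
  have h3 : cq q a * (Real.Gamma (kap a) ^ 2 * ‖DirichletCharacter.LFunction χ (1 / 2)‖ ^ 2) =
      cq q a * (∫ p : ℝ × ℝ, HH χ a p).re := by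
    rw [← h2]
    unfold cq
    ring
  exact mul_left_cancel₀ (cq_pos hq a).ne' h3

/-! ### The hyperbola sums are finite -/

/-- pairs under a hyperbola -/
def prs (K : ℕ) : Finset (ℕ × ℕ) := (Icc 1 K ×ˢ Icc 1 K).filter (fun z => z.1 * z.2 ≤ K)

lemma mem_prs {K : ℕ} {z : ℕ × ℕ} : z ∈ prs K ↔ 1 ≤ z.1 ∧ 1 ≤ z.2 ∧ z.1 * z.2 ≤ K := by
  unfold prs
  rw [mem_filter, mem_product, mem_Icc, mem_Icc]
  constructor
  · rintro ⟨⟨⟨h1, _⟩, h2, _⟩, h3⟩
    exact ⟨h1, h2, h3⟩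
  · rintro ⟨h1, h2, h3⟩
    refine ⟨⟨⟨h1, ?_⟩, h2, ?_⟩, h3⟩
    · exact (Nat.le_mul_of_pos_right _ h2).trans h3
    · exact (Nat.le_mul_of_pos_left _ h1).trans h3

/-- hyperbola sum -/
noncomputable def DK (χ : DirichletCharacter ℂ q) (K : ℕ) : ℂ :=
  ∑ z ∈ prs K, bb χ z.1 z.2 * ((rs z : ℝ) : ℂ)

/-- length at the point `z` -/
noncomputable def NN (q : ℕ) (z : ℝ) : ℝ := q / Real.pi * Real.exp (z / 2)

lemma lt_iff (hq : 0 < q) {k : ℕ} (hk : 0 < k) (z : ℝ) : 0 < z - ell q k ↔ (k : ℝ) < NN q z := by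
  have hq' : (0 : ℝ) < q := by exact_mod_cast hq
  have hk' : (0 : ℝ) < k := by exact_mod_cast hk
  unfold ell NN
  have h1 : 0 < Real.pi * k / q := by positivity
  rw [sub_pos]
  constructor
  · intro h
    have h2 : Real.log (Real.pi * k / q) < z / 2 := by linarith
    have h3 := (Real.log_lt_iff_lt_exp h1).1 h2
    rw [div_mul_eq_mul_div, lt_div_iff₀ Real.pi_pos]
    rw [div_lt_iff₀ hq'] at h3
    linarith
  · intro h
    have h2 : Real.pi * k / q < Real.exp (z / 2) := by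
      rw [div_mul_eq_mul_div, lt_div_iff₀ Real.pi_pos] at h
      rw [div_lt_iff₀ hq']
      linarith
    have h3 := (Real.log_lt_iff_lt_exp h1).2 h2
    linarith

lemma le_iff (hq : 0 < q) {k : ℕ} (hk : 0 < k) (z : ℝ) : 0 ≤ z - ell q k ↔ (k : ℝ) ≤ NN q z := by
  have hq' : (0 : ℝ) < q := by exact_mod_cast hq
  have hk' : (0 : ℝ) < k := by exact_mod_cast hk
  unfold ell NN
  have h1 : 0 < Real.pi * k / q := by positivity
  rw [sub_nonneg]
  constructor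
  · intro h
    have h2 : Real.log (Real.pi * k / q) ≤ z / 2 := by linarith
    have h3 := (Real.log_le_iff_le_exp h1).1 h2
    rw [div_mul_eq_mul_div, le_div_iff₀ Real.pi_pos]
    rw [div_le_iff₀ hq'] at h3
    linarith
  · intro h
    have h2 : Real.pi * k / q ≤ Real.exp (z / 2) := by
      rw [div_mul_eq_mul_div, le_div_iff₀ Real.pi_pos] at h
      rw [div_le_iff₀ hq']
      linarith
    have h3 := (Real.log_le_iff_le_exp h1).2 h2
    linarith

/-- the two cutoffs -/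
noncomputable def K1 (q : ℕ) (z : ℝ) : ℕ := ⌈NN q z⌉₊ - 1
noncomputable def K2 (q : ℕ) (z : ℝ) : ℕ := ⌊NN q z⌋₊

lemma NN_pos (hq : 0 < q) (z : ℝ) : 0 < NN q z := by
  have hq' : (0 : ℝ) < q := by exact_mod_cast hq
  unfold NN; positivity

lemma sg2_eq (hq : 0 < q) {k : ℕ} (hk : 0 < k) (z : ℝ) :
    sg2 (z - ell q k) = (if k ≤ K1 q z then 1 else 0) + (if k ≤ K2 q z then 1 else 0) := by
  unfold sg2
  have h1 : (0 < z - ell q k) ↔ k ≤ K1 q z := by
    rw [lt_iff hq hk, ← Nat.lt_ceil]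
    have : 0 < ⌈NN q z⌉₊ := Nat.ceil_pos.2 (NN_pos hq z)
    unfold K1
    omega
  have h2 : (0 ≤ z - ell q k) ↔ k ≤ K2 q z := by
    rw [le_iff hq hk, K2, Nat.le_floor_iff (NN_pos hq z).le]
  simp only [h1, h2]

lemma K1_le_K2 (q : ℕ) (z : ℝ) : K1 q z ≤ K2 q z := by
  unfold K1 K2
  have := Nat.ceil_le_floor_add_one (NN q z)
  omega

theorem HH_eq [Fact q.Prime] (χ : DirichletCharacter ℂ q) (a : ℕ) (p : ℝ × ℝ) :
    HH χ a p = ((wt a p.1 * wt a p.2 : ℝ) : ℂ) * (DK χ (K1 q (p.1 + p.2)) + DK χ (K2 q (p.1 + p.2))) := by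
  have hq : 0 < q := Nat.Prime.pos Fact.out
  have hχ := chi_zero χ
  set z := p.1 + p.2 with hz
  have h1 : HH χ a p = ∑ w ∈ prs (K2 q z), bb χ w.1 w.2 * ((rs w * wI q a (w.1 * w.2) p : ℝ) : ℂ) := by
    unfold HH
    apply tsum_eq_sum
    intro w hw
    rcases Nat.eq_zero_or_pos w.1 with h1 | h1
    · rw [h1, bb_zero_left χ hχ, zero_mul]
    rcases Nat.eq_zero_or_pos w.2 with h2 | h2
    · rw [h2, bb_zero_right χ hχ, zero_mul]
    have h3 : ¬ (w.1 * w.2 ≤ K2 q z) := fun h => hw (mem_prs.2 ⟨h1, h2, h⟩)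
    have h4 : ¬ (w.1 * w.2 ≤ K1 q z) := fun h => h3 (h.trans (K1_le_K2 q z))
    unfold wI
    rw [← hz, sg2_eq hq (Nat.mul_pos h1 h2), if_neg h3, if_neg h4]
    simp
  have h2 : DK χ (K1 q z) = ∑ w ∈ prs (K2 q z), bb χ w.1 w.2 * ((rs w * (if w.1 * w.2 ≤ K1 q z then 1
      else 0) : ℝ) : ℂ) := by
    unfold DK
    have hsub : prs (K1 q z) ⊆ prs (K2 q z) := by
      intro w hw
      rw [mem_prs] at hw ⊢
      exact ⟨hw.1, hw.2.1, hw.2.2.trans (K1_le_K2 q z)⟩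
    rw [← Finset.sum_subset hsub (fun w hw hw' => ?_)]
    · apply Finset.sum_congr rfl
      intro w hw
      rw [if_pos (mem_prs.1 hw).2.2, mul_one]
    · have h3 := mem_prs.1 hw
      rw [if_neg, mul_zero, Complex.ofReal_zero, mul_zero]
      intro h
      exact hw' (mem_prs.2 ⟨h3.1, h3.2.1, h⟩)
  rw [h1, h2, DK, ← Finset.sum_add_distrib, Finset.mul_sum]
  apply Finset.sum_congr rfl
  intro w hw
  have h3 := mem_prs.1 hw
  unfold wI
  rw [← hz, sg2_eq hq (Nat.mul_pos h3.1 h3.2.1), if_pos h3.2.2]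
  push_cast
  ring

end Pool.Agent.V8H32.NV
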