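import Pool.Agent.V8H32.NV.Rf
import Pool.Agent.V8H32.NV.Hy3

/-! Sums over hyperbola regions with a linear relation. -/

set_option autoImplicit false

namespace Pool.Agent.V8H32.NV
open Finset
open Pool.Agent.V8H32.Cos (pr pr_primeFactors)

noncomputable def hyp (N a b : ℕ) : ℝ := ∑ z ∈ (prs N).filter (fun z => z.1 * a = z.2 * b), rs z

lemma hyp_eq (N : ℕ) {a b : ℕ} (ha : 0 < a) (hb : 0 < b) :
    hyp N a b = (Nat.gcd a b : ℝ) / Real.sqrt (a * b) *
      Hn (Real.sqrt N * ((Nat.gcd a b : ℝ) / Real.sqrt (a * b))) := by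
  set g := Nat.gcd a b with hg
  have hg0 : 0 < g := Nat.gcd_pos_of_pos_left _ ha
  obtain ⟨a', ha'⟩ : g ∣ a := Nat.gcd_dvd_left a b
  obtain ⟨b', hb'⟩ : g ∣ b := Nat.gcd_dvd_right a b
  have hcop : Nat.Coprime a' b' := by
    have h1 := Nat.coprime_div_gcd_div_gcd (m := a) (n := b) hg0
    have e1 : a / Nat.gcd a b = a' := by
      rw [← hg]
      exact Nat.div_eq_of_eq_mul_right hg0 ha'
    have e2 : b / Nat.gcd a b = b' := by
      rw [← hg]
      exact Nat.div_eq_of_eq_mul_right hg0 hb'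
    rwa [e1, e2] at h1
  have ha0 : 0 < a' := by
    rcases Nat.eq_zero_or_pos a' with h | h
    · rw [h, mul_zero] at ha'; omega
    · exact h
  have hb0 : 0 < b' := by
    rcases Nat.eq_zero_or_pos b' with h | h
    · rw [h, mul_zero] at hb'; omega
    · exact h
  have hgR : (0 : ℝ) < g := by exact_mod_cast hg0
  have haR : (0 : ℝ) < a' := by exact_mod_cast ha0
  have hbR : (0 : ℝ) < b' := by exact_mod_cast hb0
  have hsq : Real.sqrt ((a : ℝ) * b) = g * Real.sqrt (a' * b') := by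
    have : (a : ℝ) * b = (g * g) * (a' * b') := by
      have e1 : (a : ℝ) = g * a' := by exact_mod_cast ha'
      have e2 : (b : ℝ) = g * b' := by exact_mod_cast hb'
      rw [e1, e2]; ring
    rw [this, Real.sqrt_mul (by positivity), Real.sqrt_mul_self hgR.le]
  have hs0 : 0 < Real.sqrt ((a' : ℝ) * b') := Real.sqrt_pos.2 (by positivity)
  have hrho : (g : ℝ) / Real.sqrt ((a : ℝ) * b) = 1 / Real.sqrt (a' * b') := by
    rw [hsq]; field_simp
  rw [hrho]
  unfold hyp Hn
  rw [Finset.mul_sum]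
  symm
  apply Finset.sum_bij (fun t _ => (t * b', t * a'))
  · intro t ht
    rw [mem_Ioc] at ht
    rw [mem_filter, mem_prs]
    have ht0 : (0 : ℝ) < t := by exact_mod_cast ht.1
    have h1 : (t : ℝ) ≤ Real.sqrt N * (1 / Real.sqrt (a' * b')) := by
      refine (Nat.cast_le.2 ht.2).trans (Nat.floor_le (by positivity))
    have h2 : (t : ℝ) * Real.sqrt (a' * b') ≤ Real.sqrt N := by
      rw [mul_one_div, le_div_iff₀ hs0] at h1
      exact h1
    have h3 : ((t : ℝ) * Real.sqrt (a' * b')) ^ 2 ≤ (Real.sqrt N) ^ 2 :=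
      pow_le_pow_left₀ (by positivity) h2 2
    rw [mul_pow, Real.sq_sqrt (by positivity), Real.sq_sqrt (by positivity)] at h3
    refine ⟨⟨Nat.mul_pos ht.1 hb0, Nat.mul_pos ht.1 ha0, ?_⟩, ?_⟩
    · have : (((t * b') * (t * a') : ℕ) : ℝ) ≤ N := by
        push_cast
        calc (t : ℝ) * b' * (t * a') = t ^ 2 * (a' * b') := by ring
          _ ≤ N := h3
      exact_mod_cast this
    · simp only
      calc t * b' * a = t * b' * (g * a') := by rw [← ha']
        _ = t * a' * (g * b') := by ring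
        _ = t * a' * b := by rw [← hb']
  · intro t _ t' _ h
    rw [Prod.mk.injEq] at h
    exact Nat.eq_of_mul_eq_mul_right hb0 h.1
  · intro z hz
    rw [mem_filter, mem_prs] at hz
    obtain ⟨⟨hz1, hz2, hz3⟩, hz4⟩ := hz
    have h1 : z.1 * a' = z.2 * b' := by
      apply Nat.eq_of_mul_eq_mul_left hg0
      calc g * (z.1 * a') = z.1 * (g * a') := by ring
        _ = z.1 * a := by rw [← ha']
        _ = z.2 * b := hz4
        _ = z.2 * (g * b') := by rw [← hb']
        _ = _ := by ring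
    obtain ⟨t, ht⟩ : b' ∣ z.1 := by
      apply (hcop.symm).dvd_of_dvd_mul_right
      rw [h1]; exact dvd_mul_left _ _
    have h2 : z.2 = t * a' := by
      apply Nat.eq_of_mul_eq_mul_right hb0
      rw [← h1, ht]; ring
    have ht1 : z.1 = t * b' := by rw [ht]; ring
    have ht0 : 0 < t := by
      rcases Nat.eq_zero_or_pos t with h | h
      · rw [h, zero_mul] at ht1; omega
      · exact h
    refine ⟨t, ?_, by rw [Prod.mk.injEq]; exact ⟨ht1.symm, h2.symm⟩⟩
    rw [mem_Ioc]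
    refine ⟨ht0, Nat.le_floor ?_⟩
    rw [mul_one_div, le_div_iff₀ hs0]
    apply Real.le_sqrt_of_sq_le
    rw [mul_pow, Real.sq_sqrt (by positivity)]
    have : ((z.1 * z.2 : ℕ) : ℝ) ≤ N := by exact_mod_cast hz3
    rw [ht1, h2] at this
    push_cast at this
    calc (t : ℝ) ^ 2 * (a' * b') = t * b' * (t * a') := by ring
      _ ≤ N := this
  · intro t ht
    rw [mem_Ioc] at ht
    have ht0 : (0 : ℝ) < t := by exact_mod_cast ht.1
    unfold rs
    simp only
    have e1 : Real.sqrt ((t * b' : ℕ) : ℝ) = Real.sqrt t * Real.sqrt b' := by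
      push_cast; rw [Real.sqrt_mul (by positivity)]
    have e2 : Real.sqrt ((t * a' : ℕ) : ℝ) = Real.sqrt t * Real.sqrt a' := by
      push_cast; rw [Real.sqrt_mul (by positivity)]
    have e3 : Real.sqrt ((a' : ℝ) * b') = Real.sqrt a' * Real.sqrt b' := Real.sqrt_mul (by positivity) _
    have e4 : (t : ℝ) = Real.sqrt t * Real.sqrt t := (Real.mul_self_sqrt ht0.le).symm
    have s1 : 0 < Real.sqrt (t : ℝ) := Real.sqrt_pos.2 ht0
    have s2 : 0 < Real.sqrt (a' : ℝ) := Real.sqrt_pos.2 haR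
    have s3 : 0 < Real.sqrt (b' : ℝ) := Real.sqrt_pos.2 hbR
    have e5 : (1 : ℝ) / t = 1 / (Real.sqrt t * Real.sqrt t) := by rw [← e4]
    rw [e1, e2, e3, e5]
    field_simp

/-- the ratio is at most one -/
lemma gcd_ratio {a b : ℕ} (ha : 0 < a) (hb : 0 < b) :
    0 < (Nat.gcd a b : ℝ) / Real.sqrt (a * b) ∧ (Nat.gcd a b : ℝ) / Real.sqrt (a * b) ≤ 1 := by
  have haR : (0 : ℝ) < a := by exact_mod_cast ha
  have hbR : (0 : ℝ) < b := by exact_mod_cast hb
  have hg0 : (0 : ℝ) < Nat.gcd a b := by exact_mod_cast Nat.gcd_pos_of_pos_left b ha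
  have hs : 0 < Real.sqrt ((a : ℝ) * b) := Real.sqrt_pos.2 (by positivity)
  refine ⟨by positivity, ?_⟩
  rw [div_le_one hs]
  apply Real.le_sqrt_of_sq_le
  have h1 : (Nat.gcd a b : ℝ) ≤ a := by exact_mod_cast Nat.gcd_le_left b ha
  have h2 : (Nat.gcd a b : ℝ) ≤ b := by exact_mod_cast Nat.gcd_le_right a hb
  rw [sq]
  exact mul_le_mul h1 h2 hg0.le haR.le

/-- approximation of the hyperbola sum -/
lemma hyp_approx {N : ℕ} (hN : 1 ≤ N) {a b : ℕ} (ha : 0 < a) (hb : 0 < b) :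
    |hyp N a b - (Nat.gcd a b : ℝ) / Real.sqrt (a * b) *
      (Real.log (Real.sqrt N * ((Nat.gcd a b : ℝ) / Real.sqrt (a * b))) + ga)| ≤
      4 / Real.sqrt (Real.sqrt N) := by
  obtain ⟨h1, h2⟩ := gcd_ratio ha hb
  rw [hyp_eq N ha hb]
  set ρ := (Nat.gcd a b : ℝ) / Real.sqrt (a * b) with hρ
  have hN0 : (0 : ℝ) < N := by exact_mod_cast hN
  have hsN : 0 < Real.sqrt (N : ℝ) := Real.sqrt_pos.2 hN0
  have h3 := Hn_close (x := Real.sqrt N * ρ) (by positivity)
  rw [← mul_sub, abs_mul, abs_of_pos h1]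
  have h4 : Hn (Real.sqrt N * ρ) - (Real.log (Real.sqrt N * ρ) + ga) =
      Hn (Real.sqrt N * ρ) - Real.log (Real.sqrt N * ρ) - ga := by ring
  rw [h4]
  have hss : 0 < Real.sqrt (Real.sqrt (N : ℝ)) := Real.sqrt_pos.2 hsN
  have hsr : 0 < Real.sqrt ρ := Real.sqrt_pos.2 h1
  calc ρ * |Hn (Real.sqrt N * ρ) - Real.log (Real.sqrt N * ρ) - ga| ≤
      ρ * (4 / Real.sqrt (Real.sqrt N * ρ)) := mul_le_mul_of_nonneg_left h3 h1.le
    _ = Real.sqrt ρ * (4 / Real.sqrt (Real.sqrt N)) := by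
        rw [Real.sqrt_mul hsN.le]
        have e : ρ = Real.sqrt ρ * Real.sqrt ρ := (Real.mul_self_sqrt h1.le).symm
        nth_rw 1 [e]
        field_simp
    _ ≤ 1 * (4 / Real.sqrt (Real.sqrt N)) := by
        apply mul_le_mul_of_nonneg_right _ (by positivity)
        rw [show (1 : ℝ) = Real.sqrt 1 by simp]
        exact Real.sqrt_le_sqrt h2
    _ = _ := one_mul _

/-- the twisted sum -/
noncomputable def TN {ι : Type*} (I : Finset ι) (A : ι → ℕ) (c : ι → ℝ) (N u v : ℕ) : ℝ :=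
  ∑ i ∈ I, ∑ j ∈ I, c i * c j * (1 / Real.sqrt (A i) * (1 / Real.sqrt (A j))) *
    hyp N (A i * v) (A j * u)

/-- its main term -/
noncomputable def TM {ι : Type*} (I : Finset ι) (A : ι → ℕ) (c : ι → ℝ) (N u v : ℕ) : ℝ :=
  ∑ i ∈ I, ∑ j ∈ I, c i * c j * ((Nat.gcd (A i * v) (A j * u) : ℝ) / (A i * A j)) *
    (Real.log N / 2 + ga - Real.log ((u : ℝ) * v) / 2 +
      (Real.log (Nat.gcd (A i * v) (A j * u)) - Real.log (A i) / 2 - Real.log (A j) / 2))

lemma TN_close {ι : Type*} (I : Finset ι) (A : ι → ℕ) (c : ι → ℝ) (hA : ∀ i ∈ I, 0 < A i)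
    (hc : ∀ i ∈ I, |c i| ≤ 1) {N u v : ℕ} (hN : 1 ≤ N) (hu : 0 < u) (hv : 0 < v) :
    |TN I A c N u v - 1 / Real.sqrt ((u : ℝ) * v) * TM I A c N u v| ≤
      4 / Real.sqrt (Real.sqrt N) * (I.card : ℝ) ^ 2 := by
  have hN0 : (0 : ℝ) < N := by exact_mod_cast hN
  have huR : (0 : ℝ) < u := by exact_mod_cast hu
  have hvR : (0 : ℝ) < v := by exact_mod_cast hv
  unfold TN TM
  rw [Finset.mul_sum, ← Finset.sum_sub_distrib]
  refine (Finset.abs_sum_le_sum_abs _ _).trans ?_
  have h1 : ∀ i ∈ I, |∑ j ∈ I, c i * c j * (1 / Real.sqrt (A i) * (1 / Real.sqrt (A j))) *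
      hyp N (A i * v) (A j * u) - 1 / Real.sqrt ((u : ℝ) * v) * ∑ j ∈ I, c i * c j *
        ((Nat.gcd (A i * v) (A j * u) : ℝ) / (A i * A j)) *
        (Real.log N / 2 + ga - Real.log ((u : ℝ) * v) / 2 +
        (Real.log (Nat.gcd (A i * v) (A j * u)) - Real.log (A i) / 2 - Real.log (A j) / 2))| ≤
      (I.card : ℝ) * (4 / Real.sqrt (Real.sqrt N)) := by
    intro i hi
    rw [Finset.mul_sum, ← Finset.sum_sub_distrib]
    refine (Finset.abs_sum_le_sum_abs _ _).trans ?_
    refine (Finset.sum_le_card_nsmul I _ (4 / Real.sqrt (Real.sqrt N)) (fun j hj => ?_)).trans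
      (le_of_eq (nsmul_eq_mul _ _))
    have hAi : 0 < A i := hA i hi
    have hAj : 0 < A j := hA j hj
    have hAiR : (0 : ℝ) < A i := by exact_mod_cast hAi
    have hAjR : (0 : ℝ) < A j := by exact_mod_cast hAj
    have ha : 0 < A i * v := Nat.mul_pos hAi hv
    have hb : 0 < A j * u := Nat.mul_pos hAj hu
    have h2 := hyp_approx hN ha hb
    set g := Nat.gcd (A i * v) (A j * u) with hg
    have hg0 : 0 < g := Nat.gcd_pos_of_pos_left _ ha
    have hgR : (0 : ℝ) < g := by exact_mod_cast hg0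
    have s1 : 0 < Real.sqrt (A i : ℝ) := Real.sqrt_pos.2 hAiR
    have s2 : 0 < Real.sqrt (A j : ℝ) := Real.sqrt_pos.2 hAjR
    have s3 : 0 < Real.sqrt ((u : ℝ) * v) := Real.sqrt_pos.2 (by positivity)
    have e1 : Real.sqrt (((A i * v : ℕ) : ℝ) * ((A j * u : ℕ) : ℝ)) =
        Real.sqrt (A i) * Real.sqrt (A j) * Real.sqrt ((u : ℝ) * v) := by
      rw [← Real.sqrt_mul hAiR.le, ← Real.sqrt_mul (by positivity)]
      congr 1
      push_cast; ring
    have e2 : Real.log (Real.sqrt N * ((g : ℝ) / Real.sqrt (((A i * v : ℕ) : ℝ) * ((A j * u : ℕ) : ℝ)))) =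
        Real.log N / 2 - Real.log ((u : ℝ) * v) / 2 +
        (Real.log g - Real.log (A i) / 2 - Real.log (A j) / 2) := by
      rw [e1, Real.log_mul (by positivity) (by positivity), Real.log_div (by positivity) (by positivity),
        Real.log_mul (by positivity) (by positivity), Real.log_mul (by positivity) (by positivity),
        Real.log_sqrt hN0.le, Real.log_sqrt hAiR.le, Real.log_sqrt hAjR.le,
        Real.log_sqrt (by positivity)]
      ring
    rw [e2] at h2
    have e3 : c i * c j * (1 / Real.sqrt (A i) * (1 / Real.sqrt (A j))) *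
      hyp N (A i * v) (A j * u) - 1 / Real.sqrt ((u : ℝ) * v) * (c i * c j *
        ((g : ℝ) / (A i * A j)) *
        (Real.log N / 2 + ga - Real.log ((u : ℝ) * v) / 2 +
        (Real.log g - Real.log (A i) / 2 - Real.log (A j) / 2))) =
        c i * c j * (1 / Real.sqrt (A i) * (1 / Real.sqrt (A j))) * (hyp N (A i * v) (A j * u) -
          (g : ℝ) / Real.sqrt (((A i * v : ℕ) : ℝ) * ((A j * u : ℕ) : ℝ)) *
          (Real.log N / 2 - Real.log ((u : ℝ) * v) / 2 +
            (Real.log g - Real.log (A i) / 2 - Real.log (A j) / 2) + ga)) := by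
      rw [e1]
      have f1 : (A i : ℝ) = Real.sqrt (A i) * Real.sqrt (A i) := (Real.mul_self_sqrt hAiR.le).symm
      have f2 : (A j : ℝ) = Real.sqrt (A j) * Real.sqrt (A j) := (Real.mul_self_sqrt hAjR.le).symm
      have f3 : (g : ℝ) / ((A i : ℝ) * A j) = g / ((Real.sqrt (A i) * Real.sqrt (A i)) *
          (Real.sqrt (A j) * Real.sqrt (A j))) := by
        rw [← f1, ← f2]
      rw [f3]
      field_simp
      ring
    rw [e3, abs_mul, abs_mul, abs_mul]
    have hw : |1 / Real.sqrt (A i : ℝ) * (1 / Real.sqrt (A j))| ≤ 1 := by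
      rw [abs_of_nonneg (by positivity)]
      exact mul_le_one₀ (inv_sqrt_le_one (A i)) (by positivity) (inv_sqrt_le_one (A j))
    calc |c i| * |c j| * |1 / Real.sqrt (A i : ℝ) * (1 / Real.sqrt (A j))| * _ ≤
        1 * 1 * 1 * (4 / Real.sqrt (Real.sqrt N)) := by
          apply mul_le_mul _ h2 (abs_nonneg _) (by norm_num)
          apply mul_le_mul _ hw (abs_nonneg _) (by norm_num)
          exact mul_le_mul (hc i hi) (hc j hj) (abs_nonneg _) zero_le_one
      _ = _ := by ring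
  refine (Finset.sum_le_sum h1).trans (le_of_eq ?_)
  rw [Finset.sum_const, nsmul_eq_mul]
  ring

/-- the mollifier's index set -/
def IM (W z R y : ℕ) : Finset (Finset ℕ × ℕ) :=
  TS ((Icc 1 W).filter Nat.Prime) z R ×ˢ RR (primorial W) y

def AM (i : Finset ℕ × ℕ) : ℕ := pr i.1 * i.2

noncomputable def cM' (y : ℕ) (i : Finset ℕ × ℕ) : ℝ := (-1) ^ i.1.card * lam y i.2

lemma mem_IM {W z R y : ℕ} {i : Finset ℕ × ℕ} : i ∈ IM W z R y ↔
    (i.1 ⊆ (Icc 1 W).filter Nat.Prime ∧ (i.1.filter (fun p => z < p)).card ≤ R) ∧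
      i.2 ∈ RR (primorial W) y := by
  unfold IM TS
  rw [mem_product, mem_filter, mem_powerset]

lemma IM_disj {W z R y : ℕ} {i j : Finset ℕ × ℕ} (hi : i ∈ IM W z R y) (hj : j ∈ IM W z R y) :
    Disjoint (i.1 ∪ j.1) (i.2.primeFactors ∪ j.2.primeFactors) := by
  obtain ⟨⟨a1, _⟩, a2⟩ := mem_IM.1 hi
  obtain ⟨⟨b1, _⟩, b2⟩ := mem_IM.1 hj
  rw [Finset.disjoint_left]
  intro p hp hp'
  have h1 : p ≤ W := by
    rcases mem_union.1 hp with h | h
    · exact (mem_Icc.1 (mem_filter.1 (a1 h)).1).2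
    · exact (mem_Icc.1 (mem_filter.1 (b1 h)).1).2
  have h2 : W < p := by
    rcases mem_union.1 hp' with h | h
    · exact (mem_PR.1 (RR_pf a2 h)).2.1
    · exact (mem_PR.1 (RR_pf b2 h)).2.1
  omega

lemma IM_prime {W z R y : ℕ} {i : Finset ℕ × ℕ} (hi : i ∈ IM W z R y) : ∀ p ∈ i.1, p.Prime :=
  fun _ hp => (mem_filter.1 ((mem_IM.1 hi).1.1 hp)).2

lemma AM_eq {W z R y : ℕ} {i : Finset ℕ × ℕ} (hi : i ∈ IM W z R y) :
    AM i = pr (i.1 ∪ i.2.primeFactors) := by
  have h := IM_disj hi hi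
  rw [Finset.union_self, Finset.union_self] at h
  rw [pr_union h, RR_pr (mem_IM.1 hi).2]
  rfl

lemma AM_prime {W z R y : ℕ} {i : Finset ℕ × ℕ} (hi : i ∈ IM W z R y) :
    ∀ p ∈ i.1 ∪ i.2.primeFactors, p.Prime := by
  intro p hp
  rcases mem_union.1 hp with h | h
  · exact IM_prime hi p h
  · exact Nat.prime_of_mem_primeFactors h

lemma AM_pos {W z R y : ℕ} {i : Finset ℕ × ℕ} (hi : i ∈ IM W z R y) : 0 < AM i := by
  rw [AM_eq hi]; exact pr_pos' (AM_prime hi)

lemma cM_abs' {W z R y : ℕ} {i : Finset ℕ × ℕ} (hi : i ∈ IM W z R y) : |cM' y i| ≤ 1 := by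
  unfold cM'
  rw [abs_mul, abs_pow, abs_neg, abs_one, one_pow, one_mul]
  exact lam_abs' (mem_IM.1 hi).2

theorem TM_eq (W z R y N : ℕ) {u v : ℕ} (hu : 0 < u) (hv : 0 < v) (huv : u.Coprime v) :
    TM (IM W z R y) AM (cM' y) N u v =
      (Real.log N / 2 + ga - Real.log ((u : ℝ) * v) / 2) *
        (T0 u.primeFactors v.primeFactors ((Icc 1 W).filter Nat.Prime) z R *
          Q0 u.primeFactors v.primeFactors W y) +
      T1 u.primeFactors v.primeFactors ((Icc 1 W).filter Nat.Prime) z R *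
          Q0 u.primeFactors v.primeFactors W y +
      T0 u.primeFactors v.primeFactors ((Icc 1 W).filter Nat.Prime) z R *
          Q1 u.primeFactors v.primeFactors W y := by
  set U := u.primeFactors with hU
  set V := v.primeFactors with hV
  set PP := (Icc 1 W).filter Nat.Prime with hPP
  set a₀ := Real.log N / 2 + ga - Real.log ((u : ℝ) * v) / 2 with ha₀
  have h1 : ∀ i ∈ IM W z R y, ∀ j ∈ IM W z R y,
      cM' y i * cM' y j * ((Nat.gcd (AM i * v) (AM j * u) : ℝ) / (AM i * AM j)) *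
        (a₀ + (Real.log (Nat.gcd (AM i * v) (AM j * u)) - Real.log (AM i) / 2 - Real.log (AM j) / 2)) =
      (((-1) ^ (i.1.card + j.1.card) * wE U V i.1 j.1) *
        (lam y i.2 * lam y j.2 * wE U V i.2.primeFactors j.2.primeFactors)) *
        (a₀ + lE U V i.1 j.1 + lE U V i.2.primeFactors j.2.primeFactors) := by
    intro i hi j hj
    have hg : Nat.gcd (AM i * v) (AM j * u) =
        pr (Ef U V (i.1 ∪ i.2.primeFactors) (j.1 ∪ j.2.primeFactors)) := by
      rw [AM_eq hi, AM_eq hj]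
      exact gcd_Ef (AM_prime hi) (AM_prime hj) hu hv huv
    have e1 : (Nat.gcd (AM i * v) (AM j * u) : ℝ) / (AM i * AM j) =
        wE U V (i.1 ∪ i.2.primeFactors) (j.1 ∪ j.2.primeFactors) := by
      rw [hg, AM_eq hi, AM_eq hj]
      rfl
    have e2 : Real.log (Nat.gcd (AM i * v) (AM j * u)) - Real.log (AM i) / 2 - Real.log (AM j) / 2 =
        lE U V (i.1 ∪ i.2.primeFactors) (j.1 ∪ j.2.primeFactors) := by
      rw [hg, AM_eq hi, AM_eq hj]
      rfl
    rw [e1, e2, wE_union (IM_disj hi hj), lE_union (IM_disj hi hj) (IM_prime hi) (IM_prime hj)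
      (fun p hp => Nat.prime_of_mem_primeFactors hp) (fun p hp => Nat.prime_of_mem_primeFactors hp)]
    unfold cM'
    ring
  unfold TM
  rw [Finset.sum_congr rfl (fun i hi => Finset.sum_congr rfl (fun j hj => h1 i hi j hj))]
  unfold IM
  have h2 : ∀ F : Finset ℕ → Finset ℕ → ℝ, ∀ G : ℕ → ℕ → ℝ,
      ∑ i ∈ TS PP z R ×ˢ RR (primorial W) y, ∑ j ∈ TS PP z R ×ˢ RR (primorial W) y,
        F i.1 j.1 * G i.2 j.2 =
      (∑ S ∈ TS PP z R, ∑ S' ∈ TS PP z R, F S S') *
        ∑ d ∈ RR (primorial W) y, ∑ d' ∈ RR (primorial W) y, G d d' := by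
    intro F G
    rw [Finset.sum_product, Finset.sum_mul]
    apply Finset.sum_congr rfl
    intro S _
    simp only
    have e : ∀ d ∈ RR (primorial W) y, ∑ j ∈ TS PP z R ×ˢ RR (primorial W) y, F S j.1 * G d j.2 =
        (∑ S' ∈ TS PP z R, F S S') * ∑ d' ∈ RR (primorial W) y, G d d' := by
      intro d _
      rw [Finset.sum_product, Finset.sum_mul]
      apply Finset.sum_congr rfl
      intro S' _
      rw [Finset.mul_sum]
    rw [Finset.sum_congr rfl e, ← Finset.mul_sum]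
  have h3 := h2 (fun S S' => (-1) ^ (S.card + S'.card) * wE U V S S')
    (fun d d' => lam y d * lam y d' * wE U V d.primeFactors d'.primeFactors)
  have h4 := h2 (fun S S' => (-1) ^ (S.card + S'.card) * wE U V S S' * lE U V S S')
    (fun d d' => lam y d * lam y d' * wE U V d.primeFactors d'.primeFactors)
  have h5 := h2 (fun S S' => (-1) ^ (S.card + S'.card) * wE U V S S')
    (fun d d' => lam y d * lam y d' * wE U V d.primeFactors d'.primeFactors *
      lE U V d.primeFactors d'.primeFactors)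
  unfold T0 T1 Q0 Q1
  rw [← h3, ← h4, ← h5, Finset.mul_sum, ← Finset.sum_add_distrib, ← Finset.sum_add_distrib]
  apply Finset.sum_congr rfl
  intro i _
  rw [Finset.mul_sum, ← Finset.sum_add_distrib, ← Finset.sum_add_distrib]
  apply Finset.sum_congr rfl
  intro j _
  ring

end Pool.Agent.V8H32.NV
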