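import Pool.Agent.V8H32.NV.Sec

/-! Integration over the lengths: the mollified second moment over a coset. -/

set_option autoImplicit false

namespace Pool.Agent.V8H32.NV
open Finset Pool.Agent.R311.RES MeasureTheory
open Pool.Agent.V8H32.Cos (pr cls)
open scoped Classical

/-- all hypotheses -/
structure AllH (q z W R0 Hc L : ℕ) [Fact q.Prime] (ϱ C D κ η : ℝ)
    (H : Subgroup (DirichletCharacter ℂ q)) : Prop where
  sz : Sz2 q z W R0 Hc ϱ C
  hF : Fm W Hc C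
  hK : (Fintype.card (ann H) : ℝ) ≤ (q : ℝ) ^ (1 / 3 : ℝ)
  hLA : ∀ i ∈ IM W z (10 * R0) Hc, AM i ≤ L
  hLc : (IM W z (10 * R0) Hc).card ≤ L
  hHL : Hc ≤ L
  hL4 : 4 * (L : ℝ) ^ 4 ≤ (q : ℝ) ^ (1 / 10 : ℝ)
  hD : ∀ n : ℕ, 0 < n → (n : ℝ) ≤ (q : ℝ) ^ (13 / 10 : ℝ) → ((n.divisors.card : ℕ) : ℝ) ≤ D
  hDκ : D ^ 2 * (1 + 2 * Real.log q) ≤ (q : ℝ) ^ κ
  hη : (q : ℝ) ^ η ≤ Hc
  hHigh : ∀ M : ℕ, ∑ w ∈ (KR q (ann H) M).filter (fun w => (q : ℝ) ^ η ≤ (w.1 : ℝ) * w.2 ∧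
      (w.1 : ℝ) * w.2 ≤ (q : ℝ) ^ (13 / 10 : ℝ)), 1 / Real.sqrt ((w.1 : ℝ) * w.2) ≤ (q : ℝ) ^ (-κ)
  hH : (q : ℝ) ^ (2 / 3 : ℝ) ≤ (Fintype.card H : ℝ)
  hbig : 2 * (1 + 2 * Real.log q) ≤ (q : ℝ) ^ (1 / 100 : ℝ)

/-- the mollifier -/
noncomputable def Mfn {q : ℕ} [Fact q.Prime] (z W R0 Hc : ℕ) (χ : DirichletCharacter ℂ q) : ℂ :=
  Mof (IM W z (10 * R0) Hc) AM (cM' Hc) χ

lemma DK_zero {q : ℕ} (χ : DirichletCharacter ℂ q) : DK χ 0 = 0 := by
  unfold DK NV.prs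
  simp

/-- the majorant -/
noncomputable def mj (a : ℕ) (p : ℝ × ℝ) : ℝ := wt a p.1 * wt a p.2 *
  (1 + Real.exp (13 / 2 * (p.1 + p.2)) + 2 * Real.exp (-(1 / 8) * (p.1 + p.2)))

lemma wt_nonneg (a : ℕ) (s : ℝ) : 0 ≤ wt a s := by unfold wt; positivity

lemma mj_int (a : ℕ) : Integrable (mj a) := by
  have hk : 1 / 4 ≤ kap a := by
    unfold kap
    have : (0 : ℝ) ≤ a := Nat.cast_nonneg a
    linarith
  have h0 := int_wt2 a (β := 0) (by linarith)
  have h1 := int_wt2 a (β := 13 / 2) (by linarith)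
  have h2 := (int_wt2 a (β := -(1 / 8)) (by linarith)).const_mul 2
  refine ((h0.add h1).add h2).congr (Filter.Eventually.of_forall fun p => ?_)
  simp only [Pi.add_apply]
  unfold mj
  rw [zero_mul, Real.exp_zero]
  ring

section
variable {q : ℕ} [Fact q.Prime]

lemma K_le_NN (z : ℝ) : (K1 q z : ℝ) ≤ NN q z ∧ (K2 q z : ℝ) ≤ NN q z := by
  have hq : 0 < q := Nat.Prime.pos Fact.out
  have h2 : (K2 q z : ℝ) ≤ NN q z := Nat.floor_le (NN_pos hq z).le
  exact ⟨(Nat.cast_le.2 (K1_le_K2 q z)).trans h2, h2⟩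

lemma K_ge (z : ℝ) : NN q z ≤ (K1 q z : ℝ) + 1 ∧ NN q z ≤ (K2 q z : ℝ) + 1 := by
  have hq : 0 < q := Nat.Prime.pos Fact.out
  have h1 : NN q z ≤ (K1 q z : ℝ) + 1 := by
    have h3 := Nat.le_ceil (NN q z)
    have h4 : ⌈NN q z⌉₊ = K1 q z + 1 := by
      unfold K1
      have : 0 < ⌈NN q z⌉₊ := Nat.ceil_pos.2 (NN_pos hq z)
      omega
    rw [h4] at h3
    exact_mod_cast h3
  refine ⟨h1, h1.trans ?_⟩
  have := Nat.cast_le (α := ℝ).2 (K1_le_K2 q z)
  linarith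

lemma HH_meas (χ : DirichletCharacter ℂ q) (a : ℕ) : Measurable (HH χ a) := by
  have h : HH χ a = fun p : ℝ × ℝ => ((wt a p.1 * wt a p.2 : ℝ) : ℂ) *
      (DK χ (K1 q (p.1 + p.2)) + DK χ (K2 q (p.1 + p.2))) := by
    funext p
    exact HH_eq χ a p
  rw [h]
  have hwt : Measurable (wt a) := by unfold wt; fun_prop
  have hNN : Measurable (fun z : ℝ => NN q z) := by unfold NN; fun_prop
  have hsum : Measurable (fun p : ℝ × ℝ => p.1 + p.2) := measurable_fst.add measurable_snd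
  have hK1 : Measurable (fun z : ℝ => K1 q z) := by
    unfold K1
    exact (measurable_from_nat (f := fun n : ℕ => n - 1)).comp (Nat.measurable_ceil.comp hNN)
  have hK2 : Measurable (fun z : ℝ => K2 q z) := by
    unfold K2
    exact Nat.measurable_floor.comp hNN
  apply Measurable.mul
  · exact Complex.measurable_ofReal.comp ((hwt.comp measurable_fst).mul (hwt.comp measurable_snd))
  · apply Measurable.add
    · exact (measurable_from_nat (f := fun n : ℕ => DK χ n)).comp (hK1.comp hsum)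
    · exact (measurable_from_nat (f := fun n : ℕ => DK χ n)).comp (hK2.comp hsum)

lemma HH_int (χ : DirichletCharacter ℂ q) (a : ℕ) : Integrable (HH χ a) := by
  have hq : 0 < q := Nat.Prime.pos Fact.out
  have hq' : (0 : ℝ) < q := by exact_mod_cast hq
  have hk : 1 / 4 ≤ kap a := by
    unfold kap
    have : (0 : ℝ) ≤ a := Nat.cast_nonneg a
    linarith
  have h1 := (int_wt2 a (β := 1 / 2) (by linarith)).const_mul (8 * q)
  refine h1.mono' (HH_meas χ a).aestronglyMeasurable (Filter.Eventually.of_forall fun p => ?_)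
  rw [HH_eq, norm_mul, Complex.norm_real, Real.norm_of_nonneg
    (mul_nonneg (wt_nonneg a _) (wt_nonneg a _))]
  obtain ⟨k1, k2⟩ := K_le_NN (q := q) (p.1 + p.2)
  have h2 : ‖DK χ (K1 q (p.1 + p.2)) + DK χ (K2 q (p.1 + p.2))‖ ≤ 8 * NN q (p.1 + p.2) := by
    refine (norm_add_le _ _).trans ?_
    have e1 := DK_norm' χ (K1 q (p.1 + p.2))
    have e2 := DK_norm' χ (K2 q (p.1 + p.2))
    linarith
  have h3 : NN q (p.1 + p.2) ≤ q * Real.exp (1 / 2 * (p.1 + p.2)) := by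
    unfold NN
    have : (q : ℝ) / Real.pi ≤ q := div_le_self hq'.le (by have := Real.pi_gt_three; linarith)
    calc (q : ℝ) / Real.pi * Real.exp ((p.1 + p.2) / 2) ≤ q * Real.exp ((p.1 + p.2) / 2) :=
          mul_le_mul_of_nonneg_right this (Real.exp_pos _).le
      _ = _ := by congr 2; ring
  calc wt a p.1 * wt a p.2 * ‖DK χ (K1 q (p.1 + p.2)) + DK χ (K2 q (p.1 + p.2))‖ ≤
      wt a p.1 * wt a p.2 * (8 * (q * Real.exp (1 / 2 * (p.1 + p.2)))) := by
        apply mul_le_mul_of_nonneg_left _ (mul_nonneg (wt_nonneg a _) (wt_nonneg a _))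
        linarith
    _ = _ := by ring

/-- the pointwise bound of the length function -/
lemma len_bound {N : ℕ} (hN : 1 ≤ N) {z : ℝ} (h1 : (N : ℝ) ≤ NN q z) (h2 : NN q z ≤ N + 1) :
    1 + ((N : ℝ) / q) ^ 13 + (q : ℝ) ^ (1 / 4 : ℝ) / Real.sqrt (Real.sqrt N) ≤
      1 + Real.exp (13 / 2 * z) + 2 * Real.exp (-(1 / 8) * z) := by
  have hq : 0 < q := Nat.Prime.pos Fact.out
  have hq' : (0 : ℝ) < q := by exact_mod_cast hq
  have hN0 : (1 : ℝ) ≤ N := by exact_mod_cast hN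
  have hpi := Real.pi_gt_three
  have hpi' := Real.pi_lt_four
  have e1 : ((N : ℝ) / q) ^ 13 ≤ Real.exp (13 / 2 * z) := by
    have f1 : (N : ℝ) / q ≤ Real.exp (z / 2) := by
      rw [div_le_iff₀ hq']
      refine h1.trans ?_
      unfold NN
      have : (q : ℝ) / Real.pi ≤ q := div_le_self hq'.le (by linarith)
      calc (q : ℝ) / Real.pi * Real.exp (z / 2) ≤ q * Real.exp (z / 2) :=
            mul_le_mul_of_nonneg_right this (Real.exp_pos _).le
        _ = _ := by ring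
    calc ((N : ℝ) / q) ^ 13 ≤ Real.exp (z / 2) ^ 13 := pow_le_pow_left₀ (by positivity) f1 13
      _ = _ := by rw [← Real.exp_nat_mul]; congr 1; push_cast; ring
  have e2 : (q : ℝ) ^ (1 / 4 : ℝ) / Real.sqrt (Real.sqrt N) ≤ 2 * Real.exp (-(1 / 8) * z) := by
    have hs0 : 0 < Real.sqrt (Real.sqrt (N : ℝ)) := Real.sqrt_pos.2 (Real.sqrt_pos.2 (by linarith))
    rw [div_le_iff₀ hs0]
    have key : ((q : ℝ) ^ (1 / 4 : ℝ)) ^ 4 ≤
        (2 * Real.exp (-(1 / 8) * z) * Real.sqrt (Real.sqrt N)) ^ 4 := by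
      have g1 : ((q : ℝ) ^ (1 / 4 : ℝ)) ^ 4 = q := by
        rw [← Real.rpow_natCast, ← Real.rpow_mul hq'.le]; norm_num
      have g2 : Real.sqrt (Real.sqrt (N : ℝ)) ^ 4 = N := by
        rw [show (4 : ℕ) = 2 * 2 by norm_num, pow_mul, Real.sq_sqrt (Real.sqrt_nonneg _),
          Real.sq_sqrt (by linarith)]
      have g3 : Real.exp (-(1 / 8) * z) ^ 4 = Real.exp (-(z / 2)) := by
        rw [← Real.exp_nat_mul]; congr 1; push_cast; ring
      rw [mul_pow, mul_pow, g1, g2, g3]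
      have g4 : NN q z ≤ 2 * N := by linarith
      unfold NN at g4
      have g5 : Real.exp (z / 2) * Real.exp (-(z / 2)) = 1 := by rw [← Real.exp_add]; simp
      have g6 : (q : ℝ) / Real.pi ≤ 2 * N * Real.exp (-(z / 2)) := by
        calc (q : ℝ) / Real.pi = (q : ℝ) / Real.pi * (Real.exp (z / 2) * Real.exp (-(z / 2))) := by
              rw [g5, mul_one]
          _ = ((q : ℝ) / Real.pi * Real.exp (z / 2)) * Real.exp (-(z / 2)) := by ring
          _ ≤ 2 * N * Real.exp (-(z / 2)) := mul_le_mul_of_nonneg_right g4 (Real.exp_pos _).le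
      have g7 : (q : ℝ) ≤ 4 * ((q : ℝ) / Real.pi) := by
        rw [mul_div_assoc', le_div_iff₀ (by linarith)]
        nlinarith
      have g8 : 0 ≤ (N : ℝ) * Real.exp (-(z / 2)) := by positivity
      nlinarith
    exact le_of_pow_le_pow_left₀ (by norm_num) (by positivity) key
  linarith

/-- the second moment -/
theorem S2_int {z W R0 Hc L : ℕ} {ϱ C D κ η : ℝ} {H : Subgroup (DirichletCharacter ℂ q)}
    (A : AllH q z W R0 Hc L ϱ C D κ η H) (χ₀ : DirichletCharacter ℂ q) {a : ℕ} (ha : a ≤ 1)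
    (hpar : ∀ ψ : H, (χ₀ * (ψ : DirichletCharacter ℂ q)) (-1) = (-1) ^ a) :
    Real.Gamma (kap a) ^ 2 * ∑ ψ ∈ univ.filter (fun ψ : H => χ₀ * (ψ : DirichletCharacter ℂ q) ≠ 1),
      ‖DirichletCharacter.LFunction (χ₀ * (ψ : DirichletCharacter ℂ q)) (1 / 2)‖ ^ 2 *
        ‖Mfn z W R0 Hc (χ₀ * (ψ : DirichletCharacter ℂ q))‖ ^ 2 ≤
      (Fintype.card H : ℝ) * (320 * ϱ * C + 2) * (2 * ∫ p, mj a p) := by
  set S := univ.filter (fun ψ : H => χ₀ * (ψ : DirichletCharacter ℂ q) ≠ 1) with hS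
  set X : H → DirichletCharacter ℂ q := fun ψ => χ₀ * (ψ : DirichletCharacter ℂ q) with hX
  set V : H → ℝ := fun ψ => ‖Mfn z W R0 Hc (X ψ)‖ ^ 2 with hV
  have hC := A.sz.hC
  have hϱ0 := A.sz.hϱ0
  have hϱC : 1 ≤ ϱ * C := by nlinarith
  set B := 320 * ϱ * C + 2 with hB
  have hB0 : 0 ≤ B := by rw [hB]; linarith
  have hH0 : (0 : ℝ) ≤ (Fintype.card H : ℝ) := Nat.cast_nonneg _
  -- exchange
  have e1 : Real.Gamma (kap a) ^ 2 * ∑ ψ ∈ S, ‖DirichletCharacter.LFunction (X ψ) (1 / 2)‖ ^ 2 * V ψ =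
      (∫ p : ℝ × ℝ, ∑ ψ ∈ S, ((V ψ : ℝ) : ℂ) * HH (X ψ) a p).re := by
    rw [integral_finsetSum _ (fun ψ _ => (HH_int (X ψ) a).const_mul _), Complex.re_sum, Finset.mul_sum]
    apply Finset.sum_congr rfl
    intro ψ hψ
    rw [hS, mem_filter] at hψ
    rw [integral_const_mul, Complex.re_ofReal_mul, ← sq_eq hψ.2 ha (hpar ψ)]
    ring
  have e2 : (∫ p : ℝ × ℝ, ∑ ψ ∈ S, ((V ψ : ℝ) : ℂ) * HH (X ψ) a p).re ≤
      ∫ p : ℝ × ℝ, (Fintype.card H : ℝ) * B * 2 * mj a p := by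
    refine (Complex.re_le_norm _).trans ?_
    refine norm_integral_le_of_norm_le ((mj_int a).const_mul _) (Filter.Eventually.of_forall fun p => ?_)
    set t := p.1 + p.2 with ht
    have f1 : ∑ ψ ∈ S, ((V ψ : ℝ) : ℂ) * HH (X ψ) a p = ((wt a p.1 * wt a p.2 : ℝ) : ℂ) *
        (∑ ψ ∈ S, DK (X ψ) (K1 q t) * ((V ψ : ℝ) : ℂ) + ∑ ψ ∈ S, DK (X ψ) (K2 q t) * ((V ψ : ℝ) : ℂ)) := by
      rw [← Finset.sum_add_distrib, Finset.mul_sum]
      apply Finset.sum_congr rfl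
      intro ψ _
      rw [HH_eq]
      ring
    rw [f1, norm_mul, Complex.norm_real, Real.norm_of_nonneg (mul_nonneg (wt_nonneg a _) (wt_nonneg a _))]
    have f2 : ∀ N : ℕ, (N : ℝ) ≤ NN q t → NN q t ≤ N + 1 →
        ‖∑ ψ ∈ S, DK (X ψ) N * ((V ψ : ℝ) : ℂ)‖ ≤ (Fintype.card H : ℝ) * (B *
          (1 + Real.exp (13 / 2 * t) + 2 * Real.exp (-(1 / 8) * t))) := by
      intro N hN1 hN2
      rcases Nat.eq_zero_or_pos N with h0 | h0
      · rw [h0]
        simp only [DK_zero, zero_mul, Finset.sum_const_zero, norm_zero]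
        positivity
      · have g1 := S2_all A.sz A.hF H χ₀ A.hK L A.hLA A.hLc A.hHL A.hL4 D κ η A.hD A.hDκ A.hη
          A.hHigh A.hH A.hbig N h0
        have g2 : ‖∑ ψ ∈ S, DK (X ψ) N * ((V ψ : ℝ) : ℂ)‖ ≤
            ‖∑ ψ : H, DK (X ψ) N * ((V ψ : ℝ) : ℂ)‖ +
              ‖DK (1 : DirichletCharacter ℂ q) N‖ * ‖Mfn z W R0 Hc (1 : DirichletCharacter ℂ q)‖ ^ 2 := by
          have g3 : ∑ ψ ∈ S, DK (X ψ) N * ((V ψ : ℝ) : ℂ) = ∑ ψ : H, DK (X ψ) N * ((V ψ : ℝ) : ℂ) -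
              ∑ ψ ∈ univ.filter (fun ψ : H => ¬ (χ₀ * (ψ : DirichletCharacter ℂ q) ≠ 1)),
                DK (X ψ) N * ((V ψ : ℝ) : ℂ) := by
            rw [← Finset.sum_filter_add_sum_filter_not univ
              (fun ψ : H => χ₀ * (ψ : DirichletCharacter ℂ q) ≠ 1), add_sub_cancel_right]
          rw [g3]
          refine (norm_sub_le _ _).trans (add_le_add_right ?_ _)
          refine (norm_sum_le _ _).trans ?_
          have g4 : ∀ ψ ∈ univ.filter (fun ψ : H => ¬ (χ₀ * (ψ : DirichletCharacter ℂ q) ≠ 1)),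
              ‖DK (X ψ) N * ((V ψ : ℝ) : ℂ)‖ ≤ ‖DK (1 : DirichletCharacter ℂ q) N‖ *
                ‖Mfn z W R0 Hc (1 : DirichletCharacter ℂ q)‖ ^ 2 := by
            intro ψ hψ
            rw [mem_filter, not_not] at hψ
            have g5 : X ψ = 1 := hψ.2
            rw [norm_mul, Complex.norm_real, hV]
            simp only
            rw [g5, Real.norm_of_nonneg (by positivity)]
          refine (Finset.sum_le_card_nsmul _ _ _ g4).trans ?_
          rw [nsmul_eq_mul]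
          apply mul_le_of_le_one_left (by positivity)
          have g6 : (univ.filter (fun ψ : H => ¬ (χ₀ * (ψ : DirichletCharacter ℂ q) ≠ 1))).card ≤ 1 := by
            rw [card_le_one]
            intro ψ hψ ψ' hψ'
            rw [mem_filter, not_not] at hψ hψ'
            apply Subtype.ext
            exact mul_left_cancel (hψ.2.trans hψ'.2.symm)
          exact_mod_cast g6
        refine g2.trans (g1.trans ?_)
        apply mul_le_mul_of_nonneg_left _ hH0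
        exact mul_le_mul_of_nonneg_left (len_bound h0 hN1 hN2) hB0
    obtain ⟨k1, k2⟩ := K_le_NN (q := q) t
    obtain ⟨k3, k4⟩ := K_ge (q := q) t
    have f3 := f2 _ k1 k3
    have f4 := f2 _ k2 k4
    calc wt a p.1 * wt a p.2 * _ ≤ wt a p.1 * wt a p.2 * ((Fintype.card H : ℝ) * (B *
          (1 + Real.exp (13 / 2 * t) + 2 * Real.exp (-(1 / 8) * t))) + (Fintype.card H : ℝ) * (B *
          (1 + Real.exp (13 / 2 * t) + 2 * Real.exp (-(1 / 8) * t)))) := by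
          apply mul_le_mul_of_nonneg_left _ (mul_nonneg (wt_nonneg a _) (wt_nonneg a _))
          exact (norm_add_le _ _).trans (add_le_add f3 f4)
      _ = _ := by unfold mj; rw [← ht]; ring
  rw [e1]
  refine e2.trans (le_of_eq ?_)
  rw [integral_const_mul]
  ring

end

end Pool.Agent.V8H32.NV
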