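import Pool.Agent.V8H32.NV.High

/-! Reduced fractions of small height in a subgroup, with a rough part. -/

set_option autoImplicit false

namespace Pool.Agent.V8H32.NV
open Finset Pool.Agent.R311.RES
open Pool.Agent.V8H32.Cos (cls un_mul' un_one')
open scoped Classical

/-- the primes of a fraction -/
def PF (w : ℕ × ℕ) : Finset ℕ := w.1.primeFactors ∪ w.2.primeFactors

/-- number of large primes -/
def ro (W : ℕ) (w : ℕ × ℕ) : ℕ := ((PF w).filter (fun p => W < p)).card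
/-- number of small primes -/
def sm (W : ℕ) (w : ℕ × ℕ) : ℕ := ((PF w).filter (fun p => p ≤ W)).card

lemma PF_card (W : ℕ) {w : ℕ × ℕ} (h : Nat.Coprime w.1 w.2) :
    w.1.primeFactors.card + w.2.primeFactors.card = sm W w + ro W w := by
  have h1 : (PF w).card = w.1.primeFactors.card + w.2.primeFactors.card := by
    unfold PF
    exact card_union_of_disjoint h.disjoint_primeFactors
  rw [← h1, ← card_filter_add_card_filter_not (s := PF w) (fun p => p ≤ W)]
  unfold sm ro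
  congr 2
  ext p
  simp only [mem_filter, not_le]

lemma ro_pow {W : ℕ} {w : ℕ × ℕ} (h1 : 0 < w.1) (h2 : 0 < w.2) : W ^ ro W w ≤ w.1 * w.2 := by
  have h3 : PF w = (w.1 * w.2).primeFactors := by
    unfold PF; rw [Nat.primeFactors_mul h1.ne' h2.ne']
  unfold ro
  rw [h3]
  calc W ^ ((w.1 * w.2).primeFactors.filter (fun p => W < p)).card =
      ∏ _p ∈ (w.1 * w.2).primeFactors.filter (fun p => W < p), W := by rw [Finset.prod_const]
    _ ≤ ∏ p ∈ (w.1 * w.2).primeFactors.filter (fun p => W < p), p :=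
        Finset.prod_le_prod' fun p hp => (mem_filter.1 hp).2.le
    _ ≤ w.1 * w.2 := by
        apply Nat.le_of_dvd (Nat.mul_pos h1 h2)
        exact (Finset.prod_dvd_prod_of_subset _ _ _ (filter_subset _ _)).trans
          (Nat.prod_primeFactors_dvd _)

variable {q : ℕ} [Fact q.Prime]

/-- sizes -/
structure Sz (q z W : ℕ) : Prop where
  z64 : 64 ≤ z
  z3 : (z : ℝ) ^ 3 ≤ Real.log q
  z8 : Real.log q ≤ 8 * (z : ℝ) ^ 3
  W : W = z ^ 600

omit [Fact q.Prime] in
lemma Sz.logW {z W : ℕ} (h : Sz q z W) : Real.log W = 600 * Real.log z := by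
  rw [h.W]; push_cast; rw [Real.log_pow]; norm_num

omit [Fact q.Prime] in
lemma Sz.lz {z W : ℕ} (h : Sz q z W) : 1 ≤ Real.log z := by
  have h1 : (64 : ℝ) ≤ z := by exact_mod_cast h.z64
  rw [Real.le_log_iff_exp_le (by linarith)]
  have := Real.exp_one_lt_d9
  linarith

omit [Fact q.Prime] in
lemma Sz.L1 {z W : ℕ} (h : Sz q z W) : 1 ≤ Real.log q := by
  have h1 : (64 : ℝ) ≤ z := by exact_mod_cast h.z64
  have h2 : (1 : ℝ) ≤ (z : ℝ) ^ 3 := one_le_pow₀ (by linarith)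
  linarith [h.z3]

omit [Fact q.Prime] in
/-- exponent for the low range -/
lemma pick_low {x Λ : ℝ} (hx : 1 ≤ x) (h6 : 6 * x ≤ Λ) : ∃ j : ℕ, 1 ≤ j ∧ (j : ℝ) ≤ Λ ∧
    (j : ℝ) * x ≤ Λ ∧ Λ / 3 ≤ 2 / 5 * x * j := by
  have hx0 : 0 < x := by linarith
  have hL : 0 ≤ Λ / x := by apply div_nonneg <;> linarith
  refine ⟨⌊Λ / x⌋₊, ?_, ?_, ?_, ?_⟩
  · apply Nat.le_floor
    rw [Nat.cast_one, le_div_iff₀ hx0]
    linarith
  · refine (Nat.floor_le hL).trans ?_
    exact div_le_self (by linarith) hx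
  · have := Nat.floor_le hL
    rw [le_div_iff₀ hx0] at this
    exact this
  · have h1 := Nat.lt_floor_add_one (Λ / x)
    have h5 : (5 : ℝ) ≤ (⌊Λ / x⌋₊ : ℕ) := by
      have : 5 ≤ ⌊Λ / x⌋₊ := by
        apply Nat.le_floor
        rw [le_div_iff₀ hx0]; push_cast; linarith
      exact_mod_cast this
    rw [div_lt_iff₀ hx0] at h1
    nlinarith

theorem low_card (K : Subgroup (ZMod q)ˣ) (Ψ : Finset (ℕ × ℕ)) (i i' z W : ℕ) (hz : Sz q z W)
    (hK : (Fintype.card K : ℝ) ≤ (q : ℝ) ^ (1 / 3 : ℝ))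
    (hΨ : ∀ w ∈ Ψ, (0 < w.1 ∧ w.1 ≤ 2 ^ (i + 1)) ∧ (0 < w.2 ∧ w.2 ≤ 2 ^ (i' + 1)) ∧ w.1.Coprime q ∧
      w.2.Coprime q ∧ cls q w.1 w.2 ∈ K ∧ Nat.Coprime w.1 w.2)
    (hsm : ∀ w ∈ Ψ, sm W w ≤ 1)
    (hX1 : (W : ℝ) ≤ (4 : ℝ) * 2 ^ (i + i')) (hX2 : 6 * Real.log ((4 : ℝ) * 2 ^ (i + i')) ≤ Real.log q) :
    (Ψ.card : ℝ) * Real.exp (Real.log 4 * (Real.log ((4 : ℝ) * 2 ^ (i + i')) / Real.log W)) /
      Real.sqrt ((4 : ℝ) * 2 ^ (i + i')) ≤ 10 * (3 * Real.log q) ^ 4 * (1 / (z : ℝ) ^ 54) := by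
  have hq0 : (0 : ℝ) < q := by exact_mod_cast (Nat.Prime.pos (Fact.out : q.Prime))
  have hq1 : (1 : ℝ) ≤ q := by exact_mod_cast (Nat.Prime.one_lt (Fact.out : q.Prime)).le
  set X : ℝ := (4 : ℝ) * 2 ^ (i + i') with hX
  have hX0 : 0 < X := by rw [hX]; positivity
  set x := Real.log X with hx
  set Λ := Real.log q with hΛ
  have hlz := hz.lz
  have hlW := hz.logW
  have hW0 : 0 < Real.log W := by rw [hlW]; linarith
  have hWpos : (0 : ℝ) < W := by
    rw [hz.W]
    have : (0 : ℝ) < z := by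
      have : (64 : ℝ) ≤ z := by exact_mod_cast hz.z64
      linarith
    push_cast
    positivity
  have hxW : Real.log W ≤ x := by rw [hx]; exact Real.log_le_log hWpos hX1
  have hx1 : 1 ≤ x := by rw [hlW] at hxW; linarith
  have hΛ1 : 1 ≤ Λ := hz.L1
  have hXe : X = Real.exp x := (Real.exp_log hX0).symm
  have hqe : (q : ℝ) = Real.exp Λ := (Real.exp_log hq0).symm
  obtain ⟨j, j1, j2, j3, j4⟩ := pick_low hx1 hX2
  have hj0 : (0 : ℝ) < j := by exact_mod_cast j1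
  have hlj0 : 0 ≤ Real.log j := Real.log_nonneg (by exact_mod_cast j1)
  set Ω := x / Real.log W with hΩ
  have hΩ0 : 0 ≤ Ω := by rw [hΩ]; positivity
  have hΩW : Ω * Real.log W = x := by rw [hΩ]; field_simp
  have hAB : ((2 ^ (i + 1) : ℕ) : ℝ) * ((2 ^ (i' + 1) : ℕ) : ℝ) = X := by
    rw [hX]; push_cast
    rw [pow_add, pow_add, pow_add]; ring
  have hA : ((2 ^ (i + 1) : ℕ) : ℝ) ≤ X := by
    rw [← hAB]
    exact le_mul_of_one_le_right (by positivity) (by exact_mod_cast Nat.one_le_two_pow)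
  have hB : ((2 ^ (i' + 1) : ℕ) : ℝ) ≤ X := by
    rw [← hAB]
    exact le_mul_of_one_le_left (by positivity) (by exact_mod_cast Nat.one_le_two_pow)
  have hXj : X ^ j ≤ q := by
    rw [hXe, hqe, ← Real.exp_nat_mul]
    exact Real.exp_le_exp.2 j3
  set E : ℝ := 2 * Real.exp (Ω * Real.log 2) with hE
  set Bm : ℝ := Real.exp (Ω * Real.log j) ^ j * ((3 * Λ) ^ 4) ^ j with hBm
  have hBm0 : 0 ≤ Bm := by rw [hBm]; positivity
  have hcnt := cnt_all K Ψ (2 ^ (i + 1)) (2 ^ (i' + 1)) j ⌊Bm⌋₊ E (by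
    intro w hw
    obtain ⟨⟨a1, a2⟩, ⟨a3, a4⟩, _, _, _, a8⟩ := hΨ w hw
    rw [PF_card W a8]
    have h1 := hsm w hw
    have h2 := ro_pow (W := W) a1 a3
    have h3 : (ro W w : ℝ) * Real.log W ≤ x := by
      rw [← Real.log_pow, hx]
      apply Real.log_le_log (by positivity)
      calc (W : ℝ) ^ ro W w ≤ (w.1 : ℝ) * w.2 := by exact_mod_cast h2
        _ ≤ ((2 ^ (i + 1) : ℕ) : ℝ) * ((2 ^ (i' + 1) : ℕ) : ℝ) :=
            mul_le_mul (Nat.cast_le.2 a2) (Nat.cast_le.2 a4) (by positivity) (by positivity)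
        _ = X := hAB
    have h4 : (ro W w : ℝ) ≤ Ω := by
      rw [hΩ, le_div_iff₀ hW0]; exact h3
    calc (2 : ℝ) ^ (sm W w + ro W w) ≤ 2 ^ (1 + ro W w) :=
          pow_le_pow_right₀ (by norm_num) (by omega)
      _ = 2 * Real.exp ((ro W w : ℝ) * Real.log 2) := by
          rw [pow_add, pow_one, Real.exp_nat_mul, Real.exp_log (by norm_num)]
      _ ≤ E := by
          rw [hE]
          apply mul_le_mul_of_nonneg_left _ (by norm_num)
          apply Real.exp_le_exp.2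
          exact mul_le_mul_of_nonneg_right h4 (Real.log_nonneg (by norm_num))) (by rw [hE]; positivity)
    hΨ (by
    intro U V hU hU' hV hV'
    apply Nat.le_floor
    have h1 := mult_low Ψ W j hU hV (by
      intro w hw
      obtain ⟨⟨a1, a2⟩, ⟨a3, a4⟩, _⟩ := hΨ w hw
      refine ⟨a1, a3, ?_, ?_⟩
      · refine (card_le_card ((sp_primes a1.ne').trans ?_)).trans (hsm w hw)
        exact filter_subset_filter _ subset_union_left
      · refine (card_le_card ((sp_primes a3.ne').trans ?_)).trans (hsm w hw)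
        exact filter_subset_filter _ subset_union_right)
    set n := (Nat.primeFactorsList (rp W U)).length + (Nat.primeFactorsList (rp W V)).length with hn
    have hUr : (U : ℝ) ≤ ((2 ^ (i + 1) : ℕ) : ℝ) ^ j := by exact_mod_cast hU'
    have hVr : (V : ℝ) ≤ ((2 ^ (i' + 1) : ℕ) : ℝ) ^ j := by exact_mod_cast hV'
    have hU0 : (0 : ℝ) < U := by exact_mod_cast hU
    have hV0 : (0 : ℝ) < V := by exact_mod_cast hV
    have h2 : (n : ℝ) * Real.log W ≤ x * j := by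
      have e1 : W ^ n ≤ U * V := by
        rw [hn, pow_add]
        exact Nat.mul_le_mul (rp_len hU.ne') (rp_len hV.ne')
      have e2 : (W : ℝ) ^ n ≤ X ^ j := by
        calc (W : ℝ) ^ n ≤ (U : ℝ) * V := by exact_mod_cast e1
          _ ≤ ((2 ^ (i + 1) : ℕ) : ℝ) ^ j * ((2 ^ (i' + 1) : ℕ) : ℝ) ^ j :=
              mul_le_mul hUr hVr hV0.le (by positivity)
          _ = X ^ j := by rw [← mul_pow, hAB]
      have e3 := Real.log_le_log (by positivity) e2
      rw [Real.log_pow, Real.log_pow] at e3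
      linarith
    have h3 : (n : ℝ) ≤ Ω * j := by
      have : (n : ℝ) * Real.log W ≤ (Ω * j) * Real.log W := by
        calc (n : ℝ) * Real.log W ≤ x * j := h2
          _ = _ := by rw [← hΩW]; ring
      exact le_of_mul_le_mul_right this hW0
    have hlogb : ∀ n : ℕ, 0 < n → (n : ℝ) ≤ X ^ j → ((Nat.log 2 n + 1 : ℕ) : ℝ) ≤ 3 * Λ := by
      intro n hn hnX
      have g1 := log2_le hn.ne'
      have g2 : Real.log n ≤ Λ := by
        rw [hΛ]
        exact Real.log_le_log (by exact_mod_cast hn) (hnX.trans hXj)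
      have hl2 := Real.log_two_gt_d9
      push_cast
      have g3 : (Nat.log 2 n : ℝ) ≤ 2 * Λ := by
        have : (Nat.log 2 n : ℝ) * Real.log 2 ≤ (2 * Λ) * Real.log 2 := by nlinarith
        exact le_of_mul_le_mul_right this (by linarith)
      linarith
    have hb1 := hlogb U hU (hUr.trans (pow_le_pow_left₀ (by positivity) hA j))
    have hb2 := hlogb V hV (hVr.trans (pow_le_pow_left₀ (by positivity) hB j))
    calc ((FP Ψ j U V).card : ℝ) ≤
        ((j ^ n * ((Nat.log 2 U + 1) ^ 2 * (Nat.log 2 V + 1) ^ 2) ^ j : ℕ) : ℝ) := by exact_mod_cast h1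
      _ = (j : ℝ) ^ n * ((((Nat.log 2 U + 1 : ℕ) : ℝ)) ^ 2 * (((Nat.log 2 V + 1 : ℕ) : ℝ)) ^ 2) ^ j := by
          push_cast; ring
      _ ≤ Bm := by
          rw [hBm]
          apply mul_le_mul
          · calc (j : ℝ) ^ n = Real.exp (n * Real.log j) := by
                  rw [Real.exp_nat_mul, Real.exp_log hj0]
              _ ≤ Real.exp ((Ω * j) * Real.log j) := by
                  apply Real.exp_le_exp.2
                  exact mul_le_mul_of_nonneg_right h3 hlj0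
              _ = Real.exp (Ω * Real.log j) ^ j := by
                  rw [← Real.exp_nat_mul]; congr 1; ring
          · apply pow_le_pow_left₀ (by positivity)
            calc (((Nat.log 2 U + 1 : ℕ) : ℝ)) ^ 2 * (((Nat.log 2 V + 1 : ℕ) : ℝ)) ^ 2 ≤
                (3 * Λ) ^ 2 * (3 * Λ) ^ 2 := by
                  apply mul_le_mul (pow_le_pow_left₀ (by positivity) hb1 2)
                    (pow_le_pow_left₀ (by positivity) hb2 2) (by positivity) (by positivity)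
              _ = _ := by ring
          · positivity
          · positivity)
  rw [hAB] at hcnt
  have hfl : ((⌊Bm⌋₊ : ℕ) : ℝ) ≤ Bm := Nat.floor_le hBm0
  have hKn : (0 : ℝ) ≤ (Fintype.card K : ℝ) := Nat.cast_nonneg _
  have hE0 : 0 < E := by rw [hE]; positivity
  have h2 : (Ψ.card : ℝ) ^ j ≤ E ^ j * (Bm * (5 * (q : ℝ) ^ (1 / 3 : ℝ))) := by
    have h3 : (Ψ.card : ℝ) ^ j * q ≤ (E ^ j * (Bm * (5 * (q : ℝ) ^ (1 / 3 : ℝ)))) * q := by
      refine hcnt.trans ?_
      rw [mul_assoc]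
      apply mul_le_mul_of_nonneg_left _ (by positivity)
      rw [mul_assoc]
      apply mul_le_mul hfl _ (by positivity) hBm0
      calc (Fintype.card K : ℝ) * (q + 4 * X ^ j) ≤ (q : ℝ) ^ (1 / 3 : ℝ) * (q + 4 * q) := by
            apply mul_le_mul hK _ (by positivity) (by positivity)
            linarith
        _ = _ := by ring
    exact le_of_mul_le_mul_right h3 hq0
  set Y : ℝ := E * Real.exp (Ω * Real.log j) * (3 * Λ) ^ 4 * (5 * Real.exp (2 / 5 * x)) with hY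
  have hY0 : 0 ≤ Y := by rw [hY]; positivity
  clear_value E Bm
  have h3 : (Ψ.card : ℝ) ≤ Y := by
    have h4 : (Ψ.card : ℝ) ^ j ≤ Y ^ j := by
      refine h2.trans ?_
      rw [hY, mul_pow, mul_pow, mul_pow, mul_pow (5 : ℝ), hBm]
      have e1 : (q : ℝ) ^ (1 / 3 : ℝ) ≤ Real.exp (2 / 5 * x) ^ j := by
        rw [Real.rpow_def_of_pos hq0, ← Real.exp_nat_mul]
        apply Real.exp_le_exp.2
        rw [← hΛ]
        linarith
      have e2 : (5 : ℝ) ≤ 5 ^ j := le_self_pow₀ (by norm_num) (by omega)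
      calc E ^ j * (Real.exp (Ω * Real.log j) ^ j * ((3 * Λ) ^ 4) ^ j * (5 * (q : ℝ) ^ (1 / 3 : ℝ))) =
          E ^ j * Real.exp (Ω * Real.log j) ^ j * ((3 * Λ) ^ 4) ^ j * (5 * (q : ℝ) ^ (1 / 3 : ℝ)) := by ring
        _ ≤ _ := by
            apply mul_le_mul_of_nonneg_left _ (by positivity)
            exact mul_le_mul e2 e1 (by positivity) (by positivity)
    exact le_of_pow_le_pow_left₀ (by omega) hY0 h4
  -- conclusion
  have hzR : (64 : ℝ) ≤ z := by exact_mod_cast hz.z64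
  have hz0 : (0 : ℝ) < z := by linarith
  have h8j : Real.log 8 + Real.log j ≤ 6 * Real.log z := by
    rw [← Real.log_mul (by norm_num) hj0.ne']
    have : 6 * Real.log z = Real.log ((z : ℝ) ^ 6) := by rw [Real.log_pow]; norm_num
    rw [this]
    apply Real.log_le_log (by positivity)
    have hjz : (j : ℝ) ≤ 8 * (z : ℝ) ^ 3 := j2.trans hz.z8
    have h64 : (64 : ℝ) ≤ (z : ℝ) ^ 3 := hzR.trans (le_self_pow₀ (by linarith) (by norm_num))
    calc 8 * (j : ℝ) ≤ 8 * (8 * (z : ℝ) ^ 3) := by linarith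
      _ = 64 * (z : ℝ) ^ 3 := by ring
      _ ≤ (z : ℝ) ^ 3 * (z : ℝ) ^ 3 := mul_le_mul_of_nonneg_right h64 (by positivity)
      _ = _ := by ring
  have hsX : Real.sqrt X = Real.exp (x / 2) := by
    rw [hXe]
    rw [Real.sqrt_eq_iff_mul_self_eq (Real.exp_pos _).le (Real.exp_pos _).le, ← Real.exp_add]
    congr 1; ring
  have hl8 : Real.log 8 = Real.log 4 + Real.log 2 := by
    rw [← Real.log_mul (by norm_num) (by norm_num)]; norm_num
  have hfin : Real.exp (Ω * Real.log 2) * Real.exp (Ω * Real.log j) * Real.exp (2 / 5 * x) *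
      Real.exp (Real.log 4 * Ω) / Real.exp (x / 2) ≤ 1 / (z : ℝ) ^ 54 := by
    rw [← Real.exp_add, ← Real.exp_add, ← Real.exp_add, ← Real.exp_sub]
    have e1 : (1 : ℝ) / (z : ℝ) ^ 54 = Real.exp (-(54 * Real.log z)) := by
      rw [Real.exp_neg, show (54 : ℝ) * Real.log z = ((54 : ℕ) : ℝ) * Real.log z by norm_num,
        Real.exp_nat_mul, Real.exp_log hz0, one_div]
    rw [e1]
    apply Real.exp_le_exp.2
    have e2 : Ω * Real.log 2 + Ω * Real.log j + 2 / 5 * x + Real.log 4 * Ω - x / 2 =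
        Ω * (Real.log 8 + Real.log j) - x / 10 := by rw [hl8]; ring
    rw [e2]
    have e3 : Ω * (Real.log 8 + Real.log j) ≤ x / 100 := by
      calc Ω * (Real.log 8 + Real.log j) ≤ Ω * (6 * Real.log z) :=
            mul_le_mul_of_nonneg_left h8j hΩ0
        _ = (Ω * Real.log W) / 100 := by rw [hlW]; ring
        _ = _ := by rw [hΩW]
    rw [hlW] at hxW
    linarith
  calc (Ψ.card : ℝ) * Real.exp (Real.log 4 * Ω) / Real.sqrt X ≤
      Y * Real.exp (Real.log 4 * Ω) / Real.sqrt X := by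
        apply div_le_div_of_nonneg_right _ (Real.sqrt_nonneg _)
        exact mul_le_mul_of_nonneg_right h3 (Real.exp_pos _).le
    _ = 10 * (3 * Λ) ^ 4 * (Real.exp (Ω * Real.log 2) * Real.exp (Ω * Real.log j) * Real.exp (2 / 5 * x) *
      Real.exp (Real.log 4 * Ω) / Real.exp (x / 2)) := by
        rw [hsX, hY, hE]; ring
    _ ≤ _ := mul_le_mul_of_nonneg_left hfin (by positivity)

/-- the sum over the fractions of small height with a rough part -/
theorem low_sum (K : Subgroup (ZMod q)ˣ) (M Hc z W : ℕ) (hz : Sz q z W)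
    (hK : (Fintype.card K : ℝ) ≤ (q : ℝ) ^ (1 / 3 : ℝ))
    (hH : 6 * Real.log (4 * Hc) ≤ Real.log q) :
    ∑ w ∈ (KR q K M).filter (fun w => w.1 * w.2 ≤ Hc ∧ 1 ≤ ro W w ∧ sm W w ≤ 1),
      4 ^ ro W w * (1 / Real.sqrt ((w.1 : ℝ) * w.2)) ≤ 1 / (z : ℝ) ^ 30 := by
  have hq0 : (0 : ℝ) < q := by exact_mod_cast (Nat.Prime.pos (Fact.out : q.Prime))
  set S := (KR q K M).filter (fun w => w.1 * w.2 ≤ Hc ∧ 1 ≤ ro W w ∧ sm W w ≤ 1) with hS
  have hzR : (64 : ℝ) ≤ z := by exact_mod_cast hz.z64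
  have hz0 : (0 : ℝ) < z := by linarith
  rcases S.eq_empty_or_nonempty with hSe | ⟨w1, hw1⟩
  · rw [hSe, Finset.sum_empty]; positivity
  have hSm : ∀ w ∈ S, (0 < w.1 ∧ 0 < w.2) ∧ Nat.Coprime w.1 w.2 ∧ w.1.Coprime q ∧ w.2.Coprime q ∧
      cls q w.1 w.2 ∈ K ∧ w.1 * w.2 ≤ Hc ∧ 1 ≤ ro W w ∧ sm W w ≤ 1 := by
    intro w hw
    rw [hS, mem_filter, mem_KR] at hw
    obtain ⟨⟨⟨a1, _⟩, ⟨a2, _⟩, a3, a4, a5, a6⟩, a7, a8, a9⟩ := hw
    exact ⟨⟨a1, a2⟩, a3, a4, a5, a6, a7, a8, a9⟩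
  have hHc1 : 1 ≤ Hc := by
    obtain ⟨⟨a1, a2⟩, _, _, _, _, a7, _⟩ := hSm w1 hw1
    exact (Nat.mul_pos a1 a2).trans_le a7
  have hHcR : (1 : ℝ) ≤ Hc := by exact_mod_cast hHc1
  have hΛ1 := hz.L1
  have hlHc : Real.log Hc ≤ Real.log q := by
    have h1 : Real.log (4 * Hc) = Real.log 4 + Real.log Hc := Real.log_mul (by norm_num) (by linarith)
    have h2 : 0 ≤ Real.log Hc := Real.log_nonneg hHcR
    have h3 : 0 ≤ Real.log 4 := Real.log_nonneg (by norm_num)
    linarith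
  have hn₀ : ∀ w ∈ S, Nat.log 2 w.1 < Nat.log 2 Hc + 1 ∧ Nat.log 2 w.2 < Nat.log 2 Hc + 1 := by
    intro w hw
    obtain ⟨⟨a1, a2⟩, _, _, _, _, a7, _⟩ := hSm w hw
    constructor
    · apply Nat.lt_succ_of_le
      apply Nat.log_mono_right
      exact (Nat.le_mul_of_pos_right _ a2).trans a7
    · apply Nat.lt_succ_of_le
      apply Nat.log_mono_right
      exact (Nat.le_mul_of_pos_left _ a1).trans a7
  have hbox := dyadic S (fun w => 4 ^ ro W w * (1 / Real.sqrt ((w.1 : ℝ) * w.2))) (Nat.log 2 Hc + 1) hn₀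
    (20 * (3 * Real.log q) ^ 4 * (1 / (z : ℝ) ^ 54)) (by
    intro i i'
    set Ψ := S.filter (fun w => (Nat.log 2 w.1, Nat.log 2 w.2) = (i, i')) with hΨ
    rcases Ψ.eq_empty_or_nonempty with he | ⟨w0, hw0⟩
    · rw [he, Finset.sum_empty]; positivity
    · have hΨm : ∀ w ∈ Ψ, w ∈ S ∧ 2 ^ i ≤ w.1 ∧ w.1 < 2 ^ (i + 1) ∧ 2 ^ i' ≤ w.2 ∧ w.2 < 2 ^ (i' + 1) := by
        intro w hw
        rw [hΨ, mem_filter, Prod.mk.injEq] at hw
        obtain ⟨hw1, hw2, hw3⟩ := hw
        obtain ⟨⟨a1, a2⟩, _⟩ := hSm w hw1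
        refine ⟨hw1, ?_, ?_, ?_, ?_⟩
        · rw [← hw2]; exact Nat.pow_log_le_self 2 a1.ne'
        · rw [← hw2]; exact Nat.lt_pow_succ_log_self (by norm_num) _
        · rw [← hw3]; exact Nat.pow_log_le_self 2 a2.ne'
        · rw [← hw3]; exact Nat.lt_pow_succ_log_self (by norm_num) _
      obtain ⟨hw0S, c1, c2, c3, c4⟩ := hΨm w0 hw0
      obtain ⟨⟨a1, a2⟩, _, _, _, _, a7, a8, a9⟩ := hSm w0 hw0S
      have d1 : (2 : ℝ) ^ i ≤ w0.1 := by exact_mod_cast c1
      have d2 : (w0.1 : ℝ) ≤ 2 ^ (i + 1) := by exact_mod_cast c2.le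
      have d3 : (2 : ℝ) ^ i' ≤ w0.2 := by exact_mod_cast c3
      have d4 : (w0.2 : ℝ) ≤ 2 ^ (i' + 1) := by exact_mod_cast c4.le
      have hXlow : (W : ℝ) ≤ (4 : ℝ) * 2 ^ (i + i') := by
        have h1 : W ^ 1 ≤ w0.1 * w0.2 := (Nat.pow_le_pow_right (by
          rw [hz.W]; exact pow_pos (by have := hz.z64; omega) _) a8).trans (ro_pow a1 a2)
        rw [pow_one] at h1
        calc (W : ℝ) ≤ (w0.1 : ℝ) * w0.2 := by exact_mod_cast h1
          _ ≤ 2 ^ (i + 1) * 2 ^ (i' + 1) := mul_le_mul d2 d4 (by positivity) (by positivity)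
          _ = _ := by rw [pow_add, pow_add, pow_add]; ring
      have hXup : 6 * Real.log ((4 : ℝ) * 2 ^ (i + i')) ≤ Real.log q := by
        refine le_trans ?_ hH
        apply mul_le_mul_of_nonneg_left _ (by norm_num)
        apply Real.log_le_log (by positivity)
        apply mul_le_mul_of_nonneg_left _ (by norm_num)
        calc (2 : ℝ) ^ (i + i') = 2 ^ i * 2 ^ i' := by rw [pow_add]
          _ ≤ (w0.1 : ℝ) * w0.2 := mul_le_mul d1 d3 (by positivity) (by positivity)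
          _ ≤ Hc := by exact_mod_cast a7
      have hb := low_card K Ψ i i' z W hz hK (by
        intro w hw
        obtain ⟨e1, e2, e3, e4, e5⟩ := hΨm w hw
        obtain ⟨⟨f1, f2⟩, f3, f4, f5, f6, _⟩ := hSm w e1
        exact ⟨⟨f1, e3.le⟩, ⟨f2, e5.le⟩, f4, f5, f6, f3⟩) (by
        intro w hw
        exact (hSm w (hΨm w hw).1).2.2.2.2.2.2.2) hXlow hXup
      have hWpos : (0 : ℝ) < W := by rw [hz.W]; push_cast; positivity
      have hW0 : 0 < Real.log W := by rw [hz.logW]; linarith [hz.lz]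
      have hterm : ∀ w ∈ Ψ, 4 ^ ro W w * (1 / Real.sqrt ((w.1 : ℝ) * w.2)) ≤
          Real.exp (Real.log 4 * (Real.log ((4 : ℝ) * 2 ^ (i + i')) / Real.log W)) *
            (2 / Real.sqrt ((4 : ℝ) * 2 ^ (i + i'))) := by
        intro w hw
        obtain ⟨e1, e2, e3, e4, e5⟩ := hΨm w hw
        obtain ⟨⟨f1, f2⟩, _⟩ := hSm w e1
        have g1 : (2 : ℝ) ^ i ≤ w.1 := by exact_mod_cast e2
        have g2 : (2 : ℝ) ^ i' ≤ w.2 := by exact_mod_cast e4
        have g1' : (w.1 : ℝ) ≤ 2 ^ (i + 1) := by exact_mod_cast e3.le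
        have g2' : (w.2 : ℝ) ≤ 2 ^ (i' + 1) := by exact_mod_cast e5.le
        have g3 : Real.sqrt ((4 : ℝ) * 2 ^ (i + i')) = 2 * Real.sqrt (2 ^ (i + i')) := by
          rw [Real.sqrt_mul (by norm_num), show (4 : ℝ) = 2 * 2 by norm_num,
            Real.sqrt_mul_self (by norm_num)]
        have g4 : 0 < Real.sqrt ((2 : ℝ) ^ (i + i')) := Real.sqrt_pos.2 (by positivity)
        have g5 : Real.sqrt ((2 : ℝ) ^ (i + i')) ≤ Real.sqrt ((w.1 : ℝ) * w.2) := by
          apply Real.sqrt_le_sqrt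
          rw [pow_add]
          exact mul_le_mul g1 g2 (by positivity) (by positivity)
        have g6 : 1 / Real.sqrt ((w.1 : ℝ) * w.2) ≤ 2 / Real.sqrt ((4 : ℝ) * 2 ^ (i + i')) := by
          rw [g3]
          calc 1 / Real.sqrt ((w.1 : ℝ) * w.2) ≤ 1 / Real.sqrt ((2 : ℝ) ^ (i + i')) :=
                one_div_le_one_div_of_le g4 g5
            _ = _ := by field_simp
        have g7 : (4 : ℝ) ^ ro W w ≤
            Real.exp (Real.log 4 * (Real.log ((4 : ℝ) * 2 ^ (i + i')) / Real.log W)) := by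
          calc (4 : ℝ) ^ ro W w = Real.exp ((ro W w : ℝ) * Real.log 4) := by
                rw [Real.exp_nat_mul, Real.exp_log (by norm_num)]
            _ ≤ _ := by
                apply Real.exp_le_exp.2
                rw [mul_comm]
                apply mul_le_mul_of_nonneg_left _ (Real.log_nonneg (by norm_num))
                rw [le_div_iff₀ hW0, ← Real.log_pow]
                apply Real.log_le_log (by positivity)
                calc (W : ℝ) ^ ro W w ≤ (w.1 : ℝ) * w.2 := by exact_mod_cast ro_pow (W := W) f1 f2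
                  _ ≤ 2 ^ (i + 1) * 2 ^ (i' + 1) := mul_le_mul g1' g2' (by positivity) (by positivity)
                  _ = _ := by rw [pow_add, pow_add, pow_add]; ring
        exact mul_le_mul g7 g6 (by positivity) (by positivity)
      calc ∑ w ∈ Ψ, 4 ^ ro W w * (1 / Real.sqrt ((w.1 : ℝ) * w.2)) ≤
          ∑ _w ∈ Ψ, Real.exp (Real.log 4 * (Real.log ((4 : ℝ) * 2 ^ (i + i')) / Real.log W)) *
            (2 / Real.sqrt ((4 : ℝ) * 2 ^ (i + i'))) := Finset.sum_le_sum hterm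
        _ = 2 * ((Ψ.card : ℝ) * Real.exp (Real.log 4 * (Real.log ((4 : ℝ) * 2 ^ (i + i')) / Real.log W)) /
              Real.sqrt ((4 : ℝ) * 2 ^ (i + i'))) := by
            rw [Finset.sum_const, nsmul_eq_mul]; ring
        _ ≤ 2 * (10 * (3 * Real.log q) ^ 4 * (1 / (z : ℝ) ^ 54)) := mul_le_mul_of_nonneg_left hb (by norm_num)
        _ = _ := by ring)
  refine hbox.trans ?_
  have hn3 : ((Nat.log 2 Hc + 1 : ℕ) : ℝ) ≤ 3 * Real.log q := by
    have g1 := log2_le (n := Hc) (by omega)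
    have hl2 := Real.log_two_gt_d9
    push_cast
    have g3 : (Nat.log 2 Hc : ℝ) ≤ 2 * Real.log q := by
      have : (Nat.log 2 Hc : ℝ) * Real.log 2 ≤ (2 * Real.log q) * Real.log 2 := by nlinarith
      exact le_of_mul_le_mul_right this (by linarith)
    linarith
  have h3 : (3 * Real.log q) ≤ 24 * (z : ℝ) ^ 3 := by linarith [hz.z8]
  have h4 : (3 * Real.log q) ^ 6 ≤ (24 * (z : ℝ) ^ 3) ^ 6 := pow_le_pow_left₀ (by linarith) h3 6
  calc ((Nat.log 2 Hc + 1 : ℕ) : ℝ) ^ 2 * (20 * (3 * Real.log q) ^ 4 * (1 / (z : ℝ) ^ 54)) ≤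
      (3 * Real.log q) ^ 2 * (20 * (3 * Real.log q) ^ 4 * (1 / (z : ℝ) ^ 54)) := by
        apply mul_le_mul_of_nonneg_right _ (by positivity)
        exact pow_le_pow_left₀ (by positivity) hn3 2
    _ = 20 * (3 * Real.log q) ^ 6 * (1 / (z : ℝ) ^ 54) := by ring
    _ ≤ 20 * (24 * (z : ℝ) ^ 3) ^ 6 * (1 / (z : ℝ) ^ 54) := by
        apply mul_le_mul_of_nonneg_right _ (by positivity)
        linarith
    _ = (20 * 24 ^ 6) * (1 / (z : ℝ) ^ 36) := by field_simp
    _ ≤ (z : ℝ) ^ 6 * (1 / (z : ℝ) ^ 36) := by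
        apply mul_le_mul_of_nonneg_right _ (by positivity)
        calc (20 * 24 ^ 6 : ℝ) ≤ 64 ^ 6 := by norm_num
          _ ≤ (z : ℝ) ^ 6 := pow_le_pow_left₀ (by norm_num) hzR 6
    _ = _ := by field_simp

end Pool.Agent.V8H32.NV
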