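import Pool.Agent.V8H32.NV.FE

/-! The theta series: bounds, Mellin transform, the central value as an integral. -/

set_option autoImplicit false

namespace Pool.Agent.V8H32.NV
open Complex Finset MeasureTheory Filter Topology

variable {q : ℕ}

lemma Th_conj [Fact q.Prime] (χ : DirichletCharacter ℂ q) (a : ℕ) (t : ℝ) :
    Th χ⁻¹ a t = (starRingEnd ℂ) (Th χ a t) := by
  rw [Th, Th, Complex.conj_tsum]
  apply tsum_congr
  intro n
  rw [map_mul, map_mul, map_pow, Complex.conj_natCast, Complex.conj_ofReal]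
  congr 2
  rw [← MulChar.star_apply' χ]
  rfl

lemma geom_le {y : ℝ} (h0 : 0 ≤ y) (h1 : y < 1) : ∑' n : ℕ, (n : ℝ) * y ^ n = y / (1 - y) ^ 2 := by
  exact tsum_coe_mul_geometric_of_norm_lt_one (by rwa [Real.norm_of_nonneg h0])

lemma Th_le (hq : 0 < q) (χ : DirichletCharacter ℂ q) (hχ : χ 0 = 0) {a : ℕ} (ha : a ≤ 1) {t : ℝ}
    (ht : 1 ≤ t) : ‖Th χ a t‖ ≤ 1 / (1 - Real.exp (-(Real.pi / q))) ^ 2 * Real.exp (-(Real.pi / q) * t) := by
  have hq' : (0 : ℝ) < q := by exact_mod_cast hq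
  have hc : 0 < Real.pi / q := by positivity
  have ht0 : 0 < t := by linarith
  have h1 : ∀ n : ℕ, ‖χ (n : ZMod q) * (n : ℂ) ^ a * (Real.exp (-(Real.pi * n ^ 2 / q) * t) : ℝ)‖ ≤
      (n : ℝ) * (Real.exp (-(Real.pi / q) * t)) ^ n := by
    intro n
    refine (term_le hq χ ha ht0.le le_rfl hχ n).trans (le_of_eq ?_)
    rw [← Real.exp_nat_mul]
    congr 2
    ring
  have hy1 : Real.exp (-(Real.pi / q) * t) < 1 := by
    rw [Real.exp_lt_one_iff]
    nlinarith
  have hsum : Summable (fun n : ℕ => (n : ℝ) * (Real.exp (-(Real.pi / q) * t)) ^ n) := by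
    have := summable_pow_mul_geometric_of_norm_lt_one 1 (r := Real.exp (-(Real.pi / q) * t))
      (by rwa [Real.norm_of_nonneg (Real.exp_pos _).le])
    simpa using this
  have h2 := tsum_of_norm_bounded hsum.hasSum h1
  rw [geom_le (Real.exp_pos _).le hy1] at h2
  refine h2.trans ?_
  rw [div_eq_mul_one_div, mul_comm]
  apply mul_le_mul_of_nonneg_right _ (Real.exp_pos _).le
  have h3 : Real.exp (-(Real.pi / q) * t) ≤ Real.exp (-(Real.pi / q)) := by
    apply Real.exp_le_exp.2
    nlinarith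
  have h4 : Real.exp (-(Real.pi / q)) < 1 := by
    rw [Real.exp_lt_one_iff]
    linarith
  apply one_div_le_one_div_of_le
  · apply pow_pos
    linarith
  · apply pow_le_pow_left₀ (by linarith)
    linarith

lemma Th_contOn (hq : 0 < q) (χ : DirichletCharacter ℂ q) (hχ : χ 0 = 0) {a : ℕ} (ha : a ≤ 1) :
    ContinuousOn (Th χ a) (Set.Ioi 0) := by
  have hq' : (0 : ℝ) < q := by exact_mod_cast hq
  intro t ht
  have ht' : 0 < t := ht
  apply ContinuousAt.continuousWithinAt
  have h1 : ContinuousOn (Th χ a) (Set.Ici (t / 2)) := by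
    unfold Th
    refine continuousOn_tsum (u := fun n : ℕ => (n : ℝ) * Real.exp (-(Real.pi * (t / 2) / q) * n))
      (fun n => ?_) (dom_summable (by positivity)) ?_
    · apply Continuous.continuousOn
      fun_prop
    · intro n x hx
      exact term_le hq χ ha (by positivity) hx hχ n
  exact h1.continuousAt (Ici_mem_nhds (by linarith))

/-- the exponent -/
noncomputable def kap (a : ℕ) : ℝ := (a + 1 / 2) / 2

lemma kap_pos (a : ℕ) : 0 < kap a := by unfold kap; positivity

lemma kap_ge (a : ℕ) : 1 / 4 ≤ kap a := by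
  unfold kap
  have : (0 : ℝ) ≤ a := Nat.cast_nonneg a
  linarith

lemma kap_le {a : ℕ} (ha : a ≤ 1) : kap a ≤ 1 := by
  unfold kap
  have : (a : ℝ) ≤ 1 := by exact_mod_cast ha
  linarith

/-- the function on the real line -/
noncomputable def ff (χ : DirichletCharacter ℂ q) (a : ℕ) (x : ℝ) : ℂ :=
  (Real.exp (kap a * x) : ℝ) * Th χ a (Real.exp x)

lemma ff_cont (hq : 0 < q) (χ : DirichletCharacter ℂ q) (hχ : χ 0 = 0) {a : ℕ} (ha : a ≤ 1) :
    Continuous (ff χ a) := by
  unfold ff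
  have h1 : Continuous (fun x : ℝ => Th χ a (Real.exp x)) := by
    apply ContinuousOn.comp_continuous (Th_contOn hq χ hχ ha) Real.continuous_exp
    intro x
    exact Real.exp_pos x
  fun_prop

lemma ff_neg [Fact q.Prime] {χ : DirichletCharacter ℂ q} (h1 : χ ≠ 1) {a : ℕ} (ha : a ≤ 1)
    (hp : χ (-1) = (-1) ^ a) : ∃ e : ℂ, ‖e‖ = 1 ∧ ∀ x : ℝ,
      ff χ a (-x) = e * (starRingEnd ℂ) (ff χ a x) := by
  obtain ⟨e, he, h⟩ := Th_fe h1 ha hp
  refine ⟨e, he, fun x => ?_⟩
  unfold ff
  rw [h _ (Real.exp_pos (-x)), map_mul, Complex.conj_ofReal, ← Th_conj]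
  have e1 : 1 / Real.exp (-x) = Real.exp x := by rw [Real.exp_neg, one_div, inv_inv]
  have e2 : Real.exp (-x) ^ (-(a + 1 / 2 : ℝ)) = Real.exp (2 * kap a * x) := by
    rw [← Real.exp_mul]
    congr 1
    unfold kap
    ring
  rw [e1, e2]
  have e3 : Real.exp (kap a * -x) * Real.exp (2 * kap a * x) = Real.exp (kap a * x) := by
    rw [← Real.exp_add]
    congr 1
    ring
  have e4 : ((Real.exp (kap a * -x) : ℝ) : ℂ) * ((Real.exp (2 * kap a * x) : ℝ) : ℂ) =
      ((Real.exp (kap a * x) : ℝ) : ℂ) := by rw [← e3]; push_cast; ring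
  rw [← e4]
  ring

lemma ff_bound_pos (hq : 0 < q) (χ : DirichletCharacter ℂ q) (hχ : χ 0 = 0) {a : ℕ} (ha : a ≤ 1) :
    ∃ C : ℝ, 0 < C ∧ ∀ x : ℝ, 0 ≤ x → ‖ff χ a x‖ ≤ C * Real.exp (-x) := by
  have hq' : (0 : ℝ) < q := by exact_mod_cast hq
  have hc : 0 < Real.pi / q := by positivity
  have h4 : Real.exp (-(Real.pi / q)) < 1 := by
    rw [Real.exp_lt_one_iff]
    linarith
  have hD : 0 < 1 / (1 - Real.exp (-(Real.pi / q))) ^ 2 := by
    apply one_div_pos.2
    apply pow_pos
    linarith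
  set D := 1 / (1 - Real.exp (-(Real.pi / q))) ^ 2 with hDd
  refine ⟨D * (2 / (Real.pi / q) ^ 2), by positivity, fun x hx => ?_⟩
  unfold ff
  rw [norm_mul, Complex.norm_real, Real.norm_of_nonneg (Real.exp_pos _).le]
  have h1 : (1 : ℝ) ≤ Real.exp x := Real.one_le_exp hx
  have h2 := Th_le hq χ hχ ha h1
  set c := Real.pi / q with hcd
  have h3 : Real.exp (kap a * x) ≤ Real.exp x := by
    apply Real.exp_le_exp.2
    have := kap_le ha
    nlinarith
  have h5 : Real.exp x ^ 2 * Real.exp (-c * Real.exp x) ≤ 2 / c ^ 2 := by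
    have h6 := Real.quadratic_le_exp_of_nonneg (x := c * Real.exp x) (by positivity)
    have h7 : (c * Real.exp x) ^ 2 / 2 ≤ Real.exp (c * Real.exp x) := by
      nlinarith [Real.exp_pos x]
    have h8 : Real.exp (-c * Real.exp x) = (Real.exp (c * Real.exp x))⁻¹ := by
      rw [← Real.exp_neg]; congr 1; ring
    rw [h8, ← div_eq_mul_inv, div_le_div_iff₀ (Real.exp_pos _) (by positivity)]
    nlinarith
  have h9 : Real.exp (-x) * Real.exp x = 1 := by rw [← Real.exp_add]; simp
  calc Real.exp (kap a * x) * ‖Th χ a (Real.exp x)‖ ≤ Real.exp x * (D * Real.exp (-c * Real.exp x)) :=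
        mul_le_mul h3 h2 (norm_nonneg _) (Real.exp_pos _).le
    _ = (Real.exp x ^ 2 * Real.exp (-c * Real.exp x)) * D * (Real.exp (-x)) := by
        linear_combination (- Real.exp x * (D * Real.exp (-c * Real.exp x))) * h9
    _ ≤ (2 / c ^ 2) * D * Real.exp (-x) := by
        apply mul_le_mul_of_nonneg_right _ (Real.exp_pos _).le
        exact mul_le_mul_of_nonneg_right h5 hD.le
    _ = D * (2 / c ^ 2) * Real.exp (-x) := by ring

lemma ff_bound [Fact q.Prime] {χ : DirichletCharacter ℂ q} (h1 : χ ≠ 1) {a : ℕ} (ha : a ≤ 1)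
    (hp : χ (-1) = (-1) ^ a) : ∃ C : ℝ, 0 < C ∧ ∀ x : ℝ, ‖ff χ a x‖ ≤ C * Real.exp (-|x|) := by
  have hq : 0 < q := Nat.Prime.pos Fact.out
  obtain ⟨C, hC, h⟩ := ff_bound_pos hq χ (chi_zero χ) ha
  obtain ⟨e, he, h2⟩ := ff_neg h1 ha hp
  refine ⟨C, hC, fun x => ?_⟩
  rcases le_total 0 x with hx | hx
  · rw [abs_of_nonneg hx]; exact h x hx
  · rw [abs_of_nonpos hx]
    have h3 := h (-x) (by linarith)
    rw [h2, norm_mul, he, one_mul, Complex.norm_conj] at h3
    exact h3

lemma exp_abs_le (x : ℝ) : Real.exp (-|x|) ≤ 2 * (1 + x ^ 2)⁻¹ := by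
  have h1 := Real.quadratic_le_exp_of_nonneg (abs_nonneg x)
  have h2 : (1 + x ^ 2) / 2 ≤ Real.exp |x| := by
    have := abs_nonneg x
    rw [sq_abs] at h1
    nlinarith
  rw [Real.exp_neg, inv_eq_one_div, ← div_eq_mul_inv, div_le_div_iff₀ (Real.exp_pos _) (by positivity)]
  linarith

lemma ff_integrable [Fact q.Prime] {χ : DirichletCharacter ℂ q} (h1 : χ ≠ 1) {a : ℕ} (ha : a ≤ 1)
    (hp : χ (-1) = (-1) ^ a) : Integrable (ff χ a) := by
  have hq : 0 < q := Nat.Prime.pos Fact.out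
  obtain ⟨C, hC, h⟩ := ff_bound h1 ha hp
  refine Integrable.mono' (g := fun x : ℝ => C * (2 * (1 + x ^ 2)⁻¹)) ?_
    (ff_cont hq χ (chi_zero χ) ha).aestronglyMeasurable ?_
  · exact (integrable_inv_one_add_sq.const_mul 2).const_mul C
  · apply Filter.Eventually.of_forall
    intro x
    exact (h x).trans (mul_le_mul_of_nonneg_left (exp_abs_le x) hC.le)

/-- the Mellin transform is differentiable on the right half plane -/
lemma mellin_diff [Fact q.Prime] {χ : DirichletCharacter ℂ q} (h1 : χ ≠ 1) {a : ℕ} (ha : a ≤ 1)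
    (hp : χ (-1) = (-1) ^ a) {w : ℂ} (hw : 0 < w.re) : DifferentiableAt ℂ (mellin (Th χ a)) w := by
  have hq : 0 < q := Nat.Prime.pos Fact.out
  have hq' : (0 : ℝ) < q := by exact_mod_cast hq
  have hc : 0 < Real.pi / q := by positivity
  refine mellin_differentiableAt_of_isBigO_rpow_exp (a := Real.pi / q) (b := 0) hc
    ((Th_contOn hq χ (chi_zero χ) ha).locallyIntegrableOn measurableSet_Ioi) ?_ ?_ hw
  · apply Asymptotics.IsBigO.of_bound (1 / (1 - Real.exp (-(Real.pi / q))) ^ 2)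
    filter_upwards [eventually_ge_atTop 1] with t ht
    rw [Real.norm_of_nonneg (Real.exp_pos _).le]
    exact Th_le hq χ (chi_zero χ) ha ht
  · obtain ⟨C, hC, h⟩ := ff_bound h1 ha hp
    apply Asymptotics.IsBigO.of_bound C
    have hmem : Set.Ioo (0 : ℝ) 1 ∈ 𝓝[>] (0 : ℝ) := Ioo_mem_nhdsGT zero_lt_one
    filter_upwards [hmem] with t ht
    have h3 := h (Real.log t)
    have hl : Real.log t ≤ 0 := Real.log_nonpos ht.1.le ht.2.le
    unfold ff at h3
    rw [Real.exp_log ht.1, abs_of_nonpos hl, neg_neg, Real.exp_log ht.1, norm_mul, Complex.norm_real,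
      Real.norm_of_nonneg (Real.exp_pos _).le] at h3
    have h4 : t ≤ Real.exp (kap a * Real.log t) := by
      conv_lhs => rw [← Real.exp_log ht.1]
      apply Real.exp_le_exp.2
      have := kap_le ha
      nlinarith
    have h5 : t * ‖Th χ a t‖ ≤ t * C := by
      calc t * ‖Th χ a t‖ ≤ Real.exp (kap a * Real.log t) * ‖Th χ a t‖ :=
            mul_le_mul_of_nonneg_right h4 (norm_nonneg _)
        _ ≤ C * t := h3
        _ = t * C := by ring
    have h6 := le_of_mul_le_mul_left h5 ht.1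
    simpa using h6

lemma cpow_term {n : ℕ} (hn : 0 < n) (hq : 0 < q) (a : ℕ) (w : ℂ) (z : ℂ) :
    Complex.Gamma w * (z * (n : ℂ) ^ a) / (((Real.pi * n ^ 2 / q : ℝ)) : ℂ) ^ w =
      Complex.Gamma w * (((q / Real.pi : ℝ)) : ℂ) ^ w * (z / (n : ℂ) ^ (2 * w - a)) := by
  have hq' : (0 : ℝ) < q := by exact_mod_cast hq
  have hn' : (0 : ℝ) < n := by exact_mod_cast hn
  have hnc : (n : ℂ) ≠ 0 := by exact_mod_cast hn.ne'
  have hpq : 0 < q / Real.pi := by positivity
  have e1 : (((Real.pi * n ^ 2 / q : ℝ)) : ℂ) = (((q / Real.pi)⁻¹ : ℝ) : ℂ) * (((n : ℝ) ^ 2 : ℝ) : ℂ) := by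
    rw [← Complex.ofReal_mul]
    congr 1
    field_simp
  have e2 : (((n : ℝ) ^ 2 : ℝ) : ℂ) ^ w = (n : ℂ) ^ (2 * w) := by
    rw [show (2 * w) = ((2 : ℕ) : ℂ) * w by push_cast; ring, Complex.cpow_nat_mul']
    · rw [← Complex.ofReal_natCast, ← Complex.ofReal_pow]
    · rw [Complex.natCast_arg]; simp [Real.pi_pos]
    · rw [Complex.natCast_arg]; simp [Real.pi_pos.le]
  have e3 : ((((q / Real.pi)⁻¹ : ℝ)) : ℂ) ^ w = ((((q / Real.pi : ℝ)) : ℂ) ^ w)⁻¹ := by
    rw [Complex.ofReal_inv, Complex.inv_cpow]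
    rw [Complex.arg_ofReal_of_nonneg hpq.le]
    exact Real.pi_pos.ne
  rw [e1, Complex.mul_cpow_ofReal_nonneg (by positivity) (by positivity), e2, e3,
    Complex.cpow_sub _ _ hnc, Complex.cpow_natCast]
  have h1 : ((((q / Real.pi : ℝ)) : ℂ) ^ w) ≠ 0 := by
    rw [Ne, Complex.cpow_eq_zero_iff, not_and_or]
    left
    exact_mod_cast hpq.ne'
  have h2 : (n : ℂ) ^ (2 * w) ≠ 0 := by
    rw [Ne, Complex.cpow_eq_zero_iff, not_and_or]
    left
    exact hnc
  have h3 : (n : ℂ) ^ a ≠ 0 := pow_ne_zero _ hnc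
  field_simp

lemma mellin_eq_right [Fact q.Prime] {χ : DirichletCharacter ℂ q} {a : ℕ} (ha : a ≤ 1)
    {w : ℂ} (hw : 1 < w.re) : mellin (Th χ a) w =
      Complex.Gamma w * (((q / Real.pi : ℝ)) : ℂ) ^ w * DirichletCharacter.LFunction χ (2 * w - a) := by
  have hq : 0 < q := Nat.Prime.pos Fact.out
  have hq' : (0 : ℝ) < q := by exact_mod_cast hq
  have ha' : (a : ℝ) ≤ 1 := by exact_mod_cast ha
  have h := hasSum_mellin (a := fun n : ℕ => χ (n : ZMod q) * (n : ℂ) ^ a)
    (p := fun n : ℕ => Real.pi * n ^ 2 / q) (F := Th χ a) (s := w) ?_ (by linarith) ?_ ?_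
  · rw [← h.tsum_eq, DirichletCharacter.LFunction_eq_LSeries, LSeries, ← tsum_mul_left]
    · apply tsum_congr
      intro n
      rcases Nat.eq_zero_or_pos n with h0 | h0
      · subst h0
        simp [LSeries.term_zero, chi_zero]
      · rw [LSeries.term_of_ne_zero h0.ne', cpow_term h0 hq]
    · simp only [Complex.sub_re, Complex.mul_re, Complex.re_ofNat, Complex.im_ofNat, zero_mul,
        sub_zero, Complex.natCast_re]
      linarith
  · intro n
    rcases Nat.eq_zero_or_pos n with h0 | h0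
    · left
      subst h0
      simp [chi_zero]
    · right
      positivity
  · intro t ht
    exact (summable_term hq χ ha ht (chi_zero χ)).hasSum
  · have h2 : Summable (fun n : ℕ => (1 / (Real.pi / q) ^ w.re) * (1 / (n : ℝ) ^ (2 * w.re - 1))) := by
      apply Summable.mul_left
      apply Real.summable_one_div_nat_rpow.2
      linarith
    refine Summable.of_nonneg_of_le (fun n => by positivity) (fun n => ?_) h2
    rcases Nat.eq_zero_or_pos n with h0 | h0
    · subst h0
      have : (0 : ℝ) ≤ 1 / (Real.pi / q) ^ w.re * (1 / ((0 : ℕ) : ℝ) ^ (2 * w.re - 1)) := by positivity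
      simpa [chi_zero] using this
    · have hn' : (0 : ℝ) < n := by exact_mod_cast h0
      have h1n : (1 : ℝ) ≤ n := by exact_mod_cast h0
      have e1 : (Real.pi * n ^ 2 / q) ^ w.re = (Real.pi / q) ^ w.re * (n : ℝ) ^ (2 * w.re) := by
        rw [show Real.pi * (n : ℝ) ^ 2 / q = (Real.pi / q) * (n : ℝ) ^ 2 by ring,
          Real.mul_rpow (by positivity) (by positivity), ← Real.rpow_natCast (n : ℝ) 2,
          ← Real.rpow_mul hn'.le]
        norm_num
      have e2 : ‖χ (n : ZMod q) * (n : ℂ) ^ a‖ ≤ n := by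
        rw [norm_mul, norm_pow, Complex.norm_natCast]
        have h3 : ‖χ (n : ZMod q)‖ ≤ 1 := DirichletCharacter.norm_le_one χ _
        have h4 : (n : ℝ) ^ a ≤ n := by
          interval_cases a
          · simpa using h1n
          · simp
        calc ‖χ (n : ZMod q)‖ * (n : ℝ) ^ a ≤ 1 * (n : ℝ) :=
              mul_le_mul h3 h4 (by positivity) zero_le_one
          _ = n := one_mul _
      rw [e1]
      have e3 : (n : ℝ) ^ (2 * w.re) = (n : ℝ) ^ (2 * w.re - 1) * n := by
        rw [← Real.rpow_add_one hn'.ne']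
        congr 1
        ring
      rw [e3]
      have hA : 0 < (Real.pi / q) ^ w.re := by positivity
      have hB : 0 < (n : ℝ) ^ (2 * w.re - 1) := by positivity
      rw [div_le_iff₀ (by positivity)]
      calc ‖χ (n : ZMod q) * (n : ℂ) ^ a‖ ≤ n := e2
        _ = 1 / (Real.pi / q) ^ w.re * (1 / (n : ℝ) ^ (2 * w.re - 1)) *
            ((Real.pi / q) ^ w.re * ((n : ℝ) ^ (2 * w.re - 1) * n)) := by
          field_simp

theorem mellin_eq [Fact q.Prime] {χ : DirichletCharacter ℂ q} (h1 : χ ≠ 1) {a : ℕ} (ha : a ≤ 1)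
    (hp : χ (-1) = (-1) ^ a) {w : ℂ} (hw : 0 < w.re) : mellin (Th χ a) w =
      Complex.Gamma w * (((q / Real.pi : ℝ)) : ℂ) ^ w * DirichletCharacter.LFunction χ (2 * w - a) := by
  have hq : 0 < q := Nat.Prime.pos Fact.out
  have hq' : (0 : ℝ) < q := by exact_mod_cast hq
  set U : Set ℂ := {w : ℂ | 0 < w.re} with hU
  have hUo : IsOpen U := isOpen_lt continuous_const Complex.continuous_re
  have hUc : IsPreconnected U := (convex_halfSpace_re_gt 0).isPreconnected
  have hf : AnalyticOnNhd ℂ (mellin (Th χ a)) U := by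
    apply DifferentiableOn.analyticOnNhd _ hUo
    intro w hw
    exact (mellin_diff h1 ha hp hw).differentiableWithinAt
  have hg : AnalyticOnNhd ℂ (fun w : ℂ => Complex.Gamma w * (((q / Real.pi : ℝ)) : ℂ) ^ w *
      DirichletCharacter.LFunction χ (2 * w - a)) U := by
    apply DifferentiableOn.analyticOnNhd _ hUo
    intro w hw
    have hw' : 0 < w.re := hw
    apply DifferentiableAt.differentiableWithinAt
    have d1 : DifferentiableAt ℂ Complex.Gamma w := by
      apply Complex.differentiableAt_Gamma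
      intro m h
      rw [h] at hw'
      simp at hw'
      have : (0 : ℝ) ≤ m := Nat.cast_nonneg m
      linarith
    have d2 : DifferentiableAt ℂ (fun w : ℂ => (((q / Real.pi : ℝ)) : ℂ) ^ w) w := by
      apply DifferentiableAt.const_cpow differentiableAt_id
      left
      have : 0 < q / Real.pi := by positivity
      exact_mod_cast this.ne'
    have d3 : DifferentiableAt ℂ (fun w : ℂ => DirichletCharacter.LFunction χ (2 * w - a)) w := by
      have := (DirichletCharacter.differentiable_LFunction h1).differentiableAt (x := 2 * w - a)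
      exact this.comp w (by fun_prop)
    exact (d1.mul d2).mul d3
  have h2 : (2 : ℂ) ∈ U := by simp [hU]
  refine hf.eqOn_of_preconnected_of_eventuallyEq hg hUc h2 ?_ hw
  have h3 : {w : ℂ | 1 < w.re} ∈ 𝓝 (2 : ℂ) := by
    apply (isOpen_lt continuous_const Complex.continuous_re).mem_nhds
    simp
  filter_upwards [h3] with w hw
  exact mellin_eq_right ha hw

/-- the central value as an integral -/
theorem int_ff [Fact q.Prime] {χ : DirichletCharacter ℂ q} (h1 : χ ≠ 1) {a : ℕ} (ha : a ≤ 1)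
    (hp : χ (-1) = (-1) ^ a) : ∫ x : ℝ, ff χ a x =
      ((Real.Gamma (kap a) * (q / Real.pi) ^ (kap a) : ℝ) : ℂ) *
        DirichletCharacter.LFunction χ (1 / 2) := by
  have hq : 0 < q := Nat.Prime.pos Fact.out
  have hq' : (0 : ℝ) < q := by exact_mod_cast hq
  have h := mellin_eq h1 ha hp (w := (kap a : ℂ)) (by simpa using kap_pos a)
  have e1 : (2 * (kap a : ℂ) - a) = 1 / 2 := by
    unfold kap
    push_cast
    ring
  rw [e1, Complex.Gamma_ofReal, ← Complex.ofReal_cpow (by positivity), ← Complex.ofReal_mul] at h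
  rw [← h, mellin_eq_fourier]
  simp only [Complex.ofReal_im, zero_div, Complex.ofReal_re]
  rw [Real.fourier_eq']
  simp only [inner_zero_right, mul_zero, Complex.ofReal_zero, zero_mul, Complex.exp_zero, one_smul]
  have e2 : ∫ x : ℝ, ff χ a x = ∫ x : ℝ, ff χ a (-x) := (integral_neg_eq_self (ff χ a) volume).symm
  rw [e2]
  congr 1
  ext x
  unfold ff
  simp only [neg_mul, Complex.real_smul, mul_neg]

end Pool.Agent.V8H32.NV
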