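import Pool.Agent.V8H32.NV.Rgh
import Pool.Agent.V8H32.Cos.Par1

/-! Mertens type bounds for the quadratic forms. -/

set_option autoImplicit false

namespace Pool.Agent.V8H32.NV
open Finset
open scoped ArithmeticFunction.Moebius ArithmeticFunction.zeta

/-- primes in `(W, y]` -/
def PR (W y : ℕ) : Finset ℕ := (Ioc W y).filter Nat.Prime

lemma mem_PR {W y p : ℕ} : p ∈ PR W y ↔ p.Prime ∧ W < p ∧ p ≤ y := by
  unfold PR
  rw [mem_filter, mem_Ioc]
  tauto

lemma sum_inv_sq_le (s : Finset ℕ) : ∑ p ∈ s, 1 / (p : ℝ) ^ 2 ≤ 2 := by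
  have hs : Summable (fun n : ℕ => 1 / (n : ℝ) ^ 2) := Real.summable_one_div_nat_pow.2 (by norm_num)
  have h1 : ∑ p ∈ s, 1 / (p : ℝ) ^ 2 ≤ ∑' n : ℕ, 1 / (n : ℝ) ^ 2 :=
    hs.sum_le_tsum s (fun n _ => by positivity)
  have h2 := hasSum_zeta_two.tsum_eq
  rw [h2] at h1
  have h3 := Real.pi_lt_d2
  have h4 := Real.pi_pos
  nlinarith

lemma x_facts {p : ℕ} (hp : 2 ≤ p) : 0 < 1 / (p : ℝ) ∧ 1 / (p : ℝ) ≤ 1 / 2 := by
  have h : (2 : ℝ) ≤ p := by exact_mod_cast hp
  exact ⟨by positivity, one_div_le_one_div_of_le (by norm_num) h⟩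

lemma inv_le_exp {x : ℝ} (h0 : 0 < x) (h1 : x ≤ 1 / 2) : (1 - x)⁻¹ ≤ Real.exp (x + 2 * x ^ 2) := by
  have h2 : 0 < 1 - x := by linarith
  rw [inv_le_iff_one_le_mul₀ h2]
  have h3 := Real.add_one_le_exp (x + 2 * x ^ 2)
  calc (1 : ℝ) ≤ (x + 2 * x ^ 2 + 1) * (1 - x) := by nlinarith [sq_nonneg x, mul_nonneg h0.le (sq_nonneg x)]
    _ ≤ _ := mul_le_mul_of_nonneg_right h3 h2.le

lemma cube_le {x : ℝ} (h0 : 0 < x) (h1 : x ≤ 1 / 2) : ((1 - x)⁻¹) ^ 3 * x ≤ x + 14 * x ^ 2 := by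
  have h2 : 0 < 1 - x := by linarith
  rw [inv_pow, inv_mul_le_iff₀ (by positivity)]
  have h3 : 0 ≤ 11 - 39 * x + 41 * x ^ 2 - 14 * x ^ 3 := by
    nlinarith [mul_nonneg h0.le (sq_nonneg x), sq_nonneg (x - 1/2), mul_nonneg h0.le (by linarith : (0:ℝ) ≤ 1/2 - x), mul_nonneg (sq_nonneg x) (by linarith : (0:ℝ) ≤ 1/2 - x)]
  have e : (1 - x) ^ 3 * (x + 14 * x ^ 2) - x = x ^ 2 * (11 - 39 * x + 41 * x ^ 2 - 14 * x ^ 3) := by ring
  nlinarith [mul_nonneg (sq_nonneg x) h3]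

lemma primorial_pf (W : ℕ) : (primorial W).primeFactors = (Icc 1 W).filter Nat.Prime := by
  unfold primorial
  rw [Nat.primeFactors_prod]
  · ext p
    simp only [mem_filter, mem_range, mem_Icc]
    constructor
    · rintro ⟨h1, h2⟩
      exact ⟨⟨h2.one_lt.le, by omega⟩, h2⟩
    · rintro ⟨h1, h2⟩
      exact ⟨by omega, h2⟩
  · intro p hp
    exact (mem_filter.1 hp).2

theorem PiQ_primorial : ∃ C : ℝ, 1 ≤ C ∧ ∀ W : ℕ, 3 ≤ W → PiQ (primorial W) ≤ C * Real.log W := by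
  obtain ⟨C, hC⟩ := Pool.Agent.Erdos456.Mert.mertens_inv
  have hC0 : 0 ≤ C := (abs_nonneg _).trans (hC 3 le_rfl)
  refine ⟨Real.exp (C + 4), Real.one_le_exp (by linarith), fun W hW => ?_⟩
  have h1 := abs_le.1 (hC W hW)
  have hl : 0 < Real.log W := Real.log_pos (by exact_mod_cast (by omega : 1 < W))
  unfold PiQ
  rw [primorial_pf]
  have h2 : ∏ p ∈ (Icc 1 W).filter Nat.Prime, (1 - (1 : ℝ) / p)⁻¹ ≤
      ∏ p ∈ (Icc 1 W).filter Nat.Prime, Real.exp (1 / (p : ℝ) + 2 * (1 / (p : ℝ)) ^ 2) := by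
    apply Finset.prod_le_prod
    · intro p hp
      have := x_facts (mem_filter.1 hp).2.two_le
      have h3 : 0 < 1 - 1 / (p : ℝ) := by linarith [this.2]
      positivity
    · intro p hp
      have := x_facts (mem_filter.1 hp).2.two_le
      exact inv_le_exp this.1 this.2
  refine h2.trans ?_
  rw [← Real.exp_sum, Finset.sum_add_distrib, ← Finset.mul_sum]
  have h3 : ∑ p ∈ (Icc 1 W).filter Nat.Prime, (1 / (p : ℝ)) ^ 2 ≤ 2 := by
    have := sum_inv_sq_le ((Icc 1 W).filter Nat.Prime)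
    simpa [one_div_pow] using this
  calc Real.exp (∑ p ∈ (Icc 1 W).filter Nat.Prime, 1 / (p : ℝ) +
        2 * ∑ p ∈ (Icc 1 W).filter Nat.Prime, (1 / (p : ℝ)) ^ 2) ≤
      Real.exp ((C + 4) + Real.log (Real.log W)) := by
        apply Real.exp_le_exp.2
        linarith [h1.2]
    _ = Real.exp (C + 4) * Real.log W := by rw [Real.exp_add, Real.exp_log hl]

/-- sums over rough squarefree numbers as products -/
lemma sum_RR_le (W y : ℕ) (g : ℕ → ℝ) (hg : ∀ p, 0 ≤ g p) :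
    ∑ f ∈ RR (primorial W) y, ∏ p ∈ f.primeFactors, g p ≤ ∏ p ∈ PR W y, (1 + g p) := by
  rw [Finset.prod_one_add]
  have hinj : Set.InjOn (fun f : ℕ => f.primeFactors) (RR (primorial W) y : Set ℕ) := by
    intro a ha b hb h
    have ha' := (mem_RR.1 ha).2.2.1
    have hb' := (mem_RR.1 hb).2.2.1
    rw [← Nat.prod_primeFactors_of_squarefree ha', ← Nat.prod_primeFactors_of_squarefree hb']
    simp only at h
    rw [h]
  rw [← Finset.sum_image (f := fun D : Finset ℕ => ∏ p ∈ D, g p) hinj]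
  apply Finset.sum_le_sum_of_subset_of_nonneg
  · intro D hD
    rw [mem_image] at hD
    obtain ⟨f, hf, rfl⟩ := hD
    obtain ⟨hf1, hfy, hfs, hfP⟩ := mem_RR.1 hf
    rw [mem_powerset]
    intro p hp
    have hpp := Nat.prime_of_mem_primeFactors hp
    have hpf := Nat.dvd_of_mem_primeFactors hp
    rw [mem_PR]
    refine ⟨hpp, ?_, (Nat.le_of_dvd hf1 hpf).trans hfy⟩
    by_contra h
    have h1 : p ∣ primorial W := by
      apply Nat.dvd_of_mem_primeFactors
      rw [primorial_pf, mem_filter, mem_Icc]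
      exact ⟨⟨hpp.one_lt.le, by omega⟩, hpp⟩
    have h2 := Nat.dvd_gcd hpf h1
    rw [hfP.gcd_eq_one] at h2
    exact hpp.one_lt.ne' (Nat.dvd_one.1 h2)
  · intro D _ _
    exact Finset.prod_nonneg (fun p _ => hg p)

theorem sum_PiQ : ∃ C : ℝ, 1 ≤ C ∧ ∀ W y : ℕ, 3 ≤ W → W ≤ y →
    ∑ f ∈ RR (primorial W) y, PiQ f ^ 3 / f ≤ C * (Real.log y / Real.log W) := by
  obtain ⟨C, hC0, hC⟩ := Pool.Agent.V8H32.Cos.mert
  refine ⟨Real.exp (C + 28), Real.one_le_exp (by linarith), fun W y hW hWy => ?_⟩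
  have hlW : 0 < Real.log W := Real.log_pos (by exact_mod_cast (by omega : 1 < W))
  have hly : 0 < Real.log y := Real.log_pos (by exact_mod_cast (by omega : 1 < y))
  have h1 : ∑ f ∈ RR (primorial W) y, PiQ f ^ 3 / f = ∑ f ∈ RR (primorial W) y,
      ∏ p ∈ f.primeFactors, ((1 - (1 : ℝ) / p)⁻¹ ^ 3 * (1 / (p : ℝ))) := by
    apply Finset.sum_congr rfl
    intro f hf
    have hfs := (mem_RR.1 hf).2.2.1
    rw [Finset.prod_mul_distrib, Finset.prod_pow]
    have h2 : ∏ p ∈ f.primeFactors, (1 / (p : ℝ)) = 1 / (f : ℝ) := by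
      rw [Finset.prod_div_distrib, Finset.prod_const_one]
      congr 1
      conv_rhs => rw [← Nat.prod_primeFactors_of_squarefree hfs]
      push_cast
      rfl
    rw [h2]
    unfold PiQ
    ring
  rw [h1]
  have hx : ∀ p : ℕ, 0 ≤ (1 - (1 : ℝ) / p)⁻¹ ^ 3 * (1 / (p : ℝ)) := by
    intro p
    rcases Nat.lt_or_ge p 2 with h | h
    · interval_cases p <;> simp
    · have := x_facts h
      have h3 : 0 < 1 - 1 / (p : ℝ) := by linarith [this.2]
      positivity
  refine (sum_RR_le W y _ hx).trans ?_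
  have h2 : ∏ p ∈ PR W y, (1 + (1 - (1 : ℝ) / p)⁻¹ ^ 3 * (1 / (p : ℝ))) ≤
      ∏ p ∈ PR W y, Real.exp (1 / (p : ℝ) + 14 * (1 / (p : ℝ)) ^ 2) := by
    apply Finset.prod_le_prod
    · intro p _
      have := hx p
      linarith
    · intro p hp
      have h3 := x_facts (mem_PR.1 hp).1.two_le
      have h4 := cube_le h3.1 h3.2
      have h5 := Real.add_one_le_exp (1 / (p : ℝ) + 14 * (1 / (p : ℝ)) ^ 2)
      linarith
  refine h2.trans ?_
  rw [← Real.exp_sum, Finset.sum_add_distrib, ← Finset.mul_sum]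
  have h3 : ∑ p ∈ PR W y, (1 / (p : ℝ)) ^ 2 ≤ 2 := by
    have := sum_inv_sq_le (PR W y)
    simpa [one_div_pow] using this
  have h4 := (hC W y hW hWy).2
  have h5 : ∑ p ∈ PR W y, 1 / (p : ℝ) ≤ Real.log (Real.log y / Real.log W) + C := h4
  calc Real.exp (∑ p ∈ PR W y, 1 / (p : ℝ) + 14 * ∑ p ∈ PR W y, (1 / (p : ℝ)) ^ 2) ≤
      Real.exp ((C + 28) + Real.log (Real.log y / Real.log W)) := by
        apply Real.exp_le_exp.2
        linarith
    _ = Real.exp (C + 28) * (Real.log y / Real.log W) := by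
        rw [Real.exp_add, Real.exp_log (by positivity)]

/-- the normalised forms are bounded -/
theorem forms_bound : ∃ C : ℝ, 1 ≤ C ∧ ∀ W y : ℕ, 3 ≤ W → W ≤ y →
    0 ≤ FA (primorial W) y ∧
    (PiQ (primorial W))⁻¹ * FA (primorial W) y ≤ C / Real.log y ∧
    (PiQ (primorial W))⁻¹ * |FB (primorial W) y| ≤ C := by
  obtain ⟨C1, hC1, h1⟩ := PiQ_primorial
  obtain ⟨C2, hC2, h2⟩ := sum_PiQ
  refine ⟨100 * (C1 * C2), by nlinarith, fun W y hW hWy => ?_⟩
  have hlW : 0 < Real.log W := Real.log_pos (by exact_mod_cast (by omega : 1 < W))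
  have hly : 0 < Real.log y := Real.log_pos (by exact_mod_cast (by omega : 1 < y))
  have hP : primorial W ≠ 0 := (primorial_pos W).ne'
  have h3 := h1 W hW
  have h4 := h2 W y hW hWy
  have h5 := FA_le (P := primorial W) (y := y) hP (by omega)
  have h6 := FB_le (P := primorial W) (y := y) hP (by omega)
  have h7 := PiQ_ge_one (primorial W)
  set V := PiQ (primorial W) with hV
  set S := ∑ f ∈ RR (primorial W) y, PiQ f ^ 3 / f with hS
  have hV0 : 0 < V := by linarith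
  have hS0 : 0 ≤ S := by
    rw [hS]
    apply Finset.sum_nonneg
    intro f _
    have := PiQ_ge_one f
    positivity
  have h8 : V * S ≤ C1 * C2 * Real.log y := by
    calc V * S ≤ (C1 * Real.log W) * (C2 * (Real.log y / Real.log W)) :=
          mul_le_mul h3 h4 hS0 (by positivity)
      _ = C1 * C2 * Real.log y := by field_simp
  refine ⟨h5.1, ?_, ?_⟩
  · calc V⁻¹ * FA (primorial W) y ≤ V⁻¹ * (25 * V ^ 2 / Real.log y ^ 2 * S) :=
          mul_le_mul_of_nonneg_left h5.2 (by positivity)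
      _ = 25 / Real.log y ^ 2 * (V * S) := by field_simp
      _ ≤ 25 / Real.log y ^ 2 * (C1 * C2 * Real.log y) := mul_le_mul_of_nonneg_left h8 (by positivity)
      _ = 25 * (C1 * C2) / Real.log y := by field_simp
      _ ≤ 100 * (C1 * C2) / Real.log y := by
          apply div_le_div_of_nonneg_right _ hly.le
          nlinarith
  · calc V⁻¹ * |FB (primorial W) y| ≤ V⁻¹ * (100 * V ^ 2 / Real.log y * S) :=
          mul_le_mul_of_nonneg_left h6 (by positivity)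
      _ = 100 / Real.log y * (V * S) := by field_simp
      _ ≤ 100 / Real.log y * (C1 * C2 * Real.log y) := mul_le_mul_of_nonneg_left h8 (by positivity)
      _ = 100 * (C1 * C2) := by field_simp

end Pool.Agent.V8H32.NV
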