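import Pool.Agent.V8H32.NV.Tre

/-! The main terms of the twisted second moment. -/

set_option autoImplicit false

namespace Pool.Agent.V8H32.NV
open Finset
open Pool.Agent.V8H32.Cos (pr)
open scoped Classical

/-- the bounds for the quadratic forms -/
structure Fm (W Hc : ℕ) (C : ℝ) : Prop where
  fa0 : 0 ≤ FA (primorial W) Hc
  fa : (PiQ (primorial W))⁻¹ * FA (primorial W) Hc ≤ C / Real.log Hc
  fb : (PiQ (primorial W))⁻¹ * |FB (primorial W) Hc| ≤ C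
  cr : ∀ U V : Finset ℕ, |Q0 U V W Hc| ≤ 4 ^ (PR W Hc ∩ (U ∪ V)).card * (C * Real.log Hc ^ 3) ∧
    |Q1 U V W Hc| ≤ 4 ^ (PR W Hc ∩ (U ∪ V)).card * (C * Real.log Hc ^ 4)

theorem exists_Fm : ∃ C : ℝ, 1 ≤ C ∧ ∀ W y : ℕ, 3 ≤ W → W ≤ y → Fm W y C := by
  obtain ⟨C1, hC1, h1⟩ := forms_bound
  obtain ⟨C2, hC2, h2⟩ := Q_crude
  refine ⟨max C1 C2, le_max_of_le_left hC1, fun W y hW hWy => ?_⟩
  obtain ⟨a1, a2, a3⟩ := h1 W y hW hWy
  have hly : 0 < Real.log y := Real.log_pos (by exact_mod_cast (by omega : 1 < y))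
  refine ⟨a1, a2.trans ?_, a3.trans (le_max_left _ _), fun U V => ?_⟩
  · exact div_le_div_of_nonneg_right (le_max_left _ _) hly.le
  · obtain ⟨b1, b2⟩ := h2 U V W y hW hWy
    constructor
    · refine b1.trans ?_
      apply mul_le_mul_of_nonneg_left _ (by positivity)
      exact mul_le_mul_of_nonneg_right (le_max_right _ _) (by positivity)
    · refine b2.trans ?_
      apply mul_le_mul_of_nonneg_left _ (by positivity)
      exact mul_le_mul_of_nonneg_right (le_max_right _ _) (by positivity)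

/-- the combination of the forms -/
noncomputable def TMf (W z R y : ℕ) (a₀ : ℝ) (w : ℕ × ℕ) : ℝ :=
  a₀ * (T0 w.1.primeFactors w.2.primeFactors ((Icc 1 W).filter Nat.Prime) z R *
          Q0 w.1.primeFactors w.2.primeFactors W y) +
      T1 w.1.primeFactors w.2.primeFactors ((Icc 1 W).filter Nat.Prime) z R *
          Q0 w.1.primeFactors w.2.primeFactors W y +
      T0 w.1.primeFactors w.2.primeFactors ((Icc 1 W).filter Nat.Prime) z R *
          Q1 w.1.primeFactors w.2.primeFactors W y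

section
variable {q z W R0 Hc : ℕ} {ϱ C : ℝ}

lemma comb_le {a₀ t0 t1 Q Q' A τ0 τ1 : ℝ} (ha : |a₀| ≤ A) (h0 : |t0| ≤ τ0) (h1 : |t1| ≤ τ1) :
    |a₀ * (t0 * Q) + t1 * Q + t0 * Q'| ≤ A * (τ0 * |Q|) + τ1 * |Q| + τ0 * |Q'| := by
  refine (abs_add_le _ _).trans (add_le_add ((abs_add_le _ _).trans (add_le_add ?_ ?_)) ?_)
  · rw [abs_mul, abs_mul]
    have hA : 0 ≤ A := (abs_nonneg _).trans ha
    apply mul_le_mul ha (mul_le_mul_of_nonneg_right h0 (abs_nonneg _)) (by positivity) hA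
  · rw [abs_mul]; exact mul_le_mul_of_nonneg_right h1 (abs_nonneg _)
  · rw [abs_mul]; exact mul_le_mul_of_nonneg_right h0 (abs_nonneg _)

lemma Sz2.small (h : Sz2 q z W R0 Hc ϱ C) : 1 ≤ (Hc : ℝ) ∧
    (2 * Real.log q * (1 / (Hc : ℝ) ^ 4) + 1 / (Hc : ℝ) ^ 3 + 1 / (Hc : ℝ) ^ 4) *
      (C * Real.log Hc ^ 4 * Real.sqrt Hc) ≤ 1 / (Hc : ℝ) ^ 2 := by
  obtain ⟨g1, _, _, g4, g5, _, _⟩ := h.HcR
  have hΛ1 := h.toSz.L1
  have hC := h.hC
  have hH1 : (1 : ℝ) ≤ Hc := by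
    have := Real.add_one_le_exp (Real.log Hc)
    rw [Real.exp_log g1] at this
    linarith
  refine ⟨hH1, ?_⟩
  have hs : Real.sqrt (Hc : ℝ) * Real.sqrt Hc = Hc := Real.mul_self_sqrt g1.le
  have h1 : 1 / (Hc : ℝ) ^ 4 ≤ 1 / (Hc : ℝ) ^ 3 :=
    one_div_le_one_div_of_le (by positivity) (pow_le_pow_right₀ hH1 (by norm_num))
  have h2 : 2 * Real.log q * (1 / (Hc : ℝ) ^ 4) + 1 / (Hc : ℝ) ^ 3 + 1 / (Hc : ℝ) ^ 4 ≤
      4 * Real.log q * (1 / (Hc : ℝ) ^ 3) := by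
    have h3 : (0 : ℝ) ≤ 1 / (Hc : ℝ) ^ 3 := by positivity
    nlinarith [mul_le_mul_of_nonneg_left h1 (by linarith : (0 : ℝ) ≤ 2 * Real.log q)]
  have h3 : C * Real.log Hc ^ 4 * Real.sqrt Hc ≤ C * Real.log q ^ 4 * Real.sqrt Hc := by
    apply mul_le_mul_of_nonneg_right _ (Real.sqrt_nonneg _)
    apply mul_le_mul_of_nonneg_left _ (by linarith)
    exact pow_le_pow_left₀ (by linarith) g5 4
  have h4 := h.hCH2
  calc _ ≤ 4 * Real.log q * (1 / (Hc : ℝ) ^ 3) * (C * Real.log q ^ 4 * Real.sqrt Hc) := by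
        apply mul_le_mul h2 h3 (by positivity) (by positivity)
    _ = (4 * C * Real.log q ^ 5) * Real.sqrt Hc * (1 / (Hc : ℝ) ^ 3) := by ring
    _ ≤ Real.sqrt Hc * Real.sqrt Hc * (1 / (Hc : ℝ) ^ 3) := by
        apply mul_le_mul_of_nonneg_right _ (by positivity)
        apply mul_le_mul_of_nonneg_right _ (Real.sqrt_nonneg _)
        have : 0 ≤ C * Real.log q ^ 5 := by positivity
        linarith
    _ = 1 / (Hc : ℝ) ^ 2 := by rw [hs]; field_simp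

lemma ro_four (h : Sz2 q z W R0 Hc ϱ C) {w : ℕ × ℕ} (h1 : 0 < w.1) (h2 : 0 < w.2)
    (h3 : w.1 * w.2 ≤ Hc) : (4 : ℝ) ^ ro W w ≤ Real.sqrt Hc := by
  apply Real.le_sqrt_of_sq_le
  have e1 := (ro_pow (W := W) h1 h2).trans h3
  have e2 : (16 : ℝ) ≤ W := by
    rw [h.W]; push_cast
    have := h.zR
    calc (16 : ℝ) ≤ z := by linarith
      _ ≤ (z : ℝ) ^ 600 := le_self_pow₀ (by linarith) (by norm_num)
  calc ((4 : ℝ) ^ ro W w) ^ 2 = (16 : ℝ) ^ ro W w := by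
        rw [← pow_mul, mul_comm, pow_mul]; norm_num
    _ ≤ (W : ℝ) ^ ro W w := pow_le_pow_left₀ (by norm_num) e2 _
    _ ≤ Hc := by exact_mod_cast e1

lemma A_facts (h : Sz2 q z W R0 Hc ϱ C) {w : ℕ × ℕ} (h4 : Nat.Coprime w.1 w.2) :
    (sm W w = 0 → A0 w.1.primeFactors w.2.primeFactors ((Icc 1 W).filter Nat.Prime) =
        (PiQ (primorial W))⁻¹ ∧
      |A1 w.1.primeFactors w.2.primeFactors ((Icc 1 W).filter Nat.Prime)| ≤
        (PiQ (primorial W))⁻¹ * Real.log q) ∧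
    (sm W w = 1 → A0 w.1.primeFactors w.2.primeFactors ((Icc 1 W).filter Nat.Prime) = 0 ∧
      ∃ p ∈ PF w, p ≤ W ∧ |A1 w.1.primeFactors w.2.primeFactors ((Icc 1 W).filter Nat.Prime)| ≤
        (PiQ (primorial W))⁻¹ * (Real.log p / 2)) ∧
    (2 ≤ sm W w → A0 w.1.primeFactors w.2.primeFactors ((Icc 1 W).filter Nat.Prime) = 0 ∧
      A1 w.1.primeFactors w.2.primeFactors ((Icc 1 W).filter Nat.Prime) = 0) := by
  obtain ⟨e1, e2, e3⟩ := A_eval w.1.primeFactors w.2.primeFactors h4.disjoint_primeFactors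
    ((Icc 1 W).filter Nat.Prime) (fun p hp => (mem_filter.1 hp).2)
  rw [sm_eq] at e1 e2 e3
  rw [PI0_eq] at e1 e2
  have hP1 := PiQ_ge_one (primorial W)
  have hP0 : 0 ≤ (PiQ (primorial W))⁻¹ := by positivity
  refine ⟨fun hs => ?_, fun hs => ?_, fun hs => ?_⟩
  · have h0 : (PF w).filter (fun p => p ≤ W) = ∅ := card_eq_zero.1 hs
    obtain ⟨a, b⟩ := e1 h0
    refine ⟨a, b.trans ?_⟩
    apply mul_le_mul_of_nonneg_left _ hP0
    obtain ⟨_, _, _, _, _, g6, _⟩ := h.HcR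
    have h5 := sum_logp W (by omega)
    have h6 := h.logWsmall
    have h7 : 0 ≤ Real.log W := Real.log_nonneg (by exact_mod_cast (by omega : 1 ≤ W))
    nlinarith
  · obtain ⟨p, hp⟩ := card_eq_one.1 hs
    obtain ⟨a, b⟩ := e2 p hp
    have hpm : p ∈ (PF w).filter (fun p => p ≤ W) := by rw [hp]; exact mem_singleton_self p
    rw [mem_filter] at hpm
    exact ⟨a, p, hpm.1, hpm.2, by rw [mul_comm]; exact b⟩
  · exact e3 hs

lemma abs_shift {a b e : ℝ} (h : |a - b| ≤ e) {B : ℝ} (hb : |b| ≤ B) : |a| ≤ B + e := by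
  calc |a| = |b + (a - b)| := by congr 1; ring
    _ ≤ |b| + |a - b| := abs_add_le _ _
    _ ≤ B + e := add_le_add hb h

theorem TMf_a (h : Sz2 q z W R0 Hc ϱ C) (hF : Fm W Hc C) {w : ℕ × ℕ} (h1 : 0 < w.1) (h2 : 0 < w.2)
    (h3 : w.1 * w.2 ≤ Hc) (h4 : Nat.Coprime w.1 w.2) {a₀ : ℝ} (ha : |a₀| ≤ 2 * Real.log q)
    (hr : ro W w = 0) (hs : sm W w = 0) :
    |TMf W z (10 * R0) Hc a₀ w| ≤ 3 * ϱ * C + C + 1 := by
  obtain ⟨g1, _, _, g4, g5, g6, g7⟩ := h.HcR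
  obtain ⟨s1, s2⟩ := h.small
  obtain ⟨t0, t1⟩ := h.trunc2 h1 h2 h3
  obtain ⟨A, A'⟩ := (A_facts h h4).1 hs
  have hPR := PR_card_le W Hc w
  rw [hr] at hPR
  have hPe : PR W Hc ∩ (w.1.primeFactors ∪ w.2.primeFactors) = ∅ := card_eq_zero.1 (Nat.le_zero.1 hPR)
  obtain ⟨q0, q1⟩ := Q_clean _ _ W Hc hPe
  obtain ⟨c0, c1⟩ := hF.cr w.1.primeFactors w.2.primeFactors
  rw [hPe, card_empty, pow_zero, one_mul] at c0 c1
  have hP1 := PiQ_ge_one (primorial W)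
  have hΛ1 := h.toSz.L1
  have hP0 : 0 ≤ (PiQ (primorial W))⁻¹ := by positivity
  set P := (PiQ (primorial W))⁻¹ with hP
  have b0 := abs_shift t0 (B := P) (by rw [A, abs_of_nonneg hP0])
  have b1 := abs_shift t1 A'
  unfold TMf
  refine (comb_le ha b0 b1).trans ?_
  rw [q0] at c0 ⊢
  rw [q1] at c1 ⊢
  have hfa := hF.fa
  have hfb := hF.fb
  have hfa0 := hF.fa0
  rw [abs_of_nonneg hfa0] at c0 ⊢
  rw [← hP] at hfa hfb
  set F := FA (primorial W) Hc with hFd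
  set G := |FB (primorial W) Hc| with hG
  have hG0 : 0 ≤ G := abs_nonneg _
  set ℓ := Real.log (Hc : ℝ) with hℓ
  set Λ := Real.log (q : ℝ) with hΛ
  have hC := h.hC
  have k1 : 3 * Λ * (P * F) ≤ 3 * ϱ * C := by
    have : Λ * (C / ℓ) ≤ ϱ * C := by
      rw [mul_div_assoc', div_le_iff₀ (by linarith)]
      have := mul_le_mul_of_nonneg_right h.hϱ (by linarith : (0 : ℝ) ≤ C)
      nlinarith
    calc 3 * Λ * (P * F) ≤ 3 * Λ * (C / ℓ) := mul_le_mul_of_nonneg_left hfa (by linarith)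
      _ = 3 * (Λ * (C / ℓ)) := by ring
      _ ≤ 3 * (ϱ * C) := by linarith
      _ = _ := by ring
  have hcc : C * ℓ ^ 3 ≤ C * ℓ ^ 4 * Real.sqrt Hc := by
    have e1 : (1 : ℝ) ≤ Real.sqrt Hc := by
      rw [show (1 : ℝ) = Real.sqrt 1 by simp]; exact Real.sqrt_le_sqrt s1
    calc C * ℓ ^ 3 ≤ C * ℓ ^ 4 := by
          apply mul_le_mul_of_nonneg_left _ (by linarith)
          exact pow_le_pow_right₀ g4 (by norm_num)
      _ ≤ _ := le_mul_of_one_le_right (by positivity) e1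
  have hcc' : C * ℓ ^ 4 ≤ C * ℓ ^ 4 * Real.sqrt Hc := by
    have e1 : (1 : ℝ) ≤ Real.sqrt Hc := by
      rw [show (1 : ℝ) = Real.sqrt 1 by simp]; exact Real.sqrt_le_sqrt s1
    exact le_mul_of_one_le_right (by positivity) e1
  set D := C * ℓ ^ 4 * Real.sqrt Hc with hD
  set e4 := 1 / (Hc : ℝ) ^ 4 with he4
  set e3 := 1 / (Hc : ℝ) ^ 3 with he3
  have p4 : 0 ≤ e4 := by rw [he4]; positivity
  have p3 : 0 ≤ e3 := by rw [he3]; positivity
  have k2 : 1 / (Hc : ℝ) ^ 2 ≤ 1 := by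
    rw [div_le_one (by positivity)]; exact one_le_pow₀ s1
  have m1 : 2 * Λ * e4 * F ≤ 2 * Λ * e4 * D :=
    mul_le_mul_of_nonneg_left (c0.trans hcc) (by positivity)
  have m2 : e3 * F ≤ e3 * D := mul_le_mul_of_nonneg_left (c0.trans hcc) p3
  have m3 : e4 * G ≤ e4 * D := mul_le_mul_of_nonneg_left (c1.trans hcc') p4
  nlinarith

theorem TMf_b (h : Sz2 q z W R0 Hc ϱ C) (hF : Fm W Hc C) {w : ℕ × ℕ} (h1 : 0 < w.1) (h2 : 0 < w.2)
    (h3 : w.1 * w.2 ≤ Hc) (h4 : Nat.Coprime w.1 w.2) {a₀ : ℝ} (ha : |a₀| ≤ 2 * Real.log q)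
    (hr : ro W w = 0) (hs : sm W w = 1) :
    |TMf W z (10 * R0) Hc a₀ w| ≤ C / Real.log Hc * Real.log (w.1 * w.2).minFac + 1 / (Hc : ℝ) ^ 2 := by
  obtain ⟨g1, _, _, g4, g5, g6, g7⟩ := h.HcR
  obtain ⟨s1, s2⟩ := h.small
  obtain ⟨t0, t1⟩ := h.trunc2 h1 h2 h3
  obtain ⟨A, p, hp, hpW, A'⟩ := (A_facts h h4).2.1 hs
  have hPR := PR_card_le W Hc w
  rw [hr] at hPR
  have hPe : PR W Hc ∩ (w.1.primeFactors ∪ w.2.primeFactors) = ∅ := card_eq_zero.1 (Nat.le_zero.1 hPR)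
  obtain ⟨q0, q1⟩ := Q_clean _ _ W Hc hPe
  obtain ⟨c0, c1⟩ := hF.cr w.1.primeFactors w.2.primeFactors
  rw [hPe, card_empty, pow_zero, one_mul] at c0 c1
  have hP1 := PiQ_ge_one (primorial W)
  have hΛ1 := h.toSz.L1
  have hP0 : 0 ≤ (PiQ (primorial W))⁻¹ := by positivity
  set P := (PiQ (primorial W))⁻¹ with hP
  have b0 := abs_shift t0 (B := 0) (by rw [A, abs_zero])
  have b1 := abs_shift t1 A'
  rw [zero_add] at b0
  -- the prime
  have hPF : PF w = (w.1 * w.2).primeFactors := by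
    unfold PF; rw [Nat.primeFactors_mul h1.ne' h2.ne']
  have hcard : (w.1 * w.2).primeFactors.card = 1 := by
    have := PF_card W h4
    rw [← hPF]
    unfold PF
    rw [card_union_of_disjoint h4.disjoint_primeFactors]
    omega
  obtain ⟨b1', _, _⟩ := pp_form hcard
  have hpe : p = (w.1 * w.2).minFac := by
    obtain ⟨r, hr'⟩ := card_eq_one.1 hcard
    rw [hPF, hr', mem_singleton] at hp
    have : (w.1 * w.2).minFac ∈ (w.1 * w.2).primeFactors :=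
      Nat.mem_primeFactors.2 ⟨b1', Nat.minFac_dvd _, (Nat.mul_pos h1 h2).ne'⟩
    rw [hr', mem_singleton] at this
    rw [hp, this]
  have hlp : 0 ≤ Real.log p := Real.log_nonneg (by
    rw [hpe]; exact_mod_cast b1'.one_lt.le)
  rw [← hpe]
  unfold TMf
  refine (comb_le ha b0 b1).trans ?_
  rw [q0] at c0 ⊢
  rw [q1] at c1 ⊢
  have hfa := hF.fa
  have hfa0 := hF.fa0
  rw [abs_of_nonneg hfa0] at c0 ⊢
  rw [← hP] at hfa
  set F := FA (primorial W) Hc with hFd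
  set G := |FB (primorial W) Hc| with hG
  have hG0 : 0 ≤ G := abs_nonneg _
  set ℓ := Real.log (Hc : ℝ) with hℓ
  set Λ := Real.log (q : ℝ) with hΛ
  have hC := h.hC
  have k1 : P * (Real.log p / 2) * F ≤ C / ℓ * Real.log p := by
    have h5 : P * F * Real.log p ≤ C / ℓ * Real.log p := mul_le_mul_of_nonneg_right hfa hlp
    have h6 : 0 ≤ P * F * Real.log p := by positivity
    nlinarith
  have e1 : (1 : ℝ) ≤ Real.sqrt Hc := by
    rw [show (1 : ℝ) = Real.sqrt 1 by simp]; exact Real.sqrt_le_sqrt s1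
  have hcc : C * ℓ ^ 3 ≤ C * ℓ ^ 4 * Real.sqrt Hc := by
    calc C * ℓ ^ 3 ≤ C * ℓ ^ 4 := by
          apply mul_le_mul_of_nonneg_left _ (by linarith)
          exact pow_le_pow_right₀ g4 (by norm_num)
      _ ≤ _ := le_mul_of_one_le_right (by positivity) e1
  have hcc' : C * ℓ ^ 4 ≤ C * ℓ ^ 4 * Real.sqrt Hc := le_mul_of_one_le_right (by positivity) e1
  set D := C * ℓ ^ 4 * Real.sqrt Hc with hD
  set e4 := 1 / (Hc : ℝ) ^ 4 with he4
  set e3 := 1 / (Hc : ℝ) ^ 3 with he3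
  have p4 : 0 ≤ e4 := by rw [he4]; positivity
  have p3 : 0 ≤ e3 := by rw [he3]; positivity
  have m1 : 2 * Λ * e4 * F ≤ 2 * Λ * e4 * D :=
    mul_le_mul_of_nonneg_left (c0.trans hcc) (by positivity)
  have m2 : e3 * F ≤ e3 * D := mul_le_mul_of_nonneg_left (c0.trans hcc) p3
  have m3 : e4 * G ≤ e4 * D := mul_le_mul_of_nonneg_left (c1.trans hcc') p4
  nlinarith

theorem TMf_c (h : Sz2 q z W R0 Hc ϱ C) (hF : Fm W Hc C) {w : ℕ × ℕ} (h1 : 0 < w.1) (h2 : 0 < w.2)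
    (h3 : w.1 * w.2 ≤ Hc) (h4 : Nat.Coprime w.1 w.2) {a₀ : ℝ} (ha : |a₀| ≤ 2 * Real.log q)
    (hs : 2 ≤ sm W w) :
    |TMf W z (10 * R0) Hc a₀ w| ≤ 1 / (Hc : ℝ) ^ 2 := by
  obtain ⟨g1, _, _, g4, g5, g6, g7⟩ := h.HcR
  obtain ⟨s1, s2⟩ := h.small
  obtain ⟨t0, t1⟩ := h.trunc2 h1 h2 h3
  obtain ⟨A, A'⟩ := (A_facts h h4).2.2 hs
  have hPR := PR_card_le W Hc w
  obtain ⟨c0, c1⟩ := hF.cr w.1.primeFactors w.2.primeFactors
  have hro := ro_four h h1 h2 h3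
  have hΛ1 := h.toSz.L1
  have hC := h.hC
  have b0 := abs_shift t0 (B := 0) (by rw [A, abs_zero])
  have b1 := abs_shift t1 (B := 0) (by rw [A', abs_zero])
  rw [zero_add] at b0 b1
  unfold TMf
  refine (comb_le ha b0 b1).trans ?_
  set ℓ := Real.log (Hc : ℝ) with hℓ
  set Λ := Real.log (q : ℝ) with hΛ
  have h4c : (4 : ℝ) ^ (PR W Hc ∩ (w.1.primeFactors ∪ w.2.primeFactors)).card ≤ Real.sqrt Hc :=
    (pow_le_pow_right₀ (by norm_num) hPR).trans hro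
  have hq0 : |Q0 w.1.primeFactors w.2.primeFactors W Hc| ≤ C * ℓ ^ 4 * Real.sqrt Hc := by
    refine c0.trans ?_
    rw [mul_comm]
    apply mul_le_mul _ h4c (by positivity) (by positivity)
    apply mul_le_mul_of_nonneg_left _ (by linarith)
    exact pow_le_pow_right₀ g4 (by norm_num)
  have hq1 : |Q1 w.1.primeFactors w.2.primeFactors W Hc| ≤ C * ℓ ^ 4 * Real.sqrt Hc := by
    refine c1.trans ?_
    rw [mul_comm]
    exact mul_le_mul_of_nonneg_left h4c (by positivity)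
  refine le_trans ?_ s2
  set D := C * ℓ ^ 4 * Real.sqrt Hc with hD
  set e4 := 1 / (Hc : ℝ) ^ 4 with he4
  set e3 := 1 / (Hc : ℝ) ^ 3 with he3
  have p4 : 0 ≤ e4 := by rw [he4]; positivity
  have p3 : 0 ≤ e3 := by rw [he3]; positivity
  have m1 := mul_le_mul_of_nonneg_left hq0 (show 0 ≤ 2 * Λ * e4 by positivity)
  have m2 := mul_le_mul_of_nonneg_left hq0 p3
  have m3 := mul_le_mul_of_nonneg_left hq1 p4
  nlinarith

theorem TMf_d (h : Sz2 q z W R0 Hc ϱ C) (hF : Fm W Hc C) {w : ℕ × ℕ} (h1 : 0 < w.1) (h2 : 0 < w.2)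
    (h3 : w.1 * w.2 ≤ Hc) (h4 : Nat.Coprime w.1 w.2) {a₀ : ℝ} (ha : |a₀| ≤ 2 * Real.log q)
    (hs : sm W w ≤ 1) :
    |TMf W z (10 * R0) Hc a₀ w| ≤ 8 * C * Real.log q ^ 4 * 4 ^ ro W w := by
  obtain ⟨g1, _, _, g4, g5, g6, g7⟩ := h.HcR
  obtain ⟨s1, s2⟩ := h.small
  obtain ⟨t0, t1⟩ := h.trunc2 h1 h2 h3
  have hPR := PR_card_le W Hc w
  obtain ⟨c0, c1⟩ := hF.cr w.1.primeFactors w.2.primeFactors
  have hΛ1 := h.toSz.L1
  have hC := h.hC
  have hP1 := PiQ_ge_one (primorial W)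
  have hP0 : 0 ≤ (PiQ (primorial W))⁻¹ := by positivity
  have hPi : (PiQ (primorial W))⁻¹ ≤ 1 := inv_le_one_of_one_le₀ hP1
  have hA : |A0 w.1.primeFactors w.2.primeFactors ((Icc 1 W).filter Nat.Prime)| ≤ 1 ∧
      |A1 w.1.primeFactors w.2.primeFactors ((Icc 1 W).filter Nat.Prime)| ≤ Real.log q := by
    rcases Nat.lt_or_ge (sm W w) 1 with h0 | h0
    · obtain ⟨A, A'⟩ := (A_facts h h4).1 (by omega)
      refine ⟨by rw [A, abs_of_nonneg hP0]; exact hPi, A'.trans ?_⟩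
      exact mul_le_of_le_one_left (by linarith) hPi
    · obtain ⟨A, p, hp, hpW, A'⟩ := (A_facts h h4).2.1 (by omega)
      refine ⟨by rw [A, abs_zero]; norm_num, A'.trans ?_⟩
      have hp1 : 1 ≤ p := by
        have : p.Prime := by
          rcases mem_union.1 hp with h | h
          · exact Nat.prime_of_mem_primeFactors h
          · exact Nat.prime_of_mem_primeFactors h
        exact this.one_lt.le
      have hp0 : (0 : ℝ) < p := by exact_mod_cast hp1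
      have hl0 : 0 ≤ Real.log p := Real.log_nonneg (by exact_mod_cast hp1)
      have hlW : Real.log p ≤ Real.log Hc := by
        apply Real.log_le_log hp0
        exact_mod_cast hpW.trans g7
      have : (PiQ (primorial W))⁻¹ * (Real.log p / 2) ≤ 1 * (Real.log p / 2) :=
        mul_le_mul_of_nonneg_right hPi (by linarith)
      linarith
  have hk4 : 1 / (Hc : ℝ) ^ 4 ≤ 1 := by
    rw [div_le_one (by positivity)]; exact one_le_pow₀ s1
  have hk3 : 1 / (Hc : ℝ) ^ 3 ≤ 1 := by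
    rw [div_le_one (by positivity)]; exact one_le_pow₀ s1
  have b0 := abs_shift t0 hA.1
  have b1 := abs_shift t1 hA.2
  unfold TMf
  refine (comb_le ha b0 b1).trans ?_
  set ℓ := Real.log (Hc : ℝ) with hℓ
  set Λ := Real.log (q : ℝ) with hΛ
  have h4c : (4 : ℝ) ^ (PR W Hc ∩ (w.1.primeFactors ∪ w.2.primeFactors)).card ≤ 4 ^ ro W w :=
    pow_le_pow_right₀ (by norm_num) hPR
  have hq0 : |Q0 w.1.primeFactors w.2.primeFactors W Hc| ≤ 4 ^ ro W w * (C * Λ ^ 3) := by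
    refine c0.trans ?_
    apply mul_le_mul h4c _ (by positivity) (by positivity)
    apply mul_le_mul_of_nonneg_left _ (by linarith)
    exact pow_le_pow_left₀ (by linarith) g5 3
  have hq1 : |Q1 w.1.primeFactors w.2.primeFactors W Hc| ≤ 4 ^ ro W w * (C * Λ ^ 4) := by
    refine c1.trans ?_
    apply mul_le_mul h4c _ (by positivity) (by positivity)
    apply mul_le_mul_of_nonneg_left _ (by linarith)
    exact pow_le_pow_left₀ (by linarith) g5 4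
  have f0 : 1 + 1 / (Hc : ℝ) ^ 4 ≤ 2 := by linarith
  have f1 : Λ + 1 / (Hc : ℝ) ^ 3 ≤ 2 * Λ := by linarith
  have n0 := abs_nonneg (Q0 w.1.primeFactors w.2.primeFactors W Hc)
  have n1 := abs_nonneg (Q1 w.1.primeFactors w.2.primeFactors W Hc)
  have m1 : 2 * Λ * ((1 + 1 / (Hc : ℝ) ^ 4) * |Q0 w.1.primeFactors w.2.primeFactors W Hc|) ≤
      2 * Λ * (2 * (4 ^ ro W w * (C * Λ ^ 3))) := by
    apply mul_le_mul_of_nonneg_left _ (by linarith)
    exact mul_le_mul f0 hq0 n0 (by norm_num)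
  have m2 : (Λ + 1 / (Hc : ℝ) ^ 3) * |Q0 w.1.primeFactors w.2.primeFactors W Hc| ≤
      2 * Λ * (4 ^ ro W w * (C * Λ ^ 3)) := mul_le_mul f1 hq0 n0 (by linarith)
  have m3 : (1 + 1 / (Hc : ℝ) ^ 4) * |Q1 w.1.primeFactors w.2.primeFactors W Hc| ≤
      2 * (4 ^ ro W w * (C * Λ ^ 4)) := mul_le_mul f0 hq1 n1 (by norm_num)
  calc _ ≤ 2 * Λ * (2 * (4 ^ ro W w * (C * Λ ^ 3))) + 2 * Λ * (4 ^ ro W w * (C * Λ ^ 3)) +
        2 * (4 ^ ro W w * (C * Λ ^ 4)) := add_le_add (add_le_add m1 m2) m3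
    _ = _ := by ring

end

end Pool.Agent.V8H32.NV
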