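import Pool.Agent.V8H32.NV.Low

/-! Prime powers in a subgroup. -/

set_option autoImplicit false

namespace Pool.Agent.V8H32.NV
open Finset Pool.Agent.R311.RES
open Pool.Agent.V8H32.Cos (cls un_mul' un_one')
open scoped Classical

variable {q : ℕ} [Fact q.Prime]

lemma cls_one_right (a : ℕ) : cls q a 1 = un q a := by
  unfold cls
  rw [un_one', inv_one, mul_one]

lemma cls_one_left (a : ℕ) : cls q 1 a = (un q a)⁻¹ := by
  unfold cls
  rw [un_one', one_mul]

lemma prime_box (K : Subgroup (ZMod q)ˣ) (P : Finset ℕ) (i : ℕ) (hi : 1 ≤ i)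
    (hK : (Fintype.card K : ℝ) ≤ (q : ℝ) ^ (1 / 3 : ℝ))
    (hP : ∀ p ∈ P, p.Prime ∧ 2 ^ i ≤ p ∧ p < 2 ^ (i + 1) ∧ p.Coprime q ∧ un q p ∈ K)
    (hX : 6 * ((i + 1 : ℕ) * Real.log 2) ≤ Real.log q) :
    ∑ p ∈ P, Real.log p / Real.sqrt p ≤
      8 * Real.log q * Real.exp (-(Real.log 2 / 10)) ^ (i + 1) := by
  have hq0 : (0 : ℝ) < q := by exact_mod_cast (Nat.Prime.pos (Fact.out : q.Prime))
  have hq1 : (1 : ℝ) ≤ q := by exact_mod_cast (Nat.Prime.one_lt (Fact.out : q.Prime)).le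
  set x : ℝ := (i + 1 : ℕ) * Real.log 2 with hx
  set Λ := Real.log q with hΛ
  have hl2 := Real.log_two_gt_d9
  have hl2' := Real.log_two_lt_d9
  have hx1 : 1 ≤ x := by
    rw [hx]
    have : (2 : ℝ) ≤ ((i + 1 : ℕ) : ℝ) := by exact_mod_cast (by omega : 2 ≤ i + 1)
    nlinarith
  obtain ⟨j, j1, j2, j3, j4⟩ := pick_low hx1 hX
  have hj0 : (0 : ℝ) < j := by exact_mod_cast j1
  have hqe : (q : ℝ) = Real.exp Λ := (Real.exp_log hq0).symm
  have hXe : ((2 : ℝ) ^ (i + 1)) = Real.exp x := by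
    rw [hx, Real.exp_nat_mul, Real.exp_log (by norm_num)]
  have hXj : ((2 : ℝ) ^ (i + 1)) ^ j ≤ q := by
    rw [hXe, hqe, ← Real.exp_nat_mul]
    exact Real.exp_le_exp.2 j3
  set Ψ : Finset (ℕ × ℕ) := P.image (fun p => (p, 1)) with hΨ
  have hΨc : Ψ.card = P.card := card_image_of_injective _ (fun a b h => (Prod.mk.inj h).1)
  have hΨm : ∀ z ∈ Ψ, z.1 ∈ P ∧ z.2 = 1 := by
    intro z hz
    rw [hΨ, mem_image] at hz
    obtain ⟨p, hp, rfl⟩ := hz
    exact ⟨hp, rfl⟩
  have hcnt := cnt_prod K Ψ (2 ^ (i + 1)) 1 j (j ^ j) P (by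
    intro z hz
    obtain ⟨a1, a2⟩ := hΨm z hz
    obtain ⟨b1, b2, b3, b4, b5⟩ := hP _ a1
    rw [a2]
    refine ⟨⟨b1.pos, b3.le⟩, ⟨one_pos, le_rfl⟩, b4, Nat.coprime_one_left q, ?_, ?_, ?_⟩
    · rw [cls_one_right]; exact b5
    · rw [Nat.Prime.primeFactors b1, singleton_subset_iff]; exact a1
    · simp) (by
    intro U V _ _ _ _
    exact mult_prime Ψ j U V (fun z hz => ⟨(hP _ (hΨm z hz).1).1, (hΨm z hz).2⟩))
  rw [hΨc] at hcnt
  have h1 : (P.card : ℝ) ^ j * q ≤ (j : ℝ) ^ j * ((Fintype.card K : ℝ) * (q + 4 * ((2 : ℝ) ^ (i + 1)) ^ j)) := by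
    have : ((P.card ^ j * q : ℕ) : ℝ) ≤ ((j ^ j * (Fintype.card K * (q + 4 * (2 ^ (i + 1) * 1) ^ j)) : ℕ) : ℝ) :=
      Nat.cast_le.2 hcnt
    push_cast at this
    rw [mul_one] at this
    exact this
  have h2 : (P.card : ℝ) ^ j ≤ (j : ℝ) ^ j * (5 * (q : ℝ) ^ (1 / 3 : ℝ)) := by
    have h3 : (P.card : ℝ) ^ j * q ≤ ((j : ℝ) ^ j * (5 * (q : ℝ) ^ (1 / 3 : ℝ))) * q := by
      refine h1.trans ?_
      rw [mul_assoc]
      apply mul_le_mul_of_nonneg_left _ (by positivity)
      calc (Fintype.card K : ℝ) * (q + 4 * ((2 : ℝ) ^ (i + 1)) ^ j) ≤ (q : ℝ) ^ (1 / 3 : ℝ) * (q + 4 * q) := by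
            apply mul_le_mul hK _ (by positivity) (by positivity)
            linarith
        _ = _ := by ring
    exact le_of_mul_le_mul_right h3 hq0
  have h3 : (P.card : ℝ) ≤ 5 * j * Real.exp (2 / 5 * x) := by
    have h4 : (P.card : ℝ) ^ j ≤ (5 * j * Real.exp (2 / 5 * x)) ^ j := by
      refine h2.trans ?_
      rw [mul_pow, mul_pow]
      have e1 : (q : ℝ) ^ (1 / 3 : ℝ) ≤ Real.exp (2 / 5 * x) ^ j := by
        rw [Real.rpow_def_of_pos hq0, ← Real.exp_nat_mul]
        apply Real.exp_le_exp.2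
        rw [← hΛ]
        linarith
      have e2 : (5 : ℝ) ≤ 5 ^ j := le_self_pow₀ (by norm_num) (by omega)
      calc (j : ℝ) ^ j * (5 * (q : ℝ) ^ (1 / 3 : ℝ)) ≤ (j : ℝ) ^ j * (5 ^ j * Real.exp (2 / 5 * x) ^ j) := by
            apply mul_le_mul_of_nonneg_left _ (by positivity)
            exact mul_le_mul e2 e1 (by positivity) (by positivity)
        _ = _ := by ring
    exact le_of_pow_le_pow_left₀ (by omega) (by positivity) h4
  have hs2 : Real.sqrt ((2 : ℝ) ^ i) = Real.exp ((x - Real.log 2) / 2) := by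
    have e : ((2 : ℝ) ^ i) = Real.exp (x - Real.log 2) := by
      rw [hx, Real.exp_sub, Real.exp_log (by norm_num), Real.exp_nat_mul, Real.exp_log (by norm_num),
        pow_succ]
      field_simp
    rw [e, Real.sqrt_eq_iff_mul_self_eq (Real.exp_pos _).le (Real.exp_pos _).le, ← Real.exp_add]
    congr 1; ring
  have hterm : ∀ p ∈ P, Real.log p / Real.sqrt p ≤ x / Real.sqrt ((2 : ℝ) ^ i) := by
    intro p hp
    obtain ⟨b1, b2, b3, _, _⟩ := hP p hp
    have g1 : (2 : ℝ) ^ i ≤ p := by exact_mod_cast b2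
    have g2 : (p : ℝ) ≤ 2 ^ (i + 1) := by exact_mod_cast b3.le
    have hp0 : (0 : ℝ) < p := by exact_mod_cast b1.pos
    apply div_le_div₀ (by linarith) _ (Real.sqrt_pos.2 (by positivity)) (Real.sqrt_le_sqrt g1)
    rw [hx, ← Real.log_pow]
    exact Real.log_le_log hp0 g2
  have hfac : Real.exp (Real.log 2 / 2) ≤ 8 / 5 := by
    have h5 : Real.exp (Real.log 2 / 2) ^ 2 = 2 := by
      rw [← Real.exp_nat_mul]; push_cast
      rw [mul_div_cancel₀ _ (by norm_num : (2 : ℝ) ≠ 0), Real.exp_log (by norm_num)]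
    nlinarith [Real.exp_pos (Real.log 2 / 2)]
  calc ∑ p ∈ P, Real.log p / Real.sqrt p ≤ ∑ _p ∈ P, x / Real.sqrt ((2 : ℝ) ^ i) :=
        Finset.sum_le_sum hterm
    _ = (P.card : ℝ) * (x / Real.sqrt ((2 : ℝ) ^ i)) := by rw [Finset.sum_const, nsmul_eq_mul]
    _ ≤ (5 * j * Real.exp (2 / 5 * x)) * (x / Real.sqrt ((2 : ℝ) ^ i)) := by
        apply mul_le_mul_of_nonneg_right h3
        apply div_nonneg (by linarith) (Real.sqrt_nonneg _)
    _ = 5 * ((j * x) * (Real.exp (2 / 5 * x) / Real.exp ((x - Real.log 2) / 2))) := by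
        rw [hs2]; ring
    _ = 5 * ((j * x) * (Real.exp (Real.log 2 / 2) * Real.exp (-(x / 10)))) := by
        rw [← Real.exp_sub, ← Real.exp_add]
        congr 3; ring
    _ ≤ 5 * (Λ * (8 / 5 * Real.exp (-(x / 10)))) := by
        apply mul_le_mul_of_nonneg_left _ (by norm_num)
        apply mul_le_mul j3 _ (by positivity) (by linarith)
        exact mul_le_mul_of_nonneg_right hfac (Real.exp_pos _).le
    _ = 8 * Λ * Real.exp (-(Real.log 2 / 10)) ^ (i + 1) := by
        rw [← Real.exp_nat_mul, hx]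
        have : -(((i + 1 : ℕ) : ℝ) * Real.log 2 / 10) = ((i + 1 : ℕ) : ℝ) * -(Real.log 2 / 10) := by ring
        rw [this]; ring

/-- primes in the subgroup -/
noncomputable def PK (K : Subgroup (ZMod q)ˣ) (W : ℕ) : Finset ℕ :=
  (Icc 1 W).filter (fun p => p.Prime ∧ p.Coprime q ∧ un q p ∈ K)

theorem prime_sum (K : Subgroup (ZMod q)ˣ) (W : ℕ) (hW1 : 1 ≤ W)
    (hK : (Fintype.card K : ℝ) ≤ (q : ℝ) ^ (1 / 3 : ℝ))
    (hW : 6 * (Real.log W + Real.log 2) ≤ Real.log q) (hΛ0 : 0 ≤ Real.log q) :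
    ∑ p ∈ PK K W, Real.log p / Real.sqrt p ≤ 150 * Real.log q := by
  set Λ := Real.log q with hΛ
  have hmap : ∀ p ∈ PK K W, Nat.log 2 p ∈ range (Nat.log 2 W + 1) := by
    intro p hp
    unfold PK at hp
    rw [mem_filter, mem_Icc] at hp
    rw [mem_range]
    exact Nat.lt_succ_of_le (Nat.log_mono_right hp.1.2)
  rw [← Finset.sum_fiberwise_of_maps_to hmap]
  set r := Real.exp (-(Real.log 2 / 10)) with hr
  have hr0 : 0 < r := Real.exp_pos _
  have hl2 := Real.log_two_gt_d9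
  have hbox : ∀ i ∈ range (Nat.log 2 W + 1), ∑ p ∈ (PK K W).filter (fun p => Nat.log 2 p = i),
      Real.log p / Real.sqrt p ≤ 8 * Λ * r ^ i := by
    intro i hi
    rw [mem_range] at hi
    have hPm : ∀ p ∈ (PK K W).filter (fun p => Nat.log 2 p = i), p.Prime ∧ 2 ^ i ≤ p ∧ p < 2 ^ (i + 1) ∧
        p.Coprime q ∧ un q p ∈ K := by
      intro p hp
      unfold PK at hp
      rw [mem_filter, mem_filter, mem_Icc] at hp
      obtain ⟨⟨⟨a1, a2⟩, a3, a4, a5⟩, a6⟩ := hp
      refine ⟨a3, ?_, ?_, a4, a5⟩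
      · rw [← a6]; exact Nat.pow_log_le_self 2 a3.ne_zero
      · rw [← a6]; exact Nat.lt_pow_succ_log_self (by norm_num) _
    rcases Nat.eq_zero_or_pos i with h0 | h0
    · have he : (PK K W).filter (fun p => Nat.log 2 p = i) = ∅ := by
        rw [Finset.eq_empty_iff_forall_notMem]
        intro p hp
        have h1 := hPm p hp
        rw [h0] at h1
        have := h1.1.two_le
        have := h1.2.2.1
        omega
      rw [he, Finset.sum_empty]
      positivity
    · have h1 := prime_box K _ i h0 hK hPm (by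
        refine le_trans ?_ hW
        apply mul_le_mul_of_nonneg_left _ (by norm_num)
        push_cast
        rw [add_mul, one_mul]
        apply add_le_add_left
        have h2 := log2_le (n := W) (by omega)
        have h3 : (i : ℝ) ≤ (Nat.log 2 W : ℝ) := by exact_mod_cast (by omega : i ≤ Nat.log 2 W)
        nlinarith)
      refine h1.trans ?_
      apply mul_le_mul_of_nonneg_left _ (by positivity)
      rw [pow_succ]
      apply mul_le_of_le_one_right (by positivity)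
      apply Real.exp_le_one_iff.2
      linarith
  refine (Finset.sum_le_sum hbox).trans ?_
  rw [← Finset.mul_sum]
  have hgeo := mul_neg_geom_sum r (Nat.log 2 W + 1)
  have hr1 : r ≤ 15 / 16 := by
    have h1 := Real.add_one_le_exp (Real.log 2 / 10)
    have h2 : r * Real.exp (Real.log 2 / 10) = 1 := by rw [hr, ← Real.exp_add]; simp
    have h3 : 16 / 15 ≤ Real.exp (Real.log 2 / 10) := by linarith
    nlinarith
  have hS0 : 0 ≤ ∑ i ∈ range (Nat.log 2 W + 1), r ^ i := Finset.sum_nonneg (fun i _ => by positivity)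
  have hS : ∑ i ∈ range (Nat.log 2 W + 1), r ^ i ≤ 16 := by
    have h1 : 0 ≤ r ^ (Nat.log 2 W + 1) := by positivity
    nlinarith
  calc 8 * Λ * ∑ i ∈ range (Nat.log 2 W + 1), r ^ i ≤ 8 * Λ * 16 :=
        mul_le_mul_of_nonneg_left hS (by positivity)
    _ ≤ _ := by linarith

/-- prime powers in the subgroup -/
noncomputable def PW (K : Subgroup (ZMod q)ˣ) (W Hc : ℕ) : Finset ℕ :=
  (Icc 1 Hc).filter (fun n => n.primeFactors.card = 1 ∧ n.minFac ≤ W ∧ n.Coprime q ∧ un q n ∈ K)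

omit [Fact q.Prime] in
lemma pp_form {n : ℕ} (h : n.primeFactors.card = 1) : n.minFac.Prime ∧ 1 ≤ n.factorization n.minFac ∧
    n.minFac ^ n.factorization n.minFac = n := by
  obtain ⟨p, hp⟩ := card_eq_one.1 h
  have hpm : p ∈ n.primeFactors := by rw [hp]; exact mem_singleton_self p
  have hn0 : n ≠ 0 := (Nat.mem_primeFactors.1 hpm).2.2
  have hn1 : n ≠ 1 := by
    rintro rfl
    simp at hpm
  have hmf : n.minFac ∈ n.primeFactors :=
    Nat.mem_primeFactors.2 ⟨Nat.minFac_prime hn1, Nat.minFac_dvd n, hn0⟩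
  have hmp : n.minFac = p := by
    rw [hp] at hmf
    exact mem_singleton.1 hmf
  refine ⟨Nat.minFac_prime hn1, ?_, ?_⟩
  · have : n.factorization n.minFac ≠ 0 := Finsupp.mem_support_iff.1 hmf
    omega
  · have h3 := Nat.prod_factorization_pow_eq_self hn0
    rw [Finsupp.prod, Nat.support_factorization, hp, Finset.prod_singleton] at h3
    rw [hmp]
    exact h3

omit [Fact q.Prime] in
lemma pow_sum_le {p : ℕ} (hp : 2 ≤ p) (n : ℕ) :
    ∑ k ∈ Icc 2 n, 1 / Real.sqrt ((p : ℝ) ^ k) ≤ 4 / p := by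
  have hpR : (2 : ℝ) ≤ p := by exact_mod_cast hp
  have hp0 : (0 : ℝ) < p := by linarith
  set s := 1 / Real.sqrt p with hs
  have hsq : 0 < Real.sqrt (p : ℝ) := Real.sqrt_pos.2 hp0
  have hs0 : 0 < s := by rw [hs]; positivity
  have hs2 : s ^ 2 = 1 / p := by
    rw [hs, div_pow, Real.sq_sqrt hp0.le, one_pow]
  have hs1 : s ≤ 3 / 4 := by
    have : s ^ 2 ≤ 1 / 2 := by rw [hs2]; exact one_div_le_one_div_of_le (by norm_num) hpR
    nlinarith
  have h1 : ∀ k ∈ Icc 2 n, 1 / Real.sqrt ((p : ℝ) ^ k) = s ^ 2 * s ^ (k - 2) := by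
    intro k hk
    rw [mem_Icc] at hk
    rw [← pow_add, show 2 + (k - 2) = k by omega, hs, div_pow, one_pow]
    congr 1
    rw [Real.sqrt_eq_rpow, Real.sqrt_eq_rpow, ← Real.rpow_natCast, ← Real.rpow_natCast,
      ← Real.rpow_mul hp0.le, ← Real.rpow_mul hp0.le, mul_comm]
  rw [Finset.sum_congr rfl h1, ← Finset.mul_sum]
  have h2 : ∑ k ∈ Icc 2 n, s ^ (k - 2) ≤ ∑ k ∈ range (n + 1), s ^ k := by
    have e : ∑ k ∈ Icc 2 n, s ^ (k - 2) = ∑ k ∈ (Icc 2 n).image (fun k => k - 2), s ^ k := by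
      rw [Finset.sum_image]
      intro a ha b hb h
      rw [mem_coe, mem_Icc] at ha hb
      simp only at h
      omega
    rw [e]
    apply Finset.sum_le_sum_of_subset_of_nonneg
    · intro k hk
      rw [mem_image] at hk
      obtain ⟨a, ha, rfl⟩ := hk
      rw [mem_Icc] at ha
      rw [mem_range]
      omega
    · intro k _ _
      positivity
  have hgeo := mul_neg_geom_sum s (n + 1)
  have hS : ∑ i ∈ range (n + 1), s ^ i ≤ 4 := by
    have h1 : 0 ≤ s ^ (n + 1) := by positivity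
    have h3 : 0 ≤ ∑ i ∈ range (n + 1), s ^ i := Finset.sum_nonneg (fun i _ => by positivity)
    nlinarith
  calc s ^ 2 * ∑ k ∈ Icc 2 n, s ^ (k - 2) ≤ s ^ 2 * 4 :=
        mul_le_mul_of_nonneg_left (h2.trans hS) (by positivity)
    _ = _ := by rw [hs2]; ring

theorem pw_sum (K : Subgroup (ZMod q)ˣ) (W Hc : ℕ) (hW1 : 1 ≤ W)
    (hK : (Fintype.card K : ℝ) ≤ (q : ℝ) ^ (1 / 3 : ℝ))
    (hW : 6 * (Real.log W + Real.log 2) ≤ Real.log q) (hΛ0 : 0 ≤ Real.log q) :
    ∑ n ∈ PW K W Hc, Real.log n.minFac / Real.sqrt n ≤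
      150 * Real.log q + 4 * (Real.log W * (1 + Real.log W)) := by
  have hlW : 0 ≤ Real.log W := Real.log_nonneg (by exact_mod_cast hW1)
  rw [← Finset.sum_filter_add_sum_filter_not (PW K W Hc) (fun n => n.Prime)]
  apply add_le_add
  · refine le_trans ?_ (prime_sum K W hW1 hK hW hΛ0)
    have h1 : ∀ n ∈ (PW K W Hc).filter (fun n => n.Prime), Real.log n.minFac / Real.sqrt n =
        Real.log n / Real.sqrt n := by
      intro n hn
      rw [(mem_filter.1 hn).2.minFac_eq]
    rw [Finset.sum_congr rfl h1]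
    apply Finset.sum_le_sum_of_subset_of_nonneg
    · intro n hn
      unfold PW at hn
      rw [mem_filter, mem_filter] at hn
      obtain ⟨⟨a1, a2, a3, a4, a5⟩, a6⟩ := hn
      unfold PK
      rw [mem_filter, mem_Icc]
      rw [a6.minFac_eq] at a3
      exact ⟨⟨a6.pos, a3⟩, a6, a4, a5⟩
    · intro n hn _
      unfold PK at hn
      rw [mem_filter, mem_Icc] at hn
      exact div_nonneg (Real.log_nonneg (by exact_mod_cast hn.1.1)) (Real.sqrt_nonneg _)
  · set S := (PW K W Hc).filter (fun n => ¬ n.Prime) with hS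
    set T := (Icc 1 W).filter Nat.Prime ×ˢ Icc 2 (Nat.log 2 Hc) with hT
    have hSm : ∀ n ∈ S, (n.minFac.Prime ∧ n.minFac ≤ W) ∧ (2 ≤ n.factorization n.minFac ∧
        n.factorization n.minFac ≤ Nat.log 2 Hc) ∧ n.minFac ^ n.factorization n.minFac = n := by
      intro n hn
      rw [hS] at hn
      unfold PW at hn
      rw [mem_filter, mem_filter, mem_Icc] at hn
      obtain ⟨⟨⟨a0, a1⟩, a2, a3, a4, a5⟩, a6⟩ := hn
      obtain ⟨b1, b2, b3⟩ := pp_form a2
      refine ⟨⟨b1, a3⟩, ⟨?_, ?_⟩, b3⟩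
      · by_contra hcon
        have h1 : n.factorization n.minFac = 1 := by omega
        rw [h1, pow_one] at b3
        rw [b3] at b1
        exact a6 b1
      · apply Nat.le_log_of_pow_le (by norm_num)
        calc 2 ^ n.factorization n.minFac ≤ n.minFac ^ n.factorization n.minFac :=
              Nat.pow_le_pow_left b1.two_le _
          _ = n := b3
          _ ≤ Hc := a1
    have h1 : ∑ n ∈ S, Real.log n.minFac / Real.sqrt n ≤
        ∑ x ∈ T, Real.log x.1 / Real.sqrt ((x.1 : ℝ) ^ x.2) := by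
      have hinj : Set.InjOn (fun n : ℕ => (n.minFac, n.factorization n.minFac)) (S : Set ℕ) := by
        intro a ha b hb h
        rw [Prod.mk.injEq] at h
        rw [← (hSm a ha).2.2, ← (hSm b hb).2.2, h.2, h.1]
      have h2 : ∑ n ∈ S, Real.log n.minFac / Real.sqrt n =
          ∑ x ∈ S.image (fun n : ℕ => (n.minFac, n.factorization n.minFac)),
            Real.log x.1 / Real.sqrt ((x.1 : ℝ) ^ x.2) := by
        rw [Finset.sum_image hinj]
        apply Finset.sum_congr rfl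
        intro n hn
        simp only
        congr 2
        exact_mod_cast (hSm n hn).2.2.symm
      rw [h2]
      apply Finset.sum_le_sum_of_subset_of_nonneg
      · intro x hx
        rw [mem_image] at hx
        obtain ⟨n, hn, rfl⟩ := hx
        obtain ⟨⟨b1, b2⟩, ⟨b3, b4⟩, _⟩ := hSm n hn
        rw [hT, mem_product, mem_filter, mem_Icc, mem_Icc]
        exact ⟨⟨⟨b1.pos, b2⟩, b1⟩, b3, b4⟩
      · intro x hx _
        rw [hT, mem_product, mem_filter, mem_Icc] at hx
        exact div_nonneg (Real.log_nonneg (by exact_mod_cast hx.1.1.1)) (Real.sqrt_nonneg _)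
    refine h1.trans ?_
    rw [hT, Finset.sum_product]
    have h3 : ∀ p ∈ (Icc 1 W).filter Nat.Prime, ∑ k ∈ Icc 2 (Nat.log 2 Hc),
        Real.log (p, k).1 / Real.sqrt (((p, k).1 : ℝ) ^ (p, k).2) ≤ 4 * Real.log W * (1 / (p : ℝ)) := by
      intro p hp
      rw [mem_filter, mem_Icc] at hp
      have hp0 : (0 : ℝ) < p := by exact_mod_cast hp.2.pos
      have hlp : 0 ≤ Real.log p := Real.log_nonneg (by exact_mod_cast hp.2.one_lt.le)
      have hlpW : Real.log p ≤ Real.log W := Real.log_le_log hp0 (by exact_mod_cast hp.1.2)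
      have e : ∑ k ∈ Icc 2 (Nat.log 2 Hc), Real.log (p, k).1 / Real.sqrt (((p, k).1 : ℝ) ^ (p, k).2) =
          Real.log p * ∑ k ∈ Icc 2 (Nat.log 2 Hc), 1 / Real.sqrt ((p : ℝ) ^ k) := by
        rw [Finset.mul_sum]
        apply Finset.sum_congr rfl
        intro k _
        simp only
        ring
      rw [e]
      calc Real.log p * ∑ k ∈ Icc 2 (Nat.log 2 Hc), 1 / Real.sqrt ((p : ℝ) ^ k) ≤
          Real.log W * (4 / p) :=
            mul_le_mul hlpW (pow_sum_le hp.2.two_le _) (Finset.sum_nonneg fun k _ => by positivity) hlW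
        _ = _ := by ring
    refine (Finset.sum_le_sum h3).trans ?_
    rw [← Finset.mul_sum]
    have h4 : ∑ p ∈ (Icc 1 W).filter Nat.Prime, 1 / (p : ℝ) ≤ 1 + Real.log W := by
      have h6 : ∑ i ∈ Icc 1 W, 1 / (i : ℝ) = (harmonic W : ℝ) := by
        rw [harmonic_eq_sum_Icc]
        push_cast
        exact Finset.sum_congr rfl fun i _ => by rw [one_div]
      refine le_trans ?_ (harmonic_le_one_add_log W)
      rw [← h6]
      exact Finset.sum_le_sum_of_subset_of_nonneg (filter_subset _ _) (fun i _ _ => by positivity)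
    calc 4 * Real.log W * ∑ p ∈ (Icc 1 W).filter Nat.Prime, 1 / (p : ℝ) ≤
        4 * Real.log W * (1 + Real.log W) := mul_le_mul_of_nonneg_left h4 (by positivity)
      _ = _ := by ring

/-- the sum over the fractions which are prime powers -/
theorem pp_sum (K : Subgroup (ZMod q)ˣ) (M W Hc : ℕ) (hW1 : 1 ≤ W)
    (hK : (Fintype.card K : ℝ) ≤ (q : ℝ) ^ (1 / 3 : ℝ))
    (hW : 6 * (Real.log W + Real.log 2) ≤ Real.log q) (hΛ0 : 0 ≤ Real.log q) :
    ∑ w ∈ (KR q K M).filter (fun w => w.1 * w.2 ≤ Hc ∧ ro W w = 0 ∧ sm W w = 1),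
      Real.log (w.1 * w.2).minFac * (1 / Real.sqrt ((w.1 : ℝ) * w.2)) ≤
      2 * (150 * Real.log q + 4 * (Real.log W * (1 + Real.log W))) := by
  have hpw := pw_sum K W Hc hW1 hK hW hΛ0
  set S := (KR q K M).filter (fun w => w.1 * w.2 ≤ Hc ∧ ro W w = 0 ∧ sm W w = 1) with hS
  have hsub : S ⊆ (PW K W Hc).image (fun n => (n, 1)) ∪ (PW K W Hc).image (fun n => (1, n)) := by
    intro w hw
    rw [hS, mem_filter, mem_KR] at hw
    obtain ⟨⟨⟨a1, _⟩, ⟨a2, _⟩, a3, a4, a5, a6⟩, a7, a8, a9⟩ := hw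
    have h1 : PF w = (w.1 * w.2).primeFactors := by
      unfold PF; rw [Nat.primeFactors_mul (by omega) (by omega)]
    have h2 := PF_card W a3
    have h3 : (PF w).card = 1 := by
      unfold PF
      rw [card_union_of_disjoint a3.disjoint_primeFactors]
      omega
    have hsmall : ∀ p ∈ PF w, p ≤ W := by
      intro p hp
      by_contra hcon
      have : p ∈ (PF w).filter (fun p => W < p) := mem_filter.2 ⟨hp, by omega⟩
      have h4 : 0 < ro W w := card_pos.2 ⟨p, this⟩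
      omega
    have hmin : (w.1 * w.2).minFac ≤ W := by
      obtain ⟨b1, _, _⟩ := pp_form (n := w.1 * w.2) (by rw [← h1]; exact h3)
      apply hsmall
      rw [h1]
      exact Nat.mem_primeFactors.2 ⟨b1, Nat.minFac_dvd _, (Nat.mul_pos a1 a2).ne'⟩
    rcases Nat.eq_zero_or_pos w.2.primeFactors.card with h0 | h0
    · rw [card_eq_zero, Nat.primeFactors_eq_empty] at h0
      have h5 : w.2 = 1 := by
        rcases h0 with h | h
        · omega
        · exact h
      rw [mem_union]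
      left
      rw [mem_image]
      refine ⟨w.1, ?_, ?_⟩
      · unfold PW
        rw [mem_filter, mem_Icc]
        rw [h5, mul_one] at a7 hmin h1
        rw [h5, cls_one_right] at a6
        exact ⟨⟨a1, a7⟩, by rw [← h1]; exact h3, hmin, a4, a6⟩
      · exact Prod.ext rfl h5.symm
    · have h6 : w.1.primeFactors.card = 0 := by omega
      rw [card_eq_zero, Nat.primeFactors_eq_empty] at h6
      have h5 : w.1 = 1 := by
        rcases h6 with h | h
        · omega
        · exact h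
      rw [mem_union]
      right
      rw [mem_image]
      refine ⟨w.2, ?_, ?_⟩
      · unfold PW
        rw [mem_filter, mem_Icc]
        rw [h5, one_mul] at a7 hmin h1
        rw [h5, cls_one_left] at a6
        exact ⟨⟨a2, a7⟩, by rw [← h1]; exact h3, hmin, a5, by simpa using inv_mem a6⟩
      · exact Prod.ext h5.symm rfl
  have hnn : ∀ w : ℕ × ℕ, 0 ≤ Real.log (w.1 * w.2).minFac * (1 / Real.sqrt ((w.1 : ℝ) * w.2)) := by
    intro w
    apply mul_nonneg _ (by positivity)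
    exact Real.log_nonneg (by exact_mod_cast Nat.minFac_pos _)
  refine (Finset.sum_le_sum_of_subset_of_nonneg hsub (fun w _ _ => hnn w)).trans ?_
  refine (Finset.sum_union_inter (s₁ := (PW K W Hc).image (fun n => (n, 1)))
    (s₂ := (PW K W Hc).image (fun n => (1, n))) (f := fun w : ℕ × ℕ =>
      Real.log (w.1 * w.2).minFac * (1 / Real.sqrt ((w.1 : ℝ) * w.2)))).le.trans' ?_ |>.trans ?_
  · exact le_add_of_nonneg_right (Finset.sum_nonneg fun w _ => hnn w)
  · rw [Finset.sum_image (fun a _ b _ h => (Prod.mk.inj h).1),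
      Finset.sum_image (fun a _ b _ h => (Prod.mk.inj h).2)]
    simp only [mul_one, one_mul, Nat.cast_one]
    have e : ∑ n ∈ PW K W Hc, Real.log n.minFac * (1 / Real.sqrt n) =
        ∑ n ∈ PW K W Hc, Real.log n.minFac / Real.sqrt n :=
      Finset.sum_congr rfl (fun n _ => by ring)
    rw [e]
    linarith

end Pool.Agent.V8H32.NV
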