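import Pool.Agent.V8H32.NV.Smo

/-! The rough parts of the twisted quadratic forms. -/

set_option autoImplicit false

namespace Pool.Agent.V8H32.NV
open Finset
open scoped ArithmeticFunction.Moebius
open Pool.Agent.V8H32.Cos (pr pr_primeFactors)

noncomputable def Q0 (U V : Finset ℕ) (W y : ℕ) : ℝ :=
  ∑ d ∈ RR (primorial W) y, ∑ d' ∈ RR (primorial W) y,
    lam y d * lam y d' * wE U V d.primeFactors d'.primeFactors

noncomputable def Q1 (U V : Finset ℕ) (W y : ℕ) : ℝ :=
  ∑ d ∈ RR (primorial W) y, ∑ d' ∈ RR (primorial W) y,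
    lam y d * lam y d' * wE U V d.primeFactors d'.primeFactors *
      lE U V d.primeFactors d'.primeFactors

lemma lam_abs {y d : ℕ} (hd : 1 ≤ d) (hdy : d ≤ y) : |lam y d| ≤ 1 := by
  have hd0 : (0 : ℝ) < d := by exact_mod_cast hd
  have hd1 : (1 : ℝ) ≤ d := by exact_mod_cast hd
  have hdy' : (d : ℝ) ≤ y := by exact_mod_cast hdy
  have hy0 : (0 : ℝ) < y := by linarith
  have hmu : |((μ d : ℤ) : ℝ)| ≤ 1 := by exact_mod_cast ArithmeticFunction.abs_moebius_le_one
  have h1 : 0 ≤ Real.log (y / d) := Real.log_nonneg (by rw [le_div_iff₀ hd0]; linarith)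
  have h2 : Real.log ((y : ℝ) / d) ≤ Real.log y := by
    rw [Real.log_div hy0.ne' hd0.ne']
    have := Real.log_nonneg hd1
    linarith
  have h3 : 0 ≤ Real.log (y : ℝ) := h1.trans h2
  unfold lam
  rw [abs_mul]
  have h4 : |Real.log ((y : ℝ) / d) / Real.log y| ≤ 1 := by
    rw [abs_of_nonneg (div_nonneg h1 h3)]
    exact div_le_one_of_le₀ h2 h3
  calc |((μ d : ℤ) : ℝ)| * |Real.log ((y : ℝ) / d) / Real.log y| ≤ 1 * 1 :=
        mul_le_mul hmu h4 (abs_nonneg _) zero_le_one
    _ = 1 := one_mul _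

lemma lam_abs' {P y d : ℕ} (hd : d ∈ RR P y) : |lam y d| ≤ 1 :=
  lam_abs (mem_RR.1 hd).1 (mem_RR.1 hd).2.1

lemma RR_pf {W y d : ℕ} (hd : d ∈ RR (primorial W) y) : d.primeFactors ⊆ PR W y := by
  obtain ⟨hf1, hfy, hfs, hfP⟩ := mem_RR.1 hd
  intro p hp
  have hpp := Nat.prime_of_mem_primeFactors hp
  have hpf := Nat.dvd_of_mem_primeFactors hp
  rw [mem_PR]
  refine ⟨hpp, ?_, (Nat.le_of_dvd hf1 hpf).trans hfy⟩
  by_contra h
  have h1 : p ∣ primorial W := by
    apply Nat.dvd_of_mem_primeFactors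
    rw [primorial_pf, mem_filter, mem_Icc]
    exact ⟨⟨hpp.one_lt.le, by omega⟩, hpp⟩
  have h2 := Nat.dvd_gcd hpf h1
  rw [hfP.gcd_eq_one] at h2
  exact hpp.one_lt.ne' (Nat.dvd_one.1 h2)

lemma RR_pr {P y d : ℕ} (hd : d ∈ RR P y) : pr d.primeFactors = d :=
  pr_primeFactors (mem_RR.1 hd).2.2.1

lemma RR_sum_le (W y : ℕ) (F : Finset ℕ → ℝ) (hF : ∀ D, 0 ≤ F D) :
    ∑ d ∈ RR (primorial W) y, F d.primeFactors ≤ ∑ D ∈ (PR W y).powerset, F D := by
  have hinj : Set.InjOn (fun f : ℕ => f.primeFactors) (RR (primorial W) y : Set ℕ) := by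
    intro a ha b hb h
    rw [← RR_pr ha, ← RR_pr hb]
    simp only at h
    rw [h]
  rw [← Finset.sum_image (f := F) hinj]
  apply Finset.sum_le_sum_of_subset_of_nonneg
  · intro D hD
    rw [mem_image] at hD
    obtain ⟨f, hf, rfl⟩ := hD
    rw [mem_powerset]
    exact RR_pf hf
  · intro D _ _
    exact hF D

lemma wE_sum_le (U V : Finset ℕ) (W y : ℕ) :
    ∑ d ∈ RR (primorial W) y, ∑ d' ∈ RR (primorial W) y, wE U V d.primeFactors d'.primeFactors ≤
      ∏ p ∈ PR W y, (1 + 3 * xw (U ∪ V) p) := by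
  rw [← rankin]
  have h0 : ∀ D D' : Finset ℕ, 0 ≤ ∏ p ∈ D ∪ D', xw (U ∪ V) p :=
    fun D D' => Finset.prod_nonneg (fun p _ => xw_nonneg _ p)
  calc ∑ d ∈ RR (primorial W) y, ∑ d' ∈ RR (primorial W) y, wE U V d.primeFactors d'.primeFactors
      ≤ ∑ d ∈ RR (primorial W) y, ∑ d' ∈ RR (primorial W) y,
          ∏ p ∈ d.primeFactors ∪ d'.primeFactors, xw (U ∪ V) p := by
        apply Finset.sum_le_sum
        intro d hd
        apply Finset.sum_le_sum
        intro d' hd'
        exact wE_le (fun p hp => Nat.prime_of_mem_primeFactors hp)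
          (fun p hp => Nat.prime_of_mem_primeFactors hp)
    _ ≤ ∑ d ∈ RR (primorial W) y, ∑ D' ∈ (PR W y).powerset,
          ∏ p ∈ d.primeFactors ∪ D', xw (U ∪ V) p := by
        apply Finset.sum_le_sum
        intro d _
        exact RR_sum_le W y (fun D' => ∏ p ∈ d.primeFactors ∪ D', xw (U ∪ V) p) (fun D' => h0 _ _)
    _ ≤ _ := by
        apply RR_sum_le W y (fun D => ∑ D' ∈ (PR W y).powerset, ∏ p ∈ D ∪ D', xw (U ∪ V) p)
        intro D
        exact Finset.sum_nonneg (fun D' _ => h0 _ _)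

lemma xw_prod_le (X P : Finset ℕ) : ∏ p ∈ P, (1 + 3 * xw X p) ≤
    4 ^ (P ∩ X).card * Real.exp (3 * ∑ p ∈ P, 1 / (p : ℝ)) := by
  induction P using Finset.induction_on with
  | empty => simp
  | insert p P hp ih =>
    rw [Finset.prod_insert hp, Finset.sum_insert hp, mul_add, Real.exp_add]
    have h0 : 0 ≤ ∏ p ∈ P, (1 + 3 * xw X p) := Finset.prod_nonneg (fun x _ => by
      have := xw_nonneg X x
      linarith)
    have hE : 1 ≤ Real.exp (3 * (1 / (p : ℝ))) := Real.one_le_exp (by positivity)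
    by_cases hX : p ∈ X
    · rw [Finset.insert_inter_of_mem hX, Finset.card_insert_of_notMem (fun h => hp (mem_inter.1 h).1),
        pow_succ]
      have h1 : 1 + 3 * xw X p = 4 := by
        unfold xw; rw [if_pos hX]; norm_num
      rw [h1]
      calc 4 * ∏ p ∈ P, (1 + 3 * xw X p) ≤
          4 * (4 ^ (P ∩ X).card * Real.exp (3 * ∑ p ∈ P, 1 / (p : ℝ))) :=
            mul_le_mul_of_nonneg_left ih (by norm_num)
        _ = 4 ^ (P ∩ X).card * 4 * (1 * Real.exp (3 * ∑ p ∈ P, 1 / (p : ℝ))) := by ring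
        _ ≤ 4 ^ (P ∩ X).card * 4 *
            (Real.exp (3 * (1 / (p : ℝ))) * Real.exp (3 * ∑ p ∈ P, 1 / (p : ℝ))) := by
            apply mul_le_mul_of_nonneg_left _ (by positivity)
            exact mul_le_mul_of_nonneg_right hE (Real.exp_pos _).le
    · rw [Finset.insert_inter_of_notMem hX]
      have h1 : 1 + 3 * xw X p ≤ Real.exp (3 * (1 / (p : ℝ))) := by
        unfold xw; rw [if_neg hX]
        have := Real.add_one_le_exp (3 * (1 / (p : ℝ)))
        linarith
      calc (1 + 3 * xw X p) * ∏ p ∈ P, (1 + 3 * xw X p) ≤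
          Real.exp (3 * (1 / (p : ℝ))) * (4 ^ (P ∩ X).card * Real.exp (3 * ∑ p ∈ P, 1 / (p : ℝ))) :=
            mul_le_mul h1 ih h0 (Real.exp_pos _).le
        _ = _ := by ring

lemma lE_rough {U V : Finset ℕ} {W y d d' : ℕ} (hd : d ∈ RR (primorial W) y)
    (hd' : d' ∈ RR (primorial W) y) : |lE U V d.primeFactors d'.primeFactors| ≤ Real.log y := by
  have h1 : ∀ p ∈ d.primeFactors, p.Prime := fun p hp => Nat.prime_of_mem_primeFactors hp
  have h2 : ∀ p ∈ d'.primeFactors, p.Prime := fun p hp => Nat.prime_of_mem_primeFactors hp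
  have hE := Ef_prime (U := U) (V := V) h1 h2
  obtain ⟨a1, a2, _, _⟩ := mem_RR.1 hd
  obtain ⟨b1, b2, _, _⟩ := mem_RR.1 hd'
  have e1 : (1 : ℝ) ≤ d := by exact_mod_cast a1
  have e2 : (1 : ℝ) ≤ d' := by exact_mod_cast b1
  have e3 : (1 : ℝ) ≤ pr (Ef U V d.primeFactors d'.primeFactors) := by exact_mod_cast pr_pos' hE
  have f1 : (d : ℝ) ≤ y := by exact_mod_cast a2
  have f2 : (d' : ℝ) ≤ y := by exact_mod_cast b2
  have f3 : pr (Ef U V d.primeFactors d'.primeFactors) ≤ d * d' := by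
    have h3 : ∀ p ∈ d.primeFactors ∪ d'.primeFactors, p.Prime :=
      fun p hp => (mem_union.1 hp).elim (h1 p) (h2 p)
    refine (pr_mono h3 (Ef_sub U V _ _)).trans ?_
    have h4 : pr d.primeFactors * pr d'.primeFactors =
        pr (d.primeFactors ∪ d'.primeFactors) * pr (d.primeFactors ∩ d'.primeFactors) := by
      unfold pr
      rw [Finset.prod_union_inter]
    rw [RR_pr hd, RR_pr hd'] at h4
    rw [h4]
    exact Nat.le_mul_of_pos_right _ (pr_pos' (fun p hp => h1 p (mem_inter.1 hp).1))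
  have f4 : Real.log (pr (Ef U V d.primeFactors d'.primeFactors)) ≤ Real.log d + Real.log d' := by
    rw [← Real.log_mul (by linarith) (by linarith)]
    apply Real.log_le_log (by linarith)
    exact_mod_cast f3
  have g1 := Real.log_nonneg e1
  have g2 := Real.log_nonneg e2
  have g3 := Real.log_nonneg e3
  have k1 := Real.log_le_log (by linarith) f1
  have k2 := Real.log_le_log (by linarith) f2
  unfold lE
  rw [RR_pr hd, RR_pr hd', abs_le]
  constructor <;> linarith

theorem Q_crude : ∃ C : ℝ, 1 ≤ C ∧ ∀ (U V : Finset ℕ) (W y : ℕ), 3 ≤ W → W ≤ y →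
    |Q0 U V W y| ≤ 4 ^ (PR W y ∩ (U ∪ V)).card * (C * Real.log y ^ 3) ∧
    |Q1 U V W y| ≤ 4 ^ (PR W y ∩ (U ∪ V)).card * (C * Real.log y ^ 4) := by
  obtain ⟨C, hC0, hC⟩ := Pool.Agent.V8H32.Cos.mert
  refine ⟨Real.exp (3 * C), Real.one_le_exp (by linarith), fun U V W y hW hWy => ?_⟩
  have hW1 : 1 ≤ Real.log W := by
    rw [Real.le_log_iff_exp_le (by positivity)]
    have h3 : (3 : ℝ) ≤ W := by exact_mod_cast hW
    have := Real.exp_one_lt_d9
    linarith
  have hlW : 0 < Real.log W := by linarith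
  have hly : 0 < Real.log y := Real.log_pos (by exact_mod_cast (by omega : 1 < y))
  have h5 : ∑ p ∈ PR W y, 1 / (p : ℝ) ≤ Real.log (Real.log y / Real.log W) + C := (hC W y hW hWy).2
  have h6 : Real.exp (3 * ∑ p ∈ PR W y, 1 / (p : ℝ)) ≤ Real.exp (3 * C) * Real.log y ^ 3 := by
    calc Real.exp (3 * ∑ p ∈ PR W y, 1 / (p : ℝ)) ≤
        Real.exp (3 * C + 3 * Real.log (Real.log y / Real.log W)) := by
          apply Real.exp_le_exp.2; linarith
      _ = Real.exp (3 * C) * (Real.log y / Real.log W) ^ 3 := by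
          rw [Real.exp_add]
          congr 1
          have : 3 * Real.log (Real.log y / Real.log W) = ((3 : ℕ) : ℝ) * Real.log (Real.log y / Real.log W) := by
            norm_num
          rw [this, Real.exp_nat_mul, Real.exp_log (by positivity)]
      _ ≤ _ := by
          apply mul_le_mul_of_nonneg_left _ (Real.exp_pos _).le
          apply pow_le_pow_left₀ (by positivity)
          exact div_le_self hly.le hW1
  have h7 : ∑ d ∈ RR (primorial W) y, ∑ d' ∈ RR (primorial W) y, wE U V d.primeFactors d'.primeFactors ≤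
      4 ^ (PR W y ∩ (U ∪ V)).card * (Real.exp (3 * C) * Real.log y ^ 3) :=
    (wE_sum_le U V W y).trans ((xw_prod_le _ _).trans
      (mul_le_mul_of_nonneg_left h6 (by positivity)))
  constructor
  · refine le_trans ?_ h7
    unfold Q0
    refine (Finset.abs_sum_le_sum_abs _ _).trans (Finset.sum_le_sum fun d hd => ?_)
    refine (Finset.abs_sum_le_sum_abs _ _).trans (Finset.sum_le_sum fun d' hd' => ?_)
    rw [abs_mul, abs_mul, abs_of_nonneg (wE_nonneg _ _ _ _)]
    calc |lam y d| * |lam y d'| * wE U V d.primeFactors d'.primeFactors ≤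
        1 * 1 * wE U V d.primeFactors d'.primeFactors := by
          apply mul_le_mul_of_nonneg_right _ (wE_nonneg _ _ _ _)
          exact mul_le_mul (lam_abs' hd) (lam_abs' hd') (abs_nonneg _) zero_le_one
      _ = _ := by ring
  · have h8 : |Q1 U V W y| ≤ (∑ d ∈ RR (primorial W) y, ∑ d' ∈ RR (primorial W) y,
        wE U V d.primeFactors d'.primeFactors) * Real.log y := by
      unfold Q1
      rw [Finset.sum_mul]
      refine (Finset.abs_sum_le_sum_abs _ _).trans (Finset.sum_le_sum fun d hd => ?_)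
      rw [Finset.sum_mul]
      refine (Finset.abs_sum_le_sum_abs _ _).trans (Finset.sum_le_sum fun d' hd' => ?_)
      rw [abs_mul, abs_mul, abs_mul, abs_of_nonneg (wE_nonneg _ _ _ _)]
      calc |lam y d| * |lam y d'| * wE U V d.primeFactors d'.primeFactors *
          |lE U V d.primeFactors d'.primeFactors| ≤
          1 * 1 * wE U V d.primeFactors d'.primeFactors * Real.log y := by
            apply mul_le_mul _ (lE_rough hd hd') (abs_nonneg _)
              (mul_nonneg (by norm_num) (wE_nonneg _ _ _ _))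
            apply mul_le_mul_of_nonneg_right _ (wE_nonneg _ _ _ _)
            exact mul_le_mul (lam_abs' hd) (lam_abs' hd') (abs_nonneg _) zero_le_one
        _ = _ := by ring
    refine h8.trans ((mul_le_mul_of_nonneg_right h7 hly.le).trans (le_of_eq (by ring)))

lemma Ef_disj {U V D D' : Finset ℕ} (h : Disjoint D (U ∪ V)) (h' : Disjoint D' (U ∪ V)) :
    Ef U V D D' = D ∩ D' := by
  unfold Ef
  ext p
  simp only [mem_union, mem_inter, mem_sdiff]
  have h1 : p ∈ D → p ∉ U ∪ V := fun a b => Finset.disjoint_left.1 h a b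
  have h2 : p ∈ D' → p ∉ U ∪ V := fun a b => Finset.disjoint_left.1 h' a b
  rw [mem_union] at h1 h2
  tauto

theorem Q_clean (U V : Finset ℕ) (W y : ℕ) (h : PR W y ∩ (U ∪ V) = ∅) :
    Q0 U V W y = FA (primorial W) y ∧ Q1 U V W y = FB (primorial W) y := by
  have hdis : ∀ d ∈ RR (primorial W) y, Disjoint d.primeFactors (U ∪ V) := by
    intro d hd
    rw [Finset.disjoint_left]
    intro p hp hp'
    have : p ∈ PR W y ∩ (U ∪ V) := mem_inter.2 ⟨RR_pf hd hp, hp'⟩
    rw [h] at this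
    exact absurd this (Finset.notMem_empty p)
  have hg : ∀ d ∈ RR (primorial W) y, ∀ d' ∈ RR (primorial W) y,
      pr (Ef U V d.primeFactors d'.primeFactors) = Nat.gcd d d' := by
    intro d hd d' hd'
    obtain ⟨a1, _, a3, _⟩ := mem_RR.1 hd
    obtain ⟨b1, _, _, _⟩ := mem_RR.1 hd'
    rw [Ef_disj (hdis d hd) (hdis d' hd'), ← Nat.primeFactors_gcd (by omega) (by omega)]
    exact pr_primeFactors (a3.squarefree_of_dvd (Nat.gcd_dvd_left d d'))
  constructor
  · unfold Q0 FA
    apply Finset.sum_congr rfl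
    intro d hd
    apply Finset.sum_congr rfl
    intro d' hd'
    unfold wE
    rw [hg d hd d' hd', RR_pr hd, RR_pr hd']
  · unfold Q1 FB
    apply Finset.sum_congr rfl
    intro d hd
    apply Finset.sum_congr rfl
    intro d' hd'
    unfold wE lE
    rw [hg d hd d' hd', RR_pr hd, RR_pr hd']

end Pool.Agent.V8H32.NV
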