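import Pool.Agent.V8H32.NV.Har

/-! Quadratic forms of the mollifier over rough squarefree integers. -/

set_option autoImplicit false

namespace Pool.Agent.V8H32.NV
open Finset
open scoped ArithmeticFunction.Moebius ArithmeticFunction.zeta

/-- rough squarefree integers up to `y` -/
def RR (P y : ℕ) : Finset ℕ := (Icc 1 y).filter (fun d => Squarefree d ∧ d.Coprime P)

lemma mem_RR {P y d : ℕ} : d ∈ RR P y ↔ 1 ≤ d ∧ d ≤ y ∧ Squarefree d ∧ d.Coprime P := by
  unfold RR
  rw [mem_filter, mem_Icc]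
  tauto

/-- mollifier weights -/
noncomputable def lam (y d : ℕ) : ℝ := ((μ d : ℤ) : ℝ) * (Real.log (y / d) / Real.log y)

noncomputable def yf (P y f : ℕ) : ℝ := ∑ d ∈ (RR P y).filter (fun d => f ∣ d), lam y d / d
noncomputable def zf (P y f : ℕ) : ℝ := ∑ d ∈ (RR P y).filter (fun d => f ∣ d), lam y d * Real.log d / d

/-- sum over the multiples -/
lemma mult_sum {P y f : ℕ} (hP : P ≠ 0) (hf : f ∈ RR P y) (F : ℕ → ℝ) :
    ∑ d ∈ (RR P y).filter (fun d => f ∣ d), ((μ d : ℤ) : ℝ) / d * F d =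
      ((μ f : ℤ) : ℝ) / f * ∑ k ∈ Ioc 0 ⌊(y : ℝ) / f⌋₊, mc (f * P) k * F (f * k) := by
  obtain ⟨hf1, hfy, hfs, hfP⟩ := mem_RR.1 hf
  rw [Nat.floor_div_natCast, Nat.floor_natCast, Finset.mul_sum]
  have h1 : ∀ k ∈ Ioc 0 (y / f), ((μ f : ℤ) : ℝ) / f * (mc (f * P) k * F (f * k)) =
      if Squarefree k ∧ k.Coprime (f * P) then ((μ (f * k) : ℤ) : ℝ) / ((f * k : ℕ) : ℝ) * F (f * k)
      else 0 := by
    intro k hk
    show ((μ f : ℤ) : ℝ) / f * ((if k.Coprime (f * P) then ((μ k : ℤ) : ℝ) / k else 0) * F (f * k)) = _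
    by_cases h2 : k.Coprime (f * P)
    · by_cases h3 : Squarefree k
      · rw [if_pos h2, if_pos ⟨h3, h2⟩]
        have h4 : f.Coprime k := (Nat.Coprime.coprime_mul_right_right h2).symm
        rw [ArithmeticFunction.isMultiplicative_moebius.map_mul_of_coprime h4]
        push_cast
        ring
      · rw [if_pos h2, if_neg (fun h => h3 h.1), ArithmeticFunction.moebius_eq_zero_of_not_squarefree h3]
        simp
    · rw [if_neg h2, if_neg (fun h => h2 h.2)]
      simp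
  rw [Finset.sum_congr rfl h1, ← Finset.sum_filter]
  symm
  apply Finset.sum_bij (fun k _ => f * k)
  · intro k hk
    rw [mem_filter, mem_Ioc] at hk
    rw [mem_filter, mem_RR]
    have h4 : f.Coprime k := (Nat.Coprime.coprime_mul_right_right hk.2.2).symm
    refine ⟨⟨Nat.mul_pos hf1 hk.1.1, ?_, ?_, ?_⟩, dvd_mul_right _ _⟩
    · have := Nat.mul_le_of_le_div f k y hk.1.2
      rwa [mul_comm]
    · exact (Nat.squarefree_mul h4).2 ⟨hfs, hk.2.1⟩
    · exact Nat.Coprime.mul_left hfP (Nat.Coprime.coprime_mul_left_right hk.2.2)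
  · intro a _ b _ h
    exact Nat.eq_of_mul_eq_mul_left hf1 h
  · intro d hd
    rw [mem_filter, mem_RR] at hd
    obtain ⟨⟨hd1, hdy, hds, hdP⟩, k, rfl⟩ := hd
    have hk : 0 < k := Nat.pos_of_mul_pos_left (by omega : 0 < f * k)
    have h4 : f.Coprime k := Nat.coprime_of_squarefree_mul hds
    refine ⟨k, ?_, rfl⟩
    rw [mem_filter, mem_Ioc]
    refine ⟨⟨hk, ?_⟩, (Nat.squarefree_mul h4).1 hds |>.2, ?_⟩
    · rw [Nat.le_div_iff_mul_le hf1]; rwa [mul_comm]
    · exact Nat.Coprime.mul_right h4.symm (Nat.Coprime.coprime_mul_left hdP)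
  · intro k _
    rfl

lemma yf_eq {P y f : ℕ} (hP : P ≠ 0) (hf : f ∈ RR P y) :
    yf P y f = ((μ f : ℤ) : ℝ) / f * (G1 (f * P) (y / f) / Real.log y) := by
  obtain ⟨hf1, hfy, _, _⟩ := mem_RR.1 hf
  have hf0 : (0 : ℝ) < f := by exact_mod_cast hf1
  have h := mult_sum hP hf (fun d => Real.log (y / d) / Real.log y)
  unfold yf
  have e1 : ∀ d ∈ (RR P y).filter (fun d => f ∣ d), lam y d / d =
      ((μ d : ℤ) : ℝ) / d * (Real.log (y / d) / Real.log y) := by
    intro d _; unfold lam; ring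
  rw [Finset.sum_congr rfl e1, h]
  congr 1
  unfold G1
  rw [Finset.sum_div]
  apply Finset.sum_congr rfl
  intro k _
  rw [mul_div_assoc]
  congr 3
  push_cast
  rw [div_div]

lemma zf_eq {P y f : ℕ} (hP : P ≠ 0) (hf : f ∈ RR P y) :
    zf P y f = ((μ f : ℤ) : ℝ) / f * ((Real.log y * G1 (f * P) (y / f) - G2 (f * P) (y / f)) /
      Real.log y) := by
  obtain ⟨hf1, hfy, _, _⟩ := mem_RR.1 hf
  have hf0 : (0 : ℝ) < f := by exact_mod_cast hf1
  have hy0 : (0 : ℝ) < y := by exact_mod_cast (hf1.trans hfy : 1 ≤ y)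
  have h := mult_sum hP hf (fun d => Real.log (y / d) / Real.log y * Real.log d)
  unfold zf
  have e1 : ∀ d ∈ (RR P y).filter (fun d => f ∣ d), lam y d * Real.log d / d =
      ((μ d : ℤ) : ℝ) / d * (Real.log (y / d) / Real.log y * Real.log d) := by
    intro d _; unfold lam; ring
  rw [Finset.sum_congr rfl e1, h]
  congr 1
  unfold G1 G2
  rw [Finset.mul_sum, ← Finset.sum_sub_distrib, Finset.sum_div]
  apply Finset.sum_congr rfl
  intro k hk
  rw [mem_Ioc] at hk
  have hk0 : (0 : ℝ) < k := by exact_mod_cast hk.1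
  have e2 : (y : ℝ) / ((f * k : ℕ) : ℝ) = (y : ℝ) / f / k := by push_cast; rw [div_div]
  have e3 : Real.log ((f * k : ℕ) : ℝ) = Real.log y - Real.log ((y : ℝ) / f / k) := by
    rw [← e2, Real.log_div hy0.ne' (by exact_mod_cast (Nat.mul_pos hf1 hk.1).ne')]
    ring
  rw [e2, e3]
  ring

lemma PiQ_mul {a b : ℕ} (ha : a ≠ 0) (hb : b ≠ 0) (h : a.Coprime b) : PiQ (a * b) = PiQ a * PiQ b := by
  unfold PiQ
  rw [Nat.primeFactors_mul ha hb, Finset.prod_union (Nat.Coprime.disjoint_primeFactors h)]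

lemma yf_le {P y f : ℕ} (hP : P ≠ 0) (hy : 2 ≤ y) (hf : f ∈ RR P y) :
    |yf P y f| ≤ 5 * (PiQ f * PiQ P) / (f * Real.log y) := by
  obtain ⟨hf1, hfy, _, hfP⟩ := mem_RR.1 hf
  have hf0 : (0 : ℝ) < f := by exact_mod_cast hf1
  have hy0 : (0 : ℝ) < y := by exact_mod_cast (hf1.trans hfy : 1 ≤ y)
  have hl : 0 < Real.log y := Real.log_pos (by exact_mod_cast hy)
  have h1 := G1_bound (f * P) (Nat.mul_ne_zero (by omega) hP) (Y := (y : ℝ) / f) (by positivity)
  rw [PiQ_mul (by omega) hP hfP] at h1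
  have hmu : |((μ f : ℤ) : ℝ)| ≤ 1 := by exact_mod_cast ArithmeticFunction.abs_moebius_le_one
  rw [yf_eq hP hf, abs_mul, abs_div, abs_div, abs_of_pos hf0, abs_of_pos hl]
  calc |((μ f : ℤ) : ℝ)| / f * (|G1 (f * P) (y / f)| / Real.log y) ≤
      1 / f * (5 * (PiQ f * PiQ P) / Real.log y) := by
        apply mul_le_mul
        · exact div_le_div_of_nonneg_right hmu hf0.le
        · exact div_le_div_of_nonneg_right h1 hl.le
        · positivity
        · positivity
    _ = _ := by field_simp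

lemma zf_le {P y f : ℕ} (hP : P ≠ 0) (hy : 2 ≤ y) (hf : f ∈ RR P y) :
    |zf P y f| ≤ 15 * (PiQ f * PiQ P) / f := by
  obtain ⟨hf1, hfy, _, hfP⟩ := mem_RR.1 hf
  have hf0 : (0 : ℝ) < f := by exact_mod_cast hf1
  have hf1' : (1 : ℝ) ≤ f := by exact_mod_cast hf1
  have hy0 : (0 : ℝ) < y := by exact_mod_cast (hf1.trans hfy : 1 ≤ y)
  have hl : 0 < Real.log y := Real.log_pos (by exact_mod_cast hy)
  have hfy' : (f : ℝ) ≤ y := by exact_mod_cast hfy
  have hYf : 1 ≤ (y : ℝ) / f := by rw [le_div_iff₀ hf0]; linarith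
  have h1 := G1_bound (f * P) (Nat.mul_ne_zero (by omega) hP) (Y := (y : ℝ) / f) (by positivity)
  have h2 := G2_bound (f * P) (Nat.mul_ne_zero (by omega) hP) (Y := (y : ℝ) / f) hYf
  rw [PiQ_mul (by omega) hP hfP] at h1 h2
  have hPi : 0 ≤ PiQ f * PiQ P := by
    have := PiQ_ge_one f
    have := PiQ_ge_one P
    positivity
  have hll : Real.log ((y : ℝ) / f) ≤ Real.log y := by
    rw [Real.log_div hy0.ne' hf0.ne']
    have := Real.log_nonneg hf1'
    linarith
  have h3 : |Real.log y * G1 (f * P) (y / f) - G2 (f * P) (y / f)| ≤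
      15 * (PiQ f * PiQ P) * Real.log y := by
    calc |Real.log y * G1 (f * P) (y / f) - G2 (f * P) (y / f)| ≤
        |Real.log y * G1 (f * P) (y / f)| + |G2 (f * P) (y / f)| := abs_sub _ _
      _ ≤ Real.log y * (5 * (PiQ f * PiQ P)) + 10 * (PiQ f * PiQ P) * Real.log y := by
          apply add_le_add
          · rw [abs_mul, abs_of_pos hl]
            exact mul_le_mul_of_nonneg_left h1 hl.le
          · exact h2.trans (mul_le_mul_of_nonneg_left hll (by positivity))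
      _ = _ := by ring
  have hmu : |((μ f : ℤ) : ℝ)| ≤ 1 := by exact_mod_cast ArithmeticFunction.abs_moebius_le_one
  rw [zf_eq hP hf, abs_mul, abs_div, abs_div, abs_of_pos hf0, abs_of_pos hl]
  calc |((μ f : ℤ) : ℝ)| / f * (|Real.log y * G1 (f * P) (y / f) - G2 (f * P) (y / f)| / Real.log y) ≤
      1 / f * (15 * (PiQ f * PiQ P) * Real.log y / Real.log y) := by
        apply mul_le_mul
        · exact div_le_div_of_nonneg_right hmu hf0.le
        · exact div_le_div_of_nonneg_right h3 hl.le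
        · positivity
        · positivity
    _ = _ := by field_simp

/-- diagonalization -/
lemma diag_form (P y : ℕ) (g : ℕ → ℝ) (h : ℕ → ℝ) (hg : ∀ n : ℕ, n ≠ 0 → h n = ∑ f ∈ n.divisors, g f)
    (a b : ℕ → ℝ) :
    ∑ d ∈ RR P y, ∑ d' ∈ RR P y, a d * b d' * h (Nat.gcd d d') =
      ∑ f ∈ RR P y, g f * ((∑ d ∈ (RR P y).filter (fun d => f ∣ d), a d) *
        ∑ d ∈ (RR P y).filter (fun d => f ∣ d), b d) := by
  have h1 : ∀ d ∈ RR P y, ∀ d' ∈ RR P y, h (Nat.gcd d d') =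
      ∑ f ∈ RR P y, if f ∣ d ∧ f ∣ d' then g f else 0 := by
    intro d hd d' hd'
    obtain ⟨hd1, hdy, hds, hdP⟩ := mem_RR.1 hd
    rw [hg _ (Nat.gcd_pos_of_pos_left _ hd1).ne', ← Finset.sum_filter]
    apply Finset.sum_congr _ (fun _ _ => rfl)
    ext f
    rw [Nat.mem_divisors, mem_filter, Nat.dvd_gcd_iff]
    constructor
    · rintro ⟨⟨h2, h3⟩, _⟩
      refine ⟨mem_RR.2 ⟨Nat.pos_of_dvd_of_pos h2 hd1, (Nat.le_of_dvd hd1 h2).trans hdy,
        hds.squarefree_of_dvd h2, Nat.Coprime.coprime_dvd_left h2 hdP⟩, h2, h3⟩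
    · rintro ⟨_, h2⟩
      exact ⟨h2, (Nat.gcd_pos_of_pos_left _ hd1).ne'⟩
  calc ∑ d ∈ RR P y, ∑ d' ∈ RR P y, a d * b d' * h (Nat.gcd d d') =
      ∑ d ∈ RR P y, ∑ d' ∈ RR P y, ∑ f ∈ RR P y, a d * b d' * (if f ∣ d ∧ f ∣ d' then g f else 0) := by
        apply Finset.sum_congr rfl
        intro d hd
        apply Finset.sum_congr rfl
        intro d' hd'
        rw [h1 d hd d' hd', Finset.mul_sum]
    _ = ∑ f ∈ RR P y, ∑ d ∈ RR P y, ∑ d' ∈ RR P y, a d * b d' * (if f ∣ d ∧ f ∣ d' then g f else 0) := by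
        rw [Finset.sum_comm]
        rw [Finset.sum_comm]
        have : ∀ d ∈ RR P y, ∑ d' ∈ RR P y, ∑ f ∈ RR P y, a d * b d' * (if f ∣ d ∧ f ∣ d' then g f else 0) =
            ∑ f ∈ RR P y, ∑ d' ∈ RR P y, a d * b d' * (if f ∣ d ∧ f ∣ d' then g f else 0) :=
          fun d _ => Finset.sum_comm
        rw [Finset.sum_congr rfl this, Finset.sum_comm]
    _ = _ := by
        apply Finset.sum_congr rfl
        intro f _
        rw [Finset.sum_mul_sum, Finset.mul_sum, Finset.sum_filter]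
        apply Finset.sum_congr rfl
        intro d _
        by_cases hd : f ∣ d
        · rw [if_pos hd, Finset.mul_sum, Finset.sum_filter]
          apply Finset.sum_congr rfl
          intro d' _
          by_cases hd' : f ∣ d'
          · rw [if_pos ⟨hd, hd'⟩, if_pos hd']; ring
          · rw [if_neg (fun h => hd' h.2), if_neg hd', mul_zero]
        · rw [if_neg hd]
          apply Finset.sum_eq_zero
          intro d' _
          rw [if_neg (fun h => hd h.1), mul_zero]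

/-- the forms -/
noncomputable def FA (P y : ℕ) : ℝ := ∑ d ∈ RR P y, ∑ d' ∈ RR P y,
  lam y d * lam y d' * ((Nat.gcd d d' : ℝ) / (d * d'))
noncomputable def FB (P y : ℕ) : ℝ := ∑ d ∈ RR P y, ∑ d' ∈ RR P y,
  lam y d * lam y d' * ((Nat.gcd d d' : ℝ) / (d * d')) *
    (Real.log (Nat.gcd d d') - Real.log d / 2 - Real.log d' / 2)

lemma FA_eq (P y : ℕ) : FA P y = ∑ f ∈ RR P y, (f.totient : ℝ) * (yf P y f * yf P y f) := by
  have h := diag_form P y (fun f => (f.totient : ℝ)) (fun n => (n : ℝ)) (fun n _ => by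
    exact_mod_cast (Nat.sum_totient n).symm) (fun d => lam y d / d) (fun d => lam y d / d)
  unfold FA yf
  rw [← h]
  apply Finset.sum_congr rfl
  intro d _
  apply Finset.sum_congr rfl
  intro d' _
  ring

/-- the function `n log n` -/
noncomputable def nl : ArithmeticFunction ℝ := ⟨fun n => n * Real.log n, by simp⟩
noncomputable def ph1 : ArithmeticFunction ℝ := ((μ : ArithmeticFunction ℤ) : ArithmeticFunction ℝ) * nl

lemma ph1_sum (n : ℕ) : (n : ℝ) * Real.log n = ∑ f ∈ n.divisors, ph1 f := by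
  have h : ((ζ : ArithmeticFunction ℕ) : ArithmeticFunction ℝ) * ph1 = nl := by
    unfold ph1
    rw [← mul_assoc, ArithmeticFunction.coe_zeta_mul_coe_moebius, one_mul]
  have h2 := ArithmeticFunction.coe_zeta_mul_apply (f := ph1) (x := n)
  rw [← h2, h]
  rfl

lemma ph1_le {f : ℕ} (hf : f ≠ 0) : |ph1 f| ≤ Real.log f * ∑ e ∈ f.divisors, (e : ℝ) := by
  have h1 : ph1 f = ∑ x ∈ f.divisorsAntidiagonal, ((μ x.1 : ℤ) : ℝ) * nl x.2 := by
    unfold ph1
    rw [ArithmeticFunction.mul_apply]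
    rfl
  rw [h1, Nat.sum_divisorsAntidiagonal' (fun a b => ((μ a : ℤ) : ℝ) * nl b), Finset.mul_sum]
  refine (Finset.abs_sum_le_sum_abs _ _).trans (Finset.sum_le_sum fun e he => ?_)
  have he0 := Nat.pos_of_mem_divisors he
  have he1 : (1 : ℝ) ≤ e := by exact_mod_cast he0
  have hmu : |((μ (f / e) : ℤ) : ℝ)| ≤ 1 := by exact_mod_cast ArithmeticFunction.abs_moebius_le_one
  have hef : (e : ℝ) ≤ f := by exact_mod_cast Nat.divisor_le he
  have hle : Real.log e ≤ Real.log f := Real.log_le_log (by linarith) hef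
  have hl0 : 0 ≤ Real.log e := Real.log_nonneg he1
  rw [abs_mul]
  calc |((μ (f / e) : ℤ) : ℝ)| * |nl e| ≤ 1 * |nl e| :=
        mul_le_mul_of_nonneg_right hmu (abs_nonneg _)
    _ = e * Real.log e := by
        show 1 * |(e : ℝ) * Real.log e| = _
        rw [abs_of_nonneg (by positivity), one_mul]
    _ ≤ e * Real.log f := mul_le_mul_of_nonneg_left hle (by positivity)
    _ = Real.log f * e := by ring

/-- `σ(f)/f ≤ PiQ f` for squarefree `f` -/
lemma sig_le {f : ℕ} (hf : Squarefree f) : ∑ e ∈ f.divisors, (e : ℝ) ≤ f * PiQ f := by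
  have h1 : ∑ e ∈ f.divisors, (e : ℝ) = f * ∑ e ∈ f.divisors, (1 : ℝ) / e := by
    rw [← Nat.sum_div_divisors, Finset.mul_sum]
    apply Finset.sum_congr rfl
    intro e he
    have he0 : (e : ℝ) ≠ 0 := by
      have := Nat.pos_of_mem_divisors he
      positivity
    rw [Nat.cast_div (Nat.dvd_of_mem_divisors he) he0]
    ring
  rw [h1]
  apply mul_le_mul_of_nonneg_left _ (Nat.cast_nonneg f)
  refine le_trans ?_ (smooth_sum_le f f)
  apply Finset.sum_le_sum_of_subset_of_nonneg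
  · intro e he
    rw [mem_filter, mem_Ioc]
    refine ⟨⟨Nat.pos_of_mem_divisors he, Nat.divisor_le he⟩, ?_⟩
    exact Nat.primeFactors_mono (Nat.dvd_of_mem_divisors he) hf.ne_zero
  · intro e _ _
    positivity

lemma FB_eq (P y : ℕ) : FB P y = ∑ f ∈ RR P y, ph1 f * (yf P y f * yf P y f) -
    ∑ f ∈ RR P y, (f.totient : ℝ) * (zf P y f * yf P y f) := by
  have h1 := diag_form P y (fun f => ph1 f) (fun n => (n : ℝ) * Real.log n) (fun n _ => ph1_sum n)
    (fun d => lam y d / d) (fun d => lam y d / d)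
  have h2 := diag_form P y (fun f => (f.totient : ℝ)) (fun n => (n : ℝ)) (fun n _ => by
    exact_mod_cast (Nat.sum_totient n).symm) (fun d => lam y d * Real.log d / d) (fun d => lam y d / d)
  have h3 := diag_form P y (fun f => (f.totient : ℝ)) (fun n => (n : ℝ)) (fun n _ => by
    exact_mod_cast (Nat.sum_totient n).symm) (fun d => lam y d / d) (fun d => lam y d * Real.log d / d)
  have h4 : ∑ f ∈ RR P y, (f.totient : ℝ) * ((∑ d ∈ (RR P y).filter (fun d => f ∣ d), lam y d / d) *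
      ∑ d ∈ (RR P y).filter (fun d => f ∣ d), lam y d * Real.log d / d) =
      ∑ f ∈ RR P y, (f.totient : ℝ) * (zf P y f * yf P y f) := by
    apply Finset.sum_congr rfl
    intro f _
    unfold zf yf
    ring
  rw [h4] at h3
  have h5 : FB P y = (∑ d ∈ RR P y, ∑ d' ∈ RR P y, lam y d / d * (lam y d' / d') *
      ((Nat.gcd d d' : ℕ) * Real.log (Nat.gcd d d'))) -
      (1 / 2) * (∑ d ∈ RR P y, ∑ d' ∈ RR P y, lam y d * Real.log d / d * (lam y d' / d') *
        (Nat.gcd d d' : ℕ)) -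
      (1 / 2) * (∑ d ∈ RR P y, ∑ d' ∈ RR P y, lam y d / d * (lam y d' * Real.log d' / d') *
        (Nat.gcd d d' : ℕ)) := by
    unfold FB
    rw [Finset.mul_sum, Finset.mul_sum, ← Finset.sum_sub_distrib, ← Finset.sum_sub_distrib]
    apply Finset.sum_congr rfl
    intro d _
    rw [Finset.mul_sum, Finset.mul_sum, ← Finset.sum_sub_distrib, ← Finset.sum_sub_distrib]
    apply Finset.sum_congr rfl
    intro d' _
    ring
  rw [h5, h1, h2, h3]
  unfold zf yf
  ring

lemma tot_eq {f : ℕ} (hf : 0 < f) : (f.totient : ℝ) * PiQ f = f := by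
  have h := Nat.totient_eq_mul_prod_factors f
  have h2 : ((f.totient : ℚ) : ℝ) = ((f : ℚ) : ℝ) * ((∏ p ∈ f.primeFactors, (1 - ((p : ℚ))⁻¹) : ℚ) : ℝ) := by
    rw [h]; push_cast; ring
  push_cast at h2
  rw [h2]
  unfold PiQ
  rw [mul_assoc, ← Finset.prod_mul_distrib, Finset.prod_eq_one, mul_one]
  intro p hp
  have h3 := (Nat.prime_of_mem_primeFactors hp).two_le
  have h4 : (2 : ℝ) ≤ p := by exact_mod_cast h3
  have h5 : ((p : ℝ))⁻¹ ≤ 1 / 2 := by
    rw [inv_le_comm₀ (by positivity) (by norm_num)]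
    norm_num
    exact h3
  rw [one_div]
  exact mul_inv_cancel₀ (by linarith)

lemma FA_le {P y : ℕ} (hP : P ≠ 0) (hy : 2 ≤ y) :
    0 ≤ FA P y ∧ FA P y ≤ 25 * PiQ P ^ 2 / Real.log y ^ 2 * ∑ f ∈ RR P y, PiQ f ^ 3 / f := by
  have hl : 0 < Real.log y := Real.log_pos (by exact_mod_cast hy)
  rw [FA_eq]
  constructor
  · apply Finset.sum_nonneg
    intro f _
    apply mul_nonneg (Nat.cast_nonneg _)
    exact mul_self_nonneg _
  · rw [Finset.mul_sum]
    apply Finset.sum_le_sum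
    intro f hf
    obtain ⟨hf1, hfy, hfs, hfP⟩ := mem_RR.1 hf
    have hf0 : (0 : ℝ) < f := by exact_mod_cast hf1
    have h1 := yf_le hP hy hf
    have h2 := PiQ_ge_one f
    have h3 := PiQ_ge_one P
    have h4 := tot_eq hf1
    have h5 : yf P y f * yf P y f ≤ (5 * (PiQ f * PiQ P) / (f * Real.log y)) ^ 2 := by
      rw [← abs_mul_abs_self, ← sq]
      exact pow_le_pow_left₀ (abs_nonneg _) h1 2
    calc (f.totient : ℝ) * (yf P y f * yf P y f) ≤
        (f.totient : ℝ) * (5 * (PiQ f * PiQ P) / (f * Real.log y)) ^ 2 :=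
          mul_le_mul_of_nonneg_left h5 (Nat.cast_nonneg _)
      _ = 25 * PiQ P ^ 2 / Real.log y ^ 2 * (((f.totient : ℝ) * PiQ f) * PiQ f / (f ^ 2)) := by
          field_simp
          ring
      _ = 25 * PiQ P ^ 2 / Real.log y ^ 2 * (PiQ f / f) := by
          rw [h4]; field_simp
      _ ≤ 25 * PiQ P ^ 2 / Real.log y ^ 2 * (PiQ f ^ 3 / f) := by
          apply mul_le_mul_of_nonneg_left _ (by positivity)
          apply div_le_div_of_nonneg_right _ hf0.le
          nlinarith [sq_nonneg (PiQ f - 1), mul_nonneg (by linarith : (0:ℝ) ≤ PiQ f - 1) (by linarith : (0:ℝ) ≤ PiQ f)]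

lemma FB_le {P y : ℕ} (hP : P ≠ 0) (hy : 2 ≤ y) :
    |FB P y| ≤ 100 * PiQ P ^ 2 / Real.log y * ∑ f ∈ RR P y, PiQ f ^ 3 / f := by
  have hl : 0 < Real.log y := Real.log_pos (by exact_mod_cast hy)
  rw [FB_eq, ← Finset.sum_sub_distrib, Finset.mul_sum]
  refine (Finset.abs_sum_le_sum_abs _ _).trans (Finset.sum_le_sum fun f hf => ?_)
  obtain ⟨hf1, hfy, hfs, hfP⟩ := mem_RR.1 hf
  have hf0 : (0 : ℝ) < f := by exact_mod_cast hf1
  have h1 := yf_le hP hy hf
  have h1' := zf_le hP hy hf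
  have h2 := PiQ_ge_one f
  have h3 := PiQ_ge_one P
  have h4 := tot_eq hf1
  have h6 := ph1_le (f := f) (by omega)
  have h7 := sig_le hfs
  have hfy' : (f : ℝ) ≤ y := by exact_mod_cast hfy
  have h8 : Real.log f ≤ Real.log y := Real.log_le_log hf0 hfy'
  have h9 : 0 ≤ Real.log f := Real.log_nonneg (by exact_mod_cast hf1)
  have h10 : |ph1 f| ≤ Real.log y * (f * PiQ f) := by
    refine h6.trans ?_
    exact mul_le_mul h8 h7 (Finset.sum_nonneg fun e _ => by positivity) hl.le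
  have h5 : |yf P y f * yf P y f| ≤ (5 * (PiQ f * PiQ P) / (f * Real.log y)) ^ 2 := by
    rw [abs_mul, ← sq]
    exact pow_le_pow_left₀ (abs_nonneg _) h1 2
  have h11 : |zf P y f * yf P y f| ≤ (15 * (PiQ f * PiQ P) / f) * (5 * (PiQ f * PiQ P) / (f * Real.log y)) := by
    rw [abs_mul]
    exact mul_le_mul h1' h1 (abs_nonneg _) (by positivity)
  have hpf : PiQ f ≤ PiQ f ^ 3 := by
    nlinarith [sq_nonneg (PiQ f - 1), mul_nonneg (by linarith : (0:ℝ) ≤ PiQ f - 1) (by linarith : (0:ℝ) ≤ PiQ f)]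
  calc |ph1 f * (yf P y f * yf P y f) - (f.totient : ℝ) * (zf P y f * yf P y f)| ≤
      |ph1 f * (yf P y f * yf P y f)| + |(f.totient : ℝ) * (zf P y f * yf P y f)| := abs_sub _ _
    _ ≤ Real.log y * (f * PiQ f) * (5 * (PiQ f * PiQ P) / (f * Real.log y)) ^ 2 +
        (f.totient : ℝ) * ((15 * (PiQ f * PiQ P) / f) * (5 * (PiQ f * PiQ P) / (f * Real.log y))) := by
        apply add_le_add
        · rw [abs_mul]
          exact mul_le_mul h10 h5 (abs_nonneg _) (by positivity)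
        · rw [abs_mul, Nat.abs_cast]
          exact mul_le_mul_of_nonneg_left h11 (Nat.cast_nonneg _)
    _ = 25 * PiQ P ^ 2 / Real.log y * (PiQ f ^ 3 / f) +
        75 * PiQ P ^ 2 / Real.log y * (((f.totient : ℝ) * PiQ f) * PiQ f / f ^ 2) := by
        field_simp
        ring
    _ = 25 * PiQ P ^ 2 / Real.log y * (PiQ f ^ 3 / f) +
        75 * PiQ P ^ 2 / Real.log y * (PiQ f / f) := by
        rw [h4]; congr 1; field_simp
    _ ≤ 25 * PiQ P ^ 2 / Real.log y * (PiQ f ^ 3 / f) +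
        75 * PiQ P ^ 2 / Real.log y * (PiQ f ^ 3 / f) := by
        gcongr
    _ = 100 * PiQ P ^ 2 / Real.log y * (PiQ f ^ 3 / f) := by ring

end Pool.Agent.V8H32.NV
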