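import Pool.Agent.V8H32.NV.Ltot
import Pool.Agent.R311.RES.B4

/-! The twisted second moment for a fixed length. -/

set_option autoImplicit false

namespace Pool.Agent.V8H32.NV
open Finset Pool.Agent.R311.RES
open Pool.Agent.V8H32.Cos (pr cls)
open scoped Classical

lemma sum_rs (N : ℕ) : ∑ z ∈ NV.prs N, rs z ≤ 2 * Real.sqrt N * (1 + Real.log N) := by
  unfold NV.prs
  rw [Finset.sum_filter, Finset.sum_product]
  have h1 : ∀ m ∈ Icc 1 N, ∑ n ∈ Icc 1 N, (if (m, n).1 * (m, n).2 ≤ N then rs (m, n) else 0) ≤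
      2 * Real.sqrt N * (1 / (m : ℝ)) := by
    intro m hm
    rw [mem_Icc] at hm
    have hm0 : (0 : ℝ) < m := by exact_mod_cast hm.1
    have hsm : 0 < Real.sqrt (m : ℝ) := Real.sqrt_pos.2 hm0
    rw [← Finset.sum_filter]
    calc ∑ n ∈ (Icc 1 N).filter (fun n => (m, n).1 * (m, n).2 ≤ N), rs (m, n) ≤
        ∑ n ∈ Icc 1 (N / m), rs (m, n) := by
          apply Finset.sum_le_sum_of_subset_of_nonneg
          · intro n hn
            rw [mem_filter, mem_Icc] at hn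
            rw [mem_Icc]
            refine ⟨hn.1.1, ?_⟩
            rw [Nat.le_div_iff_mul_le hm.1, mul_comm]
            exact hn.2
          · intro n _ _
            exact rs_nonneg _
      _ = 1 / Real.sqrt m * ∑ n ∈ Icc 1 (N / m), (n : ℝ) ^ (-(1 / 2 : ℝ)) := by
          rw [Finset.mul_sum]
          apply Finset.sum_congr rfl
          intro n _
          unfold rs
          simp only
          congr 1
          rw [Real.rpow_neg (Nat.cast_nonneg _), Real.sqrt_eq_rpow, one_div]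
      _ ≤ 1 / Real.sqrt m * (2 * Real.sqrt ((N / m : ℕ) : ℝ)) :=
          mul_le_mul_of_nonneg_left (sum_rsqrt _) (by positivity)
      _ ≤ 1 / Real.sqrt m * (2 * (Real.sqrt N / Real.sqrt m)) := by
          apply mul_le_mul_of_nonneg_left _ (by positivity)
          apply mul_le_mul_of_nonneg_left _ (by norm_num)
          rw [← Real.sqrt_div (Nat.cast_nonneg _)]
          exact Real.sqrt_le_sqrt Nat.cast_div_le
      _ = 2 * Real.sqrt N * (1 / (m : ℝ)) := by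
          have e : (1 : ℝ) / m = 1 / (Real.sqrt m * Real.sqrt m) := by rw [Real.mul_self_sqrt hm0.le]
          rw [e]
          field_simp
  refine (Finset.sum_le_sum h1).trans ?_
  rw [← Finset.mul_sum]
  apply mul_le_mul_of_nonneg_left _ (by positivity)
  have h6 : ∑ i ∈ Icc 1 N, 1 / (i : ℝ) = (harmonic N : ℝ) := by
    rw [harmonic_eq_sum_Icc]
    push_cast
    exact Finset.sum_congr rfl fun i _ => by rw [one_div]
  rw [h6]
  exact harmonic_le_one_add_log N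

lemma DK_norm {q : ℕ} (χ : DirichletCharacter ℂ q) (N : ℕ) :
    ‖DK χ N‖ ≤ 2 * Real.sqrt N * (1 + Real.log N) := by
  refine le_trans ?_ (sum_rs N)
  unfold DK
  refine (norm_sum_le _ _).trans (Finset.sum_le_sum fun z _ => ?_)
  rw [norm_mul, Complex.norm_real, Real.norm_of_nonneg (rs_nonneg z)]
  exact mul_le_of_le_one_left (rs_nonneg z) (bb_norm χ _ _)

lemma DK_norm' {q : ℕ} (χ : DirichletCharacter ℂ q) (N : ℕ) : ‖DK χ N‖ ≤ 4 * N := by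
  refine (DK_norm χ N).trans ?_
  rcases Nat.eq_zero_or_pos N with h | h
  · rw [h]; simp
  · have hN : (1 : ℝ) ≤ N := by exact_mod_cast h
    have hs1 : 1 ≤ Real.sqrt (N : ℝ) := by
      rw [show (1 : ℝ) = Real.sqrt 1 by simp]; exact Real.sqrt_le_sqrt hN
    have hs0 : 0 < Real.sqrt (N : ℝ) := by linarith
    have h1 : Real.log N = 2 * Real.log (Real.sqrt N) := by
      rw [Real.log_sqrt (by linarith)]; ring
    have h2 := Real.log_le_sub_one_of_pos hs0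
    have h3 : Real.sqrt (N : ℝ) * Real.sqrt N = N := Real.mul_self_sqrt (by linarith)
    nlinarith

section
variable {q z W R0 Hc : ℕ} [Fact q.Prime] {ϱ C : ℝ}

lemma AM_inj (W z R y : ℕ) : Set.InjOn AM (IM W z R y : Set (Finset ℕ × ℕ)) := by
  intro i hi j hj h
  rw [mem_coe] at hi hj
  rw [AM_eq hi, AM_eq hj] at h
  have h1 : i.1 ∪ i.2.primeFactors = j.1 ∪ j.2.primeFactors := by
    have e1 := Pool.Agent.V8H32.Cos.pr_primeFactors_eq (P := i.1 ∪ i.2.primeFactors) (AM_prime hi)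
      (Finset.Subset.refl _)
    have e2 := Pool.Agent.V8H32.Cos.pr_primeFactors_eq (P := j.1 ∪ j.2.primeFactors) (AM_prime hj)
      (Finset.Subset.refl _)
    rw [← e1, ← e2, h]
  obtain ⟨⟨a1, _⟩, a2⟩ := mem_IM.1 hi
  obtain ⟨⟨b1, _⟩, b2⟩ := mem_IM.1 hj
  have hs : ∀ i : Finset ℕ × ℕ, i ∈ IM W z R y → i.1 = (i.1 ∪ i.2.primeFactors).filter (fun p => p ≤ W) ∧
      i.2.primeFactors = (i.1 ∪ i.2.primeFactors).filter (fun p => W < p) := by
    intro i hi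
    obtain ⟨⟨a1, _⟩, a2⟩ := mem_IM.1 hi
    have c1 : ∀ p ∈ i.1, p ≤ W := fun p hp => (mem_Icc.1 (mem_filter.1 (a1 hp)).1).2
    have c2 : ∀ p ∈ i.2.primeFactors, W < p := fun p hp => (mem_PR.1 (RR_pf a2 hp)).2.1
    constructor
    · ext p
      rw [mem_filter, mem_union]
      constructor
      · intro hp; exact ⟨Or.inl hp, c1 p hp⟩
      · rintro ⟨h | h, h'⟩
        · exact h
        · have := c2 p h; omega
    · ext p
      rw [mem_filter, mem_union]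
      constructor
      · intro hp; exact ⟨Or.inr hp, c2 p hp⟩
      · rintro ⟨h | h, h'⟩
        · have := c1 p h; omega
        · exact h
  obtain ⟨c1, c2⟩ := hs i hi
  obtain ⟨d1, d2⟩ := hs j hj
  apply Prod.ext
  · rw [c1, d1, h1]
  · rw [← RR_pr a2, ← RR_pr b2, c2, d2, h1]

theorem S2_mod (h : Sz2 q z W R0 Hc ϱ C) (hF : Fm W Hc C) (H : Subgroup (DirichletCharacter ℂ q))
    (χ₀ : DirichletCharacter ℂ q) (hK : (Fintype.card (ann H) : ℝ) ≤ (q : ℝ) ^ (1 / 3 : ℝ)) (L : ℕ)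
    (hLA : ∀ i ∈ IM W z (10 * R0) Hc, AM i ≤ L) (hLc : (IM W z (10 * R0) Hc).card ≤ L)
    (hHL : Hc ≤ L) (hL4 : 4 * (L : ℝ) ^ 4 ≤ (q : ℝ) ^ (1 / 10 : ℝ)) (D κ η : ℝ)
    (hD : ∀ n : ℕ, 0 < n → (n : ℝ) ≤ (q : ℝ) ^ (13 / 10 : ℝ) → ((n.divisors.card : ℕ) : ℝ) ≤ D)
    (hDκ : D ^ 2 * (1 + 2 * Real.log q) ≤ (q : ℝ) ^ κ) (hη : (q : ℝ) ^ η ≤ Hc)
    (hHigh : ∀ M : ℕ, ∑ w ∈ (KR q (ann H) M).filter (fun w => (q : ℝ) ^ η ≤ (w.1 : ℝ) * w.2 ∧
      (w.1 : ℝ) * w.2 ≤ (q : ℝ) ^ (13 / 10 : ℝ)), 1 / Real.sqrt ((w.1 : ℝ) * w.2) ≤ (q : ℝ) ^ (-κ))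
    (N : ℕ) (hN1 : 1 ≤ N) (hN2 : (N : ℝ) ≤ (q : ℝ) ^ (11 / 10 : ℝ)) :
    ‖∑ ψ : H, DK (χ₀ * (ψ : DirichletCharacter ℂ q)) N *
      ((‖Mof (IM W z (10 * R0) Hc) AM (cM' Hc) (χ₀ * (ψ : DirichletCharacter ℂ q))‖ ^ 2 : ℝ) : ℂ)‖ ≤
      (Fintype.card H : ℝ) * (320 * ϱ * C + 1 + (q : ℝ) ^ (1 / 4 : ℝ) / Real.sqrt (Real.sqrt N)) := by
  have hqone : 1 < q := Nat.Prime.one_lt Fact.out
  have hqR1 : (1 : ℝ) < q := by exact_mod_cast hqone
  have hq0 : (0 : ℝ) < q := by linarith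
  obtain ⟨s1, _⟩ := h.small
  have hHc1 : 1 ≤ Hc := by exact_mod_cast s1
  have hL1 : 1 ≤ L := hHc1.trans hHL
  have hLR : (1 : ℝ) ≤ L := by exact_mod_cast hL1
  have hN0 : (0 : ℝ) < N := by exact_mod_cast hN1
  have hΛ1 := h.toSz.L1
  have hL2 : (L : ℝ) * L ≤ (q : ℝ) ^ (1 / 10 : ℝ) := by
    have e1 : (L : ℝ) * L ≤ (L : ℝ) ^ 4 := by nlinarith [mul_nonneg (by linarith : (0:ℝ) ≤ L) (by linarith : (0:ℝ) ≤ (L:ℝ)), one_le_pow₀ (n := 2) hLR]
    nlinarith [pow_nonneg (by linarith : (0:ℝ) ≤ L) 4]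
  have hLq : L < q := by
    have e1 : (L : ℝ) ≤ (L : ℝ) * L := by nlinarith
    have e2 : (L : ℝ) < q := by
      calc (L : ℝ) ≤ (q : ℝ) ^ (1 / 10 : ℝ) := e1.trans hL2
        _ < (q : ℝ) ^ (1 : ℝ) := Real.rpow_lt_rpow_of_exponent_lt hqR1 (by norm_num)
        _ = q := Real.rpow_one _
    exact_mod_cast e2
  have hNq : N < q * q := by
    have e2 : (N : ℝ) < (q : ℝ) * q := by
      calc (N : ℝ) ≤ (q : ℝ) ^ (11 / 10 : ℝ) := hN2
        _ < (q : ℝ) ^ (2 : ℝ) := Real.rpow_lt_rpow_of_exponent_lt hqR1 (by norm_num)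
        _ = q * q := by rw [Real.rpow_two, sq]
    exact_mod_cast e2
  have hX : ((N * (L * L) : ℕ) : ℝ) ≤ (q : ℝ) ^ (13 / 10 : ℝ) := by
    push_cast
    calc (N : ℝ) * (L * L) ≤ (q : ℝ) ^ (11 / 10 : ℝ) * (q : ℝ) ^ (1 / 10 : ℝ) :=
          mul_le_mul hN2 hL2 (by positivity) (by positivity)
      _ = (q : ℝ) ^ (12 / 10 : ℝ) := by rw [← Real.rpow_add hq0]; norm_num
      _ ≤ _ := Real.rpow_le_rpow_of_exponent_le hqR1.le (by norm_num)
  have hX1 : (1 : ℝ) ≤ ((N * (L * L) : ℕ) : ℝ) := by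
    exact_mod_cast Nat.mul_pos hN1 (Nat.mul_pos hL1 hL1)
  have hlX : Real.log ((N * (L * L) : ℕ) : ℝ) ≤ 2 * Real.log q := by
    calc Real.log ((N * (L * L) : ℕ) : ℝ) ≤ Real.log ((q : ℝ) ^ (13 / 10 : ℝ)) :=
          Real.log_le_log (by linarith) hX
      _ = 13 / 10 * Real.log q := Real.log_rpow hq0 _
      _ ≤ _ := by linarith
  have hNlog : Real.log N ≤ 2 * Real.log q := by
    calc Real.log (N : ℝ) ≤ Real.log ((q : ℝ) ^ (11 / 10 : ℝ)) := Real.log_le_log hN0 hN2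
      _ = 11 / 10 * Real.log q := Real.log_rpow hq0 _
      _ ≤ _ := by linarith
  refine (S2_group H χ₀ (IM W z (10 * R0) Hc) AM (cM' Hc) L N (fun i hi => ⟨AM_pos hi, hLA i hi⟩)
    hLq hNq).trans ?_
  apply mul_le_mul_of_nonneg_left _ (Nat.cast_nonneg _)
  rw [← Finset.sum_filter_add_sum_filter_not (KR q (ann H) (L * N)) (fun w => w.1 * w.2 ≤ Hc)]
  have hlow := low_total h hF (ann H) hK (L * N) N hN1 hNlog
  have hcardL : ((IM W z (10 * R0) Hc).card : ℝ) ≤ L := by exact_mod_cast hLc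
  have hHLR : (Hc : ℝ) ≤ L := by exact_mod_cast hHL
  have hE : (Hc : ℝ) ^ 2 * (4 / Real.sqrt (Real.sqrt N) * ((IM W z (10 * R0) Hc).card : ℝ) ^ 2) ≤
      (q : ℝ) ^ (1 / 4 : ℝ) / Real.sqrt (Real.sqrt N) := by
    have e0 : 0 < Real.sqrt (Real.sqrt (N : ℝ)) := Real.sqrt_pos.2 (Real.sqrt_pos.2 hN0)
    calc (Hc : ℝ) ^ 2 * (4 / Real.sqrt (Real.sqrt N) * ((IM W z (10 * R0) Hc).card : ℝ) ^ 2) ≤
        (L : ℝ) ^ 2 * (4 / Real.sqrt (Real.sqrt N) * (L : ℝ) ^ 2) := by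
          apply mul_le_mul (pow_le_pow_left₀ (by positivity) hHLR 2) _ (by positivity) (by positivity)
          apply mul_le_mul_of_nonneg_left _ (by positivity)
          exact pow_le_pow_left₀ (by positivity) hcardL 2
      _ = (4 * (L : ℝ) ^ 4) / Real.sqrt (Real.sqrt N) := by ring
      _ ≤ (q : ℝ) ^ (1 / 4 : ℝ) / Real.sqrt (Real.sqrt N) := by
          apply div_le_div_of_nonneg_right _ e0.le
          refine hL4.trans ?_
          exact Real.rpow_le_rpow_of_exponent_le hqR1.le (by norm_num)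
  have hhigh : ∑ w ∈ (KR q (ann H) (L * N)).filter (fun w => ¬ w.1 * w.2 ≤ Hc),
      |TN (IM W z (10 * R0) Hc) AM (cM' Hc) N w.1 w.2| ≤ 1 := by
    have hb : ∀ w ∈ (KR q (ann H) (L * N)).filter (fun w => ¬ w.1 * w.2 ≤ Hc),
        |TN (IM W z (10 * R0) Hc) AM (cM' Hc) N w.1 w.2| ≤
        (if (q : ℝ) ^ η ≤ (w.1 : ℝ) * w.2 ∧ (w.1 : ℝ) * w.2 ≤ (q : ℝ) ^ (13 / 10 : ℝ) then
          (q : ℝ) ^ κ * (1 / Real.sqrt ((w.1 : ℝ) * w.2)) else 0) := by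
      intro w hw
      rw [mem_filter, mem_KR] at hw
      obtain ⟨⟨⟨a1, _⟩, ⟨a2, _⟩, a3, _⟩, a7⟩ := hw
      have h1 := TN_divisor (IM W z (10 * R0) Hc) AM (cM' Hc) L N (fun i hi => ⟨AM_pos hi, hLA i hi⟩)
        (fun i hi => cM_abs' hi) (AM_inj W z (10 * R0) Hc) D (fun n hn hn' =>
          hD n hn ((Nat.cast_le.2 hn').trans hX)) a1 a2 a3
      refine h1.trans ?_
      split_ifs with c1 c2 c2
      · apply mul_le_mul_of_nonneg_right _ (by positivity)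
        refine le_trans ?_ hDκ
        apply mul_le_mul_of_nonneg_left _ (by positivity)
        linarith
      · exfalso
        apply c2
        constructor
        · refine hη.trans ?_
          have : Hc ≤ w.1 * w.2 := by omega
          exact_mod_cast this
        · refine le_trans ?_ hX
          exact_mod_cast c1
      · positivity
      · exact le_rfl
    refine (Finset.sum_le_sum hb).trans ?_
    rw [← Finset.sum_filter, ← Finset.mul_sum]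
    calc (q : ℝ) ^ κ * ∑ w ∈ ((KR q (ann H) (L * N)).filter (fun w => ¬ w.1 * w.2 ≤ Hc)).filter
          (fun w => (q : ℝ) ^ η ≤ (w.1 : ℝ) * w.2 ∧ (w.1 : ℝ) * w.2 ≤ (q : ℝ) ^ (13 / 10 : ℝ)),
            1 / Real.sqrt ((w.1 : ℝ) * w.2) ≤
        (q : ℝ) ^ κ * ∑ w ∈ (KR q (ann H) (L * N)).filter
          (fun w => (q : ℝ) ^ η ≤ (w.1 : ℝ) * w.2 ∧ (w.1 : ℝ) * w.2 ≤ (q : ℝ) ^ (13 / 10 : ℝ)),
            1 / Real.sqrt ((w.1 : ℝ) * w.2) := by
          apply mul_le_mul_of_nonneg_left _ (by positivity)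
          apply Finset.sum_le_sum_of_subset_of_nonneg
          · exact filter_subset_filter _ (filter_subset _ _)
          · intro w _ _; positivity
      _ ≤ (q : ℝ) ^ κ * (q : ℝ) ^ (-κ) := mul_le_mul_of_nonneg_left (hHigh _) (by positivity)
      _ = 1 := by rw [← Real.rpow_add hq0]; simp
  linarith

/-- the bound for all lengths -/
theorem S2_all (h : Sz2 q z W R0 Hc ϱ C) (hF : Fm W Hc C) (H : Subgroup (DirichletCharacter ℂ q))
    (χ₀ : DirichletCharacter ℂ q) (hK : (Fintype.card (ann H) : ℝ) ≤ (q : ℝ) ^ (1 / 3 : ℝ)) (L : ℕ)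
    (hLA : ∀ i ∈ IM W z (10 * R0) Hc, AM i ≤ L) (hLc : (IM W z (10 * R0) Hc).card ≤ L)
    (hHL : Hc ≤ L) (hL4 : 4 * (L : ℝ) ^ 4 ≤ (q : ℝ) ^ (1 / 10 : ℝ)) (D κ η : ℝ)
    (hD : ∀ n : ℕ, 0 < n → (n : ℝ) ≤ (q : ℝ) ^ (13 / 10 : ℝ) → ((n.divisors.card : ℕ) : ℝ) ≤ D)
    (hDκ : D ^ 2 * (1 + 2 * Real.log q) ≤ (q : ℝ) ^ κ) (hη : (q : ℝ) ^ η ≤ Hc)
    (hHigh : ∀ M : ℕ, ∑ w ∈ (KR q (ann H) M).filter (fun w => (q : ℝ) ^ η ≤ (w.1 : ℝ) * w.2 ∧
      (w.1 : ℝ) * w.2 ≤ (q : ℝ) ^ (13 / 10 : ℝ)), 1 / Real.sqrt ((w.1 : ℝ) * w.2) ≤ (q : ℝ) ^ (-κ))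
    (hH : (q : ℝ) ^ (2 / 3 : ℝ) ≤ (Fintype.card H : ℝ))
    (hbig : 2 * (1 + 2 * Real.log q) ≤ (q : ℝ) ^ (1 / 100 : ℝ))
    (N : ℕ) (hN1 : 1 ≤ N) :
    ‖∑ ψ : H, DK (χ₀ * (ψ : DirichletCharacter ℂ q)) N *
      ((‖Mof (IM W z (10 * R0) Hc) AM (cM' Hc) (χ₀ * (ψ : DirichletCharacter ℂ q))‖ ^ 2 : ℝ) : ℂ)‖ +
      ‖DK (1 : DirichletCharacter ℂ q) N‖ *
        ‖Mof (IM W z (10 * R0) Hc) AM (cM' Hc) (1 : DirichletCharacter ℂ q)‖ ^ 2 ≤
      (Fintype.card H : ℝ) * ((320 * ϱ * C + 2) * (1 + ((N : ℝ) / q) ^ 13 +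
        (q : ℝ) ^ (1 / 4 : ℝ) / Real.sqrt (Real.sqrt N))) := by
  have hqone : 1 < q := Nat.Prime.one_lt Fact.out
  have hqR1 : (1 : ℝ) < q := by exact_mod_cast hqone
  have hq0 : (0 : ℝ) < q := by linarith
  obtain ⟨s1, _⟩ := h.small
  have hHc1 : 1 ≤ Hc := by exact_mod_cast s1
  have hL1 : 1 ≤ L := hHc1.trans hHL
  have hLR : (1 : ℝ) ≤ L := by exact_mod_cast hL1
  have hN0 : (0 : ℝ) < N := by exact_mod_cast hN1
  have hΛ1 := h.toSz.L1
  have hC := h.hC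
  have hϱ0 := h.hϱ0
  have hϱC : 1 ≤ ϱ * C := by nlinarith
  have hHpos : (0 : ℝ) < (Fintype.card H : ℝ) := lt_of_lt_of_le (by positivity) hH
  have hH1 : (1 : ℝ) ≤ (Fintype.card H : ℝ) := le_trans (Real.one_le_rpow hqR1.le (by norm_num)) hH
  have hMn : ∀ χ : DirichletCharacter ℂ q, ‖Mof (IM W z (10 * R0) Hc) AM (cM' Hc) χ‖ ^ 2 ≤ (L : ℝ) ^ 2 := by
    intro χ
    apply pow_le_pow_left₀ (norm_nonneg _)
    refine (Mof_norm _ _ _ (fun i hi => cM_abs' hi) χ).trans ?_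
    exact_mod_cast hLc
  have e0 : 0 < Real.sqrt (Real.sqrt (N : ℝ)) := Real.sqrt_pos.2 (Real.sqrt_pos.2 hN0)
  have hq4 : 0 ≤ (q : ℝ) ^ (1 / 4 : ℝ) / Real.sqrt (Real.sqrt N) := by positivity
  have ht13 : 0 ≤ ((N : ℝ) / q) ^ 13 := by positivity
  have hL2sq : (L : ℝ) ^ 2 ≤ (q : ℝ) ^ (1 / 20 : ℝ) := by
    have e1 : ((L : ℝ) ^ 2) ^ 2 ≤ ((q : ℝ) ^ (1 / 20 : ℝ)) ^ 2 := by
      have e2 : ((q : ℝ) ^ (1 / 20 : ℝ)) ^ 2 = (q : ℝ) ^ (1 / 10 : ℝ) := by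
        rw [← Real.rpow_natCast, ← Real.rpow_mul hq0.le]; norm_num
      rw [e2]
      refine le_trans ?_ hL4
      nlinarith [pow_nonneg (by linarith : (0:ℝ) ≤ L) 4]
    exact le_of_pow_le_pow_left₀ (by norm_num) (by positivity) e1
  rcases le_or_gt (N : ℝ) ((q : ℝ) ^ (11 / 10 : ℝ)) with hN2 | hN2
  · have h1 := S2_mod h hF H χ₀ hK L hLA hLc hHL hL4 D κ η hD hDκ hη hHigh N hN1 hN2
    have h2 : ‖DK (1 : DirichletCharacter ℂ q) N‖ *
        ‖Mof (IM W z (10 * R0) Hc) AM (cM' Hc) (1 : DirichletCharacter ℂ q)‖ ^ 2 ≤ (Fintype.card H : ℝ) := by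
      refine le_trans ?_ hH
      have e1 := DK_norm (1 : DirichletCharacter ℂ q) N
      have e2 : Real.sqrt N ≤ (q : ℝ) ^ (55 / 100 : ℝ) := by
        rw [Real.sqrt_le_left (by positivity)]
        have : ((q : ℝ) ^ (55 / 100 : ℝ)) ^ 2 = (q : ℝ) ^ (11 / 10 : ℝ) := by
          rw [← Real.rpow_natCast, ← Real.rpow_mul hq0.le]; norm_num
        rw [this]; exact hN2
      have e3 : Real.log N ≤ 2 * Real.log q := by
        calc Real.log (N : ℝ) ≤ Real.log ((q : ℝ) ^ (11 / 10 : ℝ)) := Real.log_le_log hN0 hN2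
          _ = 11 / 10 * Real.log q := Real.log_rpow hq0 _
          _ ≤ _ := by linarith
      have hlN : 0 ≤ Real.log N := Real.log_nonneg (by exact_mod_cast hN1)
      have e4 : 2 * Real.sqrt N * (1 + Real.log N) ≤ (q : ℝ) ^ (55 / 100 : ℝ) * (q : ℝ) ^ (1 / 100 : ℝ) := by
        calc 2 * Real.sqrt N * (1 + Real.log N) = Real.sqrt N * (2 * (1 + Real.log N)) := by ring
          _ ≤ _ := by
              apply mul_le_mul e2 _ (by linarith) (by positivity)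
              linarith
      calc _ ≤ ((q : ℝ) ^ (55 / 100 : ℝ) * (q : ℝ) ^ (1 / 100 : ℝ)) * (q : ℝ) ^ (1 / 20 : ℝ) :=
            mul_le_mul (e1.trans e4) ((hMn 1).trans hL2sq) (by positivity) (by positivity)
        _ = (q : ℝ) ^ (61 / 100 : ℝ) := by rw [← Real.rpow_add hq0, ← Real.rpow_add hq0]; norm_num
        _ ≤ _ := Real.rpow_le_rpow_of_exponent_le hqR1.le (by norm_num)
    calc _ ≤ (Fintype.card H : ℝ) * (320 * ϱ * C + 1 + (q : ℝ) ^ (1 / 4 : ℝ) / Real.sqrt (Real.sqrt N)) +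
          (Fintype.card H : ℝ) := add_le_add h1 h2
      _ = (Fintype.card H : ℝ) * (320 * ϱ * C + 2 + (q : ℝ) ^ (1 / 4 : ℝ) / Real.sqrt (Real.sqrt N)) := by ring
      _ ≤ _ := by
          apply mul_le_mul_of_nonneg_left _ hHpos.le
          have : 1 ≤ 320 * ϱ * C + 2 := by nlinarith
          nlinarith
  · have hb : ∀ χ : DirichletCharacter ℂ q, ‖DK χ N‖ *
        ‖Mof (IM W z (10 * R0) Hc) AM (cM' Hc) χ‖ ^ 2 ≤ 4 * N * (q : ℝ) ^ (1 / 20 : ℝ) := fun χ =>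
      mul_le_mul (DK_norm' χ N) ((hMn χ).trans hL2sq) (by positivity) (by positivity)
    have h1 : ‖∑ ψ : H, DK (χ₀ * (ψ : DirichletCharacter ℂ q)) N *
      ((‖Mof (IM W z (10 * R0) Hc) AM (cM' Hc) (χ₀ * (ψ : DirichletCharacter ℂ q))‖ ^ 2 : ℝ) : ℂ)‖ ≤
        (Fintype.card H : ℝ) * (4 * N * (q : ℝ) ^ (1 / 20 : ℝ)) := by
      refine (norm_sum_le _ _).trans ?_
      refine (Finset.sum_le_card_nsmul univ _ (4 * N * (q : ℝ) ^ (1 / 20 : ℝ)) (fun ψ _ => ?_)).trans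
        (by rw [nsmul_eq_mul, card_univ])
      rw [norm_mul, Complex.norm_real, Real.norm_of_nonneg (by positivity)]
      exact hb _
    have h2 := hb 1
    have h3 : 8 * (N : ℝ) * (q : ℝ) ^ (1 / 20 : ℝ) ≤ ((N : ℝ) / q) ^ 13 := by
      have t1 : (q : ℝ) ^ (1 / 10 : ℝ) ≤ (N : ℝ) / q := by
        rw [le_div_iff₀ hq0]
        nth_rw 2 [← Real.rpow_one (q : ℝ)]
        rw [← Real.rpow_add hq0]
        norm_num
        exact hN2.le
      have t2 : (q : ℝ) ^ (12 / 10 : ℝ) ≤ ((N : ℝ) / q) ^ 12 := by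
        calc (q : ℝ) ^ (12 / 10 : ℝ) = ((q : ℝ) ^ (1 / 10 : ℝ)) ^ 12 := by
              rw [← Real.rpow_natCast, ← Real.rpow_mul hq0.le]; norm_num
          _ ≤ _ := pow_le_pow_left₀ (by positivity) t1 12
      have t3 : 8 ≤ (q : ℝ) ^ (15 / 100 : ℝ) := by
        have t4 : (4 : ℝ) ≤ (q : ℝ) ^ (1 / 100 : ℝ) := by linarith
        calc (8 : ℝ) ≤ 4 * 4 := by norm_num
          _ ≤ (q : ℝ) ^ (1 / 100 : ℝ) * (q : ℝ) ^ (1 / 100 : ℝ) :=
              mul_le_mul t4 t4 (by norm_num) (by positivity)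
          _ = (q : ℝ) ^ (2 / 100 : ℝ) := by rw [← Real.rpow_add hq0]; norm_num
          _ ≤ _ := Real.rpow_le_rpow_of_exponent_le hqR1.le (by norm_num)
      calc 8 * (N : ℝ) * (q : ℝ) ^ (1 / 20 : ℝ) = (8 * q * (q : ℝ) ^ (1 / 20 : ℝ)) * ((N : ℝ) / q) := by
            field_simp
        _ ≤ ((q : ℝ) ^ (15 / 100 : ℝ) * q * (q : ℝ) ^ (1 / 20 : ℝ)) * ((N : ℝ) / q) := by
            apply mul_le_mul_of_nonneg_right _ (by positivity)
            apply mul_le_mul_of_nonneg_right _ (by positivity)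
            exact mul_le_mul_of_nonneg_right t3 hq0.le
        _ = (q : ℝ) ^ (12 / 10 : ℝ) * ((N : ℝ) / q) := by
            congr 1
            nth_rw 2 [← Real.rpow_one (q : ℝ)]
            rw [← Real.rpow_add hq0, ← Real.rpow_add hq0]
            norm_num
        _ ≤ ((N : ℝ) / q) ^ 12 * ((N : ℝ) / q) := mul_le_mul_of_nonneg_right t2 (by positivity)
        _ = _ := by ring
    have hX0 : 0 ≤ 4 * (N : ℝ) * (q : ℝ) ^ (1 / 20 : ℝ) := by positivity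
    calc _ ≤ (Fintype.card H : ℝ) * (4 * N * (q : ℝ) ^ (1 / 20 : ℝ)) + 4 * N * (q : ℝ) ^ (1 / 20 : ℝ) :=
          add_le_add h1 h2
      _ ≤ (Fintype.card H : ℝ) * (8 * N * (q : ℝ) ^ (1 / 20 : ℝ)) := by
          have hx := le_mul_of_one_le_left hX0 hH1
          have hy : (Fintype.card H : ℝ) * (8 * N * (q : ℝ) ^ (1 / 20 : ℝ)) =
            (Fintype.card H : ℝ) * (4 * N * (q : ℝ) ^ (1 / 20 : ℝ)) +
            (Fintype.card H : ℝ) * (4 * N * (q : ℝ) ^ (1 / 20 : ℝ)) := by ring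
          rw [hy]
          exact add_le_add_right hx _
      _ ≤ (Fintype.card H : ℝ) * ((N : ℝ) / q) ^ 13 := mul_le_mul_of_nonneg_left h3 hHpos.le
      _ ≤ _ := by
          apply mul_le_mul_of_nonneg_left _ hHpos.le
          have h5 : 1 ≤ 320 * ϱ * C + 2 := by linarith
          calc ((N : ℝ) / q) ^ 13 ≤ 1 + ((N : ℝ) / q) ^ 13 +
                (q : ℝ) ^ (1 / 4 : ℝ) / Real.sqrt (Real.sqrt N) := by linarith
            _ ≤ _ := le_mul_of_one_le_left (by linarith) h5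

end

end Pool.Agent.V8H32.NV
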