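import Pool.Agent.V8H32.NV.Ef

/-! Smooth parts of the quadratic forms: exact evaluation and truncation. -/

set_option autoImplicit false

namespace Pool.Agent.V8H32.NV
open Finset
open Pool.Agent.V8H32.Cos (pr)

/-- product of `1 - 1/p` -/
noncomputable def PI0 (Q : Finset ℕ) : ℝ := ∏ p ∈ Q, (1 - 1 / (p : ℝ))

lemma PI0_pos {Q : Finset ℕ} (hQ : ∀ p ∈ Q, p.Prime) : 0 < PI0 Q := by
  unfold PI0
  apply Finset.prod_pos
  intro p hp
  have := x_facts (hQ p hp).two_le
  linarith [this.2]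

lemma PI0_insert {Q : Finset ℕ} {p : ℕ} (hp : p ∉ Q) : PI0 (insert p Q) = (1 - 1 / (p : ℝ)) * PI0 Q := by
  unfold PI0; rw [Finset.prod_insert hp]

theorem A_eval (U V : Finset ℕ) (hd : Disjoint U V) (Q : Finset ℕ) : (∀ p ∈ Q, p.Prime) →
    ((Q ∩ (U ∪ V) = ∅ → A0 U V Q = PI0 Q ∧ |A1 U V Q| ≤ PI0 Q * ∑ p ∈ Q, 2 * (Real.log p / p)) ∧
     (∀ p₀, Q ∩ (U ∪ V) = {p₀} → A0 U V Q = 0 ∧ |A1 U V Q| ≤ Real.log p₀ / 2 * PI0 Q) ∧
     (2 ≤ (Q ∩ (U ∪ V)).card → A0 U V Q = 0 ∧ A1 U V Q = 0)) := by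
  induction Q using Finset.induction_on with
  | empty =>
    intro _
    refine ⟨fun _ => ?_, fun p₀ h => ?_, fun h => ?_⟩
    · rw [A0_empty, A1_empty]
      simp [PI0]
    · rw [Finset.empty_inter] at h
      exact absurd h (Finset.singleton_ne_empty p₀).symm
    · rw [Finset.empty_inter, Finset.card_empty] at h
      omega
  | insert p Q hp ih =>
    intro hpr
    have hpp : p.Prime := hpr p (mem_insert_self p Q)
    have hQ : ∀ x ∈ Q, x.Prime := fun x hx => hpr x (mem_insert_of_mem hx)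
    obtain ⟨i1, i2, i3⟩ := ih hQ
    obtain ⟨a0, a1⟩ := A_insert U V Q p hp hpp hQ
    have hx := x_facts hpp.two_le
    have hP := PI0_pos hQ
    have hlp : 0 < Real.log p := Real.log_pos (by exact_mod_cast hpp.one_lt)
    have hp0 : (0 : ℝ) < p := by exact_mod_cast hpp.pos
    by_cases hX : p ∈ U ∪ V
    · obtain ⟨g, l⟩ := local_in hpp hX hd
      rw [g, zero_mul] at a0
      rw [g, l, zero_mul, zero_add] at a1
      have hins : insert p Q ∩ (U ∪ V) = insert p (Q ∩ (U ∪ V)) := Finset.insert_inter_of_mem hX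
      refine ⟨fun h => ?_, fun p₀ h => ⟨a0, ?_⟩, fun h => ⟨a0, ?_⟩⟩
      · rw [hins] at h
        exact absurd h (Finset.insert_ne_empty _ _)
      · rw [hins] at h
        have hpp0 : p = p₀ := by
          have : p ∈ ({p₀} : Finset ℕ) := h ▸ mem_insert_self p _
          exact mem_singleton.1 this
        have hemp : Q ∩ (U ∪ V) = ∅ := by
          rw [Finset.eq_empty_iff_forall_notMem]
          intro x hx'
          have h2 : x ∈ ({p₀} : Finset ℕ) := h ▸ mem_insert_of_mem hx'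
          have h3 := mem_singleton.1 h2
          rw [h3, ← hpp0] at hx'
          exact hp (mem_inter.1 hx').1
        rw [a1, (i1 hemp).1, PI0_insert hp, ← hpp0, abs_mul, abs_neg, abs_of_pos hP, abs_of_nonneg]
        · exact le_of_eq (by ring)
        · apply mul_nonneg (by positivity)
          linarith [hx.2]
      · rw [hins, Finset.card_insert_of_notMem (fun h' => hp (mem_inter.1 h').1)] at h
        have hA : A0 U V Q = 0 := by
          rcases Nat.lt_or_ge (Q ∩ (U ∪ V)).card 2 with h1 | h1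
          · have h2 : (Q ∩ (U ∪ V)).card = 1 := by omega
            obtain ⟨p₀, h3⟩ := Finset.card_eq_one.1 h2
            exact (i2 p₀ h3).1
          · exact (i3 h1).1
        rw [a1, hA, mul_zero]
    · obtain ⟨g, l⟩ := local_out hpp hX
      rw [g] at a0
      rw [g, l] at a1
      have hins : insert p Q ∩ (U ∪ V) = Q ∩ (U ∪ V) := Finset.insert_inter_of_notMem hX
      have hg0 : 0 < 1 - 1 / (p : ℝ) := by linarith [hx.2]
      refine ⟨fun h => ?_, fun p₀ h => ?_, fun h => ?_⟩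
      · rw [hins] at h
        obtain ⟨j1, j2⟩ := i1 h
        refine ⟨by rw [a0, j1, PI0_insert hp], ?_⟩
        rw [a1, j1, PI0_insert hp, Finset.sum_insert hp]
        have h1 : |(1 - 1 / (p : ℝ)) * A1 U V Q + Real.log p / p * PI0 Q| ≤
            (1 - 1 / (p : ℝ)) * (PI0 Q * ∑ p ∈ Q, 2 * (Real.log p / p)) + Real.log p / p * PI0 Q := by
          refine (abs_add_le _ _).trans (add_le_add ?_ ?_)
          · rw [abs_mul, abs_of_pos hg0]
            exact mul_le_mul_of_nonneg_left j2 hg0.le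
          · rw [abs_of_nonneg (by positivity)]
        refine h1.trans ?_
        have h2 : Real.log p / p * PI0 Q ≤ (1 - 1 / (p : ℝ)) * PI0 Q * (2 * (Real.log p / p)) := by
          have h3 : 1 ≤ (1 - 1 / (p : ℝ)) * 2 := by linarith [hx.2]
          have h4 : 0 ≤ Real.log p / p * PI0 Q := by positivity
          calc Real.log p / p * PI0 Q = 1 * (Real.log p / p * PI0 Q) := (one_mul _).symm
            _ ≤ ((1 - 1 / (p : ℝ)) * 2) * (Real.log p / p * PI0 Q) := mul_le_mul_of_nonneg_right h3 h4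
            _ = _ := by ring
        calc _ ≤ (1 - 1 / (p : ℝ)) * (PI0 Q * ∑ p ∈ Q, 2 * (Real.log p / p)) +
              (1 - 1 / (p : ℝ)) * PI0 Q * (2 * (Real.log p / p)) := by linarith
          _ = _ := by ring
      · rw [hins] at h
        obtain ⟨j1, j2⟩ := i2 p₀ h
        refine ⟨by rw [a0, j1, mul_zero], ?_⟩
        rw [a1, j1, mul_zero, add_zero, abs_mul, abs_of_pos hg0, PI0_insert hp]
        calc (1 - 1 / (p : ℝ)) * |A1 U V Q| ≤ (1 - 1 / (p : ℝ)) * (Real.log p₀ / 2 * PI0 Q) :=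
              mul_le_mul_of_nonneg_left j2 hg0.le
          _ = _ := by ring
      · rw [hins] at h
        obtain ⟨j1, j2⟩ := i3 h
        exact ⟨by rw [a0, j1, mul_zero], by rw [a1, j1, j2]; ring⟩

/-! ### truncation -/

/-- the truncated family -/
def TS (Q : Finset ℕ) (z R : ℕ) : Finset (Finset ℕ) :=
  Q.powerset.filter (fun S => (S.filter (fun p => z < p)).card ≤ R)

noncomputable def T0 (U V Q : Finset ℕ) (z R : ℕ) : ℝ := ∑ S ∈ TS Q z R, ∑ S' ∈ TS Q z R,
  (-1) ^ (S.card + S'.card) * wE U V S S'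
noncomputable def T1 (U V Q : Finset ℕ) (z R : ℕ) : ℝ := ∑ S ∈ TS Q z R, ∑ S' ∈ TS Q z R,
  (-1) ^ (S.card + S'.card) * wE U V S S' * lE U V S S'

/-- dominating local weights -/
noncomputable def xw (X : Finset ℕ) (p : ℕ) : ℝ := if p ∈ X then 1 else 1 / (p : ℝ)
noncomputable def bw (z : ℕ) (B : ℝ) (p : ℕ) : ℝ := if z < p then B else 1

lemma xw_nonneg (X : Finset ℕ) (p : ℕ) : 0 ≤ xw X p := by unfold xw; split_ifs <;> positivity

lemma pr_mono {A B : Finset ℕ} (hB : ∀ p ∈ B, p.Prime) (h : A ⊆ B) : pr A ≤ pr B :=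
  Finset.prod_le_prod_of_subset_of_one_le' h (fun p hp _ => (hB p hp).one_lt.le)

lemma wE_nonneg (U V S S' : Finset ℕ) : 0 ≤ wE U V S S' := by unfold wE; positivity

lemma wE_le {U V S S' : Finset ℕ} (hS : ∀ p ∈ S, p.Prime) (hS' : ∀ p ∈ S', p.Prime) :
    wE U V S S' ≤ ∏ p ∈ S ∪ S', xw (U ∪ V) p := by
  have hun : ∀ p ∈ S ∪ S', p.Prime := fun p hp => (mem_union.1 hp).elim (hS p) (hS' p)
  have h1 : pr S * pr S' = pr (S ∪ S') * pr (S ∩ S') := by
    unfold pr
    rw [Finset.prod_union_inter]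
  have h2 : pr (Ef U V S S') ≤ pr (S ∩ S') * pr ((S ∪ S') ∩ (U ∪ V)) := by
    have h3 : Ef U V S S' ⊆ (S ∩ S') ∪ ((S ∪ S') ∩ (U ∪ V)) := by
      intro p hp
      unfold Ef at hp
      simp only [mem_union, mem_inter, mem_sdiff] at hp ⊢
      tauto
    have h4 : ∀ p ∈ (S ∩ S') ∪ ((S ∪ S') ∩ (U ∪ V)), p.Prime := by
      intro p hp
      rcases mem_union.1 hp with h | h
      · exact hS p (mem_inter.1 h).1
      · exact hun p (mem_inter.1 h).1
    refine (pr_mono h4 h3).trans ?_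
    have h5 : pr ((S ∩ S') ∪ ((S ∪ S') ∩ (U ∪ V))) * pr ((S ∩ S') ∩ ((S ∪ S') ∩ (U ∪ V))) =
        pr (S ∩ S') * pr ((S ∪ S') ∩ (U ∪ V)) := by
      unfold pr
      rw [Finset.prod_union_inter]
    rw [← h5]
    apply Nat.le_mul_of_pos_right
    apply pr_pos'
    intro p hp
    exact hS p (mem_inter.1 (mem_inter.1 hp).1).1
  have h3 : ∏ p ∈ S ∪ S', xw (U ∪ V) p = (pr ((S ∪ S') ∩ (U ∪ V)) : ℝ) / pr (S ∪ S') := by
    have h4 : ∀ p ∈ S ∪ S', xw (U ∪ V) p = (if p ∈ U ∪ V then (p : ℝ) else 1) / p := by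
      intro p hp
      have hp0 : (p : ℝ) ≠ 0 := by exact_mod_cast (hun p hp).ne_zero
      unfold xw
      split_ifs
      · field_simp
      · rfl
    rw [Finset.prod_congr rfl h4, Finset.prod_div_distrib]
    congr 1
    · rw [Finset.prod_ite]
      simp only [Finset.prod_const_one, mul_one]
      unfold pr
      push_cast
      apply Finset.prod_congr _ (fun _ _ => rfl)
      ext p
      simp only [mem_filter, mem_inter]
    · unfold pr; push_cast; rfl
  have hp1 : (0 : ℝ) < pr (S ∪ S') := by exact_mod_cast pr_pos' hun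
  have hp2 : (0 : ℝ) < pr (S ∩ S') := by
    exact_mod_cast pr_pos' (fun p hp => hS p (mem_inter.1 hp).1)
  unfold wE
  rw [h3]
  have h5 : (pr S : ℝ) * pr S' = pr (S ∪ S') * pr (S ∩ S') := by exact_mod_cast h1
  rw [h5, div_le_div_iff₀ (by positivity) hp1]
  have h6 : (pr (Ef U V S S') : ℝ) ≤ pr (S ∩ S') * pr ((S ∪ S') ∩ (U ∪ V)) := by exact_mod_cast h2
  calc (pr (Ef U V S S') : ℝ) * pr (S ∪ S') ≤
      (pr (S ∩ S') * pr ((S ∪ S') ∩ (U ∪ V))) * pr (S ∪ S') := mul_le_mul_of_nonneg_right h6 hp1.le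
    _ = _ := by ring

/-- Rankin sums -/
lemma rankin (b : ℕ → ℝ) (Q : Finset ℕ) :
    ∑ S ∈ Q.powerset, ∑ S' ∈ Q.powerset, ∏ p ∈ S ∪ S', b p = ∏ p ∈ Q, (1 + 3 * b p) := by
  induction Q using Finset.induction_on with
  | empty => simp
  | insert p Q hp ih =>
    rw [pair_insert Q p hp, Finset.prod_insert hp, ← ih]
    have h1 : ∀ T ∈ ({p} : Finset ℕ).powerset, ∀ T' ∈ ({p} : Finset ℕ).powerset,
        ∑ S ∈ Q.powerset, ∑ S' ∈ Q.powerset, ∏ x ∈ (T ∪ S) ∪ (T' ∪ S'), b x =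
        (∏ x ∈ T ∪ T', b x) * ∑ S ∈ Q.powerset, ∑ S' ∈ Q.powerset, ∏ x ∈ S ∪ S', b x := by
      intro T hT T' hT'
      rw [Finset.mul_sum]
      apply Finset.sum_congr rfl
      intro S hS
      rw [Finset.mul_sum]
      apply Finset.sum_congr rfl
      intro S' hS'
      rw [mem_powerset] at hT hT' hS hS'
      have e : (T ∪ S) ∪ (T' ∪ S') = (T ∪ T') ∪ (S ∪ S') := Finset.union_union_union_comm _ _ _ _
      rw [e, Finset.prod_union]
      rw [Finset.disjoint_left]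
      intro x hx hx'
      have h1 : x = p := by
        rcases mem_union.1 hx with h | h
        · exact mem_singleton.1 (hT h)
        · exact mem_singleton.1 (hT' h)
      subst h1
      rcases mem_union.1 hx' with h | h
      · exact hp (hS h)
      · exact hp (hS' h)
    have hne : (∅ : Finset ℕ) ≠ {p} := (Finset.singleton_ne_empty p).symm
    have h2 : ∀ T ∈ ({p} : Finset ℕ).powerset, ∑ T' ∈ ({p} : Finset ℕ).powerset,
        ∑ S ∈ Q.powerset, ∑ S' ∈ Q.powerset, ∏ x ∈ (T ∪ S) ∪ (T' ∪ S'), b x =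
        ∑ T' ∈ ({p} : Finset ℕ).powerset,
        (∏ x ∈ T ∪ T', b x) * ∑ S ∈ Q.powerset, ∑ S' ∈ Q.powerset, ∏ x ∈ S ∪ S', b x :=
      fun T hT => Finset.sum_congr rfl (fun T' hT' => h1 T hT T' hT')
    rw [Finset.sum_congr rfl h2, pow_single, Finset.sum_pair hne, Finset.sum_pair hne,
      Finset.sum_pair hne]
    simp
    ring

lemma lE_abs {U V S S' Q : Finset ℕ} (hQ : ∀ p ∈ Q, p.Prime) (hS : S ⊆ Q) (hS' : S' ⊆ Q) :
    |lE U V S S'| ≤ Real.log (pr Q) := by
  have h1 : ∀ p ∈ S, p.Prime := fun p hp => hQ p (hS hp)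
  have h2 : ∀ p ∈ S', p.Prime := fun p hp => hQ p (hS' hp)
  have hE := Ef_prime (U := U) (V := V) h1 h2
  have e1 : (1 : ℝ) ≤ pr S := by exact_mod_cast pr_pos' h1
  have e2 : (1 : ℝ) ≤ pr S' := by exact_mod_cast pr_pos' h2
  have e3 : (1 : ℝ) ≤ pr (Ef U V S S') := by exact_mod_cast pr_pos' hE
  have f1 : (pr S : ℝ) ≤ pr Q := by exact_mod_cast pr_mono hQ hS
  have f2 : (pr S' : ℝ) ≤ pr Q := by exact_mod_cast pr_mono hQ hS'
  have f3 : pr (Ef U V S S') ≤ pr S * pr S' := by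
    have h3 : ∀ p ∈ S ∪ S', p.Prime := fun p hp => (mem_union.1 hp).elim (h1 p) (h2 p)
    refine (pr_mono h3 (Ef_sub U V S S')).trans ?_
    have h4 : pr S * pr S' = pr (S ∪ S') * pr (S ∩ S') := by
      unfold pr
      rw [Finset.prod_union_inter]
    rw [h4]
    exact Nat.le_mul_of_pos_right _ (pr_pos' (fun p hp => h1 p (mem_inter.1 hp).1))
  have f4 : Real.log (pr (Ef U V S S')) ≤ Real.log (pr S) + Real.log (pr S') := by
    rw [← Real.log_mul (by linarith) (by linarith)]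
    apply Real.log_le_log (by linarith)
    exact_mod_cast f3
  have g1 := Real.log_nonneg e1
  have g2 := Real.log_nonneg e2
  have g3 := Real.log_nonneg e3
  have k1 := Real.log_le_log (by linarith) f1
  have k2 := Real.log_le_log (by linarith) f2
  unfold lE
  rw [abs_le]
  constructor <;> linarith

theorem trunc (U V Q : Finset ℕ) (hQ : ∀ p ∈ Q, p.Prime) (z R : ℕ) (B : ℝ) (hB : 1 ≤ B) :
    |A0 U V Q - T0 U V Q z R| ≤ (B ^ R)⁻¹ * ∏ p ∈ Q, (1 + 3 * (xw (U ∪ V) p * bw z B p)) ∧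
    |A1 U V Q - T1 U V Q z R| ≤ Real.log (pr Q) *
      ((B ^ R)⁻¹ * ∏ p ∈ Q, (1 + 3 * (xw (U ∪ V) p * bw z B p))) := by
  have hB0 : 0 < B := by linarith
  set E := ((Q.powerset ×ˢ Q.powerset).filter (fun x => ¬ (x.1 ∈ TS Q z R ∧ x.2 ∈ TS Q z R))) with hE
  have hsplit : ∀ F : Finset ℕ → Finset ℕ → ℝ,
      ∑ S ∈ Q.powerset, ∑ S' ∈ Q.powerset, F S S' - ∑ S ∈ TS Q z R, ∑ S' ∈ TS Q z R, F S S' =
      ∑ x ∈ E, F x.1 x.2 := by
    intro F
    rw [← Finset.sum_product', ← Finset.sum_product', hE,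
      ← Finset.sum_filter_add_sum_filter_not (Q.powerset ×ˢ Q.powerset)
        (fun x => x.1 ∈ TS Q z R ∧ x.2 ∈ TS Q z R)]
    have : (Q.powerset ×ˢ Q.powerset).filter (fun x => x.1 ∈ TS Q z R ∧ x.2 ∈ TS Q z R) =
        TS Q z R ×ˢ TS Q z R := by
      ext x
      simp only [mem_filter, mem_product, TS]
      tauto
    rw [this]
    ring
  have hmain : ∑ x ∈ E, wE U V x.1 x.2 ≤ (B ^ R)⁻¹ * ∏ p ∈ Q, (1 + 3 * (xw (U ∪ V) p * bw z B p)) := by
    have hb1 : ∀ p, 1 ≤ bw z B p := by intro p; unfold bw; split_ifs <;> linarith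
    rw [← rankin, ← Finset.sum_product', Finset.mul_sum]
    have h1 : ∀ x ∈ E, wE U V x.1 x.2 ≤ (B ^ R)⁻¹ * ∏ p ∈ x.1 ∪ x.2, (xw (U ∪ V) p * bw z B p) := by
      intro x hx
      rw [hE, mem_filter, mem_product, mem_powerset, mem_powerset] at hx
      have hS1 : ∀ p ∈ x.1, p.Prime := fun p hp => hQ p (hx.1.1 hp)
      have hS2 : ∀ p ∈ x.2, p.Prime := fun p hp => hQ p (hx.1.2 hp)
      have h2 := wE_le (U := U) (V := V) hS1 hS2
      rw [Finset.prod_mul_distrib]
      have h3 : B ^ R ≤ ∏ p ∈ x.1 ∪ x.2, bw z B p := by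
        have h4 : R < ((x.1 ∪ x.2).filter (fun p => z < p)).card := by
          by_contra hcon
          push Not at hcon
          apply hx.2
          unfold TS
          rw [mem_filter, mem_filter, mem_powerset, mem_powerset]
          exact ⟨⟨hx.1.1, (Finset.card_le_card (Finset.filter_subset_filter _ subset_union_left)).trans hcon⟩,
            ⟨hx.1.2, (Finset.card_le_card (Finset.filter_subset_filter _ subset_union_right)).trans hcon⟩⟩
        unfold bw
        rw [Finset.prod_ite, Finset.prod_const, Finset.prod_const_one, mul_one]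
        exact pow_le_pow_right₀ hB h4.le
      have h5 : 0 ≤ ∏ p ∈ x.1 ∪ x.2, xw (U ∪ V) p := Finset.prod_nonneg (fun p _ => xw_nonneg _ p)
      calc wE U V x.1 x.2 ≤ ∏ p ∈ x.1 ∪ x.2, xw (U ∪ V) p := h2
        _ = (B ^ R)⁻¹ * ((∏ p ∈ x.1 ∪ x.2, xw (U ∪ V) p) * B ^ R) := by field_simp
        _ ≤ (B ^ R)⁻¹ * ((∏ p ∈ x.1 ∪ x.2, xw (U ∪ V) p) * ∏ p ∈ x.1 ∪ x.2, bw z B p) := by
            apply mul_le_mul_of_nonneg_left _ (by positivity)
            exact mul_le_mul_of_nonneg_left h3 h5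
    refine (Finset.sum_le_sum h1).trans ?_
    apply Finset.sum_le_sum_of_subset_of_nonneg (Finset.filter_subset _ _)
    intro x _ _
    apply mul_nonneg (by positivity)
    apply Finset.prod_nonneg
    intro p _
    exact mul_nonneg (xw_nonneg _ p) (by linarith [hb1 p])
  constructor
  · unfold A0 T0
    rw [hsplit (fun S S' => (-1) ^ (S.card + S'.card) * wE U V S S')]
    refine (Finset.abs_sum_le_sum_abs _ _).trans (le_trans (Finset.sum_le_sum fun x _ => ?_) hmain)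
    rw [abs_mul, abs_pow, abs_neg, abs_one, one_pow, one_mul, abs_of_nonneg (wE_nonneg _ _ _ _)]
  · unfold A1 T1
    rw [hsplit (fun S S' => (-1) ^ (S.card + S'.card) * wE U V S S' * lE U V S S')]
    refine (Finset.abs_sum_le_sum_abs _ _).trans ?_
    have hl : 0 ≤ Real.log (pr Q) := Real.log_nonneg (by exact_mod_cast pr_pos' hQ)
    refine le_trans ?_ (mul_le_mul_of_nonneg_left hmain hl)
    rw [Finset.mul_sum]
    apply Finset.sum_le_sum
    intro x hx
    rw [hE, mem_filter, mem_product, mem_powerset, mem_powerset] at hx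
    rw [abs_mul, abs_mul, abs_pow, abs_neg, abs_one, one_pow, one_mul, abs_of_nonneg (wE_nonneg _ _ _ _),
      mul_comm]
    exact mul_le_mul_of_nonneg_right (lE_abs hQ hx.1.1 hx.1.2) (wE_nonneg _ _ _ _)

end Pool.Agent.V8H32.NV
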