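import Mathlib

/-! Theta series of a primitive Dirichlet character: functional equation. -/

set_option autoImplicit false

namespace Pool.Agent.V8H32.NV
open Complex Finset MeasureTheory Filter Topology HurwitzZeta

/-- `∑_{n ≥ 0} χ(n) n^a exp(-π n² t / q)` -/
noncomputable def Th {q : ℕ} (χ : DirichletCharacter ℂ q) (a : ℕ) (t : ℝ) : ℂ :=
  ∑' n : ℕ, χ (n : ZMod q) * (n : ℂ) ^ a * (Real.exp (-(Real.pi * n ^ 2 / q) * t) : ℝ)

/-- dominating sequence -/
lemma dom_summable {c : ℝ} (hc : 0 < c) : Summable (fun n : ℕ => (n : ℝ) * Real.exp (-c * n)) := by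
  have h := Real.summable_pow_mul_exp_neg_nat_mul 1 hc
  simpa using h

lemma term_le {q : ℕ} (hq : 0 < q) (χ : DirichletCharacter ℂ q) {a : ℕ} (ha : a ≤ 1) {t δ : ℝ}
    (hδ : 0 ≤ δ) (ht : δ ≤ t) (hχ : χ 0 = 0) (n : ℕ) :
    ‖χ (n : ZMod q) * (n : ℂ) ^ a * (Real.exp (-(Real.pi * n ^ 2 / q) * t) : ℝ)‖ ≤
      (n : ℝ) * Real.exp (-(Real.pi * δ / q) * n) := by
  rcases Nat.eq_zero_or_pos n with h0 | h0
  · subst h0
    simp [hχ]
  have h1 : (1 : ℝ) ≤ n := by exact_mod_cast h0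
  have hq' : (0 : ℝ) < q := by exact_mod_cast hq
  rw [norm_mul, norm_mul, norm_pow, Complex.norm_natCast, Complex.norm_real,
    Real.norm_of_nonneg (Real.exp_pos _).le]
  have h2 : ‖χ (n : ZMod q)‖ * (n : ℝ) ^ a ≤ n := by
    have h3 : ‖χ (n : ZMod q)‖ ≤ 1 := DirichletCharacter.norm_le_one χ _
    have h4 : (n : ℝ) ^ a ≤ n := by
      interval_cases a
      · simpa using h1
      · simp
    calc ‖χ (n : ZMod q)‖ * (n : ℝ) ^ a ≤ 1 * (n : ℝ) :=
          mul_le_mul h3 h4 (by positivity) zero_le_one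
      _ = n := one_mul _
  have h5 : Real.exp (-(Real.pi * n ^ 2 / q) * t) ≤ Real.exp (-(Real.pi * δ / q) * n) := by
    apply Real.exp_le_exp.2
    have e1 : -(Real.pi * n ^ 2 / q) * t = -(Real.pi / q) * ((n : ℝ) ^ 2 * t) := by ring
    have e2 : -(Real.pi * δ / q) * n = -(Real.pi / q) * ((n : ℝ) * δ) := by ring
    rw [e1, e2]
    apply mul_le_mul_of_nonpos_left
    · have h6 : (n : ℝ) ≤ (n : ℝ) ^ 2 := by nlinarith
      exact mul_le_mul h6 ht hδ (by positivity)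
    · have := div_pos Real.pi_pos hq'
      linarith
  exact mul_le_mul h2 h5 (Real.exp_pos _).le (by positivity)

lemma summable_term {q : ℕ} (hq : 0 < q) (χ : DirichletCharacter ℂ q) {a : ℕ} (ha : a ≤ 1) {t : ℝ}
    (ht : 0 < t) (hχ : χ 0 = 0) :
    Summable (fun n : ℕ => χ (n : ZMod q) * (n : ℂ) ^ a *
      (Real.exp (-(Real.pi * n ^ 2 / q) * t) : ℝ)) := by
  have hq' : (0 : ℝ) < q := by exact_mod_cast hq
  refine Summable.of_norm_bounded (dom_summable (c := Real.pi * t / q) (by positivity)) ?_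
  intro n
  exact term_le hq χ ha ht.le le_rfl hχ n

lemma summable_int {q : ℕ} (hq : 0 < q) (χ : DirichletCharacter ℂ q) {a : ℕ} (ha : a ≤ 1) {t : ℝ}
    (ht : 0 < t) (hχ : χ 0 = 0) :
    Summable (fun n : ℤ => χ (n : ZMod q) * (n : ℂ) ^ a *
      (Real.exp (-(Real.pi * n ^ 2 / q) * t) : ℝ)) := by
  apply Summable.of_nat_of_neg
  · have := summable_term hq χ ha ht hχ
    refine this.congr (fun n => ?_)
    push_cast
    rfl
  · have := summable_term hq (χ) ha ht hχ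
    refine Summable.of_norm_bounded (this.norm) (fun n => ?_)
    apply le_of_eq
    rw [norm_mul, norm_mul, norm_mul, norm_mul, norm_pow, norm_pow]
    have h1 : χ (((-(n : ℤ) : ℤ) : ZMod q)) = χ (-1) * χ (n : ZMod q) := by
      rw [← map_mul]
      congr 1
      push_cast
      ring
    have h2 : ‖χ (-1)‖ = 1 := by
      have h3 : χ (-1) * χ (-1) = 1 := by rw [← map_mul]; simp
      have h4 : ‖χ (-1)‖ * ‖χ (-1)‖ = 1 := by rw [← norm_mul, h3, norm_one]
      nlinarith [norm_nonneg (χ (-1)), sq_nonneg (‖χ (-1)‖ - 1)]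
    rw [h1, norm_mul, h2, one_mul]
    simp

/-- splitting a sum over the integers into residue classes -/
lemma sum_split (q : ℕ) [NeZero q] (F : ℤ → ℂ) (hF : Summable F) :
    ∑' n : ℤ, F n = ∑ r : Fin q, ∑' m : ℤ, F (m * q + r) := by
  have h1 := (Int.divModEquiv q).symm.tsum_eq F
  rw [← h1]
  have h2 : Summable (fun p : ℤ × Fin q => F ((Int.divModEquiv q).symm p)) :=
    ((Int.divModEquiv q).symm.summable_iff (f := F)).2 hF
  have h3 : ∀ p : ℤ × Fin q, (Int.divModEquiv q).symm p = p.1 * q + p.2 := fun p => rfl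
  rw [Summable.tsum_prod h2, ]
  simp_rw [tsum_fintype, h3]
  rw [Summable.tsum_finsetSum]
  intro r _
  have h4 : Function.Injective (fun m : ℤ => m * q + (r : ℤ)) := by
    intro m m' h
    simp only [add_left_inj] at h
    have hq : (q : ℤ) ≠ 0 := by exact_mod_cast NeZero.ne q
    exact mul_right_cancel₀ hq h
  exact hF.comp_injective h4

lemma tsum_int_eq {q : ℕ} (hq : 0 < q) (χ : DirichletCharacter ℂ q) {a : ℕ} (ha : a ≤ 1) {t : ℝ}
    (ht : 0 < t) (hχ : χ 0 = 0) (hp : χ (-1) = (-1) ^ a) :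
    ∑' n : ℤ, χ (n : ZMod q) * (n : ℂ) ^ a *
      (Real.exp (-(Real.pi * n ^ 2 / q) * t) : ℝ) = 2 * Th χ a t := by
  have h1 := (summable_term hq χ ha ht hχ).hasSum
  set G : ℕ → ℂ := fun n : ℕ => χ (n : ZMod q) * (n : ℂ) ^ a *
      (Real.exp (-(Real.pi * n ^ 2 / q) * t) : ℝ) with hG
  have hG0 : G 0 = 0 := by simp [hG, hχ]
  have h2 : HasSum (fun n : ℕ => G (n + 1)) (∑' n, G n) := by
    have := (hasSum_nat_add_iff' (f := G) (g := ∑' n, G n) 1).2 h1
    simpa [hG0] using this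
  have h3 : HasSum (fun n : ℤ => χ (n : ZMod q) * (n : ℂ) ^ a *
      (Real.exp (-(Real.pi * n ^ 2 / q) * t) : ℝ)) ((∑' n, G n) + (∑' n, G n)) := by
    apply HasSum.of_nat_of_neg_add_one
    · refine h1.congr_fun (fun n => ?_)
      simp [hG]
    · refine h2.congr_fun (fun n => ?_)
      have e1 : χ (((-((n : ℤ) + 1) : ℤ)) : ZMod q) = χ (-1) * χ ((n + 1 : ℕ) : ZMod q) := by
        rw [← map_mul]
        congr 1
        push_cast
        ring
      rw [e1, hp, hG]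
      have e2 : (((-((n : ℤ) + 1) : ℤ)) : ℂ) = (-1) * ((n + 1 : ℕ) : ℂ) := by push_cast; ring
      have e3 : (((-((n : ℤ) + 1) : ℤ)) : ℝ) ^ 2 = ((n + 1 : ℕ) : ℝ) ^ 2 := by push_cast; ring
      have e4 : ((-1 : ℂ) ^ a) * (-1) ^ a = 1 := by rw [← mul_pow]; simp
      rw [e2, e3, mul_pow]
      linear_combination (- χ ((n + 1 : ℕ) : ZMod q) * ((n + 1 : ℕ) : ℂ) ^ a *
        (Real.exp (-(Real.pi * ((n + 1 : ℕ) : ℝ) ^ 2 / q) * t) : ℝ)) * (1 - e4) 
  rw [h3.tsum_eq, Th]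
  ring

end Pool.Agent.V8H32.NV
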