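import Pool.Agent.V8H32.NV.Pps

/-! The size of the truncation error; bounds for the main terms. -/

set_option autoImplicit false

namespace Pool.Agent.V8H32.NV
open Finset
open Pool.Agent.V8H32.Cos (pr)
open scoped Classical

/-- sizes, second part -/
structure Sz2 (q z W R0 Hc : ℕ) (ϱ C : ℝ) : Prop extends Sz q z W where
  zbig : 4 ^ 10 ≤ z
  hHc : Hc = z ^ R0
  hlow : (z : ℝ) ^ 2 ≤ R0 * Real.log z
  hup : 6 * Real.log (4 * Hc) ≤ Real.log q
  hϱ : Real.log q ≤ ϱ * Real.log Hc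
  hϱ0 : 1 ≤ ϱ
  hC : 1 ≤ C
  hCH : 8 * C * (Real.log q) ^ 4 * 8 ≤ (z : ℝ) ^ 30
  hCH2 : 16 * C * (Real.log q) ^ 5 ≤ Real.sqrt Hc

section
variable {q z W R0 Hc : ℕ} {ϱ C : ℝ}

lemma Sz2.zR (h : Sz2 q z W R0 Hc ϱ C) : (1048576 : ℝ) ≤ z := by
  have : ((4 ^ 10 : ℕ) : ℝ) ≤ z := Nat.cast_le.2 h.zbig
  norm_num at this
  exact_mod_cast this

lemma Sz2.logHc (h : Sz2 q z W R0 Hc ϱ C) : Real.log Hc = R0 * Real.log z := by
  rw [h.hHc]; push_cast; rw [Real.log_pow]

lemma Sz2.logz (h : Sz2 q z W R0 Hc ϱ C) : Real.log z ≤ 2 * Real.sqrt z := by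
  have hz := h.zR
  have h0 : (0 : ℝ) < z := by linarith
  have h1 : Real.log z = 2 * Real.log (Real.sqrt z) := by
    rw [Real.log_sqrt h0.le]; ring
  have h2 := Real.log_le_sub_one_of_pos (Real.sqrt_pos.2 h0)
  linarith

/-- logarithm of the smoothness bound -/
lemma Sz2.logW2 (h : Sz2 q z W R0 Hc ϱ C) : Real.sqrt z * (1 + Real.log W) ≤ 1203 * z := by
  have hz := h.zR
  have h0 : (0 : ℝ) < z := by linarith
  have hs : 0 < Real.sqrt (z : ℝ) := Real.sqrt_pos.2 h0
  have hs1 : 1 ≤ Real.sqrt (z : ℝ) := by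
    rw [show (1 : ℝ) = Real.sqrt 1 by simp]
    exact Real.sqrt_le_sqrt (by linarith)
  have hss : Real.sqrt (z : ℝ) * Real.sqrt z = z := Real.mul_self_sqrt h0.le
  have h1 := h.logz
  rw [h.toSz.logW]
  calc Real.sqrt z * (1 + 600 * Real.log z) ≤ Real.sqrt z * (Real.sqrt z + 600 * (2 * Real.sqrt z)) := by
        apply mul_le_mul_of_nonneg_left _ hs.le
        linarith
    _ = 1201 * (Real.sqrt z * Real.sqrt z) := by ring
    _ = 1201 * z := by rw [hss]
    _ ≤ _ := by linarith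

lemma loc_le (X : Finset ℕ) (z : ℕ) (B : ℝ) (hB : 1 ≤ B) {p : ℕ} (hp : p.Prime) :
    1 + 3 * (xw X p * bw z B p) ≤
      (if p ≤ z then 4 else 1) * (if p ∈ X ∧ z < p then 4 * B else 1) * Real.exp (3 * B * (1 / (p : ℝ))) := by
  have hp0 : (0 : ℝ) < p := by exact_mod_cast hp.pos
  have hp1 : 1 / (p : ℝ) ≤ 1 := by
    rw [div_le_one hp0]; exact_mod_cast hp.one_lt.le
  have hE : 1 ≤ Real.exp (3 * B * (1 / (p : ℝ))) := Real.one_le_exp (by positivity)
  have hE2 := Real.add_one_le_exp (3 * B * (1 / (p : ℝ)))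
  unfold xw bw
  by_cases h1 : p ≤ z
  · have h2 : ¬ z < p := by omega
    rw [if_pos h1, if_neg h2, if_neg (show ¬ (p ∈ X ∧ z < p) from fun h => h2 h.2)]
    have : (if p ∈ X then (1 : ℝ) else 1 / p) ≤ 1 := by split_ifs <;> linarith
    linarith
  · have h2 : z < p := by omega
    rw [if_neg h1, if_pos h2]
    by_cases h3 : p ∈ X
    · rw [if_pos h3, if_pos (show p ∈ X ∧ z < p from ⟨h3, h2⟩)]
      nlinarith
    · rw [if_neg h3, if_neg (show ¬ (p ∈ X ∧ z < p) from fun h => h3 h.1)]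
      linarith

lemma Sz2.trunc_small (h : Sz2 q z W R0 Hc ϱ C) {w : ℕ × ℕ} (h1 : 0 < w.1) (h2 : 0 < w.2)
    (h3 : w.1 * w.2 ≤ Hc) :
    (Real.sqrt z ^ (10 * R0))⁻¹ * ∏ p ∈ (Icc 1 W).filter Nat.Prime,
      (1 + 3 * (xw (w.1.primeFactors ∪ w.2.primeFactors) p * bw z (Real.sqrt z) p)) ≤ 1 / (Hc : ℝ) ^ 4 := by
  have hz := h.zR
  have h0 : (0 : ℝ) < z := by linarith
  have hs : 0 < Real.sqrt (z : ℝ) := Real.sqrt_pos.2 h0
  have hs1 : 1 ≤ Real.sqrt (z : ℝ) := by
    rw [show (1 : ℝ) = Real.sqrt 1 by simp]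
    exact Real.sqrt_le_sqrt (by linarith)
  set X := w.1.primeFactors ∪ w.2.primeFactors with hX
  set Q := (Icc 1 W).filter Nat.Prime with hQ
  set B := Real.sqrt (z : ℝ) with hB
  have hQp : ∀ p ∈ Q, p.Prime := fun p hp => (mem_filter.1 hp).2
  have hro : ro z w ≤ R0 := by
    have e1 := ro_pow (W := z) h1 h2
    rw [h.hHc] at h3
    have e2 : z ^ ro z w ≤ z ^ R0 := e1.trans h3
    have hz2 : 1 < z := by have := h.zbig; omega
    exact (Nat.pow_le_pow_iff_right hz2).1 e2
  have hprod : ∏ p ∈ Q, (1 + 3 * (xw X p * bw z B p)) ≤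
      4 ^ z * (4 * B) ^ R0 * Real.exp (3 * B * (1 + Real.log W)) := by
    have e1 : ∏ p ∈ Q, (1 + 3 * (xw X p * bw z B p)) ≤ ∏ p ∈ Q,
        ((if p ≤ z then (4 : ℝ) else 1) * (if p ∈ X ∧ z < p then 4 * B else 1) *
          Real.exp (3 * B * (1 / (p : ℝ)))) := by
      apply Finset.prod_le_prod
      · intro p _
        have a1 := xw_nonneg X p
        have a2 : 0 ≤ bw z B p := by unfold bw; split_ifs <;> linarith
        have := mul_nonneg a1 a2
        linarith
      · intro p hp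
        exact loc_le X z B hs1 (hQp p hp)
    refine e1.trans ?_
    rw [Finset.prod_mul_distrib, Finset.prod_mul_distrib]
    apply mul_le_mul
    · apply mul_le_mul
      · rw [Finset.prod_ite, Finset.prod_const, Finset.prod_const_one, mul_one]
        apply pow_le_pow_right₀ (by norm_num)
        calc (Q.filter (fun p => p ≤ z)).card ≤ (Icc 1 z).card := by
              apply card_le_card
              intro p hp
              rw [mem_filter, hQ, mem_filter, mem_Icc] at hp
              rw [mem_Icc]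
              exact ⟨hp.1.1.1, hp.2⟩
          _ = z := by simp
      · rw [Finset.prod_ite, Finset.prod_const, Finset.prod_const_one, mul_one]
        apply pow_le_pow_right₀ (by linarith)
        refine le_trans (card_le_card ?_) hro
        intro p hp
        rw [mem_filter] at hp
        unfold PF
        rw [mem_filter]
        exact hp.2
      · apply Finset.prod_nonneg
        intro p _
        split_ifs <;> linarith
      · positivity
    · rw [← Real.exp_sum, ← Finset.mul_sum]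
      apply Real.exp_le_exp.2
      apply mul_le_mul_of_nonneg_left _ (by positivity)
      have h6 : ∑ i ∈ Icc 1 W, 1 / (i : ℝ) = (harmonic W : ℝ) := by
        rw [harmonic_eq_sum_Icc]
        push_cast
        exact Finset.sum_congr rfl fun i _ => by rw [one_div]
      refine le_trans ?_ (harmonic_le_one_add_log W)
      rw [← h6]
      exact Finset.sum_le_sum_of_subset_of_nonneg (filter_subset _ _) (fun i _ _ => by positivity)
    · exact Finset.prod_nonneg (fun p _ => (Real.exp_pos _).le)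
    · positivity
  have hHc0 : (0 : ℝ) < Hc := by rw [h.hHc]; push_cast; positivity
  calc (B ^ (10 * R0))⁻¹ * ∏ p ∈ Q, (1 + 3 * (xw X p * bw z B p)) ≤
      (B ^ (10 * R0))⁻¹ * (4 ^ z * (4 * B) ^ R0 * Real.exp (3 * B * (1 + Real.log W))) :=
        mul_le_mul_of_nonneg_left hprod (by positivity)
    _ = Real.exp (-(10 * R0 : ℝ) * Real.log B + z * Real.log 4 + R0 * Real.log (4 * B) +
        3 * B * (1 + Real.log W)) := by
        rw [Real.exp_add, Real.exp_add, Real.exp_add]
        have e1 : Real.exp (-(10 * R0 : ℝ) * Real.log B) = (B ^ (10 * R0))⁻¹ := by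
          rw [neg_mul, Real.exp_neg]
          congr 1
          have : (10 * (R0 : ℝ)) * Real.log B = ((10 * R0 : ℕ) : ℝ) * Real.log B := by push_cast; ring
          rw [this, Real.exp_nat_mul, Real.exp_log hs]
        have e2 : Real.exp ((z : ℝ) * Real.log 4) = 4 ^ z := by
          rw [Real.exp_nat_mul, Real.exp_log (by norm_num)]
        have e3 : Real.exp ((R0 : ℝ) * Real.log (4 * B)) = (4 * B) ^ R0 := by
          rw [Real.exp_nat_mul, Real.exp_log (by positivity)]
        rw [e1, e2, e3]; ring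
    _ ≤ Real.exp (-(4 * Real.log Hc)) := by
        apply Real.exp_le_exp.2
        rw [Real.log_mul (by norm_num) hs.ne', hB, Real.log_sqrt h0.le, h.logHc, ← hB]
        have f1 := h.logW2
        have f2 := h.hlow
        have f3 : Real.log 4 ≤ Real.log z / 10 := by
          have : Real.log ((4 : ℝ) ^ 10) ≤ Real.log z := by
            apply Real.log_le_log (by positivity)
            calc (4 : ℝ) ^ 10 = 1048576 := by norm_num
              _ ≤ z := h.zR
          rw [Real.log_pow] at this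
          push_cast at this
          linarith
        have f4 : Real.log 4 ≤ 2 := by
          have : Real.log 4 = 2 * Real.log 2 := by
            rw [show (4 : ℝ) = 2 ^ 2 by norm_num, Real.log_pow]; norm_num
          have := Real.log_two_lt_d9
          linarith
        have f5 : (R0 : ℝ) * Real.log 4 ≤ R0 * (Real.log z / 10) :=
          mul_le_mul_of_nonneg_left f3 (Nat.cast_nonneg _)
        have f6 : (z : ℝ) * Real.log 4 ≤ z * 2 := mul_le_mul_of_nonneg_left f4 h0.le
        have f7 : (4000 : ℝ) * z ≤ (z : ℝ) ^ 2 / 10 := by nlinarith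
        nlinarith
    _ = 1 / (Hc : ℝ) ^ 4 := by
        rw [Real.exp_neg, one_div]
        congr 1
        have : 4 * Real.log Hc = ((4 : ℕ) : ℝ) * Real.log Hc := by norm_num
        rw [this, Real.exp_nat_mul, Real.exp_log hHc0]

lemma Sz2.HcR (h : Sz2 q z W R0 Hc ϱ C) : (0 : ℝ) < Hc ∧ (z : ℝ) ^ 2 ≤ Real.log Hc ∧
    2 * (W : ℝ) ≤ Hc ∧ 1 ≤ Real.log Hc ∧ Real.log Hc ≤ Real.log q ∧ 3 ≤ W ∧ W ≤ Hc := by
  have hz := h.zR
  have h0 : (0 : ℝ) < z := by linarith
  have hHc0 : (0 : ℝ) < Hc := by rw [h.hHc]; push_cast; positivity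
  have h1 : (z : ℝ) ^ 2 ≤ Real.log Hc := by rw [h.logHc]; exact h.hlow
  have hW0 : (0 : ℝ) < W := by rw [h.W]; push_cast; positivity
  have hz1 : (1 : ℝ) ≤ (z : ℝ) ^ 2 := one_le_pow₀ (by linarith)
  have h2 : 2 * (W : ℝ) ≤ Hc := by
    have e1 : Real.log (2 * W) ≤ Real.log Hc := by
      rw [Real.log_mul (by norm_num) hW0.ne', h.toSz.logW]
      have := h.logz
      have e2 : Real.sqrt (z : ℝ) ≤ z := by
        rw [Real.sqrt_le_left h0.le]
        nlinarith
      have e3 := Real.log_two_lt_d9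
      nlinarith
    exact (Real.log_le_log_iff (by positivity) hHc0).1 e1
  have h3 : (3 : ℝ) ≤ W := by
    rw [h.W]; push_cast
    calc (3 : ℝ) ≤ z := by linarith
      _ ≤ (z : ℝ) ^ 600 := le_self_pow₀ (by linarith) (by norm_num)
  refine ⟨hHc0, h1, h2, by linarith, ?_, by exact_mod_cast h3, ?_⟩
  · have h4 := h.hup
    rw [Real.log_mul (by norm_num) hHc0.ne'] at h4
    have h5 : 0 ≤ Real.log 4 := Real.log_nonneg (by norm_num)
    have h6 : 0 ≤ Real.log Hc := by linarith
    linarith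
  · have : (W : ℝ) ≤ Hc := by linarith
    exact_mod_cast this

lemma pr_primes (W : ℕ) : pr ((Icc 1 W).filter Nat.Prime) = primorial W := by
  unfold pr primorial
  apply Finset.prod_congr _ (fun _ _ => rfl)
  ext p
  simp only [mem_filter, mem_Icc, mem_range]
  constructor
  · rintro ⟨⟨_, a⟩, b⟩; exact ⟨by omega, b⟩
  · rintro ⟨a, b⟩; exact ⟨⟨b.one_lt.le, by omega⟩, b⟩

lemma log_pr_le (W : ℕ) : Real.log (pr ((Icc 1 W).filter Nat.Prime)) ≤ 2 * W := by
  rw [pr_primes]
  have h1 : (primorial W : ℝ) ≤ 4 ^ W := by exact_mod_cast primorial_le_four_pow W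
  have h2 := Real.log_le_log (by exact_mod_cast primorial_pos W) h1
  rw [Real.log_pow] at h2
  have f4 : Real.log 4 ≤ 2 := by
    have : Real.log 4 = 2 * Real.log 2 := by
      rw [show (4 : ℝ) = 2 ^ 2 by norm_num, Real.log_pow]; norm_num
    have := Real.log_two_lt_d9
    linarith
  nlinarith [(Nat.cast_nonneg W : (0 : ℝ) ≤ W)]

/-- truncation errors of the two smooth forms -/
lemma Sz2.trunc2 (h : Sz2 q z W R0 Hc ϱ C) {w : ℕ × ℕ} (h1 : 0 < w.1) (h2 : 0 < w.2)
    (h3 : w.1 * w.2 ≤ Hc) :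
    |T0 w.1.primeFactors w.2.primeFactors ((Icc 1 W).filter Nat.Prime) z (10 * R0) -
      A0 w.1.primeFactors w.2.primeFactors ((Icc 1 W).filter Nat.Prime)| ≤ 1 / (Hc : ℝ) ^ 4 ∧
    |T1 w.1.primeFactors w.2.primeFactors ((Icc 1 W).filter Nat.Prime) z (10 * R0) -
      A1 w.1.primeFactors w.2.primeFactors ((Icc 1 W).filter Nat.Prime)| ≤ 1 / (Hc : ℝ) ^ 3 := by
  have hz := h.zR
  have h0 : (0 : ℝ) < z := by linarith
  have hs1 : 1 ≤ Real.sqrt (z : ℝ) := by
    rw [show (1 : ℝ) = Real.sqrt 1 by simp]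
    exact Real.sqrt_le_sqrt (by linarith)
  obtain ⟨g1, _, g3, _⟩ := h.HcR
  have e0 := trunc w.1.primeFactors w.2.primeFactors ((Icc 1 W).filter Nat.Prime)
    (fun p hp => (mem_filter.1 hp).2) z (10 * R0) (Real.sqrt z) hs1
  have e1 := h.trunc_small h1 h2 h3
  constructor
  · rw [abs_sub_comm]
    exact e0.1.trans e1
  · rw [abs_sub_comm]
    refine e0.2.trans ?_
    have e2 := log_pr_le W
    calc Real.log (pr ((Icc 1 W).filter Nat.Prime)) * _ ≤ (Hc : ℝ) * (1 / (Hc : ℝ) ^ 4) := by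
          apply mul_le_mul (e2.trans g3) e1 _ g1.le
          apply mul_nonneg (by positivity)
          apply Finset.prod_nonneg
          intro p _
          have a1 := xw_nonneg (w.1.primeFactors ∪ w.2.primeFactors) p
          have a2 : 0 ≤ bw z (Real.sqrt z) p := by unfold bw; split_ifs <;> linarith
          have := mul_nonneg a1 a2
          linarith
      _ = _ := by field_simp

lemma sm_eq (W : ℕ) (w : ℕ × ℕ) :
    (Icc 1 W).filter Nat.Prime ∩ (w.1.primeFactors ∪ w.2.primeFactors) = (PF w).filter (fun p => p ≤ W) := by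
  ext p
  unfold PF
  simp only [mem_inter, mem_filter, mem_Icc, mem_union]
  constructor
  · rintro ⟨⟨⟨_, a⟩, _⟩, b⟩; exact ⟨b, a⟩
  · rintro ⟨b, a⟩
    have hp : p.Prime := b.elim (fun h => Nat.prime_of_mem_primeFactors h)
      (fun h => Nat.prime_of_mem_primeFactors h)
    exact ⟨⟨⟨hp.one_lt.le, a⟩, hp⟩, b⟩

lemma PR_card_le (W y : ℕ) (w : ℕ × ℕ) :
    (PR W y ∩ (w.1.primeFactors ∪ w.2.primeFactors)).card ≤ ro W w := by
  apply card_le_card
  intro p hp
  rw [mem_inter, mem_PR] at hp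
  unfold PF
  rw [mem_filter]
  exact ⟨hp.2, hp.1.2.1⟩

lemma PI0_eq (W : ℕ) : PI0 ((Icc 1 W).filter Nat.Prime) = (PiQ (primorial W))⁻¹ := by
  unfold PI0 PiQ
  rw [primorial_pf, ← Finset.prod_inv_distrib]
  apply Finset.prod_congr rfl
  intro p _
  rw [inv_inv]

lemma sum_logp (W : ℕ) (hW : 1 ≤ W) : ∑ p ∈ (Icc 1 W).filter Nat.Prime, 2 * (Real.log p / p) ≤
    2 * (Real.log W * (1 + Real.log W)) := by
  have hlW : 0 ≤ Real.log W := Real.log_nonneg (by exact_mod_cast hW)
  have h1 : ∀ p ∈ (Icc 1 W).filter Nat.Prime, 2 * (Real.log p / p) ≤ 2 * Real.log W * (1 / (p : ℝ)) := by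
    intro p hp
    rw [mem_filter, mem_Icc] at hp
    have hp0 : (0 : ℝ) < p := by exact_mod_cast hp.2.pos
    have : Real.log p ≤ Real.log W := Real.log_le_log hp0 (by exact_mod_cast hp.1.2)
    calc 2 * (Real.log p / p) = 2 * Real.log p * (1 / (p : ℝ)) := by ring
      _ ≤ _ := by
        apply mul_le_mul_of_nonneg_right _ (by positivity)
        linarith
  refine (Finset.sum_le_sum h1).trans ?_
  rw [← Finset.mul_sum]
  have h4 : ∑ p ∈ (Icc 1 W).filter Nat.Prime, 1 / (p : ℝ) ≤ 1 + Real.log W := by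
    have h6 : ∑ i ∈ Icc 1 W, 1 / (i : ℝ) = (harmonic W : ℝ) := by
      rw [harmonic_eq_sum_Icc]
      push_cast
      exact Finset.sum_congr rfl fun i _ => by rw [one_div]
    refine le_trans ?_ (harmonic_le_one_add_log W)
    rw [← h6]
    exact Finset.sum_le_sum_of_subset_of_nonneg (filter_subset _ _) (fun i _ _ => by positivity)
  calc 2 * Real.log W * ∑ p ∈ (Icc 1 W).filter Nat.Prime, 1 / (p : ℝ) ≤
      2 * Real.log W * (1 + Real.log W) := mul_le_mul_of_nonneg_left h4 (by positivity)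
    _ = _ := by ring

lemma Sz2.logWsmall (h : Sz2 q z W R0 Hc ϱ C) : 4 * (Real.log W * (1 + Real.log W)) ≤ Real.log q := by
  have hz := h.zR
  have h0 : (0 : ℝ) < z := by linarith
  have hs : 0 < Real.sqrt (z : ℝ) := Real.sqrt_pos.2 h0
  have h1 := h.logW2
  have h2 := h.logz
  have h3 := h.toSz.logW
  have h4 : Real.log W ≤ 1200 * Real.sqrt z := by linarith
  have h5 : 0 ≤ 1 + Real.log W := by rw [h3]; have := h.toSz.lz; linarith
  calc 4 * (Real.log W * (1 + Real.log W)) ≤ 4 * ((1200 * Real.sqrt z) * (1 + Real.log W)) := by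
        apply mul_le_mul_of_nonneg_left _ (by norm_num)
        exact mul_le_mul_of_nonneg_right h4 h5
    _ = 4800 * (Real.sqrt z * (1 + Real.log W)) := by ring
    _ ≤ 4800 * (1203 * z) := mul_le_mul_of_nonneg_left h1 (by norm_num)
    _ ≤ (z : ℝ) ^ 3 := by nlinarith [mul_pos h0 h0]
    _ ≤ Real.log q := h.toSz.z3

end

end Pool.Agent.V8H32.NV
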